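import Mathlib

set_option autoImplicit false

namespace Pool.Agent.LibHelper41

open MeasureTheory Metric Set Filter Topology Complex
open scoped Real

/-- the Wirtinger derivative `∂F/∂z̄` -/
noncomputable def dbar (F : ℂ → ℂ) (z : ℂ) : ℂ :=
  (fderiv ℝ F z 1 + I * fderiv ℝ F z I) / 2

/-- the Wirtinger derivative `∂F/∂z` -/
noncomputable def dz (F : ℂ → ℂ) (z : ℂ) : ℂ :=
  (fderiv ℝ F z 1 - I * fderiv ℝ F z I) / 2

theorem real_linear_expand (L : ℂ →L[ℝ] ℂ) (h : ℂ) : L h = h.re * L 1 + h.im * L I := by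
  have : h = h.re • (1 : ℂ) + h.im • I := by
    simp [Complex.re_add_im]
  conv_lhs => rw [this]
  rw [map_add, map_smul, map_smul]
  simp

/-- the unit vector -/
noncomputable def uv (θ : ℝ) : ℂ := ⟨Real.cos θ, Real.sin θ⟩

theorem uv_eq (θ : ℝ) : uv θ = (Real.cos θ : ℂ) + (Real.sin θ : ℂ) * I :=
  Complex.mk_eq_add_mul_I _ _

theorem norm_uv (θ : ℝ) : ‖uv θ‖ = 1 := by
  rw [uv_eq]
  have : ((Real.cos θ : ℝ) : ℂ) + ((Real.sin θ : ℝ) : ℂ) * I = Complex.exp (θ * I) := by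
    rw [Complex.exp_mul_I, Complex.ofReal_cos, Complex.ofReal_sin]
  rw [this, Complex.norm_exp_ofReal_mul_I]

theorem uv_ne_zero (θ : ℝ) : uv θ ≠ 0 := by
  intro h
  have := norm_uv θ
  rw [h, norm_zero] at this
  exact zero_ne_one this

theorem continuous_uv : Continuous uv := by
  have : uv = fun θ => (Real.cos θ : ℂ) + (Real.sin θ : ℂ) * I := funext uv_eq
  rw [this]
  fun_prop

theorem hasDerivAt_uv (θ : ℝ) : HasDerivAt uv (I * uv θ) θ := by
  have h1 : HasDerivAt (fun t : ℝ => ((Real.cos t : ℝ) : ℂ)) ((-Real.sin θ : ℝ) : ℂ) θ :=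
    (Real.hasDerivAt_cos θ).ofReal_comp
  have h2 : HasDerivAt (fun t : ℝ => ((Real.sin t : ℝ) : ℂ)) ((Real.cos θ : ℝ) : ℂ) θ :=
    (Real.hasDerivAt_sin θ).ofReal_comp
  have h3 := h1.add (h2.mul_const I)
  have h4 : uv = fun θ => (Real.cos θ : ℂ) + (Real.sin θ : ℂ) * I := funext uv_eq
  rw [h4]
  refine h3.congr_deriv ?_
  push_cast
  linear_combination (-(Complex.sin θ)) * Complex.I_sq

theorem dbar_polar (F : ℂ → ℂ) (z : ℂ) (θ : ℝ) :
    dbar F z / uv θ = (fderiv ℝ F z (uv θ) + I * fderiv ℝ F z (I * uv θ)) / 2 := by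
  set L := fderiv ℝ F z with hL
  unfold dbar
  rw [← hL, real_linear_expand L (uv θ), real_linear_expand L (I * uv θ)]
  have hne := uv_ne_zero θ
  have e1 : (uv θ).re = Real.cos θ := rfl
  have e2 : (uv θ).im = Real.sin θ := rfl
  have e3 : (I * uv θ).re = -Real.sin θ := by
    rw [Complex.mul_re, e1, e2]; simp
  have e4 : (I * uv θ).im = Real.cos θ := by
    rw [Complex.mul_im, e1, e2]; simp
  rw [e1, e2, e3, e4]
  have key : (L 1 + I * L I) = uv θ * ((Real.cos θ : ℂ) * L 1 + (Real.sin θ : ℂ) * L I +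
      I * (((-Real.sin θ : ℝ) : ℂ) * L 1 + (Real.cos θ : ℂ) * L I)) := by
    rw [uv_eq]
    push_cast
    have h1 := Complex.sin_sq_add_cos_sq (θ : ℂ)
    have h2 := Complex.I_sq
    linear_combination (-(L 1 + I * L I)) * h1 + ((Complex.sin θ) ^ 2 * L 1 -
      Complex.cos θ * Complex.sin θ * L I) * h2
  rw [key]
  field_simp

theorem hasDerivAt_radial {F : ℂ → ℂ} (hF : ContDiff ℝ 1 F) (z : ℂ) (ρ θ : ℝ) :
    HasDerivAt (fun r : ℝ => F (z + r * uv θ)) (fderiv ℝ F (z + ρ * uv θ) (uv θ)) ρ := by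
  have h1 : HasFDerivAt F (fderiv ℝ F (z + ρ * uv θ)) (z + ρ * uv θ) :=
    (hF.differentiable one_ne_zero _).hasFDerivAt
  have h2 : HasDerivAt (fun r : ℝ => z + (r : ℂ) * uv θ) (uv θ) ρ := by
    have h3 : HasDerivAt (fun r : ℝ => (r : ℂ)) 1 ρ := Complex.ofRealCLM.hasDerivAt
    simpa using (h3.mul_const (uv θ)).const_add z
  exact h1.comp_hasDerivAt ρ h2

theorem hasDerivAt_angular {F : ℂ → ℂ} (hF : ContDiff ℝ 1 F) (z : ℂ) (ρ θ : ℝ) :
    HasDerivAt (fun t : ℝ => F (z + ρ * uv t))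
      (ρ * fderiv ℝ F (z + ρ * uv θ) (I * uv θ)) θ := by
  have h1 : HasFDerivAt F (fderiv ℝ F (z + ρ * uv θ)) (z + ρ * uv θ) :=
    (hF.differentiable one_ne_zero _).hasFDerivAt
  have h2 : HasDerivAt (fun t : ℝ => z + (ρ : ℂ) * uv t) (ρ * (I * uv θ)) θ := by
    simpa using ((hasDerivAt_uv θ).const_mul (ρ : ℂ)).const_add z
  have h3 := h1.comp_hasDerivAt θ h2
  refine h3.congr_deriv ?_
  have : (ρ : ℂ) * (I * uv θ) = ρ • (I * uv θ) := by simp
  rw [this, map_smul]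
  simp

theorem uv_pi : uv π = uv (-π) := by
  simp [uv]

/-- the Pompeiu formula -/
theorem pompeiu {F : ℂ → ℂ} (hF : ContDiff ℝ 1 F) (hc : HasCompactSupport F) (z : ℂ) :
    ∫ ζ, dbar F (z + ζ) / ζ = -(π * F z) := by
  have hfd : Continuous (fderiv ℝ F) := hF.continuous_fderiv one_ne_zero
  -- a radius beyond which everything vanishes
  obtain ⟨R, hR0, hR⟩ : ∃ R : ℝ, 0 < R ∧ ∀ ζ : ℂ, R ≤ ‖ζ‖ → F (z + ζ) = 0 ∧
      fderiv ℝ F (z + ζ) = 0 := by
    obtain ⟨M, hM⟩ := hc.isCompact.isBounded.exists_norm_le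
    refine ⟨|M| + ‖z‖ + 1, by positivity, fun ζ hζ => ?_⟩
    have hnot : z + ζ ∉ tsupport F := by
      intro h
      have h1 := hM _ h
      have h2 : ‖ζ‖ ≤ ‖z + ζ‖ + ‖z‖ := by
        calc ‖ζ‖ = ‖(z + ζ) - z‖ := by ring_nf
          _ ≤ _ := norm_sub_le _ _
      linarith [le_abs_self M]
    refine ⟨image_eq_zero_of_notMem_tsupport hnot, ?_⟩
    have := (tsupport_fderiv_subset ℝ (f := F)).trans subset_rfl
    exact image_eq_zero_of_notMem_tsupport (fun h => hnot (this h))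
  set A : ℝ → ℝ → ℂ := fun ρ θ => fderiv ℝ F (z + ρ * uv θ) (uv θ) with hA
  set B : ℝ → ℝ → ℂ := fun ρ θ => fderiv ℝ F (z + ρ * uv θ) (I * uv θ) with hB
  set H : ℝ × ℝ → ℂ := fun p => (A p.1 p.2 + I * B p.1 p.2) / 2 with hH
  have hAc : Continuous (fun p : ℝ × ℝ => A p.1 p.2) := by
    simp only [hA]
    exact (hfd.comp (continuous_const.add ((continuous_ofReal.comp continuous_fst).mul
      (continuous_uv.comp continuous_snd)))).clm_apply (continuous_uv.comp continuous_snd)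
  have hBc : Continuous (fun p : ℝ × ℝ => B p.1 p.2) := by
    simp only [hB]
    exact (hfd.comp (continuous_const.add ((continuous_ofReal.comp continuous_fst).mul
      (continuous_uv.comp continuous_snd)))).clm_apply
      (continuous_const.mul (continuous_uv.comp continuous_snd))
  have hHc : Continuous H := (hAc.add (continuous_const.mul hBc)).div_const 2
  have hS : IsCompact (Icc 0 R ×ˢ Icc (-π) π : Set (ℝ × ℝ)) := isCompact_Icc.prod isCompact_Icc
  have hsub : (Ioc 0 R ×ˢ Ioo (-π) π : Set (ℝ × ℝ)) ⊆ Icc 0 R ×ˢ Icc (-π) π :=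
    prod_mono Ioc_subset_Icc_self Ioo_subset_Icc_self
  have hint : ∀ G : ℝ × ℝ → ℂ, Continuous G →
      IntegrableOn G (Ioc 0 R ×ˢ Ioo (-π) π) (volume.prod volume) := fun G hG =>
    (hG.continuousOn.integrableOn_compact hS).mono_set hsub
  -- step 1: polar coordinates
  have s1 : ∫ ζ, dbar F (z + ζ) / ζ = ∫ p in Ioi (0 : ℝ) ×ˢ Ioo (-π) π, H p := by
    rw [← Complex.integral_comp_polarCoord_symm]
    refine setIntegral_congr_fun (measurableSet_Ioi.prod measurableSet_Ioo) (fun p hp => ?_)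
    have hp1 : 0 < p.1 := hp.1
    have hp1' : (p.1 : ℂ) ≠ 0 := by exact_mod_cast hp1.ne'
    have e1 : Complex.polarCoord.symm p = p.1 * uv p.2 := by
      rw [Complex.polarCoord_symm_apply, uv_eq]
    simp only [e1, hH, hA, hB]
    rw [← dbar_polar F _ p.2, Complex.real_smul]
    have := uv_ne_zero p.2
    field_simp
  -- step 2: truncate
  have s2 : ∫ p in Ioi (0 : ℝ) ×ˢ Ioo (-π) π, H p = ∫ p in Ioc (0 : ℝ) R ×ˢ Ioo (-π) π, H p := by
    refine setIntegral_eq_of_subset_of_forall_sdiff_eq_zero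
      (measurableSet_Ioi.prod measurableSet_Ioo)
      (Set.prod_mono Ioc_subset_Ioi_self subset_rfl) ?_
    rintro p ⟨⟨hp1, hp2⟩, hp3⟩
    have hp1 : 0 < p.1 := hp1
    have hp4 : R < p.1 := by
      by_contra h
      push Not at h
      exact hp3 ⟨⟨hp1, h⟩, hp2⟩
    have hn : ‖(p.1 : ℂ) * uv p.2‖ = p.1 := by
      rw [norm_mul, norm_uv, mul_one, Complex.norm_real, Real.norm_eq_abs, abs_of_pos hp1]
    have := (hR (p.1 * uv p.2) (by rw [hn]; exact hp4.le)).2
    simp only [hH, hA, hB, this]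
    simp
  -- step 3: iterated integral
  have s3 : ∫ p in Ioc (0 : ℝ) R ×ˢ Ioo (-π) π, H p =
      ∫ ρ in Ioc (0 : ℝ) R, ∫ θ in Ioo (-π) π, H (ρ, θ) := by
    exact setIntegral_prod _ (hint H hHc)
  have s4 : ∀ ρ ∈ Ioc (0 : ℝ) R, ∫ θ in Ioo (-π) π, H (ρ, θ) =
      (1 / 2) * ∫ θ in Ioo (-π) π, A ρ θ := by
    intro ρ hρ
    have hρ0 : (ρ : ℂ) ≠ 0 := by exact_mod_cast hρ.1.ne'
    have hcA : Continuous (fun θ => A ρ θ) := hAc.comp (Continuous.prodMk_right ρ)
    have hcB : Continuous (fun θ => B ρ θ) := hBc.comp (Continuous.prodMk_right ρ)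
    have iA : IntegrableOn (fun θ => A ρ θ) (Ioo (-π) π) :=
      (hcA.continuousOn.integrableOn_compact isCompact_Icc).mono_set Ioo_subset_Icc_self
    have iB : IntegrableOn (fun θ => B ρ θ) (Ioo (-π) π) :=
      (hcB.continuousOn.integrableOn_compact isCompact_Icc).mono_set Ioo_subset_Icc_self
    have hB0 : ∫ θ in Ioo (-π) π, B ρ θ = 0 := by
      have h1 : ∫ θ in (-π)..π, (ρ : ℂ) * B ρ θ = F (z + ρ * uv π) - F (z + ρ * uv (-π)) := by
        refine intervalIntegral.integral_eq_sub_of_hasDerivAt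
          (fun θ _ => hasDerivAt_angular hF z ρ θ) ?_
        exact (continuous_const.mul hcB).intervalIntegrable _ _
      rw [uv_pi, sub_self, intervalIntegral.integral_const_mul] at h1
      rw [← integral_Ioc_eq_integral_Ioo,
        ← intervalIntegral.integral_of_le (by linarith [Real.pi_pos])]
      exact (mul_eq_zero.1 h1).resolve_left hρ0
    have h2 : ∀ θ, H (ρ, θ) = (1 / 2) * A ρ θ + (I / 2) * B ρ θ := by
      intro θ
      simp only [hH]
      ring
    simp only [h2]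
    rw [integral_add (iA.const_mul _) (iB.const_mul _), integral_const_mul, integral_const_mul,
      hB0, mul_zero, add_zero]
  have s5 : ∫ ρ in Ioc (0 : ℝ) R, ∫ θ in Ioo (-π) π, H (ρ, θ) =
      (1 / 2) * ∫ ρ in Ioc (0 : ℝ) R, ∫ θ in Ioo (-π) π, A ρ θ := by
    rw [← integral_const_mul]
    exact setIntegral_congr_fun measurableSet_Ioc s4
  have s6 : ∫ ρ in Ioc (0 : ℝ) R, ∫ θ in Ioo (-π) π, A ρ θ =
      ∫ θ in Ioo (-π) π, ∫ ρ in Ioc (0 : ℝ) R, A ρ θ := by
    refine integral_integral_swap ?_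
    have := hint _ hAc
    rw [IntegrableOn, ← Measure.prod_restrict] at this
    exact this
  have s7 : ∀ θ ∈ Ioo (-π) π, ∫ ρ in Ioc (0 : ℝ) R, A ρ θ = - F z := by
    intro θ _
    rw [← intervalIntegral.integral_of_le hR0.le]
    have hcA : Continuous (fun ρ => A ρ θ) := hAc.comp (Continuous.prodMk_left θ)
    rw [intervalIntegral.integral_eq_sub_of_hasDerivAt
      (fun ρ _ => hasDerivAt_radial hF z ρ θ) (hcA.intervalIntegrable _ _)]
    have hn : ‖(R : ℂ) * uv θ‖ = R := by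
      rw [norm_mul, norm_uv, mul_one, Complex.norm_real, Real.norm_eq_abs, abs_of_pos hR0]
    rw [(hR (R * uv θ) (by rw [hn])).1]
    simp
  rw [s1, s2, s3, s5, s6, setIntegral_congr_fun measurableSet_Ioo s7]
  simp only [integral_const, MeasurableSet.univ, measureReal_restrict_apply, univ_inter,
    Real.volume_real_Ioo, Complex.real_smul]
  rw [max_eq_left (by linarith [Real.pi_pos])]
  push_cast
  ring

end Pool.Agent.LibHelper41
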