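import Pool.Agent.Lib_helper41.AppClosure

set_option autoImplicit false

namespace Pool.Agent.LibHelper41

open Polynomial Metric Set Filter Topology
open scoped NNReal ENNReal

/-- a function holomorphic in the unit disc is approximated by polynomials, together with its
derivative, on smaller discs -/
theorem exists_poly_approx (φ : ℂ → ℂ) (hφ : DifferentiableOn ℂ φ (ball 0 1)) (ρ : ℝ)
    (hρ : ρ < 1) (ε : ℝ) (hε : 0 < ε) :
    ∃ p : Polynomial ℂ, ∀ y : ℂ, ‖y‖ ≤ ρ →
      ‖p.eval y - φ y‖ ≤ ε ∧ ‖p.derivative.eval y - deriv φ y‖ ≤ ε := by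
  rcases lt_or_ge ρ 0 with hρ0 | hρ0
  · exact ⟨0, fun y hy => absurd hy (not_le.2 (lt_of_lt_of_le hρ0 (norm_nonneg y)))⟩
  obtain ⟨R, hR1, hR2⟩ := exists_between hρ
  have hR0 : 0 < R := lt_of_le_of_lt hρ0 hR1
  lift R to ℝ≥0 using hR0.le
  have hps : HasFPowerSeriesOnBall φ (cauchyPowerSeries φ 0 R) 0 R :=
    (hφ.mono (closedBall_subset_ball hR2)).hasFPowerSeriesOnBall (by exact_mod_cast hR0)
  set P := cauchyPowerSeries φ 0 (R : ℝ) with hP
  have hlim : TendstoLocallyUniformlyOn (fun n y => P.partialSum n (y - 0)) φ atTop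
      (eball (0 : ℂ) R) := hps.tendstoLocallyUniformlyOn'
  have hball : eball (0 : ℂ) (R : ℝ≥0∞) = ball 0 (R : ℝ) := by
    rw [Metric.eball_coe]
  rw [hball] at hlim
  -- the polynomials
  let p : ℕ → Polynomial ℂ := fun n => ∑ k ∈ Finset.range n, Polynomial.C (P.coeff k) * X ^ k
  have hp : ∀ n y, P.partialSum n (y - 0) = (p n).eval y := by
    intro n y
    rw [sub_zero]
    simp only [p, FormalMultilinearSeries.partialSum, eval_finsetSum, eval_mul, eval_C, eval_pow,
      eval_X]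
    refine Finset.sum_congr rfl (fun k _ => ?_)
    rw [FormalMultilinearSeries.apply_eq_pow_smul_coeff, smul_eq_mul, mul_comm]
  have hlim2 : TendstoLocallyUniformlyOn (fun n y => (p n).eval y) φ atTop (ball (0 : ℂ) R) := by
    refine hlim.congr (fun n y _ => ?_)
    exact hp n y
  have hder := hlim2.deriv (Eventually.of_forall (fun n => (p n).differentiable.differentiableOn))
    isOpen_ball
  have hK : IsCompact (closedBall (0 : ℂ) ρ) := isCompact_closedBall _ _
  have hsub : closedBall (0 : ℂ) ρ ⊆ ball 0 R := closedBall_subset_ball hR1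
  have u1 := (tendstoLocallyUniformlyOn_iff_forall_isCompact isOpen_ball).1 hlim2 _ hsub hK
  have u2 := (tendstoLocallyUniformlyOn_iff_forall_isCompact isOpen_ball).1 hder _ hsub hK
  rw [Metric.tendstoUniformlyOn_iff] at u1 u2
  obtain ⟨n, hn1, hn2⟩ := ((u1 ε hε).and (u2 ε hε)).exists
  refine ⟨p n, fun y hy => ?_⟩
  have hy' : y ∈ closedBall (0 : ℂ) ρ := by simpa using hy
  have e1 := hn1 y hy'
  have e2 := hn2 y hy'
  rw [dist_comm, dist_eq_norm] at e1 e2
  refine ⟨e1.le, ?_⟩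
  simp only [Function.comp] at e2
  have hd : deriv (fun y => (p n).eval y) y = (p n).derivative.eval y := Polynomial.deriv _
  rw [hd] at e2
  exact e2.le

theorem App.comp_analytic {X : Set ℂ} {g g₁ : ℂ → ℂ} (hX : IsCompact X) (h : App X g g₁)
    (φ : ℂ → ℂ) (hφ : DifferentiableOn ℂ φ (ball 0 1)) (ρ : ℝ) (hρ : ρ < 1)
    (hg : ∀ z ∈ X, ‖g z‖ ≤ ρ) :
    App X (fun z => φ (g z)) (fun z => deriv φ (g z) * g₁ z) := by
  obtain ⟨M, hM0, hM⟩ := h.bounded hX
  apply App.closure
  intro ε hε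
  set δ := ε / (M + 1) with hδ
  have hδ0 : 0 < δ := by positivity
  obtain ⟨p, hp⟩ := exists_poly_approx φ hφ ρ hρ δ hδ0
  refine ⟨_, _, h.poly_comp hX p, fun z hz => ⟨?_, ?_⟩⟩
  · refine (hp _ (hg z hz)).1.trans ?_
    rw [hδ]
    exact div_le_self hε.le (by linarith)
  · rw [← sub_mul, norm_mul]
    calc ‖p.derivative.eval (g z) - deriv φ (g z)‖ * ‖g₁ z‖ ≤ δ * M := by
          gcongr
          · exact (hp _ (hg z hz)).2
          · exact (hM z hz).2
      _ ≤ δ * (M + 1) := by gcongr; linarith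
      _ = ε := by rw [hδ]; field_simp

end Pool.Agent.LibHelper41
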