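import Mathlib

set_option autoImplicit false

namespace Pool.Agent.LibHelper41

open Polynomial Metric Set Filter Topology

/-- `App X f g`: the pair `(f, g)` is a uniform limit on `X` of pairs `(p, p')`,
`p` a polynomial. -/
def App (X : Set ℂ) (f g : ℂ → ℂ) : Prop :=
  ∀ ε : ℝ, 0 < ε → ∃ p : Polynomial ℂ, ∀ z ∈ X,
    ‖p.eval z - f z‖ ≤ ε ∧ ‖p.derivative.eval z - g z‖ ≤ ε

variable {X : Set ℂ} {f g f₂ g₂ : ℂ → ℂ}

theorem App.congr (h : App X f g) (hf : ∀ z ∈ X, f z = f₂ z) (hg : ∀ z ∈ X, g z = g₂ z) :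
    App X f₂ g₂ := by
  intro ε hε
  obtain ⟨p, hp⟩ := h ε hε
  exact ⟨p, fun z hz => by rw [← hf z hz, ← hg z hz]; exact hp z hz⟩

theorem App.poly (p : Polynomial ℂ) : App X (fun z => p.eval z) (fun z => p.derivative.eval z) := by
  intro ε hε
  refine ⟨p, fun z _ => ?_⟩
  simp only [sub_self, norm_zero]
  exact ⟨hε.le, hε.le⟩

theorem App.const (c : ℂ) : App X (fun _ => c) (fun _ => 0) := by
  refine (App.poly (X := X) (C c)).congr (fun z _ => ?_) (fun z _ => ?_) <;> simp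

theorem App.id : App X (fun z => z) (fun _ => 1) := by
  refine (App.poly (X := X) Polynomial.X).congr (fun z _ => ?_) (fun z _ => ?_) <;> simp

theorem App.closure (h : ∀ ε : ℝ, 0 < ε → ∃ f₂ g₂, App X f₂ g₂ ∧
    ∀ z ∈ X, ‖f₂ z - f z‖ ≤ ε ∧ ‖g₂ z - g z‖ ≤ ε) : App X f g := by
  intro ε hε
  obtain ⟨f₂, g₂, h1, h2⟩ := h (ε / 2) (by positivity)
  obtain ⟨p, hp⟩ := h1 (ε / 2) (by positivity)
  refine ⟨p, fun z hz => ⟨?_, ?_⟩⟩
  · calc ‖p.eval z - f z‖ = ‖(p.eval z - f₂ z) + (f₂ z - f z)‖ := by ring_nf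
      _ ≤ ‖p.eval z - f₂ z‖ + ‖f₂ z - f z‖ := norm_add_le _ _
      _ ≤ ε := by linarith [(hp z hz).1, (h2 z hz).1]
  · calc ‖p.derivative.eval z - g z‖ = ‖(p.derivative.eval z - g₂ z) + (g₂ z - g z)‖ := by ring_nf
      _ ≤ ‖p.derivative.eval z - g₂ z‖ + ‖g₂ z - g z‖ := norm_add_le _ _
      _ ≤ ε := by linarith [(hp z hz).2, (h2 z hz).2]

theorem App.add (h : App X f g) (h₂ : App X f₂ g₂) :
    App X (fun z => f z + f₂ z) (fun z => g z + g₂ z) := by
  intro ε hε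
  obtain ⟨p, hp⟩ := h (ε / 2) (by positivity)
  obtain ⟨q, hq⟩ := h₂ (ε / 2) (by positivity)
  refine ⟨p + q, fun z hz => ⟨?_, ?_⟩⟩
  · rw [eval_add]
    calc ‖p.eval z + q.eval z - (f z + f₂ z)‖ = ‖(p.eval z - f z) + (q.eval z - f₂ z)‖ := by
          ring_nf
      _ ≤ ‖p.eval z - f z‖ + ‖q.eval z - f₂ z‖ := norm_add_le _ _
      _ ≤ ε := by linarith [(hp z hz).1, (hq z hz).1]
  · rw [derivative_add, eval_add]
    calc ‖p.derivative.eval z + q.derivative.eval z - (g z + g₂ z)‖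
        = ‖(p.derivative.eval z - g z) + (q.derivative.eval z - g₂ z)‖ := by ring_nf
      _ ≤ ‖p.derivative.eval z - g z‖ + ‖q.derivative.eval z - g₂ z‖ := norm_add_le _ _
      _ ≤ ε := by linarith [(hp z hz).2, (hq z hz).2]

theorem App.bounded (hX : IsCompact X) (h : App X f g) :
    ∃ M : ℝ, 0 < M ∧ ∀ z ∈ X, ‖f z‖ ≤ M ∧ ‖g z‖ ≤ M := by
  obtain ⟨p, hp⟩ := h 1 one_pos
  obtain ⟨M₁, hM₁⟩ := hX.exists_bound_of_continuousOn (f := fun z => p.eval z)
    p.continuous.continuousOn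
  obtain ⟨M₂, hM₂⟩ := hX.exists_bound_of_continuousOn (f := fun z => p.derivative.eval z)
    p.derivative.continuous.continuousOn
  refine ⟨|M₁| + |M₂| + 1, by positivity, fun z hz => ⟨?_, ?_⟩⟩
  · have h1 : ‖f z‖ ≤ ‖p.eval z‖ + ‖p.eval z - f z‖ := by
      calc ‖f z‖ = ‖p.eval z - (p.eval z - f z)‖ := by ring_nf
        _ ≤ _ := norm_sub_le _ _
    linarith [(hp z hz).1, hM₁ z hz, le_abs_self M₁, abs_nonneg M₂]
  · have h1 : ‖g z‖ ≤ ‖p.derivative.eval z‖ + ‖p.derivative.eval z - g z‖ := by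
      calc ‖g z‖ = ‖p.derivative.eval z - (p.derivative.eval z - g z)‖ := by ring_nf
        _ ≤ _ := norm_sub_le _ _
    linarith [(hp z hz).2, hM₂ z hz, le_abs_self M₂, abs_nonneg M₁]

theorem App.mul (hX : IsCompact X) (h : App X f g) (h₂ : App X f₂ g₂) :
    App X (fun z => f z * f₂ z) (fun z => g z * f₂ z + f z * g₂ z) := by
  obtain ⟨M, hM0, hM⟩ := h.bounded hX
  obtain ⟨M₂, hM₂0, hM₂⟩ := h₂.bounded hX
  intro ε hε
  -- choose δ ≤ 1 with δ (M + M₂ + 1) * 2 ≤ ε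
  set δ : ℝ := min 1 (ε / (2 * (M + M₂ + 1))) with hδ
  have hδ0 : 0 < δ := by
    apply lt_min one_pos
    positivity
  have hδ1 : δ ≤ 1 := min_le_left _ _
  have hδ2 : δ * (2 * (M + M₂ + 1)) ≤ ε := by
    have : δ ≤ ε / (2 * (M + M₂ + 1)) := min_le_right _ _
    rwa [le_div_iff₀ (by positivity)] at this
  obtain ⟨p, hp⟩ := h δ hδ0
  obtain ⟨q, hq⟩ := h₂ δ hδ0
  have key : ∀ a b a' b' : ℂ, ∀ A B : ℝ, ‖a‖ ≤ A → ‖b‖ ≤ B → ‖a' - a‖ ≤ δ → ‖b' - b‖ ≤ δ →
      ‖a' * b' - a * b‖ ≤ δ * (A + B + 1) := by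
    intro a b a' b' A B ha hb ha' hb'
    have hA : 0 ≤ A := (norm_nonneg _).trans ha
    have hB : 0 ≤ B := (norm_nonneg _).trans hb
    calc ‖a' * b' - a * b‖ = ‖(a' - a) * (b' - b) + (a' - a) * b + a * (b' - b)‖ := by ring_nf
      _ ≤ ‖(a' - a) * (b' - b)‖ + ‖(a' - a) * b‖ + ‖a * (b' - b)‖ := norm_add₃_le
      _ = ‖a' - a‖ * ‖b' - b‖ + ‖a' - a‖ * ‖b‖ + ‖a‖ * ‖b' - b‖ := by
          rw [norm_mul, norm_mul, norm_mul]
      _ ≤ δ * δ + δ * B + A * δ := by gcongr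
      _ ≤ δ * 1 + δ * B + A * δ := by gcongr
      _ = δ * (A + B + 1) := by ring
  refine ⟨p * q, fun z hz => ⟨?_, ?_⟩⟩
  · rw [eval_mul]
    have := key _ _ _ _ M M₂ (hM z hz).1 (hM₂ z hz).1 (hp z hz).1 (hq z hz).1
    have h3 : δ * (M + M₂ + 1) ≤ δ * (2 * (M + M₂ + 1)) := by nlinarith
    linarith
  · rw [derivative_mul, eval_add, eval_mul, eval_mul]
    have h1 := key _ _ _ _ M M₂ (hM z hz).2 (hM₂ z hz).1 (hp z hz).2 (hq z hz).1
    have h2 := key _ _ _ _ M M₂ (hM z hz).1 (hM₂ z hz).2 (hp z hz).1 (hq z hz).2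
    calc ‖p.derivative.eval z * q.eval z + p.eval z * q.derivative.eval z -
          (g z * f₂ z + f z * g₂ z)‖
        = ‖(p.derivative.eval z * q.eval z - g z * f₂ z) +
          (p.eval z * q.derivative.eval z - f z * g₂ z)‖ := by ring_nf
      _ ≤ _ := norm_add_le _ _
      _ ≤ δ * (2 * (M + M₂ + 1)) := by linarith
      _ ≤ ε := hδ2

theorem App.const_mul (hX : IsCompact X) (c : ℂ) (h : App X f g) :
    App X (fun z => c * f z) (fun z => c * g z) := by
  refine (App.mul hX (App.const c) h).congr (fun z _ => rfl) (fun z _ => ?_)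
  simp

theorem App.sub (hX : IsCompact X) (h : App X f g) (h₂ : App X f₂ g₂) :
    App X (fun z => f z - f₂ z) (fun z => g z - g₂ z) := by
  refine (h.add (h₂.const_mul hX (-1))).congr (fun z _ => ?_) (fun z _ => ?_) <;> ring

theorem App.pow (hX : IsCompact X) (h : App X f g) (n : ℕ) :
    App X (fun z => f z ^ n) (fun z => n * f z ^ (n - 1) * g z) := by
  induction n with
  | zero => refine (App.const 1).congr (fun z _ => ?_) (fun z _ => ?_) <;> simp
  | succ n ih =>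
    refine (ih.mul hX h).congr (fun z _ => ?_) (fun z _ => ?_)
    · ring
    · rcases n with _ | n
      · simp
      · simp only [Nat.add_sub_cancel]
        push_cast
        ring

theorem App.sum {ι : Type*} (s : Finset ι) (F G : ι → ℂ → ℂ) (h : ∀ i ∈ s, App X (F i) (G i)) :
    App X (fun z => ∑ i ∈ s, F i z) (fun z => ∑ i ∈ s, G i z) := by
  classical
  induction s using Finset.induction_on with
  | empty => simpa using App.const (X := X) 0
  | insert a s ha ih =>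
    refine ((h a (Finset.mem_insert_self a s)).add
      (ih (fun i hi => h i (Finset.mem_insert_of_mem hi)))).congr (fun z _ => ?_) (fun z _ => ?_)
    · rw [Finset.sum_insert ha]
    · rw [Finset.sum_insert ha]

theorem App.poly_comp (hX : IsCompact X) (h : App X f g) (p : Polynomial ℂ) :
    App X (fun z => p.eval (f z)) (fun z => p.derivative.eval (f z) * g z) := by
  induction p using Polynomial.induction_on' with
  | add p q hp hq =>
    refine (hp.add hq).congr (fun z _ => ?_) (fun z _ => ?_)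
    · simp
    · simp; ring
  | monomial n a =>
    refine ((h.pow hX n).const_mul hX a).congr (fun z _ => ?_) (fun z _ => ?_)
    · simp
    · simp [derivative_monomial]; ring

end Pool.Agent.LibHelper41
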