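import Pool.Agent.Lib_helper41.AppAnalytic

set_option autoImplicit false

namespace Pool.Agent.LibHelper41

open Polynomial Metric Set Filter Topology

variable {X : Set ℂ}

theorem geom_differentiableOn : DifferentiableOn ℂ (fun y : ℂ => (1 - y)⁻¹) (ball 0 1) := by
  intro y hy
  have : (1 : ℂ) - y ≠ 0 := by
    intro h
    have h1 : y = 1 := by linear_combination -h
    rw [h1] at hy
    simp at hy
  exact ((differentiableAt_const _).sub differentiableAt_id).inv this |>.differentiableWithinAt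

theorem deriv_geom (y : ℂ) (hy : (1 : ℂ) - y ≠ 0) :
    deriv (fun y : ℂ => (1 - y)⁻¹) y = ((1 - y)⁻¹) ^ 2 := by
  have h : HasDerivAt (fun y : ℂ => (1 - y)⁻¹) (-(0 - 1) / (1 - y) ^ 2) y :=
    (((hasDerivAt_const y (1 : ℂ)).sub (hasDerivAt_id y)).inv hy)
  rw [h.deriv]
  field_simp
  ring

/-- moving a pole a little -/
theorem App.inv_move (hX : IsCompact X) {a b : ℂ} (hb : ∀ z ∈ X, z ≠ a)
    (hab : ∀ z ∈ X, ‖b - a‖ ≤ (1 / 2) * ‖z - a‖)
    (h : App X (fun z => (z - a)⁻¹) (fun z => -((z - a)⁻¹) ^ 2)) :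
    App X (fun z => (z - b)⁻¹) (fun z => -((z - b)⁻¹) ^ 2) := by
  have h1 := h.const_mul hX (b - a)
  have h2 := h1.comp_analytic hX _ geom_differentiableOn (1 / 2) (by norm_num) (by
    intro z hz
    have h0 : 0 < ‖z - a‖ := norm_pos_iff.2 (sub_ne_zero.2 (hb z hz))
    rw [norm_mul, norm_inv]
    have := hab z hz
    rw [← div_eq_mul_inv, div_le_iff₀ h0]
    exact this)
  refine (h.mul hX h2).congr (fun z hz => ?_) (fun z hz => ?_)
  · have h0 : z - a ≠ 0 := sub_ne_zero.2 (hb z hz)
    have h3 : z - b ≠ 0 := by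
      intro h3
      have h4 := hab z hz
      have h5 : b - a = z - a := by linear_combination -h3
      rw [h5] at h4
      have h6 : 0 < ‖z - a‖ := norm_pos_iff.2 h0
      linarith
    have h4 : (1 : ℂ) - (b - a) * (z - a)⁻¹ = (z - b) * (z - a)⁻¹ := by
      field_simp
      ring
    rw [h4]
    field_simp
  · have h0 : z - a ≠ 0 := sub_ne_zero.2 (hb z hz)
    have h3 : z - b ≠ 0 := by
      intro h3
      have h4 := hab z hz
      have h5 : b - a = z - a := by linear_combination -h3
      rw [h5] at h4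
      have h6 : 0 < ‖z - a‖ := norm_pos_iff.2 h0
      linarith
    have h4 : (1 : ℂ) - (b - a) * (z - a)⁻¹ = (z - b) * (z - a)⁻¹ := by
      field_simp
      ring
    have h5 : (1 : ℂ) - (b - a) * (z - a)⁻¹ ≠ 0 := by
      rw [h4]
      exact mul_ne_zero h3 (inv_ne_zero h0)
    rw [deriv_geom _ h5, h4]
    field_simp
    ring

/-- a far away pole -/
theorem App.inv_far (hX : IsCompact X) {a : ℂ} (ha : a ≠ 0)
    (hab : ∀ z ∈ X, ‖z‖ ≤ (1 / 2) * ‖a‖) :
    App X (fun z => (z - a)⁻¹) (fun z => -((z - a)⁻¹) ^ 2) := by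
  have h1 := (App.id (X := X)).const_mul hX (a⁻¹)
  have hn : 0 < ‖a‖ := norm_pos_iff.2 ha
  have h2 := h1.comp_analytic hX _ geom_differentiableOn (1 / 2) (by norm_num) (by
    intro z hz
    rw [norm_mul, norm_inv]
    have := hab z hz
    rw [mul_comm, ← div_eq_mul_inv, div_le_iff₀ hn]
    exact this)
  have hne : ∀ z ∈ X, z - a ≠ 0 := by
    intro z hz h3
    have h5 : z = a := by linear_combination h3
    have := hab z hz
    rw [h5] at this
    linarith
  have h4 : ∀ z : ℂ, (1 : ℂ) - a⁻¹ * z = -(z - a) * a⁻¹ := by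
    intro z
    field_simp
    ring
  refine (h2.const_mul hX (-a⁻¹)).congr (fun z hz => ?_) (fun z hz => ?_)
  · have h3 := hne z hz
    rw [h4]
    field_simp
  · have h3 := hne z hz
    have h5 : (1 : ℂ) - a⁻¹ * z ≠ 0 := by
      rw [h4]
      exact mul_ne_zero (neg_ne_zero.2 h3) (inv_ne_zero ha)
    rw [deriv_geom _ h5, h4]
    field_simp

/-- every pole off `X` is allowed, if the complement of `X` is connected -/
theorem App.inv_sub (hX : IsCompact X) (hc : IsPreconnected Xᶜ) {a : ℂ} (ha : a ∉ X) :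
    App X (fun z => (z - a)⁻¹) (fun z => -((z - a)⁻¹) ^ 2) := by
  obtain ⟨M, hM⟩ := hX.isBounded.exists_norm_le
  -- a far away point
  set c : ℂ := ((2 * |M| + 1 : ℝ) : ℂ) with hcdef
  have hc0 : ‖c‖ = 2 * |M| + 1 := by
    rw [hcdef, Complex.norm_real, Real.norm_eq_abs, abs_of_nonneg (by positivity)]
  have hcX : c ∈ Xᶜ := by
    intro h
    have := hM c h
    rw [hc0] at this
    linarith [le_abs_self M, abs_nonneg M]
  have hcne : c ≠ 0 := by
    intro h
    rw [h, norm_zero] at hc0
    linarith [abs_nonneg M]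
  have hbase : App X (fun z => (z - c)⁻¹) (fun z => -((z - c)⁻¹) ^ 2) := by
    apply App.inv_far hX hcne
    intro z hz
    rw [hc0]
    linarith [hM z hz, le_abs_self M]
  let P : ℂ → ℂ → Prop := fun x y => App X (fun z => (z - x)⁻¹) (fun z => -((z - x)⁻¹) ^ 2) →
    App X (fun z => (z - y)⁻¹) (fun z => -((z - y)⁻¹) ^ 2)
  have key : P c a := by
    refine hc.induction₂' P ?_ (fun x y z _ _ _ h1 h2 h => h2 (h1 h)) hcX ha
    intro x hx
    have hopen : IsOpen Xᶜ := hX.isClosed.isOpen_compl
    obtain ⟨δ, hδ, hball⟩ := Metric.isOpen_iff.1 hopen x hx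
    have hdist : ∀ z ∈ X, δ ≤ ‖z - x‖ := by
      intro z hz
      by_contra h
      push Not at h
      exact hball (by rwa [mem_ball, dist_eq_norm]) hz
    have hmem : ball x (δ / 4) ∈ 𝓝[Xᶜ] x := mem_nhdsWithin_of_mem_nhds (ball_mem_nhds x (by positivity))
    filter_upwards [hmem] with y hy
    rw [mem_ball, dist_eq_norm] at hy
    constructor
    · intro h
      refine App.inv_move hX (fun z hz hzx => ?_) (fun z hz => ?_) h
      · have := hdist z hz
        rw [hzx, sub_self, norm_zero] at this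
        linarith
      · have := hdist z hz
        linarith
    · intro h
      have h3 : ∀ z ∈ X, δ / 2 ≤ ‖z - y‖ := by
        intro z hz
        have h4 : ‖z - x‖ ≤ ‖z - y‖ + ‖y - x‖ := by
          calc ‖z - x‖ = ‖(z - y) + (y - x)‖ := by ring_nf
            _ ≤ _ := norm_add_le _ _
        linarith [hdist z hz]
      refine App.inv_move hX (fun z hz hzx => ?_) (fun z hz => ?_) h
      · have := h3 z hz
        rw [hzx, sub_self, norm_zero] at this
        linarith
      · have := h3 z hz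
        rw [norm_sub_rev] at hy
        linarith
  exact key hbase

end Pool.Agent.LibHelper41
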