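import Pool.Agent.Lib_helper41.Extend

set_option autoImplicit false

namespace Pool.Agent.LibHelper41

open Metric Set Filter Topology Complex

theorem theta_telescope {r d : ℝ} (hr : 0 < r) :
    theta r d + (if d ≤ 20 * (r / 100) then 2 else 10 / 9 * Real.sqrt (r / 100 / d)) ≤
      (if d ≤ 20 * r then 2 else 10 / 9 * Real.sqrt (r / d)) := by
  unfold theta
  have hs1 : ∀ t : ℝ, 0 < d → 20 * t < d → Real.sqrt (t / d) ≤ 1 := by
    intro t hd0 ht
    rw [Real.sqrt_le_one]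
    rw [div_le_one hd0]
    rcases le_total 0 t with h | h
    · linarith
    · linarith
  by_cases h5 : d ≤ 5 * r
  · rw [if_pos h5, if_pos (by linarith : d ≤ 20 * r), zero_add]
    split_ifs with h
    · exact le_rfl
    · push Not at h
      have hd0 : 0 < d := by linarith
      have := hs1 (r / 100) hd0 h
      linarith
  · rw [if_neg h5]
    push Not at h5
    have hd0 : 0 < d := by linarith
    have h100 : ¬ d ≤ 20 * (r / 100) := by linarith
    rw [if_neg h100]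
    by_cases h20 : d ≤ 20 * r
    · rw [if_pos h20, if_pos h20]
      have h1 : Real.sqrt (r / 100 / d) ≤ 9 / 10 := by
        rw [Real.sqrt_le_left (by norm_num), div_le_iff₀ hd0]
        nlinarith
      linarith
    · rw [if_neg h20, if_neg h20]
      have h1 : Real.sqrt (r / 100 / d) = Real.sqrt (r / d) / 10 := by
        have : r / 100 / d = (r / d) / 10 ^ 2 := by field_simp; norm_num
        rw [this, Real.sqrt_div (by positivity), Real.sqrt_sq (by norm_num)]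
      rw [h1]
      apply le_of_eq
      ring

theorem sum_theta_le {r d : ℝ} (hr : 0 < r) (n : ℕ) :
    ∑ i ∈ Finset.range n, theta (r / 100 ^ i) d ≤ 2 := by
  have key : ∀ n : ℕ, ∑ i ∈ Finset.range n, theta (r / 100 ^ i) d +
      (if d ≤ 20 * (r / 100 ^ n) then 2 else 10 / 9 * Real.sqrt (r / 100 ^ n / d)) ≤
      (if d ≤ 20 * r then 2 else 10 / 9 * Real.sqrt (r / d)) := by
    intro n
    induction n with
    | zero => simp
    | succ n ih =>
      rw [Finset.sum_range_succ]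
      have h1 := theta_telescope (r := r / 100 ^ n) (d := d) (by positivity)
      have h2 : r / 100 ^ n / 100 = r / 100 ^ (n + 1) := by
        rw [pow_succ, div_div]
      rw [h2] at h1
      linarith
  have h1 := key n
  have h2 : 0 ≤ (if d ≤ 20 * (r / 100 ^ n) then 2 else 10 / 9 * Real.sqrt (r / 100 ^ n / d)) := by
    split_ifs
    · norm_num
    · positivity
  have h3 : (if d ≤ 20 * r then 2 else 10 / 9 * Real.sqrt (r / d)) ≤ 2 := by
    split_ifs with h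
    · exact le_rfl
    · push Not at h
      have hd0 : 0 < d := by linarith
      have : Real.sqrt (r / d) ≤ 1 := by
        rw [Real.sqrt_le_one]
        rw [div_le_one hd0]
        linarith
      linarith
  linarith

theorem exists_extension : ∃ c₀ : ℝ, 0 < c₀ ∧ c₀ ≤ 1 ∧ ∀ X : Set ℂ, IsCompact X →
    IsPreconnected Xᶜ → ∀ (f g : ℂ → ℂ) (e : ℝ) (O : Set ℂ) (z₀ : ℂ) (ρ : ℝ) (F : ℂ → ℂ),
    0 < e → IsOpen O → Good X f g e O → z₀ ∈ X \ O → (∀ z ∈ X \ O, z ∈ closure Xᶜ) →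
    0 < ρ → ρ ≤ 1 →
    (∀ z w, ‖F z - F w‖ ≤ 2 * (c₀ * e) * ‖z - w‖) →
    (∀ w ∈ X ∩ closedBall z₀ (ρ / 4), ‖F w - f w‖ ≤ 3 * (c₀ * e) * infDist w (X \ O)) →
    (∀ w ∈ X ∩ closedBall z₀ (ρ / 4), ‖g w‖ ≤ c₀ * e) →
    Good X f g e (ball z₀ (ρ / 16)) := by
  obtain ⟨c₀, hc₀, hc₀1, hss⟩ := exists_single_scale
  refine ⟨c₀, hc₀, hc₀1, ?_⟩
  intro X hX hXc f g e O z₀ ρ F he hO hgood hz₀ hcl hρ hρ1 hF1 hF2 hg K hK hKb τ hτ
  obtain ⟨n, hn⟩ := exists_nat_gt (6 * e / τ)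
  have hn0 : (0 : ℝ) < n := lt_of_le_of_lt (by positivity) hn
  have hn1 : 2 * e / n ≤ τ / 3 := by
    rw [div_lt_iff₀ hτ] at hn
    rw [div_le_iff₀ hn0]
    linarith
  set r₀ : ℝ := min (ρ / 100) ((τ / (84 * e)) ^ 2) with hr₀
  have hr₀0 : 0 < r₀ := lt_min (by positivity) (by positivity)
  have hr₀1 : r₀ ≤ ρ / 100 := min_le_left _ _
  have hr₀2 : 28 * e * Real.sqrt r₀ ≤ τ / 3 := by
    have h1 : Real.sqrt r₀ ≤ τ / (84 * e) := by
      rw [Real.sqrt_le_left (by positivity)]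
      exact min_le_right _ _
    calc 28 * e * Real.sqrt r₀ ≤ 28 * e * (τ / (84 * e)) := by gcongr
      _ = τ / 3 := by field_simp; norm_num
  have hri : ∀ i : ℕ, 0 < r₀ / 100 ^ i ∧ r₀ / 100 ^ i ≤ r₀ := by
    intro i
    refine ⟨by positivity, div_le_self hr₀0.le (one_le_pow₀ (by norm_num))⟩
  have hex : ∀ i : ℕ, ∃ h : ℂ → ℂ, ∀ z ∈ X ∩ closedBall z₀ (ρ / 16),
      AnalyticAt ℂ h z ∧ ‖h z - f z‖ ≤ 28 * e * Real.sqrt (r₀ / 100 ^ i) + τ / 3 ∧
        ‖deriv h z - g z‖ ≤ e + τ / 3 + e * theta (r₀ / 100 ^ i) (infDist z (X \ O)) :=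
    fun i => hss X hX hXc f g e O z₀ ρ F he hO hgood hz₀ hcl hρ hρ1 hF1 hF2 hg (r₀ / 100 ^ i)
      (τ / 3) (hri i).1 ((hri i).2.trans hr₀1) (by positivity)
  choose H hH using hex
  have hnc : (n : ℂ) ≠ 0 := by exact_mod_cast hn0.ne'
  have hnn : ‖(n : ℂ)⁻¹‖ = (n : ℝ)⁻¹ := by rw [norm_inv, Complex.norm_natCast]
  refine ⟨fun z => (n : ℂ)⁻¹ * ∑ i ∈ Finset.range n, H i z, fun z hz => ?_⟩
  have hz2 : z ∈ X ∩ closedBall z₀ (ρ / 16) := ⟨(hKb hz).2, ball_subset_closedBall (hKb hz).1⟩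
  have hA : ∀ i ∈ Finset.range n, AnalyticAt ℂ (H i) z := fun i _ => (hH i z hz2).1
  have hsumA : AnalyticAt ℂ (fun z => ∑ i ∈ Finset.range n, H i z) z :=
    Finset.analyticAt_fun_sum _ hA
  have hder : deriv (fun z => (n : ℂ)⁻¹ * ∑ i ∈ Finset.range n, H i z) z =
      (n : ℂ)⁻¹ * ∑ i ∈ Finset.range n, deriv (H i) z := by
    have h1 : HasDerivAt (fun z => ∑ i ∈ Finset.range n, H i z)
        (∑ i ∈ Finset.range n, deriv (H i) z) z :=
      HasDerivAt.fun_sum (fun i hi => (hA i hi).differentiableAt.hasDerivAt)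
    exact (h1.const_mul _).deriv
  have hmean : ∀ (a : ℕ → ℂ) (b : ℂ), (n : ℂ)⁻¹ * ∑ i ∈ Finset.range n, a i - b =
      (n : ℂ)⁻¹ * ∑ i ∈ Finset.range n, (a i - b) := by
    intro a b
    rw [Finset.sum_sub_distrib, Finset.sum_const, Finset.card_range, nsmul_eq_mul]
    field_simp
  refine ⟨analyticAt_const.mul hsumA, ?_, ?_⟩
  · rw [hmean, norm_mul, hnn]
    have h1 : ‖∑ i ∈ Finset.range n, (H i z - f z)‖ ≤ n * (τ / 3 + τ / 3) := by
      calc ‖∑ i ∈ Finset.range n, (H i z - f z)‖ ≤ ∑ i ∈ Finset.range n, ‖H i z - f z‖ :=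
            norm_sum_le _ _
        _ ≤ ∑ i ∈ Finset.range n, (τ / 3 + τ / 3) := by
            refine Finset.sum_le_sum (fun i _ => (hH i z hz2).2.1.trans ?_)
            have h2 : Real.sqrt (r₀ / 100 ^ i) ≤ Real.sqrt r₀ := Real.sqrt_le_sqrt (hri i).2
            have h3 : 28 * e * Real.sqrt (r₀ / 100 ^ i) ≤ 28 * e * Real.sqrt r₀ := by gcongr
            linarith
        _ = n * (τ / 3 + τ / 3) := by
            rw [Finset.sum_const, Finset.card_range, nsmul_eq_mul]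
    calc (n : ℝ)⁻¹ * ‖∑ i ∈ Finset.range n, (H i z - f z)‖
        ≤ (n : ℝ)⁻¹ * (n * (τ / 3 + τ / 3)) := by gcongr
      _ = τ / 3 + τ / 3 := by field_simp
      _ ≤ τ := by linarith
  · rw [hder, hmean, norm_mul, hnn]
    have h1 : ‖∑ i ∈ Finset.range n, (deriv (H i) z - g z)‖ ≤ n * (e + τ / 3) + e * 2 := by
      calc ‖∑ i ∈ Finset.range n, (deriv (H i) z - g z)‖
          ≤ ∑ i ∈ Finset.range n, ‖deriv (H i) z - g z‖ := norm_sum_le _ _
        _ ≤ ∑ i ∈ Finset.range n, ((e + τ / 3) +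
              e * theta (r₀ / 100 ^ i) (infDist z (X \ O))) :=
            Finset.sum_le_sum (fun i _ => (hH i z hz2).2.2)
        _ = n * (e + τ / 3) + e * ∑ i ∈ Finset.range n,
              theta (r₀ / 100 ^ i) (infDist z (X \ O)) := by
            rw [Finset.sum_add_distrib, Finset.sum_const, Finset.card_range, nsmul_eq_mul,
              Finset.mul_sum]
        _ ≤ n * (e + τ / 3) + e * 2 := by
            gcongr
            exact sum_theta_le hr₀0 n
    calc (n : ℝ)⁻¹ * ‖∑ i ∈ Finset.range n, (deriv (H i) z - g z)‖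
        ≤ (n : ℝ)⁻¹ * (n * (e + τ / 3) + e * 2) := by gcongr
      _ = e + τ / 3 + 2 * e / n := by field_simp
      _ ≤ e + τ := by linarith

theorem Good.shift {X : Set ℂ} {f g : ℂ → ℂ} {e : ℝ} {O : Set ℂ} (h : Good X f g e O) (α : ℂ) :
    Good X (fun z => f z - α * z) (fun z => g z - α) e O := by
  intro K hK hKO τ hτ
  obtain ⟨u, hu⟩ := h K hK hKO τ hτ
  refine ⟨fun z => u z - α * z, fun z hz => ?_⟩
  obtain ⟨h1, h2, h3⟩ := hu z hz
  have h4 : HasDerivAt (fun z => u z - α * z) (deriv u z - α * 1) z :=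
    h1.differentiableAt.hasDerivAt.sub ((hasDerivAt_id z).const_mul α)
  rw [mul_one] at h4
  refine ⟨h1.sub (analyticAt_const.mul analyticAt_id), ?_, ?_⟩
  · calc ‖u z - α * z - (f z - α * z)‖ = ‖u z - f z‖ := by ring_nf
      _ ≤ τ := h2
  · rw [h4.deriv]
    calc ‖deriv u z - α - (g z - α)‖ = ‖deriv u z - g z‖ := by ring_nf
      _ ≤ e + τ := h3

end Pool.Agent.LibHelper41
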