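import Pool.Agent.Lib_helper41.Pompeiu

set_option autoImplicit false

namespace Pool.Agent.LibHelper41

open MeasureTheory Metric Set Filter Topology Complex
open scoped Real Convolution

/-- the Cauchy kernel -/
noncomputable def ker (ζ : ℂ) : ℂ := (π * ζ)⁻¹

theorem norm_ker_le (ζ : ℂ) : ‖ker ζ‖ ≤ ‖ζ‖⁻¹ := by
  unfold ker
  rw [norm_inv, norm_mul, Complex.norm_real, Real.norm_eq_abs, abs_of_pos Real.pi_pos]
  have h1 : 1 ≤ π := by linarith [Real.pi_gt_three]
  rw [mul_inv]
  have h2 : π⁻¹ ≤ 1 := inv_le_one_of_one_le₀ h1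
  have h3 : 0 ≤ ‖ζ‖⁻¹ := by positivity
  nlinarith

theorem measurable_ker : Measurable ker := by
  unfold ker
  exact (measurable_const.mul measurable_id).inv

theorem locallyIntegrable_ker : LocallyIntegrable ker := by
  refine locallyIntegrable_of_norm_le_rpow (C := 1) (α := 1) ?_ ?_ ?_ ?_
  · rw [Complex.finrank_real_complex]; norm_num
  · rw [Complex.finrank_real_complex]; norm_num
  · refine Eventually.of_forall (fun x => ?_)
    rw [Real.rpow_neg_one, one_mul]
    exact norm_ker_le x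
  · exact measurable_ker.aestronglyMeasurable

/-- the Cauchy transform -/
noncomputable def CT (g : ℂ → ℂ) (z : ℂ) : ℂ := ∫ ζ, ker ζ * g (z - ζ)

theorem CT_eq_conv (g : ℂ → ℂ) :
    CT g = ker ⋆[ContinuousLinearMap.mul ℝ ℂ, volume] g := by
  funext z
  rfl

theorem integrable_CT {g : ℂ → ℂ} (hg : Continuous g) (hc : HasCompactSupport g) (z : ℂ) :
    Integrable (fun ζ => ker ζ * g (z - ζ)) := by
  exact hc.convolutionExists_right (ContinuousLinearMap.mul ℝ ℂ) locallyIntegrable_ker hg z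

theorem CT_hasFDerivAt {g : ℂ → ℂ} (hg : ContDiff ℝ 1 g) (hc : HasCompactSupport g) (z : ℂ) :
    HasFDerivAt (CT g)
      ((ker ⋆[(ContinuousLinearMap.mul ℝ ℂ).precompR ℂ, volume] fderiv ℝ g) z) z := by
  rw [CT_eq_conv]
  exact hc.hasFDerivAt_convolution_right (ContinuousLinearMap.mul ℝ ℂ) locallyIntegrable_ker hg z

theorem CT_differentiableAt {g : ℂ → ℂ} (hg : ContDiff ℝ 1 g) (hc : HasCompactSupport g) (z : ℂ) :
    DifferentiableAt ℝ (CT g) z := (CT_hasFDerivAt hg hc z).differentiableAt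

theorem fderiv_CT {g : ℂ → ℂ} (hg : ContDiff ℝ 1 g) (hc : HasCompactSupport g) (z v : ℂ) :
    fderiv ℝ (CT g) z v = CT (fun w => fderiv ℝ g w v) z := by
  rw [(CT_hasFDerivAt hg hc z).fderiv, CT_eq_conv]
  exact convolution_precompR_apply (ContinuousLinearMap.mul ℝ ℂ) locallyIntegrable_ker
    (hc.fderiv (𝕜 := ℝ)) (hg.continuous_fderiv one_ne_zero) z v

theorem CT_add {g h : ℂ → ℂ} (hg : Continuous g) (hgc : HasCompactSupport g)
    (hh : Continuous h) (hhc : HasCompactSupport h) (z : ℂ) :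
    CT (fun w => g w + h w) z = CT g z + CT h z := by
  unfold CT
  rw [← integral_add (integrable_CT hg hgc z) (integrable_CT hh hhc z)]
  congr 1
  funext ζ
  ring

theorem CT_const_mul (c : ℂ) (g : ℂ → ℂ) (z : ℂ) :
    CT (fun w => c * g w) z = c * CT g z := by
  unfold CT
  rw [← integral_const_mul]
  congr 1
  funext ζ
  ring

theorem hasCompactSupport_fderiv_apply {g : ℂ → ℂ} (hc : HasCompactSupport g) (v : ℂ) :
    HasCompactSupport (fun w => fderiv ℝ g w v) := by
  refine (hc.fderiv (𝕜 := ℝ)).mono ?_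
  intro x hx
  rw [Function.mem_support] at hx ⊢
  intro h
  apply hx
  rw [h]
  rfl

theorem continuous_fderiv_apply {g : ℂ → ℂ} (hg : ContDiff ℝ 1 g) (v : ℂ) :
    Continuous (fun w => fderiv ℝ g w v) :=
  (hg.continuous_fderiv one_ne_zero).clm_apply continuous_const

theorem dbar_CT {g : ℂ → ℂ} (hg : ContDiff ℝ 1 g) (hc : HasCompactSupport g) (z : ℂ) :
    dbar (CT g) z = g z := by
  have h1 : dbar (CT g) z = CT (dbar g) z := by
    have e1 : dbar g = fun w => (1 / 2) * (fderiv ℝ g w 1 + I * fderiv ℝ g w I) := by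
      funext w
      unfold dbar
      ring
    have e2 : CT (fun w => fderiv ℝ g w 1 + I * fderiv ℝ g w I) z =
        CT (fun w => fderiv ℝ g w 1) z + CT (fun w => I * fderiv ℝ g w I) z :=
      CT_add (continuous_fderiv_apply hg 1) (hasCompactSupport_fderiv_apply hc 1)
        (continuous_const.mul (continuous_fderiv_apply hg I))
        ((hasCompactSupport_fderiv_apply hc I).mul_left) z
    rw [e1, CT_const_mul, e2, CT_const_mul, ← fderiv_CT hg hc, ← fderiv_CT hg hc]
    unfold dbar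
    ring
  rw [h1]
  unfold CT
  have h2 : ∫ ζ, ker ζ * dbar g (z - ζ) = ∫ ζ, ker (-ζ) * dbar g (z - (-ζ)) := by
    rw [integral_neg_eq_self (f := fun ζ => ker ζ * dbar g (z - ζ))]
  rw [h2]
  have h3 : ∀ ζ, ker (-ζ) * dbar g (z - (-ζ)) = (-(π : ℂ)⁻¹) * (dbar g (z + ζ) / ζ) := by
    intro ζ
    unfold ker
    rw [sub_neg_eq_add, mul_neg, inv_neg, mul_inv]
    ring
  simp only [h3]
  rw [integral_const_mul, pompeiu hg hc]
  have : (π : ℂ) ≠ 0 := by exact_mod_cast Real.pi_ne_zero
  field_simp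

theorem dz_CT_norm_le {g : ℂ → ℂ} (z : ℂ) {A : ℝ}
    (h : ∀ v : ℂ, ‖v‖ ≤ 1 → ‖fderiv ℝ g z v‖ ≤ A) : ‖dz g z‖ ≤ A := by
  unfold dz
  have h1 := h 1 (by simp)
  have h2 := h I (by simp)
  rw [norm_div]
  simp only [Complex.norm_ofNat]
  rw [div_le_iff₀ (by norm_num)]
  calc _ ≤ ‖fderiv ℝ g z 1‖ + ‖I * fderiv ℝ g z I‖ := norm_sub_le _ _
    _ ≤ A + A := by
      gcongr
      rw [norm_mul, Complex.norm_I, one_mul]
      exact h2
    _ = A * 2 := by ring

/-- the integral of the kernel over a ball -/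
theorem exists_ker_bound (R : ℝ) : ∃ C : ℝ, 0 < C ∧ ∀ q : ℂ,
    ∫ ζ in closedBall q R, ‖ker ζ‖ ≤ C := by
  set C₁ := ∫ ζ in closedBall (0 : ℂ) 1, ‖ker ζ‖ with hC₁
  have hC₁0 : 0 ≤ C₁ := integral_nonneg (fun _ => norm_nonneg _)
  have hi : ∀ (q : ℂ) (r : ℝ), IntegrableOn (fun ζ => ‖ker ζ‖) (closedBall q r) := fun q r =>
    (locallyIntegrable_ker.integrableOn_isCompact (isCompact_closedBall q r)).norm
  set V := (volume : Measure ℂ).real (closedBall (0 : ℂ) R) with hV
  have hV0 : 0 ≤ V := measureReal_nonneg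
  refine ⟨C₁ + V + 1, by positivity, fun q => ?_⟩
  have hsub : closedBall q R ⊆ closedBall 0 1 ∪ (closedBall q R \ closedBall 0 1) := by
    intro x hx
    by_cases h : x ∈ closedBall (0 : ℂ) 1
    · exact Or.inl h
    · exact Or.inr ⟨hx, h⟩
  have h1 : ∫ ζ in closedBall q R \ closedBall 0 1, ‖ker ζ‖ ≤ V := by
    have h2 : ∀ ζ ∈ closedBall q R \ closedBall 0 1, ‖ker ζ‖ ≤ 1 := by
      rintro ζ ⟨_, hζ⟩
      rw [mem_closedBall_zero_iff, not_le] at hζ
      exact (norm_ker_le ζ).trans (inv_le_one_of_one_le₀ hζ.le)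
    have hfin : (volume : Measure ℂ) (closedBall q R \ closedBall 0 1) < ⊤ :=
      (measure_mono sdiff_subset).trans_lt measure_closedBall_lt_top
    calc ∫ ζ in closedBall q R \ closedBall 0 1, ‖ker ζ‖
        ≤ ∫ ζ in closedBall q R \ closedBall 0 1, (1 : ℝ) := by
          refine setIntegral_mono_on ((hi q R).mono_set sdiff_subset) ?_ ?_ h2
          · exact integrableOn_const hfin.ne
          · exact measurableSet_closedBall.diff measurableSet_closedBall
      _ = (volume : Measure ℂ).real (closedBall q R \ closedBall 0 1) := by simp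
      _ ≤ (volume : Measure ℂ).real (closedBall q R) :=
          measureReal_mono sdiff_subset measure_closedBall_lt_top.ne
      _ = V := by
          rw [hV, Measure.real, Measure.real, Measure.addHaar_closedBall_center]
  calc ∫ ζ in closedBall q R, ‖ker ζ‖
      ≤ ∫ ζ in closedBall 0 1 ∪ (closedBall q R \ closedBall 0 1), ‖ker ζ‖ := by
        refine setIntegral_mono_set ?_ ?_ ?_
        · exact (hi 0 1).union ((hi q R).mono_set sdiff_subset)
        · exact Eventually.of_forall (fun _ => norm_nonneg _)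
        · exact Eventually.of_forall hsub
    _ = C₁ + ∫ ζ in closedBall q R \ closedBall 0 1, ‖ker ζ‖ := by
        rw [setIntegral_union]
        · exact disjoint_sdiff_right
        · exact measurableSet_closedBall.diff measurableSet_closedBall
        · exact hi 0 1
        · exact (hi q R).mono_set sdiff_subset
    _ ≤ C₁ + V + 1 := by linarith

/-- sup bound of the Cauchy transform -/
theorem exists_CT_bound (R : ℝ) : ∃ C : ℝ, 0 < C ∧ ∀ (g : ℂ → ℂ) (p : ℂ) (A : ℝ),
    (∀ w, w ∉ closedBall p R → g w = 0) → (∀ w, ‖g w‖ ≤ A) → ∀ z, ‖CT g z‖ ≤ C * A := by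
  obtain ⟨C, hC, hb⟩ := exists_ker_bound R
  refine ⟨C, hC, fun g p A hsupp hA z => ?_⟩
  have hA0 : 0 ≤ A := (norm_nonneg _).trans (hA 0)
  have hi : IntegrableOn (fun ζ => ‖ker ζ‖) (closedBall (z - p) R) :=
    (locallyIntegrable_ker.integrableOn_isCompact (isCompact_closedBall _ _)).norm
  unfold CT
  have h1 : ∫ ζ, ker ζ * g (z - ζ) = ∫ ζ in closedBall (z - p) R, ker ζ * g (z - ζ) := by
    symm
    refine setIntegral_eq_integral_of_forall_compl_eq_zero (fun ζ hζ => ?_)
    rw [hsupp, mul_zero]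
    intro h
    apply hζ
    rw [mem_closedBall, dist_eq_norm] at h ⊢
    rw [← norm_neg]
    calc ‖-(ζ - (z - p))‖ = ‖z - ζ - p‖ := by ring_nf
      _ ≤ R := h
  rw [h1]
  calc ‖∫ ζ in closedBall (z - p) R, ker ζ * g (z - ζ)‖
      ≤ ∫ ζ in closedBall (z - p) R, ‖ker ζ‖ * A := by
        refine norm_integral_le_of_norm_le (hi.mul_const A) ?_
        refine Eventually.of_forall (fun ζ => ?_)
        rw [norm_mul]
        gcongr
        exact hA _
    _ = (∫ ζ in closedBall (z - p) R, ‖ker ζ‖) * A := by rw [integral_mul_const]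
    _ ≤ C * A := by
        gcongr
        exact hb _

theorem CT_eq (g : ℂ → ℂ) (z : ℂ) : CT g z = ∫ w, ker (z - w) * g w := by
  unfold CT
  have := integral_sub_left_eq_self (fun w => ker (z - w) * g w) (volume : Measure ℂ) z
  rw [← this]
  simp

/-- far field of the Cauchy transform -/
theorem exists_CT_far (R : ℝ) (hR : 0 < R) : ∃ C : ℝ, 0 < C ∧ ∀ (g : ℂ → ℂ) (p : ℂ) (A : ℝ),
    Continuous g →
    (∀ w, w ∉ closedBall p R → g w = 0) → (∀ w, ‖g w‖ ≤ A) →
    ‖(π : ℂ)⁻¹ * ∫ w, g w‖ ≤ C * A ∧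
    ∀ z, 2 * R ≤ ‖z - p‖ →
      ‖CT g z - ((π : ℂ)⁻¹ * ∫ w, g w) * (z - p)⁻¹‖ ≤ C * A / ‖z - p‖ ^ 2 := by
  set V := (volume : Measure ℂ).real (closedBall (0 : ℂ) R) with hV
  have hV0 : 0 ≤ V := measureReal_nonneg
  have hVp : ∀ p : ℂ, (volume : Measure ℂ).real (closedBall p R) = V := by
    intro p
    rw [hV, Measure.real, Measure.real, Measure.addHaar_closedBall_center]
  have hpi : ‖(π : ℂ)⁻¹‖ ≤ 1 := by
    rw [norm_inv, Complex.norm_real, Real.norm_eq_abs, abs_of_pos Real.pi_pos]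
    exact inv_le_one_of_one_le₀ (by linarith [Real.pi_gt_three])
  refine ⟨V * (1 + 2 * R) + 1, by positivity, fun g p A hg hsupp hA => ?_⟩
  have hA0 : 0 ≤ A := (norm_nonneg _).trans (hA 0)
  have hgc : HasCompactSupport g := by
    refine HasCompactSupport.intro (isCompact_closedBall p R) hsupp
  have hgi : Integrable g := hg.integrable_of_hasCompactSupport hgc
  constructor
  · have h1 : ∫ w, g w = ∫ w in closedBall p R, g w :=
      (setIntegral_eq_integral_of_forall_compl_eq_zero hsupp).symm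
    have h2 : ‖∫ w in closedBall p R, g w‖ ≤ A * V := by
      rw [← hVp p]
      exact norm_setIntegral_le_of_norm_le_const measure_closedBall_lt_top (fun w _ => hA w)
    rw [norm_mul, h1]
    calc _ ≤ 1 * (A * V) := by gcongr
      _ = V * A := by ring
      _ ≤ (V * (1 + 2 * R) + 1) * A := by
        gcongr
        nlinarith [mul_nonneg hV0 hR.le]
  · intro z hz
    have hz0 : 0 < ‖z - p‖ := by linarith
    have hzp : z - p ≠ 0 := norm_pos_iff.1 hz0
    have h1 : CT g z - ((π : ℂ)⁻¹ * ∫ w, g w) * (z - p)⁻¹ =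
        ∫ w in closedBall p R, (ker (z - w) - ker (z - p)) * g w := by
      have e1 : Integrable (fun w => ker (z - w) * g w) := by
        have := (integrable_CT hg hgc z).comp_sub_left z
        simpa using this
      have e2 : ((π : ℂ)⁻¹ * ∫ w, g w) * (z - p)⁻¹ = ∫ w, ker (z - p) * g w := by
        rw [integral_const_mul]
        unfold ker
        rw [mul_inv]
        ring
      rw [CT_eq, e2, ← integral_sub e1 (hgi.const_mul _)]
      have e3 : ∀ w, ker (z - w) * g w - ker (z - p) * g w =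
          (ker (z - w) - ker (z - p)) * g w := fun w => by ring
      simp only [e3]
      symm
      refine setIntegral_eq_integral_of_forall_compl_eq_zero (fun w hw => ?_)
      rw [hsupp w hw, mul_zero]
    rw [h1]
    have h2 : ∀ w ∈ closedBall p R, ‖(ker (z - w) - ker (z - p)) * g w‖ ≤
        (2 * R / ‖z - p‖ ^ 2) * A := by
      intro w hw
      rw [mem_closedBall, dist_eq_norm] at hw
      have h3 : ‖z - p‖ / 2 ≤ ‖z - w‖ := by
        have : ‖z - p‖ ≤ ‖z - w‖ + ‖w - p‖ := by
          calc ‖z - p‖ = ‖(z - w) + (w - p)‖ := by ring_nf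
            _ ≤ _ := norm_add_le _ _
        linarith
      have h4 : 0 < ‖z - w‖ := by linarith
      have h5 : z - w ≠ 0 := norm_pos_iff.1 h4
      have h6 : ker (z - w) - ker (z - p) = (π : ℂ)⁻¹ * ((w - p) * (z - w)⁻¹ * (z - p)⁻¹) := by
        unfold ker
        rw [mul_inv, mul_inv]
        field_simp
        ring
      rw [norm_mul, h6, norm_mul, norm_mul, norm_mul, norm_inv, norm_inv (z - p),
        norm_inv (z - w)]
      have h7 : ‖z - w‖⁻¹ ≤ 2 / ‖z - p‖ := by
        rw [← inv_div]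
        gcongr
      rw [norm_inv] at hpi
      calc _ ≤ 1 * (R * (2 / ‖z - p‖) * ‖z - p‖⁻¹) * A := by
            gcongr
            exact hA w
        _ = (2 * R / ‖z - p‖ ^ 2) * A := by field_simp
    have h8 := norm_setIntegral_le_of_norm_le_const
      (measure_closedBall_lt_top (x := p) (r := R) (μ := (volume : Measure ℂ))) h2
    refine h8.trans ?_
    rw [hVp p]
    calc 2 * R / ‖z - p‖ ^ 2 * A * V = (2 * R * V) * A / ‖z - p‖ ^ 2 := by ring
      _ ≤ (V * (1 + 2 * R) + 1) * A / ‖z - p‖ ^ 2 := by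
        gcongr
        nlinarith

end Pool.Agent.LibHelper41
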