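import Pool.Agent.Lib_helper41.LocalQ

set_option autoImplicit false

namespace Pool.Agent.LibHelper41

open Metric Set Filter Topology

/-- `f` is analytic at every point of `Y`, with derivative `g` on `Y` -/
def An (Y : Set ℂ) (f g : ℂ → ℂ) : Prop := ∀ z ∈ Y, AnalyticAt ℂ f z ∧ HasDerivAt f (g z) z

variable {Y : Set ℂ} {f g f₂ g₂ : ℂ → ℂ}

theorem An.congr (h : An Y f g) (hg : ∀ z ∈ Y, g z = g₂ z) : An Y f g₂ :=
  fun z hz => ⟨(h z hz).1, (hg z hz) ▸ (h z hz).2⟩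

theorem An.const (c : ℂ) : An Y (fun _ => c) (fun _ => 0) :=
  fun z _ => ⟨analyticAt_const, hasDerivAt_const z c⟩

theorem An.id : An Y (fun z => z) (fun _ => 1) :=
  fun z _ => ⟨analyticAt_id, hasDerivAt_id z⟩

theorem An.add (h : An Y f g) (h₂ : An Y f₂ g₂) :
    An Y (fun z => f z + f₂ z) (fun z => g z + g₂ z) :=
  fun z hz => ⟨(h z hz).1.add (h₂ z hz).1, (h z hz).2.add (h₂ z hz).2⟩

theorem An.sub (h : An Y f g) (h₂ : An Y f₂ g₂) :
    An Y (fun z => f z - f₂ z) (fun z => g z - g₂ z) :=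
  fun z hz => ⟨(h z hz).1.sub (h₂ z hz).1, (h z hz).2.sub (h₂ z hz).2⟩

theorem An.mul (h : An Y f g) (h₂ : An Y f₂ g₂) :
    An Y (fun z => f z * f₂ z) (fun z => g z * f₂ z + f z * g₂ z) :=
  fun z hz => ⟨(h z hz).1.mul (h₂ z hz).1, (h z hz).2.mul (h₂ z hz).2⟩

theorem An.const_mul (c : ℂ) (h : An Y f g) : An Y (fun z => c * f z) (fun z => c * g z) :=
  fun z hz => ⟨analyticAt_const.mul (h z hz).1, (h z hz).2.const_mul c⟩

theorem An.pow (h : An Y f g) (n : ℕ) : An Y (fun z => f z ^ n) (fun z => n * f z ^ (n - 1) * g z) :=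
  fun z hz => ⟨(h z hz).1.pow n, (h z hz).2.pow n⟩

theorem An.inv_sub {a : ℂ} (ha : a ∉ Y) : An Y (fun z => (z - a)⁻¹) (fun z => -((z - a)⁻¹) ^ 2) := by
  intro z hz
  have hza : z - a ≠ 0 := fun h => ha (by
    have : z = a := by linear_combination h
    rwa [this] at hz)
  refine ⟨(analyticAt_id.sub analyticAt_const).inv hza, ?_⟩
  have := ((hasDerivAt_id z).sub_const a).inv hza
  refine this.congr_deriv ?_
  simp only [_root_.id]
  field_simp

/-- existence of a good branch of the square root of `(z - a) / (z - b)` -/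
def SQA (Y : Set ℂ) (w₀ : ℂ) (R : ℝ) (a b : ℂ) : Prop :=
  ∃ s : ℂ → ℂ, An Y s (fun z => s z * ((z - a)⁻¹ - (z - b)⁻¹) / 2) ∧
    (∀ z ∈ Y, s z ^ 2 * (z - b) = z - a) ∧
    (∀ z ∈ Y, 3 * R ≤ ‖z - w₀‖ → 0 < (s z).re)

theorem SQA.refl (w₀ : ℂ) (R : ℝ) (a : ℂ) : SQA Y w₀ R a a := by
  refine ⟨fun _ => 1, (An.const 1).congr (fun z _ => by simp), ?_, ?_⟩
  · intro z _; simp
  · intro z _ _; simp

theorem SQA.step {w₀ : ℂ} {R : ℝ} {a c b : ℂ}
    (haX : a ∉ Y) (hcX : c ∉ Y) (hbX : b ∉ Y)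
    (ha : ‖a - w₀‖ < R) (hcR : ‖c - w₀‖ < R)
    (hcb : ∀ z ∈ Y, ‖b - c‖ ≤ (1 / 2) * ‖z - b‖) (h : SQA Y w₀ R a c) : SQA Y w₀ R a b := by
  obtain ⟨s, hs1, hs2, hs3⟩ := h
  have hza : ∀ z ∈ Y, z - a ≠ 0 := fun z hz h => haX (by
    have : z = a := by linear_combination h
    rwa [this] at hz)
  have hzc : ∀ z ∈ Y, z - c ≠ 0 := fun z hz h => hcX (by
    have : z = c := by linear_combination h
    rwa [this] at hz)
  have hzb : ∀ z ∈ Y, z - b ≠ 0 := fun z hz h => hbX (by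
    have : z = b := by linear_combination h
    rwa [this] at hz)
  have hg : ∀ z ∈ Y, ‖(b - c) * (z - b)⁻¹‖ ≤ 1 / 2 := by
    intro z hz
    have h0 : 0 < ‖z - b‖ := norm_pos_iff.2 (hzb z hz)
    rw [norm_mul, norm_inv, ← div_eq_mul_inv, div_le_iff₀ h0]
    exact hcb z hz
  have hg1 : ∀ z ∈ Y, ‖(b - c) * (z - b)⁻¹‖ < 1 := fun z hz =>
    lt_of_le_of_lt (hg z hz) (by norm_num)
  have h0 : An Y (fun z => (b - c) * (z - b)⁻¹) (fun z => (b - c) * -((z - b)⁻¹) ^ 2) :=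
    (An.inv_sub hbX).const_mul (b - c)
  have h1 : An Y (fun z => Complex.sqrt (1 + (b - c) * (z - b)⁻¹))
      (fun z => (2 * Complex.sqrt (1 + (b - c) * (z - b)⁻¹))⁻¹ *
        ((b - c) * -((z - b)⁻¹) ^ 2)) := by
    intro z hz
    have hy := hg1 z hz
    have hA : AnalyticAt ℂ (fun y : ℂ => Complex.sqrt (1 + y)) ((b - c) * (z - b)⁻¹) := by
      have := sqrt_one_add_differentiableOn.analyticOnNhd isOpen_ball
      exact this _ (by simpa using hy)
    refine ⟨AnalyticAt.fun_comp (g := fun y : ℂ => Complex.sqrt (1 + y))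
      (f := fun z => (b - c) * (z - b)⁻¹) hA (h0 z hz).1, ?_⟩
    have h2 : HasDerivAt (fun y : ℂ => Complex.sqrt (1 + y))
        ((2 * Complex.sqrt (1 + (b - c) * (z - b)⁻¹))⁻¹) ((b - c) * (z - b)⁻¹) := by
      rw [← deriv_sqrt_one_add hy]
      exact hA.differentiableAt.hasDerivAt
    exact h2.comp z (h0 z hz).2
  have ht2 : ∀ z ∈ Y, Complex.sqrt (1 + (b - c) * (z - b)⁻¹) ^ 2 * (z - b) = z - c := by
    intro z hz
    rw [sqrt_sq]
    have := hzb z hz
    field_simp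
    ring
  refine ⟨fun z => s z * Complex.sqrt (1 + (b - c) * (z - b)⁻¹),
    (hs1.mul h1).congr (fun z hz => ?_), fun z hz => ?_, fun z hz hzR => ?_⟩
  · have e1 := hza z hz
    have e2 := hzb z hz
    have e3 := hzc z hz
    have e4 := sqrt_ne_zero' (hg1 z hz)
    have e5 := ht2 z hz
    set t := Complex.sqrt (1 + (b - c) * (z - b)⁻¹) with ht
    have key : (2 * t)⁻¹ * ((b - c) * -((z - b)⁻¹) ^ 2) =
        t * ((z - c)⁻¹ - (z - b)⁻¹) / 2 := by
      field_simp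
      linear_combination (b - c) * e5
    rw [key]
    ring
  · rw [mul_pow]
    calc s z ^ 2 * Complex.sqrt (1 + (b - c) * (z - b)⁻¹) ^ 2 * (z - b)
        = s z ^ 2 * (Complex.sqrt (1 + (b - c) * (z - b)⁻¹) ^ 2 * (z - b)) := by ring
      _ = s z ^ 2 * (z - c) := by rw [ht2 z hz]
      _ = z - a := hs2 z hz
  · apply re_pos_of_sq (hs3 z hz hzR) _ (sqrt_re_pos (hg1 z hz))
    · rw [sqrt_sq]
      have h6 := Complex.abs_re_le_norm ((b - c) * (z - b)⁻¹)
      have h7 := neg_abs_le ((b - c) * (z - b)⁻¹).re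
      rw [Complex.add_re, Complex.one_re]
      linarith [hg z hz]
    · have h8 : s z ^ 2 = (z - a) / (z - c) := by
        rw [eq_div_iff (hzc z hz)]
        exact hs2 z hz
      rw [h8]
      exact re_pos_div ha hcR hzR

/-- there is a good branch reaching distance `R₁` from the centre, analytic on `X` and far away -/
theorem exists_SQA {X : Set ℂ} (hX : IsCompact X) (hc : IsPreconnected Xᶜ) {w₀ a : ℂ} {R₁ R : ℝ}
    (hR0 : 0 ≤ R₁) (hR : R₁ < R) (haX : a ∉ X) (ha : ‖a - w₀‖ < R) :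
    ∃ b, b ∉ X ∧ R₁ ≤ ‖b - w₀‖ ∧ ‖b - w₀‖ < R ∧
      SQA (X ∪ {z | 3 * R ≤ ‖z - w₀‖}) w₀ R a b := by
  set Y : Set ℂ := X ∪ {z | 3 * R ≤ ‖z - w₀‖} with hY
  have hnotY : ∀ y, y ∉ X → ‖y - w₀‖ < R → y ∉ Y := by
    rintro y hy1 hy2 (h | h)
    · exact hy1 h
    · have h' : 3 * R ≤ ‖y - w₀‖ := h
      linarith [norm_nonneg (y - w₀)]
  by_contra hcon
  push Not at hcon
  obtain ⟨M, hM⟩ := hX.isBounded.exists_norm_le
  set c : ℂ := ((|M| + ‖w₀‖ + |R| + 1 : ℝ) : ℂ) with hcdef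
  have hc0 : ‖c‖ = |M| + ‖w₀‖ + |R| + 1 := by
    rw [hcdef, Complex.norm_real, Real.norm_eq_abs, abs_of_nonneg (by positivity)]
  have hcX : c ∈ Xᶜ := by
    intro h
    have := hM c h
    rw [hc0] at this
    linarith [le_abs_self M, norm_nonneg w₀, abs_nonneg R]
  let U : Set ℂ := {y | y ∉ X ∧ ‖y - w₀‖ < R ∧ SQA Y w₀ R a y}
  have key : a ∈ U → c ∈ U := by
    refine hc.induction₂' (fun x y => x ∈ U → y ∈ U) ?_ (fun x y z _ _ _ h1 h2 h => h2 (h1 h))
      haX hcX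
    intro x hx
    have hopen : IsOpen Xᶜ := hX.isClosed.isOpen_compl
    obtain ⟨δ, hδ, hball⟩ := Metric.isOpen_iff.1 hopen x hx
    have hdist : ∀ z ∈ X, δ ≤ ‖z - x‖ := by
      intro z hz
      by_contra h
      push Not at h
      exact hball (by rwa [mem_ball, dist_eq_norm]) hz
    have hmem : ball x (min (δ / 4) (R - R₁)) ∈ 𝓝[Xᶜ] x :=
      mem_nhdsWithin_of_mem_nhds (ball_mem_nhds x (lt_min (by positivity) (by linarith)))
    filter_upwards [hmem, self_mem_nhdsWithin] with y hy hyX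
    rw [mem_ball, dist_eq_norm, lt_min_iff] at hy
    have h3 : ∀ z ∈ X, δ / 2 ≤ ‖z - y‖ := by
      intro z hz
      have h4 : ‖z - x‖ ≤ ‖z - y‖ + ‖y - x‖ := by
        calc ‖z - x‖ = ‖(z - y) + (y - x)‖ := by ring_nf
          _ ≤ _ := norm_add_le _ _
      linarith [hdist z hz]
    have hfar : ∀ z u : ℂ, 3 * R ≤ ‖z - w₀‖ → ‖u - w₀‖ < R → 2 * R ≤ ‖z - u‖ := by
      intro z u hz hu
      have : ‖z - w₀‖ ≤ ‖z - u‖ + ‖u - w₀‖ := by
        calc ‖z - w₀‖ = ‖(z - u) + (u - w₀)‖ := by ring_nf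
          _ ≤ _ := norm_add_le _ _
      linarith
    constructor
    · rintro ⟨hx1, hx2, hx3⟩
      have hx4 : ‖x - w₀‖ < R₁ := by
        by_contra h
        push Not at h
        exact hcon x hx1 h hx2 hx3
      have hy2 : ‖y - w₀‖ < R := by
        calc ‖y - w₀‖ = ‖(y - x) + (x - w₀)‖ := by ring_nf
          _ ≤ ‖y - x‖ + ‖x - w₀‖ := norm_add_le _ _
          _ < R := by linarith [hy.2]
      refine ⟨hyX, hy2, SQA.step (hnotY a haX ha) (hnotY x hx1 hx2) (hnotY y hyX hy2) ha hx2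
        ?_ hx3⟩
      rintro z (hz | hz)
      · linarith [h3 z hz, hy.1]
      · linarith [hfar z y hz hy2, hy.2]
    · rintro ⟨hy1, hy2, hy3⟩
      have hy4 : ‖y - w₀‖ < R₁ := by
        by_contra h
        push Not at h
        exact hcon y hy1 h hy2 hy3
      have hx2 : ‖x - w₀‖ < R := by
        calc ‖x - w₀‖ = ‖(y - w₀) - (y - x)‖ := by ring_nf
          _ ≤ ‖y - w₀‖ + ‖y - x‖ := norm_sub_le _ _
          _ < R := by linarith [hy.2]
      refine ⟨hx, hx2, SQA.step (hnotY a haX ha) (hnotY y hy1 hy2) (hnotY x hx hx2) ha hy2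
        ?_ hy3⟩
      rintro z (hz | hz)
      · rw [norm_sub_rev]
        linarith [hdist z hz, hy.1]
      · rw [norm_sub_rev]
        linarith [hfar z x hz hx2, hy.2]
  obtain ⟨_, h2, _⟩ := key ⟨haX, ha, SQA.refl w₀ R a⟩
  have h3 : ‖c‖ ≤ ‖c - w₀‖ + ‖w₀‖ := by
    calc ‖c‖ = ‖(c - w₀) + w₀‖ := by ring_nf
      _ ≤ _ := norm_add_le _ _
  rw [hc0] at h3
  linarith [le_abs_self R, abs_nonneg M, norm_nonneg w₀]

theorem exists_local_q0 : ∃ C : ℝ, 0 < C ∧ ∀ X : Set ℂ, IsCompact X → IsPreconnected Xᶜ →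
    ∀ w₀ : ℂ, (∃ a, a ∉ X ∧ ‖a - w₀‖ ≤ 1) → ∃ q q₁ : ℂ → ℂ,
      An (X ∪ {z | 12 ≤ ‖z - w₀‖}) q q₁ ∧ ∀ z ∈ X ∪ {z | 12 ≤ ‖z - w₀‖},
      (‖z - w₀‖ ≤ 12 → ‖q z‖ ≤ C ∧ ‖q₁ z‖ ≤ C) ∧
      (12 ≤ ‖z - w₀‖ → ‖q z - (z - w₀)⁻¹‖ ≤ C / ‖z - w₀‖ ^ 2 ∧
        ‖q₁ z + ((z - w₀)⁻¹) ^ 2‖ ≤ C / ‖z - w₀‖ ^ 3) := by
  refine ⟨30000, by norm_num, ?_⟩
  intro X hX hc w₀ ⟨a, haX, ha⟩
  obtain ⟨b, hbX', hb1, hb2, s, hs1, hs2, hs3⟩ := exists_SQA (R₁ := 3) (R := 4) hX hc
    (by norm_num) (by norm_num) haX (lt_of_le_of_lt ha (by norm_num))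
  have h34 : (3 * 4 : ℝ) = 12 := by norm_num
  rw [h34] at hs1 hs2 hs3
  have hnotY : ∀ y, y ∉ X → ‖y - w₀‖ < 4 → y ∉ X ∪ {z | 12 ≤ ‖z - w₀‖} := by
    rintro y hy1 hy2 (h | h)
    · exact hy1 h
    · have h' : 12 ≤ ‖y - w₀‖ := h
      linarith
  have hbX := hnotY b hbX' hb2
  have haX'' := hnotY a haX (lt_of_le_of_lt ha (by norm_num))
  clear haX
  rename' haX'' => haX
  set Y : Set ℂ := X ∪ {z | 12 ≤ ‖z - w₀‖} with hY
  set e : ℂ := b - a with he
  have he1 : 2 ≤ ‖e‖ := by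
    have : ‖b - w₀‖ ≤ ‖e‖ + ‖a - w₀‖ := by
      calc ‖b - w₀‖ = ‖e + (a - w₀)‖ := by rw [he]; ring_nf
        _ ≤ _ := norm_add_le _ _
    linarith
  have he2 : ‖e‖ ≤ 5 := by
    calc ‖e‖ = ‖(b - w₀) - (a - w₀)‖ := by rw [he]; ring_nf
      _ ≤ ‖b - w₀‖ + ‖a - w₀‖ := norm_sub_le _ _
      _ ≤ 5 := by linarith
  have he0 : e ≠ 0 := by
    intro h
    rw [h, norm_zero] at he1
    linarith
  have hzb : ∀ z ∈ Y, z - b ≠ 0 := fun z hz h => hbX (by
    have : z = b := by linear_combination h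
    rwa [this] at hz)
  have hza : ∀ z ∈ Y, z - a ≠ 0 := fun z hz h => haX (by
    have : z = a := by linear_combination h
    rwa [this] at hz)
  -- the function `S = (z - b) s`
  have hw : An Y (fun z => z - b) (fun _ => 1) := by
    refine (An.id.sub (An.const b)).congr (fun z _ => by simp)
  have hS := hw.mul hs1
  set S : ℂ → ℂ := fun z => (z - b) * s z with hSdef
  have hS2 : ∀ z ∈ Y, s z ^ 2 * (z - b) = (z - b) + e := by
    intro z hz
    rw [hs2 z hz, he]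
    ring
  -- the function `q`
  have hq : An Y (fun z => 128 / (3 * e ^ 4) * (S z ^ 3 - (z - b) ^ 3 - 3 / 2 * e * (z - b) ^ 2
      - 3 / 8 * e ^ 2 * (z - b) + e ^ 3 / 16))
      (fun z => -(16 / e ^ 4) * (2 * (z - b) + e - 2 * S z) ^ 2) := by
    have h1 := ((((hS.pow 3).sub (hw.pow 3)).sub
      ((hw.pow 2).const_mul (3 / 2 * e))).sub
      (hw.const_mul (3 / 8 * e ^ 2))).add (An.const (e ^ 3 / 16))
    refine (h1.const_mul (128 / (3 * e ^ 4))).congr (fun z hz => ?_)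
    have h3 := hzb z hz
    have h4 := hza z hz
    have h5 := hS2 z hz
    have h6 : z - a = (z - b) + e := by rw [he]; ring
    have h7 : (z - b) + e ≠ 0 := by rw [← h6]; exact h4
    simp only [hSdef, Nat.add_one_sub_one, Nat.cast_ofNat, pow_one, mul_one, add_zero, one_mul]
    rw [h6]
    set w := z - b with hwdef
    set t := s z with htdef
    have h8 : 3 * (w * t) ^ 2 * (t + w * (t * ((w + e)⁻¹ - w⁻¹) / 2)) =
        3 / 2 * (w * t) * (2 * w + e) := by
      have h9 : (w * t) ^ 2 = w * (w + e) := by linear_combination w * h5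
      rw [h9]
      field_simp
      ring
    have h10 : (w * t) ^ 2 = w * (w + e) := by linear_combination w * h5
    rw [h8]
    field_simp
    linear_combination (1024 : ℂ) * h10
  refine ⟨_, _, hq, fun z hz => ⟨fun hz12 => ?_, fun hz12 => ?_⟩⟩
  · -- near
    have hw1 : ‖z - b‖ ≤ 16 := by
      calc ‖z - b‖ = ‖(z - w₀) - (b - w₀)‖ := by ring_nf
        _ ≤ ‖z - w₀‖ + ‖b - w₀‖ := norm_sub_le _ _
        _ ≤ 16 := by linarith
    have hw2 : ‖z - a‖ ≤ 13 := by
      calc ‖z - a‖ = ‖(z - w₀) - (a - w₀)‖ := by ring_nf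
        _ ≤ ‖z - w₀‖ + ‖a - w₀‖ := norm_sub_le _ _
        _ ≤ 13 := by linarith
    have hSn : ‖S z‖ ≤ 15 := by
      have h1 : S z ^ 2 = (z - b) * (z - a) := by
        simp only [hSdef]
        have h5 := hS2 z hz
        have h6 : z - a = (z - b) + e := by rw [he]; ring
        rw [h6]
        linear_combination (z - b) * h5
      have h2 : ‖S z‖ ^ 2 ≤ 16 * 13 := by
        rw [← norm_pow, h1, norm_mul]
        gcongr
      nlinarith [norm_nonneg (S z)]
    have he4 : (16 : ℝ) ≤ ‖e‖ ^ 4 := by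
      calc (16 : ℝ) = 2 ^ 4 := by norm_num
        _ ≤ ‖e‖ ^ 4 := by gcongr
    constructor
    · have h1 : ‖(128 : ℂ) / (3 * e ^ 4)‖ ≤ 128 / 48 := by
        rw [norm_div, norm_mul, norm_pow]
        simp only [Complex.norm_ofNat]
        gcongr
        linarith
      have h2 : ‖S z ^ 3 - (z - b) ^ 3 - 3 / 2 * e * (z - b) ^ 2
          - 3 / 8 * e ^ 2 * (z - b) + e ^ 3 / 16‖ ≤
          15 ^ 3 + 16 ^ 3 + 3 / 2 * 5 * 16 ^ 2 + 3 / 8 * 5 ^ 2 * 16 + 5 ^ 3 / 16 := by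
        refine (norm_add_le _ _).trans ?_
        gcongr
        · refine (norm_sub_le _ _).trans ?_
          gcongr
          · refine (norm_sub_le _ _).trans ?_
            gcongr
            · refine (norm_sub_le _ _).trans ?_
              gcongr
              · rw [norm_pow]; gcongr
              · rw [norm_pow]; gcongr
            · rw [norm_mul, norm_mul, norm_pow, norm_div]
              simp only [Complex.norm_ofNat]
              gcongr
          · rw [norm_mul, norm_mul, norm_pow, norm_div]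
            simp only [Complex.norm_ofNat]
            gcongr
        · rw [norm_div, norm_pow]
          simp only [Complex.norm_ofNat]
          gcongr
      rw [norm_mul]
      calc _ ≤ (128 : ℝ) / 48 * (15 ^ 3 + 16 ^ 3 + 3 / 2 * 5 * 16 ^ 2 + 3 / 8 * 5 ^ 2 * 16
            + 5 ^ 3 / 16) := by gcongr
        _ ≤ 30000 := by norm_num
    · have h1 : ‖-(16 / e ^ 4)‖ ≤ 1 := by
        rw [norm_neg, norm_div, norm_pow]
        simp only [Complex.norm_ofNat]
        rw [div_le_one (by linarith)]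
        exact he4
      have h2 : ‖2 * (z - b) + e - 2 * S z‖ ≤ 2 * 16 + 5 + 2 * 15 := by
        refine (norm_sub_le _ _).trans ?_
        gcongr
        · refine (norm_add_le _ _).trans ?_
          gcongr
          rw [norm_mul]
          simp only [Complex.norm_ofNat]
          gcongr
        · rw [norm_mul]
          simp only [Complex.norm_ofNat]
          gcongr
      rw [norm_mul, norm_pow]
      calc _ ≤ (1 : ℝ) * (2 * 16 + 5 + 2 * 15) ^ 2 := by gcongr
        _ ≤ 30000 := by norm_num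
  · -- far
    set D : ℝ := ‖z - w₀‖ with hD
    have hD0 : 0 < D := by linarith
    have hw1 : 2 / 3 * D ≤ ‖z - b‖ := by
      have : D ≤ ‖z - b‖ + ‖b - w₀‖ := by
        calc D = ‖(z - b) + (b - w₀)‖ := by rw [hD]; ring_nf
          _ ≤ _ := norm_add_le _ _
      linarith
    have hb0 := hzb z hz
    have hbn : 0 < ‖z - b‖ := norm_pos_iff.2 hb0
    have hvn : z - w₀ ≠ 0 := by
      intro h
      rw [hD, h, norm_zero] at hD0
      exact lt_irrefl _ hD0
    have hre : 0 < (s z).re := hs3 z hz hz12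
    have hs1' : 1 ≤ ‖s z + 1‖ := by
      calc (1 : ℝ) ≤ (s z).re + 1 := by linarith
        _ = (s z + 1).re := by simp
        _ ≤ |(s z + 1).re| := le_abs_self _
        _ ≤ ‖s z + 1‖ := Complex.abs_re_le_norm _
    have hu : ‖s z - 1‖ ≤ 15 / 2 / D := by
      have h1 : (s z - 1) * (s z + 1) * (z - b) = e := by
        linear_combination hS2 z hz
      have h2 : ‖s z - 1‖ * ‖s z + 1‖ * ‖z - b‖ = ‖e‖ := by
        rw [← norm_mul, ← norm_mul, h1]
      rw [le_div_iff₀ hD0]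
      have h3 : ‖s z - 1‖ * 1 * (2 / 3 * D) ≤ ‖s z - 1‖ * ‖s z + 1‖ * ‖z - b‖ := by gcongr
      nlinarith
    have ht1 : 15 / 2 / D ≤ 1 := by
      rw [div_le_one hD0]
      linarith
    have hinv : ‖(z - b)⁻¹‖ ≤ 3 / 2 / D := by
      rw [norm_inv]
      calc ‖z - b‖⁻¹ ≤ (2 / 3 * D)⁻¹ := by gcongr
        _ = 3 / 2 / D := by field_simp
    have hs4 : 1 ≤ ‖(s z + 1) ^ 4‖ := by
      rw [norm_pow]
      exact one_le_pow₀ hs1'
    have hdiff : ‖(z - b)⁻¹ - (z - w₀)⁻¹‖ ≤ 6 / D ^ 2 := by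
      have h1 : (z - b)⁻¹ - (z - w₀)⁻¹ = (b - w₀) * (z - b)⁻¹ * (z - w₀)⁻¹ := by
        field_simp
        ring
      rw [h1, norm_mul, norm_mul, norm_inv (z - w₀), ← hD]
      calc ‖b - w₀‖ * ‖(z - b)⁻¹‖ * D⁻¹ ≤ 4 * (3 / 2 / D) * D⁻¹ := by gcongr
        _ = 6 / D ^ 2 := by field_simp; norm_num
    constructor
    · have h1 := q_far_identity he0 (hS2 z hz)
      have h2 : ‖128 / (3 * e ^ 4) * (S z ^ 3 - (z - b) ^ 3 - 3 / 2 * e * (z - b) ^ 2
          - 3 / 8 * e ^ 2 * (z - b) + e ^ 3 / 16) - (z - b)⁻¹‖ ≤ 600 / D ^ 2 := by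
        simp only [hSdef]
        rw [h1, norm_mul, norm_div]
        have h3 : ‖-16 * (s z - 1) - 64 / 3 * (s z - 1) ^ 2 - 8 * (s z - 1) ^ 3 - (s z - 1) ^ 4‖
            ≤ 48 * (15 / 2 / D) := by
          calc _ ≤ 16 * (15 / 2 / D) + 64 / 3 * (15 / 2 / D) + 8 * (15 / 2 / D) + 15 / 2 / D := by
                refine (norm_sub_le _ _).trans ?_
                gcongr
                · refine (norm_sub_le _ _).trans ?_
                  gcongr
                  · refine (norm_sub_le _ _).trans ?_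
                    gcongr
                    · rw [norm_mul, norm_neg]
                      simp only [Complex.norm_ofNat]
                      gcongr
                    · rw [norm_mul, norm_pow, norm_div]
                      simp only [Complex.norm_ofNat]
                      gcongr
                      exact norm_pow_le_of_le_one hu ht1 2 (by norm_num)
                  · rw [norm_mul, norm_pow]
                    simp only [Complex.norm_ofNat]
                    gcongr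
                    exact norm_pow_le_of_le_one hu ht1 3 (by norm_num)
                · rw [norm_pow]
                  exact norm_pow_le_of_le_one hu ht1 4 (by norm_num)
            _ ≤ 48 * (15 / 2 / D) := by
                have : 0 < 15 / 2 / D := by positivity
                nlinarith
        calc _ ≤ 3 / 2 / D * (48 * (15 / 2 / D) / 1) := by gcongr
          _ ≤ 600 / D ^ 2 := by
            rw [le_div_iff₀ (by positivity)]
            field_simp
            norm_num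
      calc _ = ‖(128 / (3 * e ^ 4) * (S z ^ 3 - (z - b) ^ 3 - 3 / 2 * e * (z - b) ^ 2
          - 3 / 8 * e ^ 2 * (z - b) + e ^ 3 / 16) - (z - b)⁻¹) + ((z - b)⁻¹ - (z - w₀)⁻¹)‖ := by
            ring_nf
        _ ≤ _ := norm_add_le _ _
        _ ≤ 600 / D ^ 2 + 6 / D ^ 2 := by gcongr
        _ = 606 / D ^ 2 := by ring
        _ ≤ 30000 / D ^ 2 := by gcongr; norm_num
    · have h1 := q_far_identity' he0 (hS2 z hz)
      have h2 : ‖-(16 / e ^ 4) * (2 * (z - b) + e - 2 * S z) ^ 2 + ((z - b)⁻¹) ^ 2‖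
          ≤ 1200 / D ^ 3 := by
        simp only [hSdef]
        rw [h1, norm_mul, norm_div, norm_pow (z - b)⁻¹]
        have h3 : ‖(s z - 1) ^ 4 + 8 * (s z - 1) ^ 3 + 24 * (s z - 1) ^ 2 + 32 * (s z - 1)‖
            ≤ 65 * (15 / 2 / D) := by
          calc _ ≤ 15 / 2 / D + 8 * (15 / 2 / D) + 24 * (15 / 2 / D) + 32 * (15 / 2 / D) := by
                refine (norm_add_le _ _).trans ?_
                gcongr
                · refine (norm_add_le _ _).trans ?_
                  gcongr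
                  · refine (norm_add_le _ _).trans ?_
                    gcongr
                    · rw [norm_pow]
                      exact norm_pow_le_of_le_one hu ht1 4 (by norm_num)
                    · rw [norm_mul, norm_pow]
                      simp only [Complex.norm_ofNat]
                      gcongr
                      exact norm_pow_le_of_le_one hu ht1 3 (by norm_num)
                  · rw [norm_mul, norm_pow]
                    simp only [Complex.norm_ofNat]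
                    gcongr
                    exact norm_pow_le_of_le_one hu ht1 2 (by norm_num)
                · rw [norm_mul]
                  simp only [Complex.norm_ofNat]
                  gcongr
            _ = 65 * (15 / 2 / D) := by ring
        calc _ ≤ (3 / 2 / D) ^ 2 * (65 * (15 / 2 / D) / 1) := by gcongr
          _ ≤ 1200 / D ^ 3 := by
            rw [le_div_iff₀ (by positivity)]
            field_simp
            norm_num
      have h3 : ‖((z - w₀)⁻¹) ^ 2 - ((z - b)⁻¹) ^ 2‖ ≤ 15 / D ^ 3 := by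
        have h4 : ((z - w₀)⁻¹) ^ 2 - ((z - b)⁻¹) ^ 2 =
            -(((z - b)⁻¹ - (z - w₀)⁻¹) * ((z - b)⁻¹ + (z - w₀)⁻¹)) := by ring
        rw [h4, norm_neg, norm_mul]
        have h5 : ‖(z - b)⁻¹ + (z - w₀)⁻¹‖ ≤ 3 / 2 / D + D⁻¹ := by
          refine (norm_add_le _ _).trans ?_
          gcongr
          rw [norm_inv]
        calc _ ≤ 6 / D ^ 2 * (3 / 2 / D + D⁻¹) := by gcongr
          _ = 15 / D ^ 3 := by field_simp; norm_num
      calc _ = ‖(-(16 / e ^ 4) * (2 * (z - b) + e - 2 * S z) ^ 2 + ((z - b)⁻¹) ^ 2) +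
            (((z - w₀)⁻¹) ^ 2 - ((z - b)⁻¹) ^ 2)‖ := by ring_nf
        _ ≤ _ := norm_add_le _ _
        _ ≤ 1200 / D ^ 3 + 15 / D ^ 3 := by gcongr
        _ = 1215 / D ^ 3 := by ring
        _ ≤ 30000 / D ^ 3 := by gcongr; norm_num

theorem exists_local_qA : ∃ C : ℝ, 0 < C ∧ ∀ X : Set ℂ, IsCompact X → IsPreconnected Xᶜ →
    ∀ p a : ℂ, a ∉ X → ‖a - p‖ ≤ 10 → ∃ q : ℂ → ℂ,
      (∀ z, (z ∈ X ∨ 24 ≤ ‖z - p‖) → AnalyticAt ℂ q z) ∧
      (∀ z ∈ X, ‖q z‖ ≤ C ∧ ‖deriv q z‖ ≤ C) ∧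
      (∀ z, 24 ≤ ‖z - p‖ → ‖q z - (z - p)⁻¹‖ ≤ C / ‖z - p‖ ^ 2) := by
  obtain ⟨C, hC, h⟩ := exists_local_q0
  refine ⟨4 * C + 20 + 1, by positivity, fun X hX hc p a haX hap => ?_⟩
  obtain ⟨q, q₁, hq, hb⟩ := h X hX hc a ⟨a, haX, by simp⟩
  have hfar : ∀ z : ℂ, 24 ≤ ‖z - p‖ → ‖z - p‖ / 2 ≤ ‖z - a‖ := by
    intro z hz
    have : ‖z - p‖ ≤ ‖z - a‖ + ‖a - p‖ := by
      calc ‖z - p‖ = ‖(z - a) + (a - p)‖ := by ring_nf
        _ ≤ _ := norm_add_le _ _
    linarith
  have hmem : ∀ z, (z ∈ X ∨ 24 ≤ ‖z - p‖) → z ∈ X ∪ {z | 12 ≤ ‖z - a‖} := by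
    rintro z (hz | hz)
    · exact Or.inl hz
    · right
      change 12 ≤ ‖z - a‖
      linarith [hfar z hz]
  refine ⟨q, fun z hz => (hq z (hmem z hz)).1, fun z hz => ?_, fun z hz => ?_⟩
  · rw [(hq z (hmem z (Or.inl hz))).2.deriv]
    rcases le_total ‖z - a‖ 12 with h1 | h1
    · obtain ⟨h2, h3⟩ := (hb z (Or.inl hz)).1 h1
      exact ⟨by linarith, by linarith⟩
    · obtain ⟨h2, h3⟩ := (hb z (Or.inl hz)).2 h1
      have h4 : ‖(z - a)⁻¹‖ ≤ 1 := by
        rw [norm_inv]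
        exact inv_le_one_of_one_le₀ (by linarith)
      have h5 : C / ‖z - a‖ ^ 2 ≤ C := by
        apply div_le_self hC.le
        exact one_le_pow₀ (by linarith)
      have h6 : C / ‖z - a‖ ^ 3 ≤ C := by
        apply div_le_self hC.le
        exact one_le_pow₀ (by linarith)
      constructor
      · calc ‖q z‖ = ‖(q z - (z - a)⁻¹) + (z - a)⁻¹‖ := by ring_nf
          _ ≤ _ := norm_add_le _ _
          _ ≤ C + 1 := by linarith
          _ ≤ _ := by linarith
      · calc ‖q₁ z‖ = ‖(q₁ z + ((z - a)⁻¹) ^ 2) - ((z - a)⁻¹) ^ 2‖ := by ring_nf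
          _ ≤ _ := norm_sub_le _ _
          _ ≤ C + 1 := by
            rw [norm_pow]
            have : ‖(z - a)⁻¹‖ ^ 2 ≤ 1 := pow_le_one₀ (norm_nonneg _) h4
            linarith
          _ ≤ _ := by linarith
  · have h1 := hfar z hz
    have hzp : 0 < ‖z - p‖ := by linarith
    have hza : 0 < ‖z - a‖ := by linarith
    have hza' : z - a ≠ 0 := norm_pos_iff.1 hza
    have hzp' : z - p ≠ 0 := norm_pos_iff.1 hzp
    obtain ⟨h2, _⟩ := (hb z (hmem z (Or.inr hz))).2 (by linarith)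
    have h3 : C / ‖z - a‖ ^ 2 ≤ 4 * C / ‖z - p‖ ^ 2 := by
      rw [div_le_div_iff₀ (by positivity) (by positivity)]
      have : ‖z - p‖ ^ 2 ≤ 4 * ‖z - a‖ ^ 2 := by nlinarith
      nlinarith
    have h4 : ‖(z - a)⁻¹ - (z - p)⁻¹‖ ≤ 20 / ‖z - p‖ ^ 2 := by
      have h5 : (z - a)⁻¹ - (z - p)⁻¹ = (a - p) * (z - a)⁻¹ * (z - p)⁻¹ := by
        field_simp
        ring
      rw [h5, norm_mul, norm_mul, norm_inv, norm_inv]
      have h6 : ‖z - a‖⁻¹ ≤ 2 / ‖z - p‖ := by
        rw [← inv_div]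
        gcongr
      calc _ ≤ 10 * (2 / ‖z - p‖) * ‖z - p‖⁻¹ := by gcongr
        _ = 20 / ‖z - p‖ ^ 2 := by field_simp; norm_num
    calc ‖q z - (z - p)⁻¹‖ = ‖(q z - (z - a)⁻¹) + ((z - a)⁻¹ - (z - p)⁻¹)‖ := by ring_nf
      _ ≤ _ := norm_add_le _ _
      _ ≤ 4 * C / ‖z - p‖ ^ 2 + 20 / ‖z - p‖ ^ 2 := by linarith
      _ = (4 * C + 20) / ‖z - p‖ ^ 2 := by ring
      _ ≤ _ := div_le_div_of_nonneg_right (by linarith) (by positivity)

end Pool.Agent.LibHelper41
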