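import Pool.Agent.Lib_helper41.Wirt
import Pool.Agent.Lib_helper41.LocalQ2

set_option autoImplicit false

namespace Pool.Agent.LibHelper41

open Metric Set Filter Topology Complex

theorem exists_cell : ∃ C : ℝ, 0 < C ∧ ∀ X : Set ℂ, IsCompact X → IsPreconnected Xᶜ →
    ∀ p a : ℂ, a ∉ X → ‖a - p‖ ≤ 10 → ∀ (g : ℂ → ℂ) (A : ℝ), ContDiff ℝ 1 g →
      (∀ w, w ∉ closedBall p 3 → g w = 0) → (∀ w, ‖g w‖ ≤ A) → (∀ w, ‖fderiv ℝ g w‖ ≤ A) →
      ∃ Ψ : ℂ → ℂ, Src {z | z ∈ X ∨ 24 ≤ ‖z - p‖} Ψ g ∧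
        (∀ z, (z ∈ X ∨ 24 ≤ ‖z - p‖) → ‖Ψ z‖ ≤ C * A / (1 + ‖z - p‖) ^ 2) ∧
        (∀ z ∈ X, ‖dz Ψ z‖ ≤ C * A / (1 + ‖z - p‖) ^ 3) := by
  obtain ⟨C₁, hC₁, h₁⟩ := exists_CT_bound 3
  obtain ⟨C₁', hC₁', h₁'⟩ := exists_CT_bound' 3
  obtain ⟨C₂, hC₂, h₂⟩ := exists_CT_far 3 (by norm_num)
  obtain ⟨Cq, hCq, hq⟩ := exists_local_qA
  set K : ℝ := C₂ + C₂ * Cq with hK
  have hK0 : 0 < K := by positivity
  set C : ℝ := 64 * K + 625 * (C₁ + C₂ * Cq) + 117649 * (C₁' + C₂ * Cq) with hCdef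
  refine ⟨C, by positivity, fun X hX hc p a haX hap g A hg hsupp hA hA' => ?_⟩
  have hA0 : 0 ≤ A := (norm_nonneg _).trans (hA 0)
  have hgc : HasCompactSupport g := HasCompactSupport.intro (isCompact_closedBall p 3) hsupp
  obtain ⟨q, hq1, hq2, hq3⟩ := hq X hX hc p a haX hap
  obtain ⟨hc1, hc2⟩ := h₂ g p A hg.continuous hsupp hA
  set c : ℂ := (Real.pi : ℂ)⁻¹ * ∫ w, g w with hcdef
  have hsrcq : Src {z | z ∈ X ∨ 24 ≤ ‖z - p‖} q (fun _ => 0) := src_of_analytic hq1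
  have hsrc : Src {z | z ∈ X ∨ 24 ≤ ‖z - p‖} (fun z => CT g z - c * q z) g := by
    refine ((src_CT hg hgc).sub (hsrcq.const_mul c)).congr (fun z _ => ?_)
    exact Eventually.of_forall (fun x => by ring)
  have hfar : ∀ z, 24 ≤ ‖z - p‖ → ‖CT g z - c * q z‖ ≤ K * A / ‖z - p‖ ^ 2 := by
    intro z hz
    calc ‖CT g z - c * q z‖
        = ‖(CT g z - c * (z - p)⁻¹) - c * (q z - (z - p)⁻¹)‖ := by ring_nf
      _ ≤ ‖CT g z - c * (z - p)⁻¹‖ + ‖c * (q z - (z - p)⁻¹)‖ := norm_sub_le _ _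
      _ ≤ C₂ * A / ‖z - p‖ ^ 2 + (C₂ * A) * (Cq / ‖z - p‖ ^ 2) := by
          rw [norm_mul]
          gcongr
          · exact hc2 z (by linarith)
          · exact hq3 z hz
      _ = K * A / ‖z - p‖ ^ 2 := by rw [hK]; ring
  refine ⟨fun z => CT g z - c * q z, hsrc, fun z hz => ?_, fun z hz => ?_⟩
  · rcases le_total 24 ‖z - p‖ with hD | hD
    · refine (hfar z hD).trans ?_
      have hD0 : 0 < ‖z - p‖ := by linarith
      rw [div_le_div_iff₀ (by positivity) (by positivity)]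
      have h5 : (1 + ‖z - p‖) ^ 2 ≤ 64 * ‖z - p‖ ^ 2 := by nlinarith
      calc K * A * (1 + ‖z - p‖) ^ 2 ≤ K * A * (64 * ‖z - p‖ ^ 2) := by gcongr
        _ = 64 * K * A * ‖z - p‖ ^ 2 := by ring
        _ ≤ C * A * ‖z - p‖ ^ 2 := by
          gcongr
          rw [hCdef]
          have : 0 ≤ 625 * (C₁ + C₂ * Cq) + 117649 * (C₁' + C₂ * Cq) := by positivity
          linarith
    · rw [le_div_iff₀ (by positivity)]
      rcases hz with hz | hz
      · have h5 : ‖CT g z - c * q z‖ ≤ (C₁ + C₂ * Cq) * A := by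
          calc _ ≤ ‖CT g z‖ + ‖c * q z‖ := norm_sub_le _ _
            _ ≤ C₁ * A + (C₂ * A) * Cq := by
              rw [norm_mul]
              gcongr
              · exact h₁ g p A hsupp hA z
              · exact (hq2 z hz).1
            _ = _ := by ring
        have h6 : (1 + ‖z - p‖) ^ 2 ≤ 625 := by nlinarith [norm_nonneg (z - p)]
        calc ‖CT g z - c * q z‖ * (1 + ‖z - p‖) ^ 2 ≤ ((C₁ + C₂ * Cq) * A) * 625 := by gcongr
          _ = (625 * (C₁ + C₂ * Cq)) * A := by ring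
          _ ≤ C * A := by
            gcongr
            rw [hCdef]
            have : 0 ≤ 64 * K + 117649 * (C₁' + C₂ * Cq) := by positivity
            linarith
      · have hD2 : ‖z - p‖ = 24 := le_antisymm hD hz
        have h5 := hfar z hz
        rw [hD2] at h5 ⊢
        calc ‖CT g z - c * q z‖ * (1 + 24) ^ 2 ≤ (K * A / 24 ^ 2) * (1 + 24) ^ 2 := by gcongr
          _ ≤ (64 * K) * A := by nlinarith [mul_nonneg hK0.le hA0]
          _ ≤ C * A := by
            gcongr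
            rw [hCdef]
            have : 0 ≤ 625 * (C₁ + C₂ * Cq) + 117649 * (C₁' + C₂ * Cq) := by positivity
            linarith
  · rw [le_div_iff₀ (by positivity)]
    rcases le_total 48 ‖z - p‖ with hD | hD
    · have hD0 : 0 < ‖z - p‖ := by linarith
      have hball : ∀ y ∈ closedBall z (‖z - p‖ / 2), ‖z - p‖ / 2 ≤ ‖y - p‖ := by
        intro y hy
        rw [mem_closedBall, dist_eq_norm] at hy
        have : ‖z - p‖ ≤ ‖y - z‖ + ‖y - p‖ := by
          calc ‖z - p‖ = ‖(y - p) - (y - z)‖ := by ring_nf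
            _ ≤ ‖y - p‖ + ‖y - z‖ := norm_sub_le _ _
            _ = _ := by ring
        linarith
      have hanal : ∀ y ∈ closedBall z (‖z - p‖ / 2),
          AnalyticAt ℂ (fun z => CT g z - c * q z) y := by
        intro y hy
        have h5 := hball y hy
        refine hsrc.analyticAt (Or.inr (by linarith)) ?_
        have h6 : y ∈ (closedBall p 3)ᶜ := by
          rw [mem_compl_iff, mem_closedBall, dist_eq_norm]
          linarith
        filter_upwards [isClosed_closedBall.isOpen_compl.mem_nhds h6] with w hw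
        exact hsupp w hw
      have hdiff : DiffContOnCl ℂ (fun z => CT g z - c * q z) (ball z (‖z - p‖ / 2)) := by
        refine DifferentiableOn.diffContOnCl ?_
        rw [closure_ball z (by positivity)]
        intro y hy
        exact (hanal y hy).differentiableAt.differentiableWithinAt
      have hsph : ∀ y ∈ sphere z (‖z - p‖ / 2), ‖CT g y - c * q y‖ ≤ 4 * K * A / ‖z - p‖ ^ 2 := by
        intro y hy
        have h5 := hball y (sphere_subset_closedBall hy)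
        refine (hfar y (by linarith)).trans ?_
        calc K * A / ‖y - p‖ ^ 2 ≤ K * A / (‖z - p‖ / 2) ^ 2 := by gcongr
          _ = 4 * K * A / ‖z - p‖ ^ 2 := by field_simp; ring
      have h7 := norm_deriv_le_of_forall_mem_sphere_norm_le (by positivity) hdiff hsph
      have h8 : dz (fun z => CT g z - c * q z) z = deriv (fun z => CT g z - c * q z) z :=
        dz_of_complex (hanal z (mem_closedBall_self (by positivity))).differentiableAt
      rw [h8]
      have h9 : (1 + ‖z - p‖) ^ 3 ≤ 8 * ‖z - p‖ ^ 3 := by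
        calc (1 + ‖z - p‖) ^ 3 ≤ (2 * ‖z - p‖) ^ 3 := by gcongr; linarith
          _ = 8 * ‖z - p‖ ^ 3 := by ring
      calc ‖deriv (fun z => CT g z - c * q z) z‖ * (1 + ‖z - p‖) ^ 3
          ≤ (4 * K * A / ‖z - p‖ ^ 2 / (‖z - p‖ / 2)) * (8 * ‖z - p‖ ^ 3) := by gcongr
        _ = 64 * K * A := by field_simp; ring
        _ ≤ C * A := by
          gcongr
          rw [hCdef]
          have : 0 ≤ 625 * (C₁ + C₂ * Cq) + 117649 * (C₁' + C₂ * Cq) := by positivity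
          linarith
    · have hqa := hq1 z (Or.inl hz)
      have h5 : dz (fun z => CT g z - c * q z) z = dz (CT g) z - c * deriv q z := by
        rw [dz_sub (CT_differentiableAt hg hgc z)
          ((hqa.differentiableAt.restrictScalars ℝ).const_mul c),
          dz_const_mul c (hqa.differentiableAt.restrictScalars ℝ),
          dz_of_complex hqa.differentiableAt]
      rw [h5]
      have h6 : ‖dz (CT g) z - c * deriv q z‖ ≤ (C₁' + C₂ * Cq) * A := by
        calc _ ≤ ‖dz (CT g) z‖ + ‖c * deriv q z‖ := norm_sub_le _ _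
          _ ≤ C₁' * A + (C₂ * A) * Cq := by
            rw [norm_mul]
            gcongr
            · exact h₁' g p A hg hsupp hA' z
            · exact (hq2 z hz).2
          _ = _ := by ring
      have h7 : (1 + ‖z - p‖) ^ 3 ≤ 117649 := by
        calc (1 + ‖z - p‖) ^ 3 ≤ (49 : ℝ) ^ 3 := by gcongr; linarith
          _ = 117649 := by norm_num
      calc ‖dz (CT g) z - c * deriv q z‖ * (1 + ‖z - p‖) ^ 3
          ≤ ((C₁' + C₂ * Cq) * A) * 117649 := by gcongr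
        _ = (117649 * (C₁' + C₂ * Cq)) * A := by ring
        _ ≤ C * A := by
          gcongr
          rw [hCdef]
          have : 0 ≤ 64 * K + 625 * (C₁ + C₂ * Cq) := by positivity
          linarith

theorem compact_scale {X : Set ℂ} (hX : IsCompact X) {s : ℝ} (hs : 0 < s) (p : ℂ) :
    IsCompact {z : ℂ | (s : ℂ) * z + p ∈ X} := by
  have hs' : (s : ℂ) ≠ 0 := by exact_mod_cast hs.ne'
  have h := ((Homeomorph.mulLeft₀ (s : ℂ) hs').trans (Homeomorph.addRight p)).isCompact_preimage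
    (s := X)
  exact h.2 hX

theorem preconn_scale {X : Set ℂ} (hX : IsPreconnected Xᶜ) {s : ℝ} (hs : 0 < s) (p : ℂ) :
    IsPreconnected {z : ℂ | (s : ℂ) * z + p ∈ X}ᶜ := by
  have hs' : (s : ℂ) ≠ 0 := by exact_mod_cast hs.ne'
  have h := ((Homeomorph.mulLeft₀ (s : ℂ) hs').trans
    (Homeomorph.addRight p)).isPreconnected_preimage (s := Xᶜ)
  exact h.2 hX

/-- scaled version -/
theorem exists_cell_scaled : ∃ C : ℝ, 0 < C ∧ ∀ X : Set ℂ, IsCompact X → IsPreconnected Xᶜ →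
    ∀ (s : ℝ) (p a : ℂ), 0 < s → a ∉ X → ‖a - p‖ ≤ 10 * s → ∀ (g : ℂ → ℂ) (A : ℝ),
      ContDiff ℝ 1 g → (∀ w, w ∉ closedBall p (3 * s) → g w = 0) → (∀ w, ‖g w‖ ≤ A) →
      (∀ w, ‖fderiv ℝ g w‖ ≤ A / s) →
      ∃ Ψ : ℂ → ℂ, Src {z | z ∈ X ∨ 24 * s ≤ ‖z - p‖} Ψ g ∧
        (∀ z, (z ∈ X ∨ 24 * s ≤ ‖z - p‖) → ‖Ψ z‖ ≤ C * A * s / (1 + ‖z - p‖ / s) ^ 2) ∧
        (∀ z ∈ X, ‖dz Ψ z‖ ≤ C * A / (1 + ‖z - p‖ / s) ^ 3) := by
  obtain ⟨C, hC, h⟩ := exists_cell
  refine ⟨C, hC, fun X hX hc s p a hs haX hap g A hg hsupp hA hA' => ?_⟩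
  have hs' : (s : ℂ) ≠ 0 := by exact_mod_cast hs.ne'
  have hns : ‖(s : ℂ)‖ = s := by rw [Complex.norm_real, Real.norm_eq_abs, abs_of_pos hs]
  -- rescaled data: `z = s w + p`
  have e1 : ∀ w : ℂ, (s : ℂ) * ((s : ℂ)⁻¹ * (w - p)) + p = w := by
    intro w
    field_simp
    ring
  have e2 : ∀ w : ℂ, ‖(s : ℂ)⁻¹ * (w - p) - 0‖ = ‖w - p‖ / s := by
    intro w
    rw [sub_zero, norm_mul, norm_inv, hns]
    field_simp
  have hg' : ContDiff ℝ 1 (fun z : ℂ => g (s * z + p)) :=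
    hg.comp ((contDiff_const.mul contDiff_id).add contDiff_const)
  obtain ⟨Ψ, h1, h2, h3⟩ := h {z : ℂ | (s : ℂ) * z + p ∈ X} (compact_scale hX hs p)
    (preconn_scale hc hs p) 0 ((s : ℂ)⁻¹ * (a - p))
    (by
      change ¬ ((s : ℂ) * ((s : ℂ)⁻¹ * (a - p)) + p ∈ X)
      rw [e1]
      exact haX)
    (by
      rw [e2, div_le_iff₀ hs]
      exact hap)
    (fun z : ℂ => g (s * z + p)) A hg'
    (fun w hw => hsupp _ (by
      intro hmem
      apply hw
      rw [mem_closedBall, dist_eq_norm] at hmem ⊢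
      rw [sub_zero]
      have : ‖(s : ℂ) * w + p - p‖ = s * ‖w‖ := by
        rw [add_sub_cancel_right, norm_mul, hns]
      rw [this] at hmem
      nlinarith))
    (fun w => hA _)
    (fun w => by
      have h4 : fderiv ℝ (fun z : ℂ => g (s * z + p)) w = s • fderiv ℝ g (s * w + p) := by
        ext v
        rw [fderiv_comp_affine s p w v (hg.differentiable one_ne_zero _)]
        simp
      rw [h4, norm_smul, Real.norm_eq_abs, abs_of_pos hs]
      have := hA' ((s : ℂ) * w + p)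
      rw [le_div_iff₀ hs] at this
      linarith)
  have hdom : ∀ z : ℂ, (z ∈ X ∨ 24 * s ≤ ‖z - p‖) →
      (s : ℂ)⁻¹ * (z - p) ∈ {w : ℂ | w ∈ {z : ℂ | (s : ℂ) * z + p ∈ X} ∨ 24 ≤ ‖w - 0‖} := by
    rintro z (hz | hz)
    · left
      change (s : ℂ) * ((s : ℂ)⁻¹ * (z - p)) + p ∈ X
      rw [e1]
      exact hz
    · right
      rw [e2, le_div_iff₀ hs]
      exact hz
  have e3 : ∀ z : ℂ, (s : ℂ)⁻¹ * (z - p) = ((s⁻¹ : ℝ) : ℂ) * z + (-(s : ℂ)⁻¹ * p) := by
    intro z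
    push_cast
    ring
  have hev : ∀ z : ℂ, (z ∈ X ∨ 24 * s ≤ ‖z - p‖) → ∀ᶠ x in 𝓝 z,
      DifferentiableAt ℝ Ψ ((s : ℂ)⁻¹ * (x - p)) ∧
        dbar Ψ ((s : ℂ)⁻¹ * (x - p)) = g x := by
    intro z hz
    have hcont : ContinuousAt (fun x : ℂ => (s : ℂ)⁻¹ * (x - p)) z := by fun_prop
    have := hcont.eventually (h1 _ (hdom z hz))
    filter_upwards [this] with x hx
    refine ⟨hx.1, ?_⟩
    rw [hx.2, e1]
  refine ⟨fun z => s * Ψ ((s : ℂ)⁻¹ * (z - p)), fun z hz => ?_, fun z hz => ?_, fun z hz => ?_⟩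
  · filter_upwards [hev z hz] with x hx
    have h5 : DifferentiableAt ℝ (fun z => Ψ ((s : ℂ)⁻¹ * (z - p))) x := by
      simp only [e3] at hx ⊢
      exact differentiableAt_comp_affine _ _ _ hx.1
    refine ⟨h5.const_mul _, ?_⟩
    rw [dbar_const_mul _ h5]
    have h6 : dbar (fun z => Ψ ((s : ℂ)⁻¹ * (z - p))) x = ((s⁻¹ : ℝ) : ℂ) * g x := by
      rw [← hx.2]
      simp only [e3] at hx ⊢
      exact dbar_comp_affine _ _ _ hx.1
    rw [h6]
    push_cast
    field_simp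
  · have h5 := h2 _ (hdom z hz)
    rw [e2] at h5
    rw [norm_mul, hns]
    calc s * ‖Ψ ((s : ℂ)⁻¹ * (z - p))‖ ≤ s * (C * A / (1 + ‖z - p‖ / s) ^ 2) := by gcongr
      _ = C * A * s / (1 + ‖z - p‖ / s) ^ 2 := by ring
  · have hx := (hev z (Or.inl hz)).self_of_nhds
    have h5 : DifferentiableAt ℝ (fun z => Ψ ((s : ℂ)⁻¹ * (z - p))) z := by
      simp only [e3] at hx ⊢
      exact differentiableAt_comp_affine _ _ _ hx.1
    have h6 : dz (fun z => Ψ ((s : ℂ)⁻¹ * (z - p))) z =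
        ((s⁻¹ : ℝ) : ℂ) * dz Ψ ((s : ℂ)⁻¹ * (z - p)) := by
      simp only [e3] at hx ⊢
      exact dz_comp_affine _ _ _ hx.1
    rw [dz_const_mul _ h5, h6]
    have h7 := h3 ((s : ℂ)⁻¹ * (z - p)) (by
      change (s : ℂ) * ((s : ℂ)⁻¹ * (z - p)) + p ∈ X
      rw [e1]
      exact hz)
    rw [e2] at h7
    have h8 : (s : ℂ) * (((s⁻¹ : ℝ) : ℂ) * dz Ψ ((s : ℂ)⁻¹ * (z - p))) =
        dz Ψ ((s : ℂ)⁻¹ * (z - p)) := by
      push_cast
      field_simp
    rw [h8]
    exact h7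

end Pool.Agent.LibHelper41
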