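import Pool.Agent.Lib_helper41.Lattice

set_option autoImplicit false

namespace Pool.Agent.LibHelper41

open Metric Set Filter Topology Complex

theorem exists_overlap : ∃ C : ℝ, 1 ≤ C ∧ ∀ (s : ℝ) (z : ℂ) (S : Finset (ℤ × ℤ)), 0 < s →
    ∑ k ∈ S, (if ‖z - pt s k‖ ≤ 3 / 2 * s then (1 : ℝ) else 0) ≤ C := by
  obtain ⟨C, hC, h⟩ := exists_sum_wt2
  have hw : 0 < wt (3 / 2) ^ 2 := pow_pos (wt_pos (by norm_num)) 2
  refine ⟨max 1 (C / wt (3 / 2) ^ 2), le_max_left _ _, fun s z S hs => ?_⟩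
  refine le_trans ?_ (le_max_right _ _)
  rw [le_div_iff₀ hw, Finset.sum_mul]
  refine le_trans (Finset.sum_le_sum (fun k _ => ?_)) (h s z S hs)
  split_ifs with hk
  · rw [one_mul]
    have h1 : wt (3 / 2) ≤ wt (‖z - pt s k‖ / s) := by
      apply wt_anti (by positivity)
      rw [div_le_iff₀ hs]
      exact hk
    have h2 : 0 ≤ wt (3 / 2) := (wt_pos (by norm_num)).le
    gcongr
  · rw [zero_mul]
    positivity

/-- sums of the bumps -/
theorem exists_sumphi_bound : ∃ C : ℝ, 1 ≤ C ∧ ∀ (s : ℝ) (S : Finset (ℤ × ℤ)), 0 < s →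
    (∀ z, ‖∑ k ∈ S, phi s k z‖ ≤ C) ∧
    (∀ z, ‖fderiv ℝ (fun z => ∑ k ∈ S, phi s k z) z‖ ≤ C / s) ∧
    (∀ z, ‖fderiv ℝ (dbar (fun z => ∑ k ∈ S, phi s k z)) z‖ ≤ C / s ^ 2) := by
  obtain ⟨C, hC, h⟩ := exists_overlap
  obtain ⟨B, hB1, hB2, hB3⟩ := exists_bump_bound
  refine ⟨C * B, by nlinarith, fun s S hs => ⟨fun z => ?_, fun z => ?_, fun z => ?_⟩⟩
  · calc ‖∑ k ∈ S, phi s k z‖ ≤ ∑ k ∈ S, ‖phi s k z‖ := norm_sum_le _ _
      _ ≤ ∑ k ∈ S, (if ‖z - pt s k‖ ≤ 3 / 2 * s then (1 : ℝ) else 0) := by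
        refine Finset.sum_le_sum (fun k _ => ?_)
        split_ifs with hk
        · exact norm_phi_le s k z
        · rw [phi_eq_zero hs (by linarith), norm_zero]
      _ ≤ C := h s z S hs
      _ ≤ C * B := by nlinarith
  · rw [fderiv_fun_sum (fun k _ => phi_differentiableAt s k z)]
    calc ‖∑ k ∈ S, fderiv ℝ (phi s k) z‖ ≤ ∑ k ∈ S, ‖fderiv ℝ (phi s k) z‖ := norm_sum_le _ _
      _ ≤ ∑ k ∈ S, (if ‖z - pt s k‖ ≤ 3 / 2 * s then (1 : ℝ) else 0) * (B / s) := by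
        refine Finset.sum_le_sum (fun k _ => ?_)
        split_ifs with hk
        · rw [one_mul]
          exact norm_fderiv_phi_le hB2 hs k z
        · rw [fderiv_phi_zero hs (by linarith), norm_zero, zero_mul]
      _ = (∑ k ∈ S, (if ‖z - pt s k‖ ≤ 3 / 2 * s then (1 : ℝ) else 0)) * (B / s) := by
        rw [Finset.sum_mul]
      _ ≤ C * (B / s) := by
        gcongr
        exact h s z S hs
      _ = C * B / s := by ring
  · have e1 : dbar (fun z => ∑ k ∈ S, phi s k z) = fun z => ∑ k ∈ S, dbar (phi s k) z :=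
      funext (fun x => dbar_sum S (fun k _ => phi_differentiableAt s k x))
    rw [e1, fderiv_fun_sum (fun k _ => (contDiff_dbar (phi_contDiff (n := 2) s k)).differentiable
      one_ne_zero z)]
    calc ‖∑ k ∈ S, fderiv ℝ (dbar (phi s k)) z‖ ≤ ∑ k ∈ S, ‖fderiv ℝ (dbar (phi s k)) z‖ :=
          norm_sum_le _ _
      _ ≤ ∑ k ∈ S, (if ‖z - pt s k‖ ≤ 3 / 2 * s then (1 : ℝ) else 0) * (B / s ^ 2) := by
        refine Finset.sum_le_sum (fun k _ => ?_)
        split_ifs with hk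
        · rw [one_mul]
          exact norm_fderiv_dbar_phi_le hB3 hs k z
        · have h1 : dbar (phi s k) =ᶠ[𝓝 z] fun _ => 0 := by
            have h2 : ContinuousAt (fun x => ‖x - pt s k‖) z := by fun_prop
            filter_upwards [h2.eventually (lt_mem_nhds (not_le.1 hk))] with x hx
            unfold dbar
            rw [fderiv_phi_zero hs hx]
            simp
          rw [h1.fderiv_eq]
          simp
      _ = (∑ k ∈ S, (if ‖z - pt s k‖ ≤ 3 / 2 * s then (1 : ℝ) else 0)) * (B / s ^ 2) := by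
        rw [Finset.sum_mul]
      _ ≤ C * (B / s ^ 2) := by
        gcongr
        exact h s z S hs
      _ = C * B / s ^ 2 := by ring

theorem exists_box (s : ℝ) (hs : 0 < s) (M : ℝ) : ∃ N : ℕ, M < N * s := by
  obtain ⟨N, hN⟩ := exists_nat_gt (M / s)
  refine ⟨N, ?_⟩
  rwa [div_lt_iff₀ hs] at hN

/-- radial cutoffs -/
theorem exists_cutoff : ∃ C : ℝ, 1 ≤ C ∧ ∀ ρ d : ℝ, 0 ≤ ρ → 0 < d → ∃ χ : ℂ → ℂ,
    ContDiff ℝ 2 χ ∧ (∀ z, ‖z‖ < ρ + d / 2 → χ z = 1) ∧ (∀ z, ρ + 3 * d / 4 ≤ ‖z‖ → χ z = 0) ∧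
    (∀ z, ‖χ z‖ ≤ C) ∧ (∀ z, ‖fderiv ℝ χ z‖ ≤ C / d) ∧
    (∀ z, ‖fderiv ℝ (dbar χ) z‖ ≤ C / d ^ 2) := by
  obtain ⟨C, hC, h⟩ := exists_sumphi_bound
  refine ⟨C * 256, by linarith, fun ρ d hρ hd => ?_⟩
  set s : ℝ := d / 16 with hs
  have hs0 : 0 < s := by positivity
  obtain ⟨N, hN⟩ := exists_box s hs0 (ρ + d)
  classical
  set S : Finset (ℤ × ℤ) := (box N).filter (fun k => ‖pt s k‖ ≤ ρ + 5 * d / 8) with hS
  obtain ⟨h1, h2, h3⟩ := h s S hs0
  refine ⟨fun z => ∑ k ∈ S, phi s k z, ?_, ?_, ?_, ?_, ?_, ?_⟩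
  · exact ContDiff.sum (fun k _ => phi_contDiff (n := 2) s k)
  · intro z hz
    have e1 : ∑ k ∈ box N, phi s k z = 1 := by
      apply sum_phi hs0 N
      · exact (Complex.abs_re_le_norm z).trans (by linarith)
      · exact (Complex.abs_im_le_norm z).trans (by linarith)
    change ∑ k ∈ S, phi s k z = 1
    rw [← e1]
    refine Finset.sum_subset (Finset.filter_subset _ _) (fun k hk hk2 => ?_)
    apply phi_eq_zero hs0
    by_contra hcon
    push Not at hcon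
    apply hk2
    rw [hS, Finset.mem_filter]
    refine ⟨hk, ?_⟩
    have : ‖pt s k‖ ≤ ‖z‖ + ‖z - pt s k‖ := by
      calc ‖pt s k‖ = ‖z - (z - pt s k)‖ := by ring_nf
        _ ≤ _ := norm_sub_le _ _
    rw [hs] at hcon
    linarith
  · intro z hz
    change ∑ k ∈ S, phi s k z = 0
    refine Finset.sum_eq_zero (fun k hk => ?_)
    rw [hS, Finset.mem_filter] at hk
    apply phi_eq_zero hs0
    have : ‖z‖ ≤ ‖z - pt s k‖ + ‖pt s k‖ := by
      calc ‖z‖ = ‖(z - pt s k) + pt s k‖ := by ring_nf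
        _ ≤ _ := norm_add_le _ _
    rw [hs]
    rw [hs] at this hk
    linarith [hk.2]
  · intro z
    exact (h1 z).trans (by linarith)
  · intro z
    refine (h2 z).trans ?_
    rw [hs, div_le_div_iff₀ (by positivity) hd]
    nlinarith
  · intro z
    refine (h3 z).trans ?_
    rw [hs, div_le_div_iff₀ (by positivity) (by positivity)]
    nlinarith

end Pool.Agent.LibHelper41
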