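import Pool.Agent.Lib_helper41.Glue

set_option autoImplicit false

namespace Pool.Agent.LibHelper41

open Metric Set Filter Topology Complex

theorem inv_cube_le_wt' {t L : ℝ} (ht : 0 ≤ t) (hL : 0 < L) (hLt : L ≤ 1 + t) :
    1 / (1 + t) ^ 3 ≤ wt t ^ 2 / Real.sqrt L := by
  rw [wt_sq ht]
  have h3 : 0 < Real.sqrt (1 + t) := Real.sqrt_pos.2 (by linarith)
  have h4 : 0 < Real.sqrt L := Real.sqrt_pos.2 hL
  have h5 : Real.sqrt L ≤ Real.sqrt (1 + t) := Real.sqrt_le_sqrt hLt
  have h6 : Real.sqrt (1 + t) * Real.sqrt (1 + t) = 1 + t := Real.mul_self_sqrt (by linarith)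
  have h1 : 0 < 1 + t := by linarith
  rw [div_div, div_le_div_iff₀ (by positivity) (by positivity)]
  calc 1 * ((1 + t) ^ 2 * Real.sqrt (1 + t) * Real.sqrt L)
      ≤ (1 + t) ^ 2 * Real.sqrt (1 + t) * Real.sqrt (1 + t) := by
        rw [one_mul]
        gcongr
    _ = (1 + t) ^ 2 * (Real.sqrt (1 + t) * Real.sqrt (1 + t)) := by ring
    _ = 1 * (1 + t) ^ 3 := by rw [h6]; ring

/-- the extra error at scale `r`, distance `d` -/
noncomputable def theta (r d : ℝ) : ℝ :=
  if d ≤ 5 * r then 0 else if d ≤ 20 * r then 1 else Real.sqrt (r / d)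

theorem exists_single_scale : ∃ c₀ : ℝ, 0 < c₀ ∧ c₀ ≤ 1 ∧ ∀ X : Set ℂ, IsCompact X →
    IsPreconnected Xᶜ → ∀ (f g : ℂ → ℂ) (e : ℝ) (O : Set ℂ) (z₀ : ℂ) (ρ : ℝ) (F : ℂ → ℂ),
    0 < e → IsOpen O → Good X f g e O → z₀ ∈ X \ O → (∀ z ∈ X \ O, z ∈ closure Xᶜ) →
    0 < ρ → ρ ≤ 1 →
    (∀ z w, ‖F z - F w‖ ≤ 2 * (c₀ * e) * ‖z - w‖) →
    (∀ w ∈ X ∩ closedBall z₀ (ρ / 4), ‖F w - f w‖ ≤ 3 * (c₀ * e) * infDist w (X \ O)) →
    (∀ w ∈ X ∩ closedBall z₀ (ρ / 4), ‖g w‖ ≤ c₀ * e) →
    ∀ r τ : ℝ, 0 < r → r ≤ ρ / 100 → 0 < τ →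
    ∃ h : ℂ → ℂ, ∀ z ∈ X ∩ closedBall z₀ (ρ / 16),
      AnalyticAt ℂ h z ∧ ‖h z - f z‖ ≤ 28 * e * Real.sqrt r + τ ∧
        ‖deriv h z - g z‖ ≤ e + τ + e * theta r (infDist z (X \ O)) := by
  obtain ⟨Cw, hCw, hwt⟩ := exists_sum_wt2
  obtain ⟨Ce, hCe, hest⟩ := exists_sum_est
  have hCe0 : 0 < Ce := by linarith
  set δ : ℝ := 1 / (16 * Cw) with hδ
  have hδ0 : 0 < δ := by positivity
  have hδC : 4 * δ * Cw = 1 / 4 := by rw [hδ]; field_simp; norm_num
  obtain ⟨τ₀, hτ₀, hpatch⟩ := exists_patch δ hδ0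
  set c₀ : ℝ := min (τ₀ / 30) (1 / (100 * Ce)) with hc₀
  have hc₀0 : 0 < c₀ := lt_min (by positivity) (by positivity)
  have hc₀1 : 30 * c₀ ≤ τ₀ := by
    have := min_le_left (τ₀ / 30) (1 / (100 * Ce))
    rw [← hc₀] at this
    linarith
  have hc₀2 : 100 * Ce * c₀ ≤ 1 := by
    have := min_le_right (τ₀ / 30) (1 / (100 * Ce))
    rw [← hc₀, le_div_iff₀ (by positivity)] at this
    linarith
  have hc₀3 : 100 * c₀ ≤ 1 := by nlinarith
  refine ⟨c₀, hc₀0, by linarith, ?_⟩
  intro X hX hXc f g e O z₀ ρ F he hO hgood hz₀ hcl hρ hρ1 hF1 hF2 hg r τ hr hrρ hτ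
  classical
  set E : Set ℂ := X \ O with hE
  have hEc : IsCompact E := hX.diff hO
  have hEne : E.Nonempty := ⟨z₀, hz₀⟩
  set c : ℝ := c₀ * e with hc
  have hc0 : 0 < c := by positivity
  have hce : 100 * c ≤ e := by rw [hc]; nlinarith
  have hr1 : r ≤ 1 / 100 := by linarith
  set K : Set ℂ := X ∩ closedBall z₀ (ρ / 16) with hK
  have hKX : K ⊆ X := inter_subset_left
  have hKc : IsCompact K := hX.inter_right isClosed_closedBall
  have hK4 : ∀ z ∈ K, z ∈ X ∩ closedBall z₀ (ρ / 4) := by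
    rintro z ⟨h1, h2⟩
    refine ⟨h1, ?_⟩
    rw [mem_closedBall] at h2 ⊢
    linarith
  obtain ⟨N, hN⟩ := exists_box_compact hKc hr
  set Kr : Set ℂ := (X ∩ closedBall z₀ (ρ / 4)) ∩ {z | r / 2 ≤ infDist z E} with hKr
  have hKrc : IsCompact Kr := by
    refine (hX.inter_right isClosed_closedBall).inter_right ?_
    exact isClosed_le continuous_const (continuous_infDist_pt E)
  have hKrO : Kr ⊆ O ∩ X := by
    rintro z ⟨⟨h1, h2⟩, h3⟩
    refine ⟨?_, h1⟩
    by_contra h4
    have h5 : infDist z E = 0 := infDist_zero_of_mem ⟨h1, h4⟩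
    have h6 : r / 2 ≤ infDist z E := h3
    rw [h5] at h6
    linarith
  set τr : ℝ := min (c * r) (τ / (1 + Ce / r)) with hτr
  have hτr0 : 0 < τr := lt_min (by positivity) (by positivity)
  have hτr1 : τr ≤ c * r := min_le_left _ _
  have hτr2 : τr + Ce / r * τr ≤ τ := by
    have : τr ≤ τ / (1 + Ce / r) := min_le_right _ _
    rw [le_div_iff₀ (by positivity)] at this
    linarith
  have hCer : 0 < Ce / r := by positivity
  have hτr3 : τr ≤ τ := by
    have : 0 ≤ Ce / r * τr := by positivity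
    linarith
  have hτr4 : τr ≤ e / 100 := by
    have : c * r ≤ c * 1 := by gcongr; linarith
    linarith
  obtain ⟨u, hu⟩ := hgood Kr hKrc hKrO τr hτr0
  let Near : ℤ × ℤ → Prop := fun k => infDist (pt r k) E ≤ 13 / 2 * r
  let G : ℤ × ℤ → ℂ → ℂ := fun k => if Near k then (fun _ => F (pt r k)) else u
  have hd1 : ∀ z w : ℂ, infDist z E ≤ infDist w E + ‖z - w‖ := by
    intro z w
    have := infDist_le_infDist_add_dist (s := E) (x := z) (y := w)
    rwa [dist_eq_norm] at this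
  -- basic estimates for the pieces
  have hNearb : ∀ k, Near k → ∀ z ∈ X ∩ closedBall z₀ (ρ / 4), ∀ t : ℝ, ‖z - pt r k‖ ≤ t →
      ‖F (pt r k) - f z‖ ≤ 2 * c * t + 3 * c * (13 / 2 * r + t) := by
    intro k hk z hz t ht
    have h1 : ‖F (pt r k) - F z‖ ≤ 2 * c * t := by
      refine (hF1 _ _).trans ?_
      rw [norm_sub_rev]
      gcongr
    have h2 : ‖F z - f z‖ ≤ 3 * c * (13 / 2 * r + t) := by
      refine (hF2 z hz).trans ?_
      have h3 := hd1 z (pt r k)
      have h4 : infDist (pt r k) E ≤ 13 / 2 * r := hk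
      gcongr
      linarith
    calc ‖F (pt r k) - f z‖ = ‖(F (pt r k) - F z) + (F z - f z)‖ := by ring_nf
      _ ≤ _ := norm_add_le _ _
      _ ≤ _ := add_le_add h1 h2
  have hGn : ∀ k, ∀ z ∈ X ∩ closedBall z₀ (ρ / 4), ‖z - pt r k‖ ≤ 6 * r →
      AnalyticAt ℂ (G k) z ∧ ‖G k z - f z‖ ≤ 50 * c * r ∧ ‖deriv (G k) z‖ ≤ 2 * e := by
    intro k z hz hzk
    by_cases hk : Near k
    · have hG : G k = fun _ => F (pt r k) := if_pos hk
      rw [hG]
      refine ⟨analyticAt_const, ?_, ?_⟩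
      · refine (hNearb k hk z hz (6 * r) hzk).trans ?_
        have : 0 ≤ c * r := by positivity
        nlinarith
      · simp only [deriv_const, norm_zero]
        positivity
    · have hG : G k = u := if_neg hk
      rw [hG]
      have h1 : z ∈ Kr := by
        refine ⟨hz, ?_⟩
        change r / 2 ≤ infDist z E
        have h2 := hd1 (pt r k) z
        rw [norm_sub_rev] at h2
        have h3 : 13 / 2 * r < infDist (pt r k) E := not_le.1 hk
        linarith
      obtain ⟨u1, u2, u3⟩ := hu z h1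
      refine ⟨u1, ?_, ?_⟩
      · have : 0 ≤ c * r := by positivity
        linarith
      · calc ‖deriv u z‖ = ‖(deriv u z - g z) + g z‖ := by ring_nf
          _ ≤ _ := norm_add_le _ _
          _ ≤ (e + τr) + c := add_le_add u3 (hg z hz)
          _ ≤ 2 * e := by linarith
  set J : Finset (ℤ × ℤ) := (box N).filter (fun j => (∃ z ∈ K, ‖z - pt r j‖ ≤ 3 / 2 * r) ∧
    ∃ k ∈ box N, ‖pt r j - pt r k‖ ≤ 3 * r ∧ (Near k ∨ Near j)) with hJ
  have hJE : ∀ j ∈ J, ∃ x ∈ E, ‖x - pt r j‖ ≤ 19 / 2 * r := by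
    intro j hj
    rw [hJ, Finset.mem_filter] at hj
    obtain ⟨_, _, k, _, hjk, hNk⟩ := hj
    rcases hNk with h1 | h1
    · obtain ⟨x, hx, hxk⟩ := hEc.exists_infDist_eq_dist hEne (pt r k)
      refine ⟨x, hx, ?_⟩
      have h2 : ‖x - pt r k‖ ≤ 13 / 2 * r := by
        rw [← dist_eq_norm, dist_comm, ← hxk]
        exact h1
      calc ‖x - pt r j‖ = ‖(x - pt r k) - (pt r j - pt r k)‖ := by ring_nf
        _ ≤ ‖x - pt r k‖ + ‖pt r j - pt r k‖ := norm_sub_le _ _
        _ ≤ 19 / 2 * r := by linarith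
    · obtain ⟨x, hx, hxk⟩ := hEc.exists_infDist_eq_dist hEne (pt r j)
      refine ⟨x, hx, ?_⟩
      rw [← dist_eq_norm, dist_comm, ← hxk]
      have h2 : infDist (pt r j) E ≤ 13 / 2 * r := h1
      linarith
  obtain ⟨h, v, hh, _, hv⟩ := hpatch X hX hXc r (4 * e) N G J K hr (by positivity) hKX
    (Finset.filter_subset _ _)
    (by
      intro j hj k hk hjk z hz
      rw [hJ, Finset.mem_filter] at hj
      obtain ⟨_, ⟨z', hz', hz'j⟩, _⟩ := hj
      have hz2 := hz.2
      rw [mem_closedBall, dist_eq_norm] at hz2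
      have hz3 : z ∈ X ∩ closedBall z₀ (ρ / 4) := by
        refine ⟨hz.1, ?_⟩
        have h1 := hz'.2
        rw [mem_closedBall, dist_eq_norm] at h1 ⊢
        calc ‖z - z₀‖ = ‖(z - pt r j) - (z' - pt r j) + (z' - z₀)‖ := by ring_nf
          _ ≤ ‖(z - pt r j) - (z' - pt r j)‖ + ‖z' - z₀‖ := norm_add_le _ _
          _ ≤ (‖z - pt r j‖ + ‖z' - pt r j‖) + ‖z' - z₀‖ := by
              gcongr
              exact norm_sub_le _ _
          _ ≤ ρ / 4 := by linarith
      obtain ⟨g1, g2, g3⟩ := hGn k z hz3 (by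
        calc ‖z - pt r k‖ = ‖(z - pt r j) + (pt r j - pt r k)‖ := by ring_nf
          _ ≤ ‖z - pt r j‖ + ‖pt r j - pt r k‖ := norm_add_le _ _
          _ ≤ 6 * r := by linarith)
      obtain ⟨g1', g2', g3'⟩ := hGn j z hz3 (by linarith)
      refine ⟨g1, g1', ?_, ?_⟩
      · calc ‖G k z - G j z‖ = ‖(G k z - f z) - (G j z - f z)‖ := by ring_nf
          _ ≤ ‖G k z - f z‖ + ‖G j z - f z‖ := norm_sub_le _ _
          _ ≤ 50 * c * r + 50 * c * r := add_le_add g2 g2'
          _ = 100 * c₀ * (e * r) := by rw [hc]; ring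
          _ ≤ (4 * τ₀) * (e * r) :=
              mul_le_mul_of_nonneg_right (by linarith) (by positivity)
          _ = τ₀ * (4 * e) * r := by ring
      · calc ‖deriv (G k) z - deriv (G j) z‖ ≤ ‖deriv (G k) z‖ + ‖deriv (G j) z‖ :=
              norm_sub_le _ _
          _ ≤ 4 * e := by linarith)
    hN
    (by
      intro z hz k hk hzk
      exact (hGn k z (hK4 z hz) (by linarith)).1)
    (by
      intro j hj hjJ hnz k hk hjk
      have hnn : ¬ (Near k ∨ Near j) := by
        intro hcon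
        exact hjJ (Finset.mem_filter.2 ⟨hj, hnz, k, hk, hjk, hcon⟩)
      have h1 : ¬ Near k := fun h => hnn (Or.inl h)
      have h2 : ¬ Near j := fun h => hnn (Or.inr h)
      have h3 : G k = u := if_neg h1
      have h4 : G j = u := if_neg h2
      rw [h3, h4])
  have hv' := hv (by
    intro j hj
    obtain ⟨x, hx, hxj⟩ := hJE j hj
    obtain ⟨a, ha, hxa⟩ := Metric.mem_closure_iff.1 (hcl x hx) (r / 2) (by positivity)
    refine ⟨a, ha, ?_⟩
    rw [dist_comm, dist_eq_norm] at hxa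
    calc ‖a - pt r j‖ = ‖(a - x) + (x - pt r j)‖ := by ring_nf
      _ ≤ ‖a - x‖ + ‖x - pt r j‖ := norm_add_le _ _
      _ ≤ 10 * r := by linarith)
  clear hv
  refine ⟨h, fun z hz => ?_⟩
  obtain ⟨a1, a2, a3⟩ := hh z hz
  obtain ⟨v1, v2⟩ := hv' z (hKX hz)
  obtain ⟨b1, b2⟩ := hN z hz
  have hz4 := hK4 z hz
  have hs1 : ∑ k ∈ box N, phi r k z = 1 := sum_phi hr N b1.le b2.le
  have hs2 : ∑ k ∈ box N, dz (phi r k) z = 0 := sum_dz_phi hr N b1 b2
  set d : ℝ := infDist z E with hd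
  have hd0 : 0 ≤ d := infDist_nonneg
  -- bounds of the correction
  have hJz : ∀ j ∈ J, ‖z - pt r j‖ ≤ 1 := by
    intro j hj
    rw [hJ, Finset.mem_filter] at hj
    obtain ⟨_, ⟨z', hz', hz'j⟩, _⟩ := hj
    have h1 := hz'.2
    have h2 := hz.2
    rw [mem_closedBall, dist_eq_norm] at h1 h2
    calc ‖z - pt r j‖ = ‖(z - z₀) - (z' - z₀) + (z' - pt r j)‖ := by ring_nf
      _ ≤ ‖(z - z₀) - (z' - z₀)‖ + ‖z' - pt r j‖ := norm_add_le _ _
      _ ≤ (‖z - z₀‖ + ‖z' - z₀‖) + ‖z' - pt r j‖ := by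
          gcongr
          exact norm_sub_le _ _
      _ ≤ 1 := by linarith
  have hv1 : ‖v z‖ ≤ e * Real.sqrt r := by
    refine v1.trans ?_
    have h1 : ∑ j ∈ J, 1 / (1 + ‖z - pt r j‖ / r) ^ 2 ≤ Real.sqrt (1 + 1 / r) * Cw := by
      calc ∑ j ∈ J, 1 / (1 + ‖z - pt r j‖ / r) ^ 2
          ≤ ∑ j ∈ J, Real.sqrt (1 + 1 / r) * wt (‖z - pt r j‖ / r) ^ 2 := by
            refine Finset.sum_le_sum (fun j hj => inv_sq_le_wt (by positivity) ?_)
            gcongr
            exact hJz j hj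
        _ = Real.sqrt (1 + 1 / r) * ∑ j ∈ J, wt (‖z - pt r j‖ / r) ^ 2 := by
            rw [Finset.mul_sum]
        _ ≤ Real.sqrt (1 + 1 / r) * Cw := by
            gcongr
            exact hwt r z J hr
    have h2 : r * Real.sqrt (1 + 1 / r) ≤ 2 * Real.sqrt r := by
      have h3 : r * Real.sqrt (1 + 1 / r) = Real.sqrt (r ^ 2 * (1 + 1 / r)) := by
        rw [Real.sqrt_mul (by positivity), Real.sqrt_sq hr.le]
      have h4 : 2 * Real.sqrt r = Real.sqrt (4 * r) := by
        rw [Real.sqrt_mul (by norm_num)]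
        congr 1
        rw [show (4 : ℝ) = 2 ^ 2 by norm_num, Real.sqrt_sq (by norm_num)]
      rw [h3, h4]
      apply Real.sqrt_le_sqrt
      have h5 : r ^ 2 * (1 + 1 / r) = r ^ 2 + r := by field_simp
      rw [h5]
      nlinarith
    calc δ * (4 * e) * r * ∑ j ∈ J, 1 / (1 + ‖z - pt r j‖ / r) ^ 2
        ≤ δ * (4 * e) * r * (Real.sqrt (1 + 1 / r) * Cw) := by gcongr
      _ = (4 * δ * Cw) * e * (r * Real.sqrt (1 + 1 / r)) := by ring
      _ ≤ 1 / 4 * e * (2 * Real.sqrt r) := by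
          rw [hδC]
          gcongr
      _ ≤ e * Real.sqrt r := by
          have : 0 ≤ e * Real.sqrt r := by positivity
          linarith
  have hv2 : ‖dz v z‖ ≤ e / 4 := by
    refine v2.trans ?_
    calc δ * (4 * e) * ∑ j ∈ J, 1 / (1 + ‖z - pt r j‖ / r) ^ 3
        ≤ δ * (4 * e) * ∑ j ∈ J, wt (‖z - pt r j‖ / r) ^ 2 := by
          gcongr with j hj
          exact inv_cube_le_wt (by positivity)
      _ ≤ δ * (4 * e) * Cw := by
          gcongr
          exact hwt r z J hr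
      _ = (4 * δ * Cw) * e := by ring
      _ = e / 4 := by rw [hδC]; ring
  have hv3 : 20 * r < d → ‖dz v z‖ ≤ e * Real.sqrt (r / d) := by
    intro hd20
    have hdpos : 0 < d := by linarith
    refine v2.trans ?_
    have h1 : ∀ j ∈ J, 1 / (1 + ‖z - pt r j‖ / r) ^ 3 ≤
        wt (‖z - pt r j‖ / r) ^ 2 * (2 * Real.sqrt (r / d)) := by
      intro j hj
      obtain ⟨x, hx, hxj⟩ := hJE j hj
      have h2 : d ≤ ‖z - x‖ := by
        rw [hd, ← dist_eq_norm]
        exact infDist_le_dist_of_mem hx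
      have h3 : ‖z - x‖ ≤ ‖z - pt r j‖ + ‖x - pt r j‖ := by
        calc ‖z - x‖ = ‖(z - pt r j) - (x - pt r j)‖ := by ring_nf
          _ ≤ _ := norm_sub_le _ _
      have h4 : d / 2 ≤ ‖z - pt r j‖ := by linarith
      have h5 : d / (4 * r) ≤ 1 + ‖z - pt r j‖ / r := by
        have h6 : d / (4 * r) ≤ ‖z - pt r j‖ / r := by
          rw [div_le_div_iff₀ (by positivity) hr]
          nlinarith
        linarith
      refine (inv_cube_le_wt' (by positivity) (by positivity) h5).trans (le_of_eq ?_)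
      rw [div_eq_mul_inv]
      congr 1
      rw [← Real.sqrt_inv]
      have h7 : (d / (4 * r))⁻¹ = 4 * (r / d) := by field_simp
      rw [h7, Real.sqrt_mul (by norm_num)]
      congr 1
      rw [show (4 : ℝ) = 2 ^ 2 by norm_num, Real.sqrt_sq (by norm_num)]
    calc δ * (4 * e) * ∑ j ∈ J, 1 / (1 + ‖z - pt r j‖ / r) ^ 3
        ≤ δ * (4 * e) * ∑ j ∈ J, wt (‖z - pt r j‖ / r) ^ 2 * (2 * Real.sqrt (r / d)) := by
          gcongr with j hj
          exact h1 j hj
      _ = δ * (4 * e) * ((∑ j ∈ J, wt (‖z - pt r j‖ / r) ^ 2) * (2 * Real.sqrt (r / d))) := by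
          rw [Finset.sum_mul]
      _ ≤ δ * (4 * e) * (Cw * (2 * Real.sqrt (r / d))) := by
          gcongr
          exact hwt r z J hr
      _ = (4 * δ * Cw) * e * (2 * Real.sqrt (r / d)) := by ring
      _ = 1 / 4 * e * (2 * Real.sqrt (r / d)) := by rw [hδC]
      _ ≤ e * Real.sqrt (r / d) := by
          have : 0 ≤ e * Real.sqrt (r / d) := by positivity
          linarith
  -- touching pieces
  have htouch : ∀ k ∈ box N, ‖z - pt r k‖ ≤ 3 / 2 * r →
      ‖G k z - f z‖ ≤ 27 * c * r + τr ∧ ‖deriv (G k) z - g z‖ ≤ e + τr := by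
    intro k _ hzk
    by_cases hk : Near k
    · have hG : G k = fun _ => F (pt r k) := if_pos hk
      rw [hG]
      constructor
      · refine (hNearb k hk z hz4 (3 / 2 * r) hzk).trans ?_
        have : 0 ≤ c * r := by positivity
        nlinarith
      · simp only [deriv_const, zero_sub, norm_neg]
        have := hg z hz4
        linarith
    · have hG : G k = u := if_neg hk
      rw [hG]
      have h1 : z ∈ Kr := by
        refine ⟨hz4, ?_⟩
        change r / 2 ≤ infDist z E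
        have h2 := hd1 (pt r k) z
        rw [norm_sub_rev] at h2
        have h3 : 13 / 2 * r < infDist (pt r k) E := not_le.1 hk
        linarith
      obtain ⟨u1, u2, u3⟩ := hu z h1
      refine ⟨?_, u3⟩
      have : 0 ≤ c * r := by positivity
      linarith
  have e1 : h z - f z = (∑ k ∈ box N, phi r k z * (G k z - f z)) - v z := by
    rw [a2]
    have : ∑ k ∈ box N, phi r k z * (G k z - f z) =
        (∑ k ∈ box N, phi r k z * G k z) - (∑ k ∈ box N, phi r k z) * f z := by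
      rw [Finset.sum_mul, ← Finset.sum_sub_distrib]
      exact Finset.sum_congr rfl (fun k _ => by ring)
    rw [this, hs1]
    ring
  have e2 : deriv h z - g z = (∑ k ∈ box N, phi r k z * (deriv (G k) z - g z)) +
      (∑ k ∈ box N, dz (phi r k) z * (G k z - f z)) - dz v z := by
    rw [a3]
    have e2 : ∑ k ∈ box N, phi r k z * (deriv (G k) z - g z) =
        (∑ k ∈ box N, phi r k z * deriv (G k) z) - (∑ k ∈ box N, phi r k z) * g z := by
      rw [Finset.sum_mul, ← Finset.sum_sub_distrib]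
      exact Finset.sum_congr rfl (fun k _ => by ring)
    have e3 : ∑ k ∈ box N, dz (phi r k) z * (G k z - f z) =
        (∑ k ∈ box N, dz (phi r k) z * G k z) - (∑ k ∈ box N, dz (phi r k) z) * f z := by
      rw [Finset.sum_mul, ← Finset.sum_sub_distrib]
      exact Finset.sum_congr rfl (fun k _ => by ring)
    rw [e2, e3, hs1, hs2]
    ring
  have hder : ∀ A B : ℝ, 0 ≤ A → 0 ≤ B →
      (∀ k ∈ box N, ‖z - pt r k‖ ≤ 3 / 2 * r → ‖deriv (G k) z - g z‖ ≤ A ∧ ‖G k z - f z‖ ≤ B) →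
      ‖deriv h z - g z‖ ≤ A + Ce / r * B + ‖dz v z‖ := by
    intro A B hA hB hAB
    obtain ⟨s3, _⟩ := hest r N z (fun k => deriv (G k) z - g z) A hr b1 b2 hA
      (fun k hk hzk => (hAB k hk hzk).1)
    obtain ⟨_, s2⟩ := hest r N z (fun k => G k z - f z) B hr b1 b2 hB
      (fun k hk hzk => (hAB k hk hzk).2)
    rw [e2]
    calc _ ≤ ‖(∑ k ∈ box N, phi r k z * (deriv (G k) z - g z)) +
          (∑ k ∈ box N, dz (phi r k) z * (G k z - f z))‖ + ‖dz v z‖ := norm_sub_le _ _
      _ ≤ (‖∑ k ∈ box N, phi r k z * (deriv (G k) z - g z)‖ +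
          ‖∑ k ∈ box N, dz (phi r k) z * (G k z - f z)‖) + ‖dz v z‖ := by
          gcongr
          exact norm_add_le _ _
      _ ≤ _ := by gcongr
  have hcr : 0 ≤ c * r := by positivity
  have hCc : Ce * c ≤ e / 100 := by
    rw [hc]
    nlinarith
  refine ⟨a1, ?_, ?_⟩
  · obtain ⟨s1, _⟩ := hest r N z (fun k => G k z - f z) (27 * c * r + τr) hr b1 b2
      (by positivity) (fun k hk hzk => (htouch k hk hzk).1)
    rw [e1]
    have h1 : r ≤ Real.sqrt r := by
      rw [Real.le_sqrt hr.le hr.le]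
      nlinarith
    calc _ ≤ ‖∑ k ∈ box N, phi r k z * (G k z - f z)‖ + ‖v z‖ := norm_sub_le _ _
      _ ≤ (27 * c * r + τr) + e * Real.sqrt r := add_le_add s1 hv1
      _ ≤ (27 * e * Real.sqrt r + τ) + e * Real.sqrt r := by
          have : c ≤ e := by linarith
          gcongr
      _ = 28 * e * Real.sqrt r + τ := by ring
  · unfold theta
    split_ifs with hd5 hd20
    · -- all touching pieces are near
      have h1 := hder c (27 * c * r) hc0.le (by positivity) (by
        intro k hk hzk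
        have hNk : Near k := by
          have := hd1 (pt r k) z
          rw [norm_sub_rev] at this
          change infDist (pt r k) E ≤ 13 / 2 * r
          linarith
        have hG : G k = fun _ => F (pt r k) := if_pos hNk
        rw [hG]
        constructor
        · simp only [deriv_const, zero_sub, norm_neg]
          exact hg z hz4
        · refine (hNearb k hNk z hz4 (3 / 2 * r) hzk).trans ?_
          nlinarith)
      have h2 : Ce / r * (27 * c * r) = 27 * (Ce * c) := by field_simp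
      rw [h2] at h1
      linarith
    · -- mixed region
      have h1 := hder (e + τr) (28 * c * r) (by positivity) (by positivity) (by
        intro k hk hzk
        obtain ⟨t1, t2⟩ := htouch k hk hzk
        exact ⟨t2, by linarith⟩)
      have h2 : Ce / r * (28 * c * r) = 28 * (Ce * c) := by field_simp
      rw [h2] at h1
      linarith
    · -- all touching pieces are far
      have h1 := hder (e + τr) τr (by positivity) hτr0.le (by
        intro k hk hzk
        have hNk : ¬ Near k := by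
          intro hcon
          have := hd1 z (pt r k)
          have h3 : infDist (pt r k) E ≤ 13 / 2 * r := hcon
          linarith
        have hG : G k = u := if_neg hNk
        rw [hG]
        have h1 : z ∈ Kr := by
          refine ⟨hz4, ?_⟩
          change r / 2 ≤ infDist z E
          linarith
        obtain ⟨u1, u2, u3⟩ := hu z h1
        exact ⟨u3, u2⟩)
      have h2 := hv3 (not_le.1 hd20)
      linarith

end Pool.Agent.LibHelper41
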