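import Pool.Agent.Lib_helper41.Patch

set_option autoImplicit false

namespace Pool.Agent.LibHelper41

open Metric Set Filter Topology Complex

theorem sum_norm_phi {s : ℝ} (hs : 0 < s) (N : ℕ) {z : ℂ} (h1 : |z.re| ≤ N * s)
    (h2 : |z.im| ≤ N * s) : ∑ k ∈ box N, ‖phi s k z‖ = 1 := by
  have h3 := sum_phi hs N h1 h2
  have e : ∀ k ∈ box N, phi s k z = ((‖phi s k z‖ : ℝ) : ℂ) := by
    intro k _
    rw [phi_real s hs k z, Complex.norm_real, Real.norm_eq_abs, abs_of_nonneg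
      (mul_nonneg (bump1_nonneg _) (bump1_nonneg _))]
  rw [Finset.sum_congr rfl e, ← Complex.ofReal_sum] at h3
  exact_mod_cast h3

/-- estimates for partition sums -/
theorem exists_sum_est : ∃ C : ℝ, 1 ≤ C ∧ ∀ (r : ℝ) (N : ℕ) (z : ℂ) (F : ℤ × ℤ → ℂ) (b : ℝ),
    0 < r → |z.re| < N * r → |z.im| < N * r → 0 ≤ b →
    (∀ k ∈ box N, ‖z - pt r k‖ ≤ 3 / 2 * r → ‖F k‖ ≤ b) →
    ‖∑ k ∈ box N, phi r k z * F k‖ ≤ b ∧ ‖∑ k ∈ box N, dz (phi r k) z * F k‖ ≤ C / r * b := by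
  obtain ⟨C, hC, h⟩ := exists_overlap
  obtain ⟨B, hB1, hB2, hB3⟩ := exists_bump_bound
  refine ⟨C * B, by nlinarith, fun r N z F b hr h1 h2 hb hF => ⟨?_, ?_⟩⟩
  · calc ‖∑ k ∈ box N, phi r k z * F k‖ ≤ ∑ k ∈ box N, ‖phi r k z * F k‖ := norm_sum_le _ _
      _ ≤ ∑ k ∈ box N, ‖phi r k z‖ * b := by
        refine Finset.sum_le_sum (fun k hk => ?_)
        rw [norm_mul]
        rcases le_or_gt ‖z - pt r k‖ (3 / 2 * r) with h3 | h3
        · gcongr
          exact hF k hk h3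
        · rw [phi_eq_zero hr h3.le, norm_zero, zero_mul, zero_mul]
      _ = b := by rw [← Finset.sum_mul, sum_norm_phi hr N h1.le h2.le, one_mul]
  · calc ‖∑ k ∈ box N, dz (phi r k) z * F k‖ ≤ ∑ k ∈ box N, ‖dz (phi r k) z * F k‖ :=
        norm_sum_le _ _
      _ ≤ ∑ k ∈ box N, (if ‖z - pt r k‖ ≤ 3 / 2 * r then (1 : ℝ) else 0) * (B / r * b) := by
        refine Finset.sum_le_sum (fun k hk => ?_)
        rw [norm_mul]
        split_ifs with h3
        · rw [one_mul]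
          gcongr
          · exact norm_dz_le.trans (norm_fderiv_phi_le hB2 hr k z)
          · exact hF k hk h3
        · rw [dz_phi_zero hr (not_le.1 h3), norm_zero, zero_mul, zero_mul]
      _ = (∑ k ∈ box N, (if ‖z - pt r k‖ ≤ 3 / 2 * r then (1 : ℝ) else 0)) * (B / r * b) := by
        rw [Finset.sum_mul]
      _ ≤ C * (B / r * b) := by
        gcongr
        exact h r z (box N) hr
      _ = C * B / r * b := by ring

/-- `f` with derivative `g` can be approximated on compact subsets of `O ∩ X` with derivative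
error `e` -/
def Good (X : Set ℂ) (f g : ℂ → ℂ) (e : ℝ) (O : Set ℂ) : Prop :=
  ∀ K : Set ℂ, IsCompact K → K ⊆ O ∩ X → ∀ τ : ℝ, 0 < τ → ∃ h : ℂ → ℂ,
    ∀ z ∈ K, AnalyticAt ℂ h z ∧ ‖h z - f z‖ ≤ τ ∧ ‖deriv h z - g z‖ ≤ e + τ

theorem Good.mono {X : Set ℂ} {f g : ℂ → ℂ} {e : ℝ} {O O' : Set ℂ} (h : Good X f g e O)
    (hO : O' ⊆ O) : Good X f g e O' := fun K hK hKO τ hτ =>
  h K hK (fun z hz => ⟨hO (hKO hz).1, (hKO hz).2⟩) τ hτ

theorem exists_box_compact {K : Set ℂ} (hK : IsCompact K) {r : ℝ} (hr : 0 < r) :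
    ∃ N : ℕ, ∀ z ∈ K, |z.re| < N * r ∧ |z.im| < N * r := by
  obtain ⟨M, hM⟩ := hK.isBounded.exists_norm_le
  obtain ⟨N, hN⟩ := exists_box r hr M
  exact ⟨N, fun z hz => ⟨((Complex.abs_re_le_norm z).trans (hM z hz)).trans_lt hN,
    ((Complex.abs_im_le_norm z).trans (hM z hz)).trans_lt hN⟩⟩

/-- **Gluing lemma** -/
theorem Good.union {X : Set ℂ} (hX : IsCompact X) (hXc : IsPreconnected Xᶜ) {f g : ℂ → ℂ} {e : ℝ}
    (he : 0 < e) {O₁ O₂ : Set ℂ} (ho₁ : IsOpen O₁) (ho₂ : IsOpen O₂)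
    (h₁ : Good X f g e O₁) (h₂ : Good X f g e O₂) : Good X f g e (O₁ ∪ O₂) := by
  intro K hK hKO τ hτ
  classical
  obtain ⟨Ce, hCe, hest⟩ := exists_sum_est
  have hCe0 : 0 < Ce := by linarith
  -- the Lebesgue number
  obtain ⟨δ₀, hδ₀, hleb⟩ := lebesgue_number_lemma_of_metric (c := fun b : Bool => cond b O₁ O₂)
    hK (by rintro (_ | _) <;> assumption) (fun z hz => by
      rcases (hKO hz).1 with h | h
      · exact mem_iUnion.2 ⟨true, h⟩
      · exact mem_iUnion.2 ⟨false, h⟩)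
  set r : ℝ := δ₀ / 20 with hr
  have hr0 : 0 < r := by positivity
  obtain ⟨N, hN⟩ := exists_box_compact hK hr0
  let T : ℤ × ℤ → Prop := fun k => closedBall (pt r k) (6 * r) ⊆ O₁
  let Nr : ℤ × ℤ → Prop := fun k => ∃ z ∈ K, ‖z - pt r k‖ ≤ 9 * r
  have hT2 : ∀ k, Nr k → ¬ T k → closedBall (pt r k) (6 * r) ⊆ O₂ := by
    rintro k ⟨z, hz, hzk⟩ hk
    have hsub : closedBall (pt r k) (6 * r) ⊆ ball z δ₀ := by
      intro y hy
      rw [mem_closedBall, dist_eq_norm] at hy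
      rw [mem_ball, dist_eq_norm]
      have : ‖y - z‖ ≤ ‖y - pt r k‖ + ‖z - pt r k‖ := by
        calc ‖y - z‖ = ‖(y - pt r k) - (z - pt r k)‖ := by ring_nf
          _ ≤ _ := norm_sub_le _ _
      have h5 : δ₀ = 20 * r := by rw [hr]; ring
      linarith
    obtain ⟨b, hb⟩ := hleb z hz
    cases b with
    | true => exact absurd (hsub.trans hb) hk
    | false => exact hsub.trans hb
  set K₁ : Set ℂ := ⋃ k ∈ (box N).filter (fun k => T k), X ∩ closedBall (pt r k) (6 * r) with hK₁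
  set K₂ : Set ℂ := ⋃ k ∈ (box N).filter (fun k => ¬ T k ∧ Nr k),
    X ∩ closedBall (pt r k) (6 * r) with hK₂
  have hK₁c : IsCompact K₁ :=
    Finset.isCompact_biUnion _ (fun k _ => hX.inter_right isClosed_closedBall)
  have hK₂c : IsCompact K₂ :=
    Finset.isCompact_biUnion _ (fun k _ => hX.inter_right isClosed_closedBall)
  have hK₁O : K₁ ⊆ O₁ ∩ X := by
    intro z hz
    rw [hK₁, mem_iUnion₂] at hz
    obtain ⟨k, hk, hz1, hz2⟩ := hz
    exact ⟨(Finset.mem_filter.1 hk).2 hz2, hz1⟩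
  have hK₂O : K₂ ⊆ O₂ ∩ X := by
    intro z hz
    rw [hK₂, mem_iUnion₂] at hz
    obtain ⟨k, hk, hz1, hz2⟩ := hz
    have := (Finset.mem_filter.1 hk).2
    exact ⟨hT2 k this.2 this.1 hz2, hz1⟩
  -- constants
  set M : ℝ := 2 * e + 2 with hM
  have hM0 : 0 < M := by positivity
  set n₀ : ℝ := (box N).card + 1 with hn₀
  have hn₀0 : 0 < n₀ := by positivity
  set δ : ℝ := τ / (4 * M * n₀ * (1 + r)) with hδ
  have hδ0 : 0 < δ := by positivity
  obtain ⟨τ₀, hτ₀, hpatch⟩ := exists_patch δ hδ0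
  set τ' : ℝ := min 1 (min (τ₀ * M * r / 2) (τ / (4 * (1 + Ce / r)))) with hτ'
  have hτ'0 : 0 < τ' := lt_min one_pos (lt_min (by positivity) (by positivity))
  have hτ'1 : τ' ≤ 1 := min_le_left _ _
  have hτ'2 : 2 * τ' ≤ τ₀ * M * r := by
    have : τ' ≤ τ₀ * M * r / 2 := (min_le_right _ _).trans (min_le_left _ _)
    linarith
  have hτ'3 : (1 + Ce / r) * τ' ≤ τ / 4 := by
    have : τ' ≤ τ / (4 * (1 + Ce / r)) := (min_le_right _ _).trans (min_le_right _ _)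
    rw [le_div_iff₀ (by positivity)] at this
    linarith
  obtain ⟨u₁, hu₁⟩ := h₁ K₁ hK₁c hK₁O τ' hτ'0
  obtain ⟨u₂, hu₂⟩ := h₂ K₂ hK₂c hK₂O τ' hτ'0
  let G : ℤ × ℤ → ℂ → ℂ := fun k => if T k then u₁ else u₂
  have hGn : ∀ k ∈ box N, Nr k → ∀ z ∈ X, z ∈ closedBall (pt r k) (6 * r) →
      AnalyticAt ℂ (G k) z ∧ ‖G k z - f z‖ ≤ τ' ∧ ‖deriv (G k) z - g z‖ ≤ e + τ' := by
    intro k hk hkn z hz hzk
    by_cases hTk : T k
    · have hG : G k = u₁ := if_pos hTk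
      rw [hG]
      refine hu₁ z ?_
      rw [hK₁, mem_iUnion₂]
      exact ⟨k, Finset.mem_filter.2 ⟨hk, hTk⟩, hz, hzk⟩
    · have hG : G k = u₂ := if_neg hTk
      rw [hG]
      refine hu₂ z ?_
      rw [hK₂, mem_iUnion₂]
      exact ⟨k, Finset.mem_filter.2 ⟨hk, hTk, hkn⟩, hz, hzk⟩
  set J : Finset (ℤ × ℤ) := (box N).filter (fun j => (∃ z ∈ K, ‖z - pt r j‖ ≤ 3 / 2 * r) ∧
    ∃ k ∈ box N, ‖pt r j - pt r k‖ ≤ 3 * r ∧ ¬ (T k ↔ T j)) with hJ
  have hnear : ∀ j, (∃ z ∈ K, ‖z - pt r j‖ ≤ 3 / 2 * r) → ∀ k, ‖pt r j - pt r k‖ ≤ 3 * r →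
      Nr k := by
    rintro j ⟨z, hz, hzj⟩ k hk
    refine ⟨z, hz, ?_⟩
    calc ‖z - pt r k‖ = ‖(z - pt r j) + (pt r j - pt r k)‖ := by ring_nf
      _ ≤ ‖z - pt r j‖ + ‖pt r j - pt r k‖ := norm_add_le _ _
      _ ≤ 9 * r := by linarith
  obtain ⟨h, v, hh, hv, _⟩ := hpatch X hX hXc r M N G J K hr0 hM0 (fun z hz => (hKO hz).2)
    (Finset.filter_subset _ _)
    (by
      intro j hj k hk hjk z hz
      rw [hJ, Finset.mem_filter] at hj
      have hz2 := hz.2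
      rw [mem_closedBall, dist_eq_norm] at hz2
      obtain ⟨g1, g2, g3⟩ := hGn k hk (hnear j hj.2.1 k hjk) z hz.1 (by
        rw [mem_closedBall, dist_eq_norm]
        calc ‖z - pt r k‖ = ‖(z - pt r j) + (pt r j - pt r k)‖ := by ring_nf
          _ ≤ ‖z - pt r j‖ + ‖pt r j - pt r k‖ := norm_add_le _ _
          _ ≤ 6 * r := by linarith)
      obtain ⟨g1', g2', g3'⟩ := hGn j hj.1 (hnear j hj.2.1 j (by simp; positivity)) z hz.1 (by
        rw [mem_closedBall, dist_eq_norm]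
        linarith)
      refine ⟨g1, g1', ?_, ?_⟩
      · calc ‖G k z - G j z‖ = ‖(G k z - f z) - (G j z - f z)‖ := by ring_nf
          _ ≤ ‖G k z - f z‖ + ‖G j z - f z‖ := norm_sub_le _ _
          _ ≤ τ₀ * M * r := by linarith
      · calc ‖deriv (G k) z - deriv (G j) z‖ =
              ‖(deriv (G k) z - g z) - (deriv (G j) z - g z)‖ := by ring_nf
          _ ≤ ‖deriv (G k) z - g z‖ + ‖deriv (G j) z - g z‖ := norm_sub_le _ _
          _ ≤ M := by rw [hM]; linarith)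
    hN
    (by
      intro z hz k hk hzk
      refine (hGn k hk ⟨z, hz, by linarith⟩ z (hKO hz).2 ?_).1
      rw [mem_closedBall, dist_eq_norm]
      linarith)
    (by
      intro j hj hjJ hnz k hk hjk
      have : T k ↔ T j := by
        by_contra hcon
        exact hjJ (Finset.mem_filter.2 ⟨hj, hnz, k, hk, hjk, hcon⟩)
      simp only [G]
      simp only [this])
  have hcard : (J.card : ℝ) ≤ n₀ := by
    have : J.card ≤ (box N).card := Finset.card_le_card (Finset.filter_subset _ _)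
    have : (J.card : ℝ) ≤ (box N).card := by exact_mod_cast this
    linarith
  have hδM : δ * M * n₀ * (1 + r) = τ / 4 := by
    rw [hδ]
    field_simp
  refine ⟨h, fun z hz => ?_⟩
  obtain ⟨a1, a2, a3⟩ := hh z hz
  obtain ⟨v1, v2⟩ := hv z (hKO hz).2
  obtain ⟨b1, b2⟩ := hN z hz
  have hs1 : ∑ k ∈ box N, phi r k z = 1 := sum_phi hr0 N b1.le b2.le
  have hs2 : ∑ k ∈ box N, dz (phi r k) z = 0 := sum_dz_phi hr0 N b1 b2
  have hv1 : ‖v z‖ ≤ τ / 4 := by
    refine v1.trans ?_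
    rw [← hδM]
    have : δ * M * r * J.card ≤ δ * M * r * n₀ := by gcongr
    have h6 : 0 ≤ δ * M * n₀ := by positivity
    nlinarith
  have hv2 : ‖dz v z‖ ≤ τ / 4 := by
    refine v2.trans ?_
    rw [← hδM]
    have : δ * M * J.card ≤ δ * M * n₀ := by gcongr
    have h6 : 0 ≤ δ * M * n₀ * r := by positivity
    nlinarith
  have hGz : ∀ k ∈ box N, ‖z - pt r k‖ ≤ 3 / 2 * r →
      ‖G k z - f z‖ ≤ τ' ∧ ‖deriv (G k) z - g z‖ ≤ e + τ' := by
    intro k hk hzk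
    refine (hGn k hk ⟨z, hz, by linarith⟩ z (hKO hz).2 ?_).2
    rw [mem_closedBall, dist_eq_norm]
    linarith
  obtain ⟨s1, s2⟩ := hest r N z (fun k => G k z - f z) τ' hr0 b1 b2 hτ'0.le
    (fun k hk hzk => (hGz k hk hzk).1)
  obtain ⟨s3, _⟩ := hest r N z (fun k => deriv (G k) z - g z) (e + τ') hr0 b1 b2 (by positivity)
    (fun k hk hzk => (hGz k hk hzk).2)
  have hCr : 0 ≤ Ce / r := by positivity
  have hτs : τ' + Ce / r * τ' ≤ τ / 4 := by linarith
  have hτs2 : 0 ≤ Ce / r * τ' := by positivity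
  refine ⟨a1, ?_, ?_⟩
  · have e1 : h z - f z = (∑ k ∈ box N, phi r k z * (G k z - f z)) - v z := by
      rw [a2]
      have : ∑ k ∈ box N, phi r k z * (G k z - f z) =
          (∑ k ∈ box N, phi r k z * G k z) - (∑ k ∈ box N, phi r k z) * f z := by
        rw [Finset.sum_mul, ← Finset.sum_sub_distrib]
        exact Finset.sum_congr rfl (fun k _ => by ring)
      rw [this, hs1]
      ring
    rw [e1]
    calc _ ≤ ‖∑ k ∈ box N, phi r k z * (G k z - f z)‖ + ‖v z‖ := norm_sub_le _ _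
      _ ≤ τ' + τ / 4 := add_le_add s1 hv1
      _ ≤ τ := by linarith
  · have e1 : deriv h z - g z = (∑ k ∈ box N, phi r k z * (deriv (G k) z - g z)) +
        (∑ k ∈ box N, dz (phi r k) z * (G k z - f z)) - dz v z := by
      rw [a3]
      have e2 : ∑ k ∈ box N, phi r k z * (deriv (G k) z - g z) =
          (∑ k ∈ box N, phi r k z * deriv (G k) z) - (∑ k ∈ box N, phi r k z) * g z := by
        rw [Finset.sum_mul, ← Finset.sum_sub_distrib]
        exact Finset.sum_congr rfl (fun k _ => by ring)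
      have e3 : ∑ k ∈ box N, dz (phi r k) z * (G k z - f z) =
          (∑ k ∈ box N, dz (phi r k) z * G k z) - (∑ k ∈ box N, dz (phi r k) z) * f z := by
        rw [Finset.sum_mul, ← Finset.sum_sub_distrib]
        exact Finset.sum_congr rfl (fun k _ => by ring)
      rw [e2, e3, hs1, hs2]
      ring
    rw [e1]
    calc _ ≤ ‖(∑ k ∈ box N, phi r k z * (deriv (G k) z - g z)) +
          (∑ k ∈ box N, dz (phi r k) z * (G k z - f z))‖ + ‖dz v z‖ := norm_sub_le _ _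
      _ ≤ (‖∑ k ∈ box N, phi r k z * (deriv (G k) z - g z)‖ +
          ‖∑ k ∈ box N, dz (phi r k) z * (G k z - f z)‖) + ‖dz v z‖ := by
          gcongr
          exact norm_add_le _ _
      _ ≤ ((e + τ') + Ce / r * τ') + τ / 4 := by gcongr
      _ ≤ e + τ := by linarith

end Pool.Agent.LibHelper41
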