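import Pool.Agent.Lib_helper41.Wirt

set_option autoImplicit false

namespace Pool.Agent.LibHelper41

open Metric Set Filter Topology Complex

/-- the weight -/
noncomputable def wt (t : ℝ) : ℝ := (1 + t) ^ (-(5 / 4) : ℝ)

theorem wt_pos {t : ℝ} (ht : 0 ≤ t) : 0 < wt t := by
  unfold wt
  positivity

theorem wt_le_one {t : ℝ} (ht : 0 ≤ t) : wt t ≤ 1 := by
  unfold wt
  exact Real.rpow_le_one_of_one_le_of_nonpos (by linarith) (by norm_num)

theorem wt_anti {t u : ℝ} (ht : 0 ≤ t) (h : t ≤ u) : wt u ≤ wt t := by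
  unfold wt
  exact Real.rpow_le_rpow_of_nonpos (by linarith) (by linarith) (by norm_num)

theorem wt_sq {t : ℝ} (ht : 0 ≤ t) : wt t ^ 2 = 1 / ((1 + t) ^ 2 * Real.sqrt (1 + t)) := by
  have h1 : 0 < 1 + t := by linarith
  unfold wt
  rw [← Real.rpow_natCast, ← Real.rpow_mul h1.le, Real.sqrt_eq_rpow, ← Real.rpow_natCast,
    ← Real.rpow_add h1, one_div, ← Real.rpow_neg h1.le]
  norm_num

theorem inv_cube_le_wt {t : ℝ} (ht : 0 ≤ t) : 1 / (1 + t) ^ 3 ≤ wt t ^ 2 := by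
  rw [wt_sq ht]
  have h1 : 1 ≤ 1 + t := by linarith
  have h2 : Real.sqrt (1 + t) ≤ 1 + t := by
    rw [Real.sqrt_le_left (by linarith)]
    nlinarith
  have h3 : 0 < Real.sqrt (1 + t) := Real.sqrt_pos.2 (by linarith)
  apply one_div_le_one_div_of_le (by positivity)
  calc (1 + t) ^ 2 * Real.sqrt (1 + t) ≤ (1 + t) ^ 2 * (1 + t) := by gcongr
    _ = (1 + t) ^ 3 := by ring

theorem inv_sq_le_wt {t T : ℝ} (ht : 0 ≤ t) (hT : t ≤ T) :
    1 / (1 + t) ^ 2 ≤ Real.sqrt (1 + T) * wt t ^ 2 := by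
  rw [wt_sq ht]
  have h3 : 0 < Real.sqrt (1 + t) := Real.sqrt_pos.2 (by linarith)
  have h4 : Real.sqrt (1 + t) ≤ Real.sqrt (1 + T) := Real.sqrt_le_sqrt (by linarith)
  rw [mul_one_div, div_le_div_iff₀ (by positivity) (by positivity)]
  calc 1 * ((1 + t) ^ 2 * Real.sqrt (1 + t)) ≤ (1 + t) ^ 2 * Real.sqrt (1 + T) := by
        rw [one_mul]
        gcongr
    _ = Real.sqrt (1 + T) * (1 + t) ^ 2 := by ring

/-- lattice sums in dimension one -/
theorem exists_sum_wt : ∃ C : ℝ, 0 < C ∧ ∀ (x : ℝ) (S : Finset ℤ), ∑ n ∈ S, wt |x - n| ≤ C := by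
  set f : ℤ → ℝ := fun m => |(m : ℝ)| ^ (-(5 / 4) : ℝ) + (if m = 0 then 1 else 0) with hf
  have hf0 : ∀ m, 0 ≤ f m := by
    intro m
    simp only [hf]
    have : (0 : ℝ) ≤ (if m = 0 then 1 else 0) := by split_ifs <;> norm_num
    positivity
  have hfs : Summable f := by
    refine (Real.summable_abs_int_rpow (b := 5 / 4) (by norm_num)).add ?_
    exact summable_of_ne_finset_zero (s := {0}) (fun b hb => by
      rw [Finset.mem_singleton] at hb
      simp [hb])
  refine ⟨∑' m, f m + 1, by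
    have : 0 ≤ ∑' m, f m := tsum_nonneg hf0
    linarith, fun x S => ?_⟩
  have h1 : ∀ n : ℤ, wt |x - n| ≤ f (n - ⌊x⌋) := by
    intro n
    set m : ℤ := n - ⌊x⌋ with hm
    have h2 : |(m : ℝ)| ≤ 1 + |x - n| := by
      have h3 : (m : ℝ) = (n - x) + Int.fract x := by
        rw [hm, Int.fract]
        push_cast
        ring
      rw [h3]
      calc |(n - x) + Int.fract x| ≤ |n - x| + |Int.fract x| := abs_add_le _ _
        _ ≤ |x - n| + 1 := by
          rw [abs_sub_comm, abs_of_nonneg (Int.fract_nonneg x)]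
          linarith [Int.fract_lt_one x]
        _ = 1 + |x - n| := by ring
    simp only [hf]
    by_cases h0 : m = 0
    · have h4 : wt |x - n| ≤ 1 := wt_le_one (abs_nonneg _)
      have h5 : (0 : ℝ) ≤ |(m : ℝ)| ^ (-(5 / 4) : ℝ) := by positivity
      rw [if_pos h0]
      linarith
    · rw [if_neg h0, add_zero]
      unfold wt
      have h6 : 0 < |(m : ℝ)| := abs_pos.2 (by exact_mod_cast h0)
      exact Real.rpow_le_rpow_of_nonpos h6 h2 (by norm_num)
  calc ∑ n ∈ S, wt |x - n| ≤ ∑ n ∈ S, f (n - ⌊x⌋) := Finset.sum_le_sum (fun n _ => h1 n)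
    _ = ∑ m ∈ S.map (Equiv.subRight ⌊x⌋).toEmbedding, f m := by
      rw [Finset.sum_map]
      rfl
    _ ≤ ∑' m, f m := hfs.sum_le_tsum _ (fun m _ => hf0 m)
    _ ≤ ∑' m, f m + 1 := by linarith

/-- lattice points -/
noncomputable def pt (s : ℝ) (k : ℤ × ℤ) : ℂ := ⟨s * k.1, s * k.2⟩

/-- lattice sums -/
theorem exists_sum_wt2 : ∃ C : ℝ, 0 < C ∧ ∀ (s : ℝ) (z : ℂ) (S : Finset (ℤ × ℤ)), 0 < s →
    ∑ k ∈ S, wt (‖z - pt s k‖ / s) ^ 2 ≤ C := by
  obtain ⟨C, hC, h⟩ := exists_sum_wt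
  refine ⟨C * C, by positivity, fun s z S hs => ?_⟩
  classical
  have h1 : ∀ k : ℤ × ℤ, wt (‖z - pt s k‖ / s) ^ 2 ≤
      wt |z.re / s - k.1| * wt |z.im / s - k.2| := by
    intro k
    have e1 : |z.re / s - k.1| ≤ ‖z - pt s k‖ / s := by
      rw [le_div_iff₀ hs]
      calc |z.re / s - k.1| * s = |(z - pt s k).re| := by
            rw [← abs_of_pos hs, ← abs_mul, abs_of_pos hs]
            congr 1
            simp only [pt, Complex.sub_re]
            field_simp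
        _ ≤ ‖z - pt s k‖ := Complex.abs_re_le_norm _
    have e2 : |z.im / s - k.2| ≤ ‖z - pt s k‖ / s := by
      rw [le_div_iff₀ hs]
      calc |z.im / s - k.2| * s = |(z - pt s k).im| := by
            rw [← abs_of_pos hs, ← abs_mul, abs_of_pos hs]
            congr 1
            simp only [pt, Complex.sub_im]
            field_simp
        _ ≤ ‖z - pt s k‖ := Complex.abs_im_le_norm _
    rw [pow_two]
    have e3 := wt_anti (abs_nonneg _) e1
    have e4 := wt_anti (abs_nonneg _) e2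
    have e5 : 0 ≤ wt (‖z - pt s k‖ / s) := (wt_pos (by positivity)).le
    exact mul_le_mul e3 e4 e5 (e5.trans e3)
  calc ∑ k ∈ S, wt (‖z - pt s k‖ / s) ^ 2
      ≤ ∑ k ∈ S, wt |z.re / s - k.1| * wt |z.im / s - k.2| := Finset.sum_le_sum (fun k _ => h1 k)
    _ ≤ ∑ k ∈ (S.image Prod.fst) ×ˢ (S.image Prod.snd),
          wt |z.re / s - k.1| * wt |z.im / s - k.2| := by
        refine Finset.sum_le_sum_of_subset_of_nonneg ?_ (fun k _ _ => ?_)
        · intro k hk
          rw [Finset.mem_product]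
          exact ⟨Finset.mem_image_of_mem _ hk, Finset.mem_image_of_mem _ hk⟩
        · exact mul_nonneg (wt_pos (abs_nonneg _)).le (wt_pos (abs_nonneg _)).le
    _ = (∑ m ∈ S.image Prod.fst, wt |z.re / s - m|) * (∑ n ∈ S.image Prod.snd,
          wt |z.im / s - n|) := by
        rw [Finset.sum_mul_sum, Finset.sum_product]
    _ ≤ C * C := by
        gcongr
        · exact Finset.sum_nonneg (fun m _ => (wt_pos (abs_nonneg _)).le)
        · exact h _ _
        · exact h _ _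

/-- the one dimensional bump -/
noncomputable def bump1 (x : ℝ) : ℝ := Real.smoothTransition (x + 1) - Real.smoothTransition x

theorem bump1_nonneg (x : ℝ) : 0 ≤ bump1 x := by
  unfold bump1
  have := Real.smoothTransition.monotone (show x ≤ x + 1 by linarith)
  linarith

theorem bump1_le_one (x : ℝ) : bump1 x ≤ 1 := by
  unfold bump1
  have h1 := Real.smoothTransition.le_one (x + 1)
  have h2 := Real.smoothTransition.nonneg x
  linarith

theorem bump1_zero {x : ℝ} (hx : 1 ≤ |x|) : bump1 x = 0 := by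
  unfold bump1
  rcases le_abs.1 hx with h | h
  · rw [Real.smoothTransition.one_of_one_le h, Real.smoothTransition.one_of_one_le (by linarith)]
    simp
  · rw [Real.smoothTransition.zero_of_nonpos (by linarith),
      Real.smoothTransition.zero_of_nonpos (by linarith)]
    simp

theorem bump1_contDiff {n : ℕ∞} : ContDiff ℝ n bump1 := by
  unfold bump1
  exact (Real.smoothTransition.contDiff.comp (contDiff_id.add contDiff_const)).sub
    Real.smoothTransition.contDiff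

theorem bump1_sum (x : ℝ) (N : ℕ) (h : |x| ≤ N) :
    ∑ m ∈ Finset.Icc (-(N : ℤ)) N, bump1 (x - m) = 1 := by
  have key : ∀ M : ℕ, ∑ m ∈ Finset.Icc (-(M : ℤ)) M, bump1 (x - m) =
      Real.smoothTransition (x + M + 1) - Real.smoothTransition (x - M) := by
    intro M
    induction M with
    | zero =>
      simp [bump1]
    | succ M ih =>
      have h1 : Finset.Icc (-((M + 1 : ℕ) : ℤ)) ((M + 1 : ℕ) : ℤ) =
          insert (-((M + 1 : ℕ) : ℤ)) (insert ((M + 1 : ℕ) : ℤ)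
            (Finset.Icc (-(M : ℤ)) (M : ℤ))) := by
        ext m
        simp only [Finset.mem_Icc, Finset.mem_insert]
        push_cast
        omega
      rw [h1, Finset.sum_insert, Finset.sum_insert, ih]
      · unfold bump1
        push_cast
        ring_nf
      · simp only [Finset.mem_Icc]
        push_cast
        omega
      · simp only [Finset.mem_Icc, Finset.mem_insert]
        push_cast
        omega
  rw [key, Real.smoothTransition.one_of_one_le, Real.smoothTransition.zero_of_nonpos]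
  · simp
  · linarith [le_abs_self x]
  · linarith [neg_abs_le x]

/-- the two dimensional bump -/
noncomputable def bump (z : ℂ) : ℂ := ((bump1 z.re * bump1 z.im : ℝ) : ℂ)

theorem bump_contDiff {n : ℕ∞} : ContDiff ℝ n bump := by
  unfold bump
  refine Complex.ofRealCLM.contDiff.comp ?_
  exact (bump1_contDiff.comp Complex.reCLM.contDiff).mul
    (bump1_contDiff.comp Complex.imCLM.contDiff)

theorem norm_bump_le (z : ℂ) : ‖bump z‖ ≤ 1 := by
  unfold bump
  rw [Complex.norm_real, Real.norm_eq_abs, abs_of_nonneg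
    (mul_nonneg (bump1_nonneg _) (bump1_nonneg _))]
  have h1 := bump1_le_one z.re
  have h2 := bump1_le_one z.im
  have h3 := bump1_nonneg z.re
  have h4 := bump1_nonneg z.im
  nlinarith

theorem bump_eq_zero {z : ℂ} (hz : 3 / 2 ≤ ‖z‖) : bump z = 0 := by
  have h1 : 1 ≤ |z.re| ∨ 1 ≤ |z.im| := by
    by_contra h
    push Not at h
    have h2 : ‖z‖ ^ 2 = z.re ^ 2 + z.im ^ 2 := by
      rw [Complex.sq_norm, Complex.normSq_apply]
      ring
    have h3 : z.re ^ 2 ≤ 1 := by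
      rw [← sq_abs]
      nlinarith [abs_nonneg z.re, h.1]
    have h4 : z.im ^ 2 ≤ 1 := by
      rw [← sq_abs]
      nlinarith [abs_nonneg z.im, h.2]
    nlinarith
  unfold bump
  rcases h1 with h | h
  · rw [bump1_zero h]
    simp
  · rw [bump1_zero h]
    simp

/-- the partition of unity -/
noncomputable def phi (s : ℝ) (k : ℤ × ℤ) (z : ℂ) : ℂ :=
  bump ((s⁻¹ : ℝ) * z + -((s⁻¹ : ℝ) * pt s k))

theorem phi_contDiff {n : ℕ∞} (s : ℝ) (k : ℤ × ℤ) : ContDiff ℝ n (phi s k) := by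
  unfold phi
  exact bump_contDiff.comp ((contDiff_const.mul contDiff_id).add contDiff_const)

theorem norm_phi_le (s : ℝ) (k : ℤ × ℤ) (z : ℂ) : ‖phi s k z‖ ≤ 1 := norm_bump_le _

theorem phi_eq_zero {s : ℝ} (hs : 0 < s) {k : ℤ × ℤ} {z : ℂ} (hz : 3 / 2 * s ≤ ‖z - pt s k‖) :
    phi s k z = 0 := by
  unfold phi
  apply bump_eq_zero
  have h1 : ((s⁻¹ : ℝ) : ℂ) * z + -((s⁻¹ : ℝ) * pt s k) = (s⁻¹ : ℝ) * (z - pt s k) := by ring
  rw [h1, norm_mul, Complex.norm_real, Real.norm_eq_abs, abs_of_pos (by positivity)]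
  rw [← div_eq_inv_mul, le_div_iff₀ hs]
  exact hz

theorem phi_eventually_zero {s : ℝ} (hs : 0 < s) {k : ℤ × ℤ} {z : ℂ}
    (hz : 3 / 2 * s < ‖z - pt s k‖) : ∀ᶠ x in 𝓝 z, phi s k x = 0 := by
  have h1 : ContinuousAt (fun x => ‖x - pt s k‖) z := by fun_prop
  filter_upwards [h1.eventually (lt_mem_nhds hz)] with x hx
  exact phi_eq_zero hs hx.le

/-- the index box -/
noncomputable def box (N : ℕ) : Finset (ℤ × ℤ) := Finset.Icc (-(N : ℤ)) N ×ˢ Finset.Icc (-(N : ℤ)) N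

theorem phi_real (s : ℝ) (hs : 0 < s) (k : ℤ × ℤ) (z : ℂ) :
    phi s k z = ((bump1 (z.re / s - k.1) * bump1 (z.im / s - k.2) : ℝ) : ℂ) := by
  unfold phi bump
  have h1 : ((s⁻¹ : ℝ) : ℂ) * z + -((s⁻¹ : ℝ) * pt s k) = (s⁻¹ : ℝ) * (z - pt s k) := by ring
  rw [h1, Complex.re_ofReal_mul, Complex.im_ofReal_mul]
  have e1 : s⁻¹ * (z - pt s k).re = z.re / s - k.1 := by
    simp only [pt, Complex.sub_re]
    field_simp
  have e2 : s⁻¹ * (z - pt s k).im = z.im / s - k.2 := by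
    simp only [pt, Complex.sub_im]
    field_simp
  rw [e1, e2]

theorem sum_phi {s : ℝ} (hs : 0 < s) (N : ℕ) {z : ℂ} (h1 : |z.re| ≤ N * s) (h2 : |z.im| ≤ N * s) :
    ∑ k ∈ box N, phi s k z = 1 := by
  have e : ∀ k ∈ box N, phi s k z =
      ((bump1 (z.re / s - k.1) * bump1 (z.im / s - k.2) : ℝ) : ℂ) := fun k _ => phi_real s hs k z
  rw [Finset.sum_congr rfl e, ← Complex.ofReal_sum, box, Finset.sum_product]
  simp only
  have h3 : ∑ m ∈ Finset.Icc (-(N : ℤ)) N, bump1 (z.re / s - m) = 1 := by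
    apply bump1_sum
    rw [abs_div, abs_of_pos hs, div_le_iff₀ hs]
    exact h1
  have h4 : ∑ m ∈ Finset.Icc (-(N : ℤ)) N, bump1 (z.im / s - m) = 1 := by
    apply bump1_sum
    rw [abs_div, abs_of_pos hs, div_le_iff₀ hs]
    exact h2
  have h5 : ∑ x ∈ Finset.Icc (-(N : ℤ)) N, ∑ y ∈ Finset.Icc (-(N : ℤ)) N,
      bump1 (z.re / s - x) * bump1 (z.im / s - y) = 1 := by
    rw [← Finset.sum_mul_sum, h3, h4]
    norm_num
  rw [h5]
  simp

/-- bounds for the derivatives of the bump -/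
theorem exists_bump_bound : ∃ B : ℝ, 1 ≤ B ∧ (∀ z, ‖fderiv ℝ bump z‖ ≤ B) ∧
    (∀ z, ‖fderiv ℝ (dbar bump) z‖ ≤ B) := by
  have hcs : HasCompactSupport bump := by
    refine HasCompactSupport.intro (isCompact_closedBall (0 : ℂ) (3 / 2)) (fun z hz => ?_)
    apply bump_eq_zero
    rw [mem_closedBall_zero_iff] at hz
    linarith
  have h2 : ContDiff ℝ 2 bump := bump_contDiff (n := 2)
  have h1 : ContDiff ℝ 1 (fderiv ℝ bump) := h2.fderiv_right (by norm_num)
  have hdb : ContDiff ℝ 1 (dbar bump) := by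
    unfold dbar
    exact ((h1.clm_apply contDiff_const).add (contDiff_const.mul
      (h1.clm_apply contDiff_const))).div_const 2
  have hcd : HasCompactSupport (dbar bump) := by
    refine (hcs.fderiv (𝕜 := ℝ)).mono ?_
    intro z hz
    rw [Function.mem_support] at hz ⊢
    intro h
    apply hz
    unfold dbar
    rw [h]
    simp
  obtain ⟨B₁, hB₁⟩ := (hcs.fderiv (𝕜 := ℝ)).exists_bound_of_continuous
    (h2.continuous_fderiv (by norm_num))
  obtain ⟨B₂, hB₂⟩ := (hcd.fderiv (𝕜 := ℝ)).exists_bound_of_continuous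
    (hdb.continuous_fderiv one_ne_zero)
  refine ⟨max 1 (max B₁ B₂), le_max_left _ _, fun z => ?_, fun z => ?_⟩
  · exact (hB₁ z).trans ((le_max_left _ _).trans (le_max_right _ _))
  · exact (hB₂ z).trans ((le_max_right _ _).trans (le_max_right _ _))

theorem fderiv_phi (s : ℝ) (k : ℤ × ℤ) (z : ℂ) : fderiv ℝ (phi s k) z =
    s⁻¹ • fderiv ℝ bump ((s⁻¹ : ℝ) * z + -((s⁻¹ : ℝ) * pt s k)) := by
  ext v
  have h := fderiv_comp_affine (u := bump) s⁻¹ (-((s⁻¹ : ℝ) * pt s k)) z v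
    ((bump_contDiff (n := 1)).differentiable one_ne_zero _)
  unfold phi
  rw [h]
  simp

theorem dbar_phi (s : ℝ) (k : ℤ × ℤ) (z : ℂ) : dbar (phi s k) z =
    (s⁻¹ : ℝ) * dbar bump ((s⁻¹ : ℝ) * z + -((s⁻¹ : ℝ) * pt s k)) := by
  exact dbar_comp_affine (u := bump) s⁻¹ (-((s⁻¹ : ℝ) * pt s k)) z
    ((bump_contDiff (n := 1)).differentiable one_ne_zero _)

theorem norm_fderiv_phi_le {B : ℝ} (hB : ∀ z, ‖fderiv ℝ bump z‖ ≤ B) {s : ℝ} (hs : 0 < s)
    (k : ℤ × ℤ) (z : ℂ) : ‖fderiv ℝ (phi s k) z‖ ≤ B / s := by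
  rw [fderiv_phi, norm_smul, norm_inv, Real.norm_eq_abs, abs_of_pos hs, ← div_eq_inv_mul]
  gcongr
  exact hB _

theorem contDiff_dbar {u : ℂ → ℂ} (h : ContDiff ℝ 2 u) : ContDiff ℝ 1 (dbar u) := by
  have h1 : ContDiff ℝ 1 (fderiv ℝ u) := h.fderiv_right (by norm_num)
  unfold dbar
  exact ((h1.clm_apply contDiff_const).add (contDiff_const.mul
      (h1.clm_apply contDiff_const))).div_const 2

theorem norm_fderiv_dbar_phi_le {B : ℝ} (hB : ∀ z, ‖fderiv ℝ (dbar bump) z‖ ≤ B) {s : ℝ}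
    (hs : 0 < s) (k : ℤ × ℤ) (z : ℂ) : ‖fderiv ℝ (dbar (phi s k)) z‖ ≤ B / s ^ 2 := by
  have h0 : DifferentiableAt ℝ (dbar bump) ((s⁻¹ : ℝ) * z + -((s⁻¹ : ℝ) * pt s k)) :=
    (contDiff_dbar (bump_contDiff (n := 2))).differentiable one_ne_zero _
  have h1 : fderiv ℝ (dbar (phi s k)) z =
      (s⁻¹ * s⁻¹) • fderiv ℝ (dbar bump) ((s⁻¹ : ℝ) * z + -((s⁻¹ : ℝ) * pt s k)) := by
    have h2 : dbar (phi s k) = fun z => ((s⁻¹ : ℝ) : ℂ) *
        (dbar bump ((s⁻¹ : ℝ) * z + -((s⁻¹ : ℝ) * pt s k))) := funext (fun z => dbar_phi s k z)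
    rw [h2]
    ext v
    have h3 := differentiableAt_comp_affine (u := dbar bump) s⁻¹ (-((s⁻¹ : ℝ) * pt s k)) z h0
    have h4 := fderiv_comp_affine (u := dbar bump) s⁻¹ (-((s⁻¹ : ℝ) * pt s k)) z v h0
    rw [fderiv_const_mul h3]
    simp only [smul_apply, smul_eq_mul]
    rw [h4]
    simp
    ring
  rw [h1, norm_smul, norm_mul, norm_inv, Real.norm_eq_abs, abs_of_pos hs]
  calc s⁻¹ * s⁻¹ * ‖fderiv ℝ (dbar bump) ((s⁻¹ : ℝ) * z + -((s⁻¹ : ℝ) * pt s k))‖
      ≤ s⁻¹ * s⁻¹ * B := by gcongr; exact hB _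
    _ = B / s ^ 2 := by field_simp

theorem fderiv_phi_zero {s : ℝ} (hs : 0 < s) {k : ℤ × ℤ} {z : ℂ}
    (hz : 3 / 2 * s < ‖z - pt s k‖) : fderiv ℝ (phi s k) z = 0 := by
  have h1 : phi s k =ᶠ[𝓝 z] fun _ => 0 := phi_eventually_zero hs hz
  rw [h1.fderiv_eq]
  simp

theorem sum_phi_eventually {s : ℝ} (hs : 0 < s) (N : ℕ) {z : ℂ} (h1 : |z.re| < N * s)
    (h2 : |z.im| < N * s) : ∀ᶠ x in 𝓝 z, ∑ k ∈ box N, phi s k x = 1 := by
  have c1 : ContinuousAt (fun x : ℂ => |x.re|) z := (Complex.continuous_re.abs).continuousAt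
  have c2 : ContinuousAt (fun x : ℂ => |x.im|) z := (Complex.continuous_im.abs).continuousAt
  filter_upwards [c1.eventually (gt_mem_nhds h1), c2.eventually (gt_mem_nhds h2)] with x hx1 hx2
  exact sum_phi hs N hx1.le hx2.le

theorem phi_differentiableAt (s : ℝ) (k : ℤ × ℤ) (z : ℂ) : DifferentiableAt ℝ (phi s k) z :=
  (phi_contDiff (n := 1) s k).differentiable one_ne_zero z

theorem sum_dbar_phi {s : ℝ} (hs : 0 < s) (N : ℕ) {z : ℂ} (h1 : |z.re| < N * s)
    (h2 : |z.im| < N * s) : ∑ k ∈ box N, dbar (phi s k) z = 0 := by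
  rw [← dbar_sum (box N) (fun k _ => phi_differentiableAt s k z)]
  have : (fun x => ∑ k ∈ box N, phi s k x) =ᶠ[𝓝 z] fun _ => 1 := sum_phi_eventually hs N h1 h2
  rw [dbar_congr this, dbar_const]

theorem sum_dz_phi {s : ℝ} (hs : 0 < s) (N : ℕ) {z : ℂ} (h1 : |z.re| < N * s)
    (h2 : |z.im| < N * s) : ∑ k ∈ box N, dz (phi s k) z = 0 := by
  rw [← dz_sum (box N) (fun k _ => phi_differentiableAt s k z)]
  have : (fun x => ∑ k ∈ box N, phi s k x) =ᶠ[𝓝 z] fun _ => 1 := sum_phi_eventually hs N h1 h2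
  rw [dz_congr this, dz_const]

end Pool.Agent.LibHelper41
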