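import Pool.Agent.Lib_helper41.OneStep

set_option autoImplicit false

namespace Pool.Agent.LibHelper41

open Metric Set Filter Topology Complex


theorem eventually_zero_of_notMem_closedBall {u : ℂ → ℂ} {p : ℂ} {R : ℝ}
    (h : ∀ w, w ∉ closedBall p R → u w = 0) {z : ℂ} (hz : z ∉ closedBall p R) :
    ∀ᶠ x in 𝓝 z, u x = 0 := by
  filter_upwards [isClosed_closedBall.isOpen_compl.mem_nhds hz] with x hx
  exact h x hx

/-- the source `ω U` can be solved with small data -/
def Sol (X : Set ℂ) (U ω : ℂ → ℂ) (β : ℝ) : Prop :=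
  ∃ w g : ℂ → ℂ, Src X w (fun z => ω z * U z - g z) ∧
    (∀ z, z ∉ closedBall (0 : ℂ) (5 / 2) → w z = 0) ∧
    (∀ z ∈ X, ‖w z‖ ≤ β ∧ ‖dz w z‖ ≤ β) ∧
    ContDiff ℝ 1 g ∧ (∀ z, z ∉ closedBall (0 : ℂ) (5 / 2) → g z = 0) ∧
    (∀ z, ‖g z‖ ≤ β) ∧ (∀ z, ‖fderiv ℝ g z‖ ≤ β)

theorem Sol.mono {X : Set ℂ} {U ω : ℂ → ℂ} {β β' : ℝ} (h : Sol X U ω β) (hβ : β ≤ β') :
    Sol X U ω β' := by
  obtain ⟨w, g, h1, h2, h3, h4, h5, h6, h7⟩ := h
  exact ⟨w, g, h1, h2, fun z hz => ⟨(h3 z hz).1.trans hβ, (h3 z hz).2.trans hβ⟩, h4, h5,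
    fun z => (h6 z).trans hβ, fun z => (h7 z).trans hβ⟩

theorem Sol.const_mul {X : Set ℂ} {U ω : ℂ → ℂ} {β : ℝ} (h : Sol X U ω β) (c : ℝ) (hc : 0 ≤ c) :
    Sol X U (fun z => c * ω z) (c * β) := by
  obtain ⟨w, g, h1, h2, h3, h4, h5, h6, h7⟩ := h
  have hcn : ‖(c : ℂ)‖ = c := by rw [Complex.norm_real, Real.norm_eq_abs, abs_of_nonneg hc]
  refine ⟨fun z => c * w z, fun z => c * g z, ?_, ?_, ?_, contDiff_const.mul h4, ?_, ?_, ?_⟩
  · refine (h1.const_mul c).congr (fun z _ => Eventually.of_forall (fun x => ?_))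
    ring
  · intro z hz
    change (c : ℂ) * w z = 0
    rw [h2 z hz, mul_zero]
  · intro z hz
    obtain ⟨h8, h9⟩ := h3 z hz
    rw [dz_const_mul _ (h1.differentiableAt hz), norm_mul, norm_mul, hcn]
    constructor <;> gcongr
  · intro z hz
    change (c : ℂ) * g z = 0
    rw [h5 z hz, mul_zero]
  · intro z
    rw [norm_mul, hcn]
    gcongr
    exact h6 z
  · intro z
    have h10 : fderiv ℝ (fun z => (c : ℂ) * g z) z = c • fderiv ℝ g z := by
      rw [fderiv_const_mul (h4.differentiable one_ne_zero z)]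
      ext v
      simp
    rw [h10, norm_smul, Real.norm_eq_abs, abs_of_nonneg hc]
    gcongr
    exact h7 z

/-- one stage -/
theorem exists_sol_step : ∃ C : ℝ, 1 ≤ C ∧ ∀ X : Set ℂ, IsCompact X → IsPreconnected Xᶜ →
    ∀ (U : ℂ → ℂ) (τ : ℝ), 0 ≤ τ → τ ≤ 1 →
    (∀ z ∈ X ∩ closedBall (0 : ℂ) 3, AnalyticAt ℂ U z ∧ ‖U z‖ ≤ τ ∧ ‖deriv U z‖ ≤ 1) →
    ∀ ρ d σ a : ℝ, 0 ≤ ρ → 0 < σ → σ ≤ d → 128 * σ ^ 2 ≤ d → d ≤ 1 → ρ + d ≤ 5 / 2 →
    ∀ ω : ℂ → ℂ, ContDiff ℝ 1 ω → (∀ w, w ∉ closedBall (0 : ℂ) ρ → ω w = 0) →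
      (∀ w, ‖ω w‖ ≤ a) → (∀ w, ‖fderiv ℝ ω w‖ ≤ a) →
    ∃ ω' : ℂ → ℂ, (ContDiff ℝ 1 ω' ∧ (∀ z, z ∉ closedBall (0 : ℂ) (ρ + d) → ω' z = 0) ∧
        (∀ z, ‖ω' z‖ ≤ C * a * σ / d ^ 2) ∧ (∀ z, ‖fderiv ℝ ω' z‖ ≤ C * a * σ / d ^ 2)) ∧
      ∀ β, Sol X U ω' β → Sol X U ω (2 * C * a * (σ + τ / σ ^ 2) + β) := by
  obtain ⟨C, hC, h⟩ := exists_one_step
  refine ⟨C, hC, ?_⟩
  intro X hX hXc U τ hτ0 hτ1 hU ρ d σ a hρ hσ hσd hσ2 hd1 hρd ω hω hωs hωa hωa'
  have ha0 : 0 ≤ a := (norm_nonneg _).trans (hωa 0)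
  have hd0 : 0 < d := lt_of_lt_of_le hσ hσd
  have hσ2' : 0 < σ ^ 2 := by positivity
  have hσ1 : σ ^ 2 ≤ 1 / 128 := by linarith
  obtain ⟨Ψ, D, ω', h1, h2, h3, h4, h5, h6, h7, h8⟩ :=
    h X hX hXc ρ d σ a hρ hσ hσd hσ2 hd1 hρd ω hω hωs hωa hωa'
  refine ⟨ω', h4, ?_⟩
  rintro β ⟨w', g', k1, k2, k3, k4, k5, k6, k7⟩
  -- support of D
  have hDsupp : ∀ z ∈ tsupport D, z ∈ closedBall (0 : ℂ) ρ ∧ z ∈ X := by
    have hsub : Function.support D ⊆ closedBall (0 : ℂ) ρ ∩ X := by
      intro z hz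
      obtain ⟨h9, h10⟩ := h6 z (Or.inl hz)
      exact ⟨h9, h10 (mem_closedBall_self hσ2'.le)⟩
    have hcl : tsupport D ⊆ closedBall (0 : ℂ) ρ ∩ X :=
      closure_minimal hsub (isClosed_closedBall.inter hX.isClosed)
    exact fun z hz => hcl hz
  have hUD : ∀ z ∈ tsupport D, AnalyticAt ℂ U z := by
    intro z hz
    obtain ⟨h9, h10⟩ := hDsupp z hz
    refine (hU z ⟨h10, ?_⟩).1
    rw [mem_closedBall_zero_iff] at h9 ⊢
    linarith
  have hev : ∀ z, z ∉ tsupport D → (fun z => D z * U z) =ᶠ[𝓝 z] fun _ => 0 := by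
    intro z hz
    filter_upwards [(isClosed_tsupport D).isOpen_compl.mem_nhds hz] with x hx
    rw [image_eq_zero_of_notMem_tsupport hx, zero_mul]
  have hDU : ContDiff ℝ 1 (fun z => D z * U z) := by
    rw [contDiff_iff_contDiffAt]
    intro z
    by_cases hz : z ∈ tsupport D
    · exact h5.contDiffAt.mul ((hUD z hz).contDiffAt.restrict_scalars ℝ)
    · exact contDiffAt_const.congr_of_eventuallyEq (hev z hz)
  have hUder : ∀ z, z ∈ closedBall (0 : ℂ) ρ → closedBall z (σ ^ 2) ⊆ X →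
      ‖fderiv ℝ U z‖ ≤ τ / σ ^ 2 := by
    intro z hz hzX
    have hcb : ∀ y ∈ closedBall z (σ ^ 2), y ∈ X ∩ closedBall (0 : ℂ) 3 := by
      intro y hy
      refine ⟨hzX hy, ?_⟩
      rw [mem_closedBall_zero_iff] at hz ⊢
      rw [mem_closedBall, dist_eq_norm] at hy
      have : ‖y‖ ≤ ‖z‖ + ‖y - z‖ := by
        calc ‖y‖ = ‖z + (y - z)‖ := by ring_nf
          _ ≤ _ := norm_add_le _ _
      linarith
    have hdiff : DiffContOnCl ℂ U (ball z (σ ^ 2)) := by
      refine DifferentiableOn.diffContOnCl ?_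
      rw [closure_ball z hσ2'.ne']
      intro y hy
      exact (hU y (hcb y hy)).1.differentiableAt.differentiableWithinAt
    have h9 := norm_deriv_le_of_forall_mem_sphere_norm_le hσ2' hdiff
      (C := τ) (fun y hy => (hU y (hcb y (sphere_subset_closedBall hy))).2.1)
    exact (norm_fderiv_real_le
      (hU z (hcb z (mem_closedBall_self hσ2'.le))).1.differentiableAt).trans h9
  have hβ0 : 0 ≤ C * a * (σ + τ / σ ^ 2) := by positivity
  refine ⟨fun z => Ψ z * U z + w' z, fun z => D z * U z + g' z, ?_, ?_, ?_, hDU.add k4, ?_, ?_, ?_⟩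
  · -- equation
    have h9 : Src X (fun z => Ψ z * U z) (fun z => (ω z - D z - ω' z) * U z) := by
      intro z hz
      by_cases hz3 : z ∈ closedBall (0 : ℂ) (ρ + d)
      · have hUz := (hU z ⟨hz, by
          rw [mem_closedBall_zero_iff] at hz3 ⊢
          linarith⟩).1
        have hU2 := analyticAt_iff_eventually_differentiableAt.1 hUz
        filter_upwards [h1 z hz, hU2] with x hx hx2
        refine ⟨hx.1.mul (hx2.restrictScalars ℝ), ?_⟩
        rw [dbar_mul hx.1 (hx2.restrictScalars ℝ), hx.2, dbar_of_complex hx2]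
        ring
      · have e1 := eventually_zero_of_notMem_closedBall h2 hz3
        have e2 : ∀ᶠ x in 𝓝 z, Ψ x * U x = 0 := by
          filter_upwards [e1] with x hx
          rw [hx, zero_mul]
        have e3 := eventually_zero_of_notMem_closedBall h4.2.1 hz3
        have hnρ : z ∉ closedBall (0 : ℂ) ρ := by
          intro h
          apply hz3
          rw [mem_closedBall_zero_iff] at h ⊢
          linarith
        have e4 := eventually_zero_of_notMem_closedBall hωs hnρ
        have e5 : ∀ᶠ x in 𝓝 z, D x = 0 := by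
          refine eventually_zero_of_notMem_closedBall (p := 0) (R := ρ) (fun x hx => ?_) hnρ
          by_contra hne
          exact hx (h6 x (Or.inl hne)).1
        filter_upwards [e2.eventually_nhds, e3, e4, e5] with x hx2 hx3 hx4 hx5
        have hx2' : (fun x => Ψ x * U x) =ᶠ[𝓝 x] fun _ => 0 := hx2
        refine ⟨?_, ?_⟩
        · exact (differentiableAt_const (0 : ℂ)).congr_of_eventuallyEq hx2'
        · rw [dbar_congr hx2', dbar_const, hx3, hx4, hx5]
          ring
    refine (h9.add k1).congr (fun z _ => Eventually.of_forall (fun x => ?_))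
    ring
  · -- support of w
    intro z hz
    have hz3 : z ∉ closedBall (0 : ℂ) (ρ + d) := by
      intro h
      apply hz
      rw [mem_closedBall_zero_iff] at h ⊢
      linarith
    change Ψ z * U z + w' z = 0
    rw [h2 z hz3, k2 z hz]
    ring
  · -- bounds of w
    intro z hz
    have h9 : ‖Ψ z * U z‖ ≤ 2 * C * a * (σ + τ / σ ^ 2) ∧
        ‖dz (fun z => Ψ z * U z) z‖ ≤ 2 * C * a * (σ + τ / σ ^ 2) ∧
        DifferentiableAt ℝ (fun z => Ψ z * U z) z := by
      by_cases hz3 : z ∈ closedBall (0 : ℂ) (ρ + d)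
      · obtain ⟨hUz, hUz1, hUz2⟩ := hU z ⟨hz, by
          rw [mem_closedBall_zero_iff] at hz3 ⊢
          linarith⟩
        obtain ⟨hΨ1, hΨ2⟩ := h3 z hz
        have hΨd := h1.differentiableAt hz
        have hUd := hUz.differentiableAt
        have hCaσ : 0 ≤ C * a * σ := by positivity
        have hCa : 0 ≤ C * a := by positivity
        have hτσ : τ ≤ τ / σ ^ 2 := by
          rw [le_div_iff₀ hσ2']
          nlinarith
        have hE : C * a * (σ + τ / σ ^ 2) = C * a * σ + C * a * (τ / σ ^ 2) := by ring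
        have hE2 : C * a * τ ≤ C * a * (τ / σ ^ 2) := by gcongr
        have hE3 : 0 ≤ C * a * τ := by positivity
        refine ⟨?_, ?_, hΨd.mul (hUd.restrictScalars ℝ)⟩
        · rw [norm_mul]
          calc ‖Ψ z‖ * ‖U z‖ ≤ (C * a * σ) * 1 := by
                gcongr
                exact hUz1.trans hτ1
            _ ≤ 2 * C * a * (σ + τ / σ ^ 2) := by linarith
        · rw [dz_mul hΨd (hUd.restrictScalars ℝ), dz_of_complex hUd]
          calc ‖dz Ψ z * U z + Ψ z * deriv U z‖ ≤ ‖dz Ψ z * U z‖ + ‖Ψ z * deriv U z‖ :=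
                norm_add_le _ _
            _ ≤ (C * a) * τ + (C * a * σ) * 1 := by
                rw [norm_mul, norm_mul]
                gcongr
            _ ≤ 2 * C * a * (σ + τ / σ ^ 2) := by linarith
      · have e1 := eventually_zero_of_notMem_closedBall h2 hz3
        have e2 : (fun x => Ψ x * U x) =ᶠ[𝓝 z] fun _ => 0 := by
          filter_upwards [e1] with x hx
          rw [hx, zero_mul]
        refine ⟨?_, ?_, ?_⟩
        · have h20 : Ψ z * U z = 0 := e2.self_of_nhds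
          rw [h20, norm_zero]
          linarith
        · rw [dz_congr e2, dz_const, norm_zero]
          linarith
        · exact (differentiableAt_const (0 : ℂ)).congr_of_eventuallyEq e2
    obtain ⟨k8, k9⟩ := k3 z hz
    constructor
    · exact (norm_add_le _ _).trans (add_le_add h9.1 k8)
    · rw [dz_add h9.2.2 (k1.differentiableAt hz)]
      exact (norm_add_le _ _).trans (add_le_add h9.2.1 k9)
  · -- support of g
    intro z hz
    have hnρ : z ∉ closedBall (0 : ℂ) ρ := by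
      intro h
      apply hz
      rw [mem_closedBall_zero_iff] at h ⊢
      linarith
    have hD0 : D z = 0 := by
      by_contra hne
      exact hnρ (h6 z (Or.inl hne)).1
    change D z * U z + g' z = 0
    rw [hD0, k5 z hz]
    ring
  · -- bound of g
    intro z
    refine (norm_add_le _ _).trans (add_le_add ?_ (k6 z))
    by_cases hD0 : D z = 0
    · rw [hD0, zero_mul, norm_zero]
      linarith
    · obtain ⟨h9, h10⟩ := h6 z (Or.inl hD0)
      have hzX := h10 (mem_closedBall_self hσ2'.le)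
      obtain ⟨_, hUz1, _⟩ := hU z ⟨hzX, by
        rw [mem_closedBall_zero_iff] at h9 ⊢
        linarith⟩
      rw [norm_mul]
      have hτσ : τ ≤ τ / σ ^ 2 := by
        rw [le_div_iff₀ hσ2']
        nlinarith
      calc ‖D z‖ * ‖U z‖ ≤ (C * a) * τ := by
            gcongr
            exact h7 z
        _ ≤ C * a * (σ + τ / σ ^ 2) := by
            gcongr
            linarith
        _ ≤ 2 * C * a * (σ + τ / σ ^ 2) := by linarith
  · -- derivative bound of g
    intro z
    have hd1 : DifferentiableAt ℝ (fun z => D z * U z) z := hDU.differentiable one_ne_zero z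
    have hd2 : DifferentiableAt ℝ g' z := k4.differentiable one_ne_zero z
    rw [fderiv_fun_add hd1 hd2]
    refine (norm_add_le _ _).trans (add_le_add ?_ (k7 z))
    by_cases hz : z ∈ tsupport D
    · have hUz := hUD z hz
      have hUd := hUz.differentiableAt.restrictScalars ℝ
      by_cases hD0 : D z ≠ 0 ∨ fderiv ℝ D z ≠ 0
      · obtain ⟨h9, h10⟩ := h6 z hD0
        have hzX := h10 (mem_closedBall_self hσ2'.le)
        obtain ⟨_, hUz1, _⟩ := hU z ⟨hzX, by
          rw [mem_closedBall_zero_iff] at h9 ⊢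
          linarith⟩
        refine (norm_fderiv_mul_le (h5.differentiable one_ne_zero z) hUd).trans ?_
        calc ‖D z‖ * ‖fderiv ℝ U z‖ + ‖U z‖ * ‖fderiv ℝ D z‖
            ≤ (C * a) * (τ / σ ^ 2) + τ * (C * a / σ ^ 2) := by
              gcongr
              · exact h7 z
              · exact hUder z h9 h10
              · exact h8 z
          _ = 2 * C * a * (τ / σ ^ 2) := by ring
          _ ≤ 2 * C * a * (σ + τ / σ ^ 2) := by
              gcongr
              linarith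
      · push Not at hD0
        refine (norm_fderiv_mul_le (h5.differentiable one_ne_zero z) hUd).trans ?_
        rw [hD0.1, hD0.2]
        simp only [norm_zero, zero_mul, mul_zero, add_zero]
        linarith
    · rw [(hev z hz).fderiv_eq]
      simp only [fderiv_fun_const, Pi.zero_apply, norm_zero]
      linarith

end Pool.Agent.LibHelper41
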