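import Pool.Agent.Lib_helper41.SqrtBranch

set_option autoImplicit false

namespace Pool.Agent.LibHelper41

open Polynomial Metric Set Filter Topology

/-- the algebra behind the local function: far away -/
theorem q_far_identity {w e s : ℂ} (he : e ≠ 0) (hs : s ^ 2 * w = w + e) :
    128 / (3 * e ^ 4) * ((w * s) ^ 3 - w ^ 3 - 3 / 2 * e * w ^ 2 - 3 / 8 * e ^ 2 * w + e ^ 3 / 16)
      - w⁻¹ = w⁻¹ * ((-16 * (s - 1) - 64 / 3 * (s - 1) ^ 2 - 8 * (s - 1) ^ 3 - (s - 1) ^ 4) /
        (s + 1) ^ 4) := by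
  have he2 : e = w * (s - 1) * (s + 1) := by linear_combination -hs
  have hw : w ≠ 0 := by rintro rfl; apply he; rw [he2]; ring
  have hu : s - 1 ≠ 0 := by intro h; apply he; rw [he2, h]; ring
  have hu2 : s + 1 ≠ 0 := by intro h; apply he; rw [he2, h]; ring
  rw [he2]
  field_simp
  ring

theorem q_far_identity' {w e s : ℂ} (he : e ≠ 0) (hs : s ^ 2 * w = w + e) :
    -(16 / e ^ 4) * (2 * w + e - 2 * (w * s)) ^ 2 + (w⁻¹) ^ 2 =
      (w⁻¹) ^ 2 * (((s - 1) ^ 4 + 8 * (s - 1) ^ 3 + 24 * (s - 1) ^ 2 + 32 * (s - 1)) /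
        (s + 1) ^ 4) := by
  have he2 : e = w * (s - 1) * (s + 1) := by linear_combination -hs
  have hw : w ≠ 0 := by rintro rfl; apply he; rw [he2]; ring
  have hu : s - 1 ≠ 0 := by intro h; apply he; rw [he2, h]; ring
  have hu2 : s + 1 ≠ 0 := by intro h; apply he; rw [he2, h]; ring
  rw [he2]
  field_simp
  ring

theorem norm_pow_le_of_le_one {u : ℂ} {t : ℝ} (hu : ‖u‖ ≤ t) (ht : t ≤ 1) (n : ℕ) (hn : n ≠ 0) :
    ‖u‖ ^ n ≤ t := by
  have h0 := norm_nonneg u
  calc ‖u‖ ^ n ≤ ‖u‖ := pow_le_of_le_one h0 (hu.trans ht) hn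
    _ ≤ t := hu

/-- the local functions: bounded with bounded derivative on `X`, and asymptotic to
`1 / (z - w₀)` -/
theorem exists_local_q : ∃ C : ℝ, 0 < C ∧ ∀ X : Set ℂ, IsCompact X → IsPreconnected Xᶜ →
    ∀ w₀ : ℂ, (∃ a, a ∉ X ∧ ‖a - w₀‖ ≤ 1) → ∃ q q₁ : ℂ → ℂ, App X q q₁ ∧ ∀ z ∈ X,
      (‖z - w₀‖ ≤ 12 → ‖q z‖ ≤ C ∧ ‖q₁ z‖ ≤ C) ∧
      (12 ≤ ‖z - w₀‖ → ‖q z - (z - w₀)⁻¹‖ ≤ C / ‖z - w₀‖ ^ 2 ∧
        ‖q₁ z + ((z - w₀)⁻¹) ^ 2‖ ≤ C / ‖z - w₀‖ ^ 3) := by
  refine ⟨30000, by norm_num, ?_⟩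
  intro X hX hc w₀ ⟨a, haX, ha⟩
  obtain ⟨b, hbX, hb1, hb2, s, hs1, hs2, hs3⟩ := exists_SQ (R₁ := 3) (R := 4) hX hc (by norm_num)
    haX (lt_of_le_of_lt ha (by norm_num))
  set e : ℂ := b - a with he
  have he1 : 2 ≤ ‖e‖ := by
    have : ‖b - w₀‖ ≤ ‖e‖ + ‖a - w₀‖ := by
      calc ‖b - w₀‖ = ‖e + (a - w₀)‖ := by rw [he]; ring_nf
        _ ≤ _ := norm_add_le _ _
    linarith
  have he2 : ‖e‖ ≤ 5 := by
    calc ‖e‖ = ‖(b - w₀) - (a - w₀)‖ := by rw [he]; ring_nf
      _ ≤ ‖b - w₀‖ + ‖a - w₀‖ := norm_sub_le _ _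
      _ ≤ 5 := by linarith
  have he0 : e ≠ 0 := by
    intro h
    rw [h, norm_zero] at he1
    linarith
  have hzb : ∀ z ∈ X, z - b ≠ 0 := fun z hz h => hbX (by
    have : z = b := by linear_combination h
    rwa [this] at hz)
  have hza : ∀ z ∈ X, z - a ≠ 0 := fun z hz h => haX (by
    have : z = a := by linear_combination h
    rwa [this] at hz)
  -- the function `S = (z - b) s`
  have hw : App X (fun z => z - b) (fun _ => 1) := by
    refine (App.id.sub hX (App.const b)).congr (fun z _ => rfl) (fun z _ => by simp)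
  have hS := hw.mul hX hs1
  set S : ℂ → ℂ := fun z => (z - b) * s z with hSdef
  have hS2 : ∀ z ∈ X, s z ^ 2 * (z - b) = (z - b) + e := by
    intro z hz
    rw [hs2 z hz, he]
    ring
  -- the function `q`
  have hq : App X (fun z => 128 / (3 * e ^ 4) * (S z ^ 3 - (z - b) ^ 3 - 3 / 2 * e * (z - b) ^ 2
      - 3 / 8 * e ^ 2 * (z - b) + e ^ 3 / 16))
      (fun z => -(16 / e ^ 4) * (2 * (z - b) + e - 2 * S z) ^ 2) := by
    have h1 := ((((hS.pow hX 3).sub hX (hw.pow hX 3)).sub hX
      ((hw.pow hX 2).const_mul hX (3 / 2 * e))).sub hX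
      (hw.const_mul hX (3 / 8 * e ^ 2))).add (App.const (e ^ 3 / 16))
    refine (h1.const_mul hX (128 / (3 * e ^ 4))).congr (fun z _ => rfl) (fun z hz => ?_)
    have h3 := hzb z hz
    have h4 := hza z hz
    have h5 := hS2 z hz
    have h6 : z - a = (z - b) + e := by rw [he]; ring
    have h7 : (z - b) + e ≠ 0 := by rw [← h6]; exact h4
    simp only [hSdef, Nat.add_one_sub_one, Nat.cast_ofNat, pow_one, mul_one, add_zero, one_mul]
    rw [h6]
    set w := z - b with hwdef
    set t := s z with htdef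
    have h8 : 3 * (w * t) ^ 2 * (t + w * (t * ((w + e)⁻¹ - w⁻¹) / 2)) =
        3 / 2 * (w * t) * (2 * w + e) := by
      have h9 : (w * t) ^ 2 = w * (w + e) := by linear_combination w * h5
      rw [h9]
      field_simp
      ring
    have h10 : (w * t) ^ 2 = w * (w + e) := by linear_combination w * h5
    rw [h8]
    field_simp
    linear_combination (1024 : ℂ) * h10
  refine ⟨_, _, hq, fun z hz => ⟨fun hz12 => ?_, fun hz12 => ?_⟩⟩
  · -- near
    have hw1 : ‖z - b‖ ≤ 16 := by
      calc ‖z - b‖ = ‖(z - w₀) - (b - w₀)‖ := by ring_nf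
        _ ≤ ‖z - w₀‖ + ‖b - w₀‖ := norm_sub_le _ _
        _ ≤ 16 := by linarith
    have hw2 : ‖z - a‖ ≤ 13 := by
      calc ‖z - a‖ = ‖(z - w₀) - (a - w₀)‖ := by ring_nf
        _ ≤ ‖z - w₀‖ + ‖a - w₀‖ := norm_sub_le _ _
        _ ≤ 13 := by linarith
    have hSn : ‖S z‖ ≤ 15 := by
      have h1 : S z ^ 2 = (z - b) * (z - a) := by
        simp only [hSdef]
        have h5 := hS2 z hz
        have h6 : z - a = (z - b) + e := by rw [he]; ring
        rw [h6]
        linear_combination (z - b) * h5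
      have h2 : ‖S z‖ ^ 2 ≤ 16 * 13 := by
        rw [← norm_pow, h1, norm_mul]
        gcongr
      nlinarith [norm_nonneg (S z)]
    have he4 : (16 : ℝ) ≤ ‖e‖ ^ 4 := by
      calc (16 : ℝ) = 2 ^ 4 := by norm_num
        _ ≤ ‖e‖ ^ 4 := by gcongr
    constructor
    · have h1 : ‖(128 : ℂ) / (3 * e ^ 4)‖ ≤ 128 / 48 := by
        rw [norm_div, norm_mul, norm_pow]
        simp only [Complex.norm_ofNat]
        gcongr
        linarith
      have h2 : ‖S z ^ 3 - (z - b) ^ 3 - 3 / 2 * e * (z - b) ^ 2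
          - 3 / 8 * e ^ 2 * (z - b) + e ^ 3 / 16‖ ≤
          15 ^ 3 + 16 ^ 3 + 3 / 2 * 5 * 16 ^ 2 + 3 / 8 * 5 ^ 2 * 16 + 5 ^ 3 / 16 := by
        refine (norm_add_le _ _).trans ?_
        gcongr
        · refine (norm_sub_le _ _).trans ?_
          gcongr
          · refine (norm_sub_le _ _).trans ?_
            gcongr
            · refine (norm_sub_le _ _).trans ?_
              gcongr
              · rw [norm_pow]; gcongr
              · rw [norm_pow]; gcongr
            · rw [norm_mul, norm_mul, norm_pow, norm_div]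
              simp only [Complex.norm_ofNat]
              gcongr
          · rw [norm_mul, norm_mul, norm_pow, norm_div]
            simp only [Complex.norm_ofNat]
            gcongr
        · rw [norm_div, norm_pow]
          simp only [Complex.norm_ofNat]
          gcongr
      rw [norm_mul]
      calc _ ≤ (128 : ℝ) / 48 * (15 ^ 3 + 16 ^ 3 + 3 / 2 * 5 * 16 ^ 2 + 3 / 8 * 5 ^ 2 * 16
            + 5 ^ 3 / 16) := by gcongr
        _ ≤ 30000 := by norm_num
    · have h1 : ‖-(16 / e ^ 4)‖ ≤ 1 := by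
        rw [norm_neg, norm_div, norm_pow]
        simp only [Complex.norm_ofNat]
        rw [div_le_one (by linarith)]
        exact he4
      have h2 : ‖2 * (z - b) + e - 2 * S z‖ ≤ 2 * 16 + 5 + 2 * 15 := by
        refine (norm_sub_le _ _).trans ?_
        gcongr
        · refine (norm_add_le _ _).trans ?_
          gcongr
          rw [norm_mul]
          simp only [Complex.norm_ofNat]
          gcongr
        · rw [norm_mul]
          simp only [Complex.norm_ofNat]
          gcongr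
      rw [norm_mul, norm_pow]
      calc _ ≤ (1 : ℝ) * (2 * 16 + 5 + 2 * 15) ^ 2 := by gcongr
        _ ≤ 30000 := by norm_num
  · -- far
    set D : ℝ := ‖z - w₀‖ with hD
    have hD0 : 0 < D := by linarith
    have hw1 : 2 / 3 * D ≤ ‖z - b‖ := by
      have : D ≤ ‖z - b‖ + ‖b - w₀‖ := by
        calc D = ‖(z - b) + (b - w₀)‖ := by rw [hD]; ring_nf
          _ ≤ _ := norm_add_le _ _
      linarith
    have hb0 := hzb z hz
    have hbn : 0 < ‖z - b‖ := norm_pos_iff.2 hb0
    have hvn : z - w₀ ≠ 0 := by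
      intro h
      rw [hD, h, norm_zero] at hD0
      exact lt_irrefl _ hD0
    have hre : 0 < (s z).re := hs3 z hz (by linarith)
    have hs1' : 1 ≤ ‖s z + 1‖ := by
      calc (1 : ℝ) ≤ (s z).re + 1 := by linarith
        _ = (s z + 1).re := by simp
        _ ≤ |(s z + 1).re| := le_abs_self _
        _ ≤ ‖s z + 1‖ := Complex.abs_re_le_norm _
    have hu : ‖s z - 1‖ ≤ 15 / 2 / D := by
      have h1 : (s z - 1) * (s z + 1) * (z - b) = e := by
        linear_combination hS2 z hz
      have h2 : ‖s z - 1‖ * ‖s z + 1‖ * ‖z - b‖ = ‖e‖ := by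
        rw [← norm_mul, ← norm_mul, h1]
      rw [le_div_iff₀ hD0]
      have h3 : ‖s z - 1‖ * 1 * (2 / 3 * D) ≤ ‖s z - 1‖ * ‖s z + 1‖ * ‖z - b‖ := by gcongr
      nlinarith
    have ht1 : 15 / 2 / D ≤ 1 := by
      rw [div_le_one hD0]
      linarith
    have hinv : ‖(z - b)⁻¹‖ ≤ 3 / 2 / D := by
      rw [norm_inv]
      calc ‖z - b‖⁻¹ ≤ (2 / 3 * D)⁻¹ := by gcongr
        _ = 3 / 2 / D := by field_simp
    have hs4 : 1 ≤ ‖(s z + 1) ^ 4‖ := by
      rw [norm_pow]
      exact one_le_pow₀ hs1'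
    have hdiff : ‖(z - b)⁻¹ - (z - w₀)⁻¹‖ ≤ 6 / D ^ 2 := by
      have h1 : (z - b)⁻¹ - (z - w₀)⁻¹ = (b - w₀) * (z - b)⁻¹ * (z - w₀)⁻¹ := by
        field_simp
        ring
      rw [h1, norm_mul, norm_mul, norm_inv (z - w₀), ← hD]
      calc ‖b - w₀‖ * ‖(z - b)⁻¹‖ * D⁻¹ ≤ 4 * (3 / 2 / D) * D⁻¹ := by gcongr
        _ = 6 / D ^ 2 := by field_simp; norm_num
    constructor
    · have h1 := q_far_identity he0 (hS2 z hz)
      have h2 : ‖128 / (3 * e ^ 4) * (S z ^ 3 - (z - b) ^ 3 - 3 / 2 * e * (z - b) ^ 2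
          - 3 / 8 * e ^ 2 * (z - b) + e ^ 3 / 16) - (z - b)⁻¹‖ ≤ 600 / D ^ 2 := by
        simp only [hSdef]
        rw [h1, norm_mul, norm_div]
        have h3 : ‖-16 * (s z - 1) - 64 / 3 * (s z - 1) ^ 2 - 8 * (s z - 1) ^ 3 - (s z - 1) ^ 4‖
            ≤ 48 * (15 / 2 / D) := by
          calc _ ≤ 16 * (15 / 2 / D) + 64 / 3 * (15 / 2 / D) + 8 * (15 / 2 / D) + 15 / 2 / D := by
                refine (norm_sub_le _ _).trans ?_
                gcongr
                · refine (norm_sub_le _ _).trans ?_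
                  gcongr
                  · refine (norm_sub_le _ _).trans ?_
                    gcongr
                    · rw [norm_mul, norm_neg]
                      simp only [Complex.norm_ofNat]
                      gcongr
                    · rw [norm_mul, norm_pow, norm_div]
                      simp only [Complex.norm_ofNat]
                      gcongr
                      exact norm_pow_le_of_le_one hu ht1 2 (by norm_num)
                  · rw [norm_mul, norm_pow]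
                    simp only [Complex.norm_ofNat]
                    gcongr
                    exact norm_pow_le_of_le_one hu ht1 3 (by norm_num)
                · rw [norm_pow]
                  exact norm_pow_le_of_le_one hu ht1 4 (by norm_num)
            _ ≤ 48 * (15 / 2 / D) := by
                have : 0 < 15 / 2 / D := by positivity
                nlinarith
        calc _ ≤ 3 / 2 / D * (48 * (15 / 2 / D) / 1) := by gcongr
          _ ≤ 600 / D ^ 2 := by
            rw [le_div_iff₀ (by positivity)]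
            field_simp
            norm_num
      calc _ = ‖(128 / (3 * e ^ 4) * (S z ^ 3 - (z - b) ^ 3 - 3 / 2 * e * (z - b) ^ 2
          - 3 / 8 * e ^ 2 * (z - b) + e ^ 3 / 16) - (z - b)⁻¹) + ((z - b)⁻¹ - (z - w₀)⁻¹)‖ := by
            ring_nf
        _ ≤ _ := norm_add_le _ _
        _ ≤ 600 / D ^ 2 + 6 / D ^ 2 := by gcongr
        _ = 606 / D ^ 2 := by ring
        _ ≤ 30000 / D ^ 2 := by gcongr; norm_num
    · have h1 := q_far_identity' he0 (hS2 z hz)
      have h2 : ‖-(16 / e ^ 4) * (2 * (z - b) + e - 2 * S z) ^ 2 + ((z - b)⁻¹) ^ 2‖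
          ≤ 1200 / D ^ 3 := by
        simp only [hSdef]
        rw [h1, norm_mul, norm_div, norm_pow (z - b)⁻¹]
        have h3 : ‖(s z - 1) ^ 4 + 8 * (s z - 1) ^ 3 + 24 * (s z - 1) ^ 2 + 32 * (s z - 1)‖
            ≤ 65 * (15 / 2 / D) := by
          calc _ ≤ 15 / 2 / D + 8 * (15 / 2 / D) + 24 * (15 / 2 / D) + 32 * (15 / 2 / D) := by
                refine (norm_add_le _ _).trans ?_
                gcongr
                · refine (norm_add_le _ _).trans ?_
                  gcongr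
                  · refine (norm_add_le _ _).trans ?_
                    gcongr
                    · rw [norm_pow]
                      exact norm_pow_le_of_le_one hu ht1 4 (by norm_num)
                    · rw [norm_mul, norm_pow]
                      simp only [Complex.norm_ofNat]
                      gcongr
                      exact norm_pow_le_of_le_one hu ht1 3 (by norm_num)
                  · rw [norm_mul, norm_pow]
                    simp only [Complex.norm_ofNat]
                    gcongr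
                    exact norm_pow_le_of_le_one hu ht1 2 (by norm_num)
                · rw [norm_mul]
                  simp only [Complex.norm_ofNat]
                  gcongr
            _ = 65 * (15 / 2 / D) := by ring
        calc _ ≤ (3 / 2 / D) ^ 2 * (65 * (15 / 2 / D) / 1) := by gcongr
          _ ≤ 1200 / D ^ 3 := by
            rw [le_div_iff₀ (by positivity)]
            field_simp
            norm_num
      have h3 : ‖((z - w₀)⁻¹) ^ 2 - ((z - b)⁻¹) ^ 2‖ ≤ 15 / D ^ 3 := by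
        have h4 : ((z - w₀)⁻¹) ^ 2 - ((z - b)⁻¹) ^ 2 =
            -(((z - b)⁻¹ - (z - w₀)⁻¹) * ((z - b)⁻¹ + (z - w₀)⁻¹)) := by ring
        rw [h4, norm_neg, norm_mul]
        have h5 : ‖(z - b)⁻¹ + (z - w₀)⁻¹‖ ≤ 3 / 2 / D + D⁻¹ := by
          refine (norm_add_le _ _).trans ?_
          gcongr
          rw [norm_inv]
        calc _ ≤ 6 / D ^ 2 * (3 / 2 / D + D⁻¹) := by gcongr
          _ = 15 / D ^ 3 := by field_simp; norm_num
      calc _ = ‖(-(16 / e ^ 4) * (2 * (z - b) + e - 2 * S z) ^ 2 + ((z - b)⁻¹) ^ 2) +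
            (((z - w₀)⁻¹) ^ 2 - ((z - b)⁻¹) ^ 2)‖ := by ring_nf
        _ ≤ _ := norm_add_le _ _
        _ ≤ 1200 / D ^ 3 + 15 / D ^ 3 := by gcongr
        _ = 1215 / D ^ 3 := by ring
        _ ≤ 30000 / D ^ 3 := by gcongr; norm_num

end Pool.Agent.LibHelper41
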