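import Pool.Agent.Lib_helper41.SolBase

set_option autoImplicit false

namespace Pool.Agent.LibHelper41

open Metric Set Filter Topology Complex MeasureTheory

theorem CT_dbar {g : ℂ → ℂ} (hg : ContDiff ℝ 1 g) (hc : HasCompactSupport g) (z : ℂ) :
    CT (dbar g) z = g z := by
  rw [← dbar_CT hg hc z]
  have e1 : dbar g = fun w => (1 / 2) * (fderiv ℝ g w 1 + I * fderiv ℝ g w I) := by
    funext w
    unfold dbar
    ring
  have e2 : CT (fun w => fderiv ℝ g w 1 + I * fderiv ℝ g w I) z =
      CT (fun w => fderiv ℝ g w 1) z + CT (fun w => I * fderiv ℝ g w I) z :=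
    CT_add (continuous_fderiv_apply hg 1) (hasCompactSupport_fderiv_apply hc 1)
      (continuous_const.mul (continuous_fderiv_apply hg I))
      ((hasCompactSupport_fderiv_apply hc I).mul_left) z
  rw [e1, CT_const_mul, e2, CT_const_mul, ← fderiv_CT hg hc, ← fderiv_CT hg hc]
  unfold dbar
  ring

/-- Runge's theorem with derivatives -/
theorem runge {X : Set ℂ} (hX : IsCompact X) (hXc : IsPreconnected Xᶜ) {h : ℂ → ℂ}
    (hh : ∀ z ∈ X, AnalyticAt ℂ h z) : App X h (deriv h) := by
  -- extension with compact support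
  obtain ⟨R, hR⟩ := hX.isBounded.subset_ball (0 : ℂ)
  have hopen : IsOpen {z | AnalyticAt ℂ h z} := isOpen_analyticAt ℂ h
  obtain ⟨ξ, hξ, hξ0, hξ1, _⟩ := exists_smooth_cut (s := {z | AnalyticAt ℂ h z}ᶜ ∪ (ball (0 : ℂ) R)ᶜ)
    (t := X) (hopen.isClosed_compl.union isOpen_ball.isClosed_compl) hX.isClosed (by
      rw [Set.disjoint_left]
      rintro z (hz | hz) hz2
      · exact hz (hh z hz2)
      · exact hz (hR hz2))
  set V : ℂ → ℂ := fun z => h z * ξ z with hV
  have hVC : ContDiff ℝ 1 V := by
    rw [contDiff_iff_contDiffAt]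
    intro z
    by_cases hz : AnalyticAt ℂ h z
    · exact (hz.contDiffAt.restrict_scalars ℝ).mul hξ.contDiffAt
    · have h1 : V =ᶠ[𝓝 z] fun _ => 0 := by
        filter_upwards [hξ0 z (Or.inl hz)] with x hx
        simp only [hV]
        rw [hx, mul_zero]
      exact contDiffAt_const.congr_of_eventuallyEq h1
  have hVs : ∀ z, z ∉ closedBall (0 : ℂ) R → V z = 0 := by
    intro z hz
    have : z ∈ (ball (0 : ℂ) R)ᶜ := fun h => hz (ball_subset_closedBall h)
    simp only [hV]
    rw [(hξ0 z (Or.inr this)).self_of_nhds, mul_zero]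
  have hVc : HasCompactSupport V := HasCompactSupport.intro (isCompact_closedBall (0 : ℂ) R) hVs
  have hVX : ∀ z ∈ X, V =ᶠ[𝓝 z] h := by
    intro z hz
    filter_upwards [hξ1 z hz] with x hx
    simp only [hV]
    rw [hx, mul_one]
  set κ : ℂ → ℂ := dbar V with hκ
  have hκc : Continuous κ := by
    rw [hκ]
    unfold dbar
    exact ((continuous_fderiv_apply hVC 1).add
      (continuous_const.mul (continuous_fderiv_apply hVC I))).div_const 2
  have hκs : HasCompactSupport κ := by
    refine (hVc.fderiv (𝕜 := ℝ)).mono ?_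
    intro z hz
    rw [Function.mem_support] at hz ⊢
    intro h
    apply hz
    rw [hκ]
    unfold dbar
    rw [h]
    simp
  have hκi : Integrable κ := hκc.integrable_of_hasCompactSupport hκs
  have hdisj : Disjoint X (tsupport κ) := by
    rw [Set.disjoint_left]
    intro z hz hz2
    have h1 : κ =ᶠ[𝓝 z] fun _ => 0 := by
      have h2 := (hh z hz).eventually_analyticAt
      filter_upwards [h2, (hVX z hz).eventually_nhds] with x hx hx2
      rw [hκ, dbar_congr hx2]
      exact dbar_of_complex hx.differentiableAt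
    exact (notMem_tsupport_iff_eventuallyEq.2 h1) hz2
  obtain ⟨η, hη, hηd⟩ := hdisj.exists_thickenings hX (isClosed_tsupport κ)
  have hdist : ∀ z ∈ X, ∀ w, κ w ≠ 0 → η ≤ ‖z - w‖ := by
    intro z hz w hw
    by_contra hcon
    push Not at hcon
    rw [Set.disjoint_left] at hηd
    refine hηd (a := w) ?_ ?_
    · rw [mem_thickening_iff]
      exact ⟨z, hz, by rw [dist_comm, dist_eq_norm]; exact hcon⟩
    · exact self_subset_thickening hη _ (subset_tsupport κ hw)
  -- the closure property
  refine App.closure (fun ε hε => ?_)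
  set I₀ : ℝ := ∫ w, ‖κ w‖ with hI₀
  have hI₀0 : 0 ≤ I₀ := integral_nonneg (fun _ => norm_nonneg _)
  set s : ℝ := min 1 (ε * min 1 (η / 2) * η ^ 2 / (12 * (I₀ + 1))) with hs
  have hs0 : 0 < s := lt_min one_pos (by
    have : 0 < min 1 (η / 2) := lt_min one_pos (by positivity)
    positivity)
  have hs1 : 12 * s * I₀ / η ^ 2 ≤ ε * min 1 (η / 2) := by
    have h1 : s ≤ ε * min 1 (η / 2) * η ^ 2 / (12 * (I₀ + 1)) := min_le_right _ _
    rw [le_div_iff₀ (by positivity)] at h1
    rw [div_le_iff₀ (by positivity)]
    have : 0 ≤ s := hs0.le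
    nlinarith
  classical
  obtain ⟨N, hN⟩ := exists_box s hs0 R
  set T : Finset (ℤ × ℤ) := (box N).filter (fun k => ∃ w, κ w ≠ 0 ∧ ‖w - pt s k‖ ≤ 3 / 2 * s)
    with hT
  have hTw : ∀ k ∈ T, ∃ w, κ w ≠ 0 ∧ ‖w - pt s k‖ ≤ 3 / 2 * s := fun k hk =>
    (Finset.mem_filter.1 hk).2
  choose! wk hwk1 hwk2 using hTw
  set c : ℤ × ℤ → ℂ := fun k => (Real.pi : ℂ)⁻¹ * ∫ w, phi s k w * κ w with hc
  set hs' : ℂ → ℂ := fun z => ∑ k ∈ T, c k * (z - wk k)⁻¹ with hhs
  have hwkX : ∀ k ∈ T, wk k ∉ X := by
    intro k hk hmem
    have := hdist _ hmem (wk k) (hwk1 k hk)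
    simp at this
    linarith
  have hκR : ∀ w, κ w ≠ 0 → ‖w‖ ≤ R := by
    intro w hw
    by_contra hcon
    apply hw
    have h1 : w ∉ closedBall (0 : ℂ) R := by
      rw [mem_closedBall_zero_iff]
      exact hcon
    have h2 : V =ᶠ[𝓝 w] fun _ => 0 := eventually_zero_of_notMem_closedBall hVs h1
    rw [hκ, dbar_congr h2, dbar_const]
  have hsum1 : ∀ w, ∑ k ∈ T, phi s k w * κ w = κ w := by
    intro w
    by_cases hw : κ w = 0
    · simp [hw]
    · rw [← Finset.sum_mul]
      have h1 : ∑ k ∈ T, phi s k w = ∑ k ∈ box N, phi s k w := by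
        refine Finset.sum_subset (Finset.filter_subset _ _) (fun k hk hk2 => ?_)
        apply phi_eq_zero hs0
        by_contra hcon
        push Not at hcon
        exact hk2 (Finset.mem_filter.2 ⟨hk, w, hw, hcon.le⟩)
      have h2 : ∑ k ∈ box N, phi s k w = 1 := by
        apply sum_phi hs0 N
        · exact (Complex.abs_re_le_norm w).trans ((hκR w hw).trans hN.le)
        · exact (Complex.abs_im_le_norm w).trans ((hκR w hw).trans hN.le)
      rw [h1, h2, one_mul]
  -- the difference
  have hdiff : ∀ z : ℂ, (∀ w, κ w ≠ 0 → η / 2 ≤ ‖z - w‖) →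
      ‖hs' z - V z‖ ≤ 12 * s * I₀ / η ^ 2 := by
    intro z hz
    have e0 : V z = ∫ w, ker (z - w) * κ w := by
      rw [← CT_dbar hVC hVc z, CT_eq]
    have i1 : Integrable (fun w => ker (z - w) * κ w) := by
      have := (integrable_CT hκc hκs z).comp_sub_left z
      simpa using this
    have i2 : ∀ k ∈ T, Integrable (fun w => ker (z - wk k) * (phi s k w * κ w)) := by
      intro k _
      refine Integrable.const_mul ?_ _
      have h1 : Continuous (fun w => phi s k w * κ w) :=
        (phi_contDiff (n := 1) s k).continuous.mul hκc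
      exact h1.integrable_of_hasCompactSupport (hκs.mul_left)
    have e1 : hs' z = ∫ w, ∑ k ∈ T, ker (z - wk k) * (phi s k w * κ w) := by
      rw [integral_finsetSum T i2]
      simp only [hhs, hc]
      refine Finset.sum_congr rfl (fun k _ => ?_)
      rw [integral_const_mul]
      unfold ker
      rw [mul_inv]
      ring
    rw [e0, e1, ← integral_sub (integrable_finsetSum T i2) i1]
    have hb : ∀ w, ‖(∑ k ∈ T, ker (z - wk k) * (phi s k w * κ w)) - ker (z - w) * κ w‖ ≤
        12 * s / η ^ 2 * ‖κ w‖ := by
      intro w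
      by_cases hw : κ w = 0
      · simp [hw]
      · have e2 : (∑ k ∈ T, ker (z - wk k) * (phi s k w * κ w)) - ker (z - w) * κ w =
            ∑ k ∈ T, (ker (z - wk k) - ker (z - w)) * (phi s k w * κ w) := by
          conv_lhs => rw [← hsum1 w]
          rw [Finset.mul_sum, ← Finset.sum_sub_distrib]
          refine Finset.sum_congr rfl (fun k _ => ?_)
          rw [hsum1 w]
          ring
        rw [e2]
        calc ‖∑ k ∈ T, (ker (z - wk k) - ker (z - w)) * (phi s k w * κ w)‖
            ≤ ∑ k ∈ T, ‖(ker (z - wk k) - ker (z - w)) * (phi s k w * κ w)‖ := norm_sum_le _ _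
          _ ≤ ∑ k ∈ T, (12 * s / η ^ 2 * ‖κ w‖) * ‖phi s k w‖ := by
              refine Finset.sum_le_sum (fun k hk => ?_)
              rw [norm_mul, norm_mul]
              rcases le_or_gt (3 / 2 * s) ‖w - pt s k‖ with h1 | h1
              · rw [phi_eq_zero hs0 h1]
                simp
              · have h2 : ‖w - wk k‖ ≤ 3 * s := by
                  calc ‖w - wk k‖ = ‖(w - pt s k) - (wk k - pt s k)‖ := by ring_nf
                    _ ≤ ‖w - pt s k‖ + ‖wk k - pt s k‖ := norm_sub_le _ _
                    _ ≤ 3 * s := by linarith [hwk2 k hk]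
                have h3 := hz w hw
                have h4 := hz (wk k) (hwk1 k hk)
                have h5 : 0 < ‖z - w‖ := by linarith
                have h6 : 0 < ‖z - wk k‖ := by linarith
                have h5' : z - w ≠ 0 := norm_pos_iff.1 h5
                have h6' : z - wk k ≠ 0 := norm_pos_iff.1 h6
                have h7 : ker (z - wk k) - ker (z - w) =
                    (Real.pi : ℂ)⁻¹ * (-(w - wk k) * (z - w)⁻¹ * (z - wk k)⁻¹) := by
                  unfold ker
                  rw [mul_inv, mul_inv]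
                  field_simp
                  ring
                have h8 : ‖ker (z - wk k) - ker (z - w)‖ ≤ 12 * s / η ^ 2 := by
                  rw [h7, norm_mul, norm_mul, norm_mul, norm_neg, norm_inv, norm_inv, norm_inv]
                  have h9 : ‖(Real.pi : ℂ)‖⁻¹ ≤ 1 := by
                    rw [Complex.norm_real, Real.norm_eq_abs, abs_of_pos Real.pi_pos]
                    exact inv_le_one_of_one_le₀ (by linarith [Real.pi_gt_three])
                  have h10 : ‖z - w‖⁻¹ ≤ 2 / η := by
                    rw [← inv_div]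
                    gcongr
                  have h11 : ‖z - wk k‖⁻¹ ≤ 2 / η := by
                    rw [← inv_div]
                    gcongr
                  calc _ ≤ 1 * (3 * s * (2 / η) * (2 / η)) := by gcongr
                    _ = 12 * s / η ^ 2 := by field_simp; norm_num
                calc ‖ker (z - wk k) - ker (z - w)‖ * (‖phi s k w‖ * ‖κ w‖)
                    ≤ 12 * s / η ^ 2 * (‖phi s k w‖ * ‖κ w‖) := by gcongr
                  _ = _ := by ring
          _ ≤ ∑ k ∈ box N, (12 * s / η ^ 2 * ‖κ w‖) * ‖phi s k w‖ := by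
              refine Finset.sum_le_sum_of_subset_of_nonneg (Finset.filter_subset _ _)
                (fun k _ _ => by positivity)
          _ = 12 * s / η ^ 2 * ‖κ w‖ := by
              rw [← Finset.mul_sum]
              have h2 : ∑ k ∈ box N, ‖phi s k w‖ = 1 := by
                have h12 : ∀ k ∈ box N, phi s k w = ((‖phi s k w‖ : ℝ) : ℂ) := by
                  intro k _
                  rw [phi_real s hs0 k w, Complex.norm_real, Real.norm_eq_abs, abs_of_nonneg
                    (mul_nonneg (bump1_nonneg _) (bump1_nonneg _))]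
                have h3 : ∑ k ∈ box N, phi s k w = 1 := by
                  apply sum_phi hs0 N
                  · exact (Complex.abs_re_le_norm w).trans ((hκR w hw).trans hN.le)
                  · exact (Complex.abs_im_le_norm w).trans ((hκR w hw).trans hN.le)
                rw [Finset.sum_congr rfl h12, ← Complex.ofReal_sum] at h3
                exact_mod_cast h3
              rw [h2, mul_one]
    calc ‖∫ w, (∑ k ∈ T, ker (z - wk k) * (phi s k w * κ w)) - ker (z - w) * κ w‖
        ≤ ∫ w, 12 * s / η ^ 2 * ‖κ w‖ :=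
          norm_integral_le_of_norm_le (hκi.norm.const_mul _) (Eventually.of_forall hb)
      _ = 12 * s * I₀ / η ^ 2 := by
          rw [integral_const_mul]
          ring
  refine ⟨hs', fun z => ∑ k ∈ T, c k * -((z - wk k)⁻¹) ^ 2, ?_, fun z hz => ?_⟩
  · exact App.sum T _ _ (fun k hk => (App.inv_sub hX hXc (hwkX k hk)).const_mul hX (c k))
  · have hzw : ∀ y ∈ closedBall z (η / 2), ∀ w, κ w ≠ 0 → η / 2 ≤ ‖y - w‖ := by
      intro y hy w hw
      rw [mem_closedBall, dist_eq_norm] at hy
      have h1 := hdist z hz w hw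
      have : ‖z - w‖ ≤ ‖y - z‖ + ‖y - w‖ := by
        calc ‖z - w‖ = ‖(y - w) - (y - z)‖ := by ring_nf
          _ ≤ ‖y - w‖ + ‖y - z‖ := norm_sub_le _ _
          _ = _ := by ring
      linarith
    -- V is analytic there
    have hκ0 : ∀ y ∈ closedBall z (η / 2), ∀ᶠ x in 𝓝 y, κ x = 0 := by
      intro y hy
      have h1 : y ∉ tsupport κ := by
        intro hmem
        rw [Set.disjoint_left] at hηd
        refine hηd (a := y) ?_ (self_subset_thickening hη _ hmem)
        rw [mem_thickening_iff]
        refine ⟨z, hz, ?_⟩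
        rw [mem_closedBall] at hy
        linarith
      exact notMem_tsupport_iff_eventuallyEq.1 h1
    have hVa : ∀ y ∈ closedBall z (η / 2), AnalyticAt ℂ V y := by
      intro y hy
      exact (src_of_contDiff hVC (W := closedBall z (η / 2))).analyticAt hy (hκ0 y hy)
    have hwkne : ∀ y ∈ closedBall z (η / 2), ∀ k ∈ T, y - wk k ≠ 0 := by
      intro y hy k hk
      have := hzw y hy (wk k) (hwk1 k hk)
      exact norm_pos_iff.1 (by linarith)
    have hhd : ∀ y ∈ closedBall z (η / 2),
        HasDerivAt hs' (∑ k ∈ T, c k * -((y - wk k)⁻¹) ^ 2) y := by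
      intro y hy
      refine HasDerivAt.fun_sum (fun k hk => ?_)
      have h1 : y ∈ ({wk k} : Set ℂ)ᶜ := by
        intro h
        apply hwkne y hy k hk
        rw [mem_singleton_iff] at h
        rw [h, sub_self]
      have h2 := (An.inv_sub (Y := ({wk k} : Set ℂ)ᶜ) (a := wk k) (by simp) y h1).2
      exact h2.const_mul (c k)
    have hDd : ∀ y ∈ closedBall z (η / 2), DifferentiableAt ℂ (fun y => hs' y - V y) y :=
      fun y hy => (hhd y hy).differentiableAt.sub (hVa y hy).differentiableAt
    have hzm : z ∈ closedBall z (η / 2) := mem_closedBall_self (by positivity)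
    have hmin : ε * min 1 (η / 2) ≤ ε := by
      calc ε * min 1 (η / 2) ≤ ε * 1 := by gcongr; exact min_le_left _ _
        _ = ε := mul_one _
    constructor
    · have h1 := hdiff z (hzw z hzm)
      rw [(hVX z hz).self_of_nhds] at h1
      linarith
    · have hcl : DiffContOnCl ℂ (fun y => hs' y - V y) (ball z (η / 2)) := by
        refine DifferentiableOn.diffContOnCl ?_
        rw [closure_ball z (by positivity)]
        intro y hy
        exact (hDd y hy).differentiableWithinAt
      have h1 := norm_deriv_le_of_forall_mem_sphere_norm_le (by positivity : 0 < η / 2) hcl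
        (C := ε * min 1 (η / 2)) (fun y hy =>
          (hdiff y (hzw y (sphere_subset_closedBall hy))).trans hs1)
      have h2 : deriv (fun y => hs' y - V y) z =
          (∑ k ∈ T, c k * -((z - wk k)⁻¹) ^ 2) - deriv h z := by
        have h3 : deriv V z = deriv h z := (hVX z hz).deriv_eq
        rw [← h3]
        exact ((hhd z hzm).sub (hVa z hzm).differentiableAt.hasDerivAt).deriv
      rw [h2] at h1
      refine h1.trans ?_
      rw [div_le_iff₀ (by positivity)]
      gcongr
      exact min_le_right _ _

end Pool.Agent.LibHelper41
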