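import Pool.Agent.Lib_helper41.Average
import Pool.Agent.Lib_helper41.Runge

set_option autoImplicit false

namespace Pool.Agent.LibHelper41

open Metric Set Filter Topology Complex
open scoped NNReal

theorem Good.empty {X : Set ℂ} {f g : ℂ → ℂ} {e : ℝ} : Good X f g e ∅ := by
  intro K _ hKO τ _
  refine ⟨f, fun z hz => ?_⟩
  exact absurd (hKO hz).1 (notMem_empty z)

/-- the maximal good open set -/
theorem good_sUnion {X : Set ℂ} (hX : IsCompact X) (hXc : IsPreconnected Xᶜ) {f g : ℂ → ℂ} {e : ℝ}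
    (he : 0 < e) : Good X f g e (⋃₀ {O | IsOpen O ∧ Good X f g e O}) := by
  intro K hK hKO τ hτ
  have : Nonempty {O : Set ℂ // IsOpen O ∧ Good X f g e O} := ⟨⟨∅, isOpen_empty, Good.empty⟩⟩
  obtain ⟨⟨O, hO1, hO2⟩, hKO'⟩ := hK.elim_directed_cover
    (fun O : {O : Set ℂ // IsOpen O ∧ Good X f g e O} => (O : Set ℂ)) (fun O => O.2.1)
    (by
      intro z hz
      obtain ⟨O, hO, hzO⟩ := (hKO hz).1
      exact mem_iUnion.2 ⟨⟨O, hO⟩, hzO⟩)
    (by
      rintro ⟨O₁, h1, h2⟩ ⟨O₂, h3, h4⟩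
      exact ⟨⟨O₁ ∪ O₂, h1.union h3, Good.union hX hXc he h1 h3 h2 h4⟩, subset_union_left,
        subset_union_right⟩)
  exact hO2 K hK (fun z hz => ⟨hKO' hz, (hKO hz).2⟩) τ hτ

theorem good_interior {X : Set ℂ} {f g : ℂ → ℂ} {e : ℝ} (he : 0 < e)
    (hd : ∀ z ∈ X, HasDerivWithinAt f (g z) X z) : Good X f g e (interior X) := by
  intro K _ hKO τ hτ
  refine ⟨f, fun z hz => ?_⟩
  have hzi := (hKO hz).1
  have hder : ∀ x ∈ interior X, HasDerivAt f (g x) x := fun x hx =>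
    (hd x (interior_subset hx)).hasDerivAt (mem_interior_iff_mem_nhds.1 hx)
  refine ⟨?_, ?_, ?_⟩
  · rw [analyticAt_iff_eventually_differentiableAt]
    filter_upwards [isOpen_interior.mem_nhds hzi] with x hx
    exact (hder x hx).differentiableAt
  · rw [sub_self, norm_zero]
    exact hτ.le
  · rw [(hder z hzi).deriv, sub_self, norm_zero]
    positivity

theorem good_univ {X : Set ℂ} (hX : IsCompact X) (hXc : IsPreconnected Xᶜ) {f g : ℂ → ℂ}
    (hd : ∀ z ∈ X, HasDerivWithinAt f (g z) X z) (hg : ContinuousOn g X) {e : ℝ} (he : 0 < e) :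
    Good X f g e univ := by
  obtain ⟨c₀, hc₀, hc₀1, hext⟩ := exists_extension
  set O : Set ℂ := ⋃₀ {O | IsOpen O ∧ Good X f g e O} with hO
  have hOo : IsOpen O := isOpen_sUnion (fun U hU => hU.1)
  have hOg : Good X f g e O := good_sUnion hX hXc he
  have hOi : interior X ⊆ O := fun z hz =>
    mem_sUnion.2 ⟨interior X, ⟨isOpen_interior, good_interior he hd⟩, hz⟩
  by_cases hE : X ⊆ O
  · intro K hK hKO τ hτ
    exact hOg K hK (fun z hz => ⟨hE (hKO hz).2, (hKO hz).2⟩) τ hτ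
  exfalso
  obtain ⟨y₀, hy₀X, hy₀O⟩ := not_subset.1 hE
  have hEc : IsCompact (X \ O) := hX.diff hOo
  have hcl : ∀ z ∈ X \ O, z ∈ closure Xᶜ := by
    rintro z ⟨_, hz2⟩
    rw [closure_compl]
    exact fun h => hz2 (hOi h)
  have hfc : ContinuousOn f X := fun z hz => (hd z hz).continuousWithinAt
  set c : ℝ := c₀ * e with hc
  have hc0 : 0 < c := by positivity
  -- Baire category
  have : CompactSpace ↥(X \ O) := isCompact_iff_compactSpace.1 hEc
  have : Nonempty ↥(X \ O) := ⟨⟨y₀, hy₀X, hy₀O⟩⟩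
  let P : ℕ → Set ↥(X \ O) := fun n => {z | ∀ w ∈ X, ‖w - z‖ < 1 / ((n : ℝ) + 1) →
    ‖f w - f z - g z * (w - z)‖ ≤ c / 2 * ‖w - z‖}
  have hfE : Continuous (fun z : ↥(X \ O) => f z) :=
    hfc.comp_continuous continuous_subtype_val (fun z => z.2.1)
  have hgE : Continuous (fun z : ↥(X \ O) => g z) :=
    hg.comp_continuous continuous_subtype_val (fun z => z.2.1)
  have hPc : ∀ n, IsClosed (P n) := by
    intro n
    have e1 : P n = ⋂ w ∈ X, ({z : ↥(X \ O) | 1 / ((n : ℝ) + 1) ≤ ‖w - z‖} ∪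
        {z : ↥(X \ O) | ‖f w - f z - g z * (w - z)‖ ≤ c / 2 * ‖w - z‖}) := by
      ext z
      simp only [P, mem_iInter, mem_union]
      constructor
      · intro h w hw
        by_cases h1 : ‖w - (z : ℂ)‖ < 1 / ((n : ℝ) + 1)
        · exact Or.inr (h w hw h1)
        · exact Or.inl (not_lt.1 h1)
      · intro h w hw h1
        rcases h w hw with h2 | h2
        · exact absurd h1 (not_lt.2 h2)
        · exact h2
    rw [e1]
    refine isClosed_biInter (fun w _ => IsClosed.union ?_ ?_)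
    · exact isClosed_le continuous_const (continuous_const.sub continuous_subtype_val).norm
    · exact isClosed_le
        ((continuous_const.sub hfE).sub
          (hgE.mul (continuous_const.sub continuous_subtype_val))).norm
        (continuous_const.mul (continuous_const.sub continuous_subtype_val).norm)
  have hPu : ⋃ n, P n = univ := by
    rw [eq_univ_iff_forall]
    intro z
    have h1 := (hasDerivWithinAt_iff_isLittleO.1 (hd z z.2.1)).def (show 0 < c / 2 by positivity)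
    obtain ⟨δ, hδ, h2⟩ := Metric.mem_nhdsWithin_iff.1 h1
    obtain ⟨n, hn⟩ := exists_nat_one_div_lt hδ
    refine mem_iUnion.2 ⟨n, fun w hw hwz => ?_⟩
    have hwδ : w ∈ ball (z : ℂ) δ := by
      rw [mem_ball, dist_eq_norm]
      exact hwz.trans hn
    have h3 : ‖f w - f z - (w - z) • g z‖ ≤ c / 2 * ‖w - z‖ := h2 ⟨hwδ, hw⟩
    rw [smul_eq_mul] at h3
    rw [mul_comm (g z)]
    exact h3
  obtain ⟨n, z₀, hz₀⟩ := nonempty_interior_of_iUnion_of_closed hPc hPu
  rw [mem_interior_iff_mem_nhds, Metric.mem_nhds_iff] at hz₀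
  obtain ⟨ρ₁, hρ₁, hball⟩ := hz₀
  have hgc := hg z₀ z₀.2.1
  rw [Metric.continuousWithinAt_iff] at hgc
  obtain ⟨ρ₂, hρ₂, hgρ⟩ := hgc (c / 2) (by positivity)
  set ρ : ℝ := min (min 1 (1 / (4 * ((n : ℝ) + 1)))) (min (ρ₁ / 2) (ρ₂ / 2)) with hρ
  have hρ0 : 0 < ρ := lt_min (lt_min one_pos (by positivity)) (lt_min (by positivity)
    (by positivity))
  have hρ1 : ρ ≤ 1 := (min_le_left _ _).trans (min_le_left _ _)
  have hρn : ρ ≤ 1 / (4 * ((n : ℝ) + 1)) := (min_le_left _ _).trans (min_le_right _ _)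
  have hρρ₁ : ρ ≤ ρ₁ / 2 := (min_le_right _ _).trans (min_le_left _ _)
  have hρρ₂ : ρ ≤ ρ₂ / 2 := (min_le_right _ _).trans (min_le_right _ _)
  have hρn2 : 2 * ρ < 1 / ((n : ℝ) + 1) := by
    have h1 : (0 : ℝ) < (n : ℝ) + 1 := by positivity
    rw [lt_div_iff₀ h1]
    rw [le_div_iff₀ (by positivity)] at hρn
    nlinarith
  set α : ℂ := g z₀ with hα
  set f' : ℂ → ℂ := fun z => f z - α * z with hf'
  set g' : ℂ → ℂ := fun z => g z - α with hg'
  -- the Lipschitz estimate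
  have hlip : ∀ z ∈ (X \ O) ∩ closedBall (z₀ : ℂ) ρ, ∀ w ∈ X ∩ closedBall (z₀ : ℂ) ρ,
      ‖f' w - f' z‖ ≤ c * ‖w - z‖ := by
    rintro z ⟨hzE, hzb⟩ w ⟨hwX, hwb⟩
    rw [mem_closedBall, dist_eq_norm] at hzb hwb
    have h1 : ‖w - z‖ ≤ 2 * ρ := by
      calc ‖w - z‖ = ‖(w - z₀) - (z - z₀)‖ := by ring_nf
        _ ≤ ‖w - z₀‖ + ‖z - z₀‖ := norm_sub_le _ _
        _ ≤ 2 * ρ := by linarith
    have h2 : (⟨z, hzE⟩ : ↥(X \ O)) ∈ P n := by
      apply hball
      rw [mem_ball, Subtype.dist_eq, dist_eq_norm]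
      change ‖z - z₀‖ < ρ₁
      linarith
    have h3 := h2 w hwX (lt_of_le_of_lt h1 hρn2)
    have h4 : ‖g z - α‖ ≤ c / 2 := by
      have := hgρ hzE.1 (by rw [dist_eq_norm]; linarith)
      rw [dist_eq_norm] at this
      exact this.le
    calc ‖f' w - f' z‖ = ‖(f w - f z - g z * (w - z)) + (g z - α) * (w - z)‖ := by
          congr 1
          simp only [hf']
          ring
      _ ≤ ‖f w - f z - g z * (w - z)‖ + ‖(g z - α) * (w - z)‖ := norm_add_le _ _
      _ ≤ c / 2 * ‖w - z‖ + c / 2 * ‖w - z‖ := by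
          rw [norm_mul]
          gcongr
      _ = c * ‖w - z‖ := by ring
  -- the Lipschitz extension
  set A : Set ℂ := (X \ O) ∩ closedBall (z₀ : ℂ) ρ with hA
  have hL1 : LipschitzOnWith (⟨c, hc0.le⟩ : ℝ≥0) (fun z => (f' z).re) A := by
    refine LipschitzOnWith.of_dist_le_mul (fun x hx y hy => ?_)
    rw [dist_eq_norm, Real.norm_eq_abs, dist_eq_norm]
    calc |(f' x).re - (f' y).re| = |(f' x - f' y).re| :=
          congrArg abs (Complex.sub_re (f' x) (f' y)).symm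
      _ ≤ ‖f' x - f' y‖ := Complex.abs_re_le_norm _
      _ ≤ c * ‖x - y‖ := hlip y hy x ⟨hx.1.1, hx.2⟩
  have hL2 : LipschitzOnWith (⟨c, hc0.le⟩ : ℝ≥0) (fun z => (f' z).im) A := by
    refine LipschitzOnWith.of_dist_le_mul (fun x hx y hy => ?_)
    rw [dist_eq_norm, Real.norm_eq_abs, dist_eq_norm]
    calc |(f' x).im - (f' y).im| = |(f' x - f' y).im| :=
          congrArg abs (Complex.sub_im (f' x) (f' y)).symm
      _ ≤ ‖f' x - f' y‖ := Complex.abs_im_le_norm _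
      _ ≤ c * ‖x - y‖ := hlip y hy x ⟨hx.1.1, hx.2⟩
  obtain ⟨F₁, hF₁, hF₁e⟩ := hL1.extend_real
  obtain ⟨F₂, hF₂, hF₂e⟩ := hL2.extend_real
  set F : ℂ → ℂ := fun z => (F₁ z : ℂ) + (F₂ z : ℂ) * I with hF
  have hFA : ∀ z ∈ A, F z = f' z := by
    intro z hz
    simp only [hF]
    rw [← hF₁e hz, ← hF₂e hz]
    exact Complex.re_add_im _
  have hFlip : ∀ z w, ‖F z - F w‖ ≤ 2 * c * ‖z - w‖ := by
    intro z w
    have h1 := hF₁.dist_le_mul z w
    have h2 := hF₂.dist_le_mul z w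
    rw [dist_eq_norm, Real.norm_eq_abs, dist_eq_norm] at h1 h2
    have h1' : |F₁ z - F₁ w| ≤ c * ‖z - w‖ := h1
    have h2' : |F₂ z - F₂ w| ≤ c * ‖z - w‖ := h2
    calc ‖F z - F w‖ = ‖((F₁ z - F₁ w : ℝ) : ℂ) + ((F₂ z - F₂ w : ℝ) : ℂ) * I‖ := by
          simp only [hF]
          push_cast
          ring_nf
      _ ≤ ‖((F₁ z - F₁ w : ℝ) : ℂ)‖ + ‖((F₂ z - F₂ w : ℝ) : ℂ) * I‖ := norm_add_le _ _
      _ = |F₁ z - F₁ w| + |F₂ z - F₂ w| := by
          rw [norm_mul, Complex.norm_I, mul_one, Complex.norm_real, Complex.norm_real,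
            Real.norm_eq_abs, Real.norm_eq_abs]
      _ ≤ 2 * c * ‖z - w‖ := by linarith
  have hFd : ∀ w ∈ X ∩ closedBall (z₀ : ℂ) (ρ / 4),
      ‖F w - f' w‖ ≤ 3 * c * infDist w (X \ O) := by
    rintro w ⟨hwX, hwb⟩
    obtain ⟨x, hx, hxw⟩ := hEc.exists_infDist_eq_dist ⟨z₀, z₀.2⟩ w
    have h1 : dist w x ≤ ρ / 4 := by
      rw [← hxw]
      exact (infDist_le_dist_of_mem z₀.2).trans (mem_closedBall.1 hwb)
    have hxA : x ∈ A := by
      refine ⟨hx, ?_⟩
      rw [mem_closedBall] at hwb ⊢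
      calc dist x z₀ ≤ dist x w + dist w z₀ := dist_triangle _ _ _
        _ ≤ ρ := by rw [dist_comm x w]; linarith
    have h2 := hlip x hxA w ⟨hwX, closedBall_subset_closedBall (by linarith) hwb⟩
    rw [hxw, dist_eq_norm]
    calc ‖F w - f' w‖ = ‖(F w - F x) + (f' x - f' w)‖ := by
          rw [hFA x hxA]
          ring_nf
      _ ≤ ‖F w - F x‖ + ‖f' x - f' w‖ := norm_add_le _ _
      _ ≤ 2 * c * ‖w - x‖ + c * ‖w - x‖ := by
          refine add_le_add (hFlip w x) ?_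
          rw [norm_sub_rev]
          exact h2
      _ = 3 * c * ‖w - x‖ := by ring
  have hgb : ∀ w ∈ X ∩ closedBall (z₀ : ℂ) (ρ / 4), ‖g' w‖ ≤ c := by
    rintro w ⟨hwX, hwb⟩
    have := hgρ hwX (lt_of_le_of_lt (mem_closedBall.1 hwb) (by linarith))
    rw [dist_eq_norm] at this
    simp only [hg']
    linarith
  have hnew := hext X hX hXc f' g' e O z₀ ρ F he hOo (hOg.shift α) z₀.2 hcl hρ0 hρ1 hFlip hFd hgb
  have hnew2 : Good X f g e (ball (z₀ : ℂ) (ρ / 16)) := by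
    have h1 := hnew.shift (-α)
    have e1 : (fun z => f' z - -α * z) = f := by
      funext z
      simp only [hf']
      ring
    have e2 : (fun z => g' z - -α) = g := by
      funext z
      simp only [hg']
      ring
    rw [e1, e2] at h1
    exact h1
  exact z₀.2.2 (mem_sUnion.2 ⟨ball (z₀ : ℂ) (ρ / 16), ⟨isOpen_ball, hnew2⟩,
    mem_ball_self (by positivity)⟩)

/-- **Main theorem**: simultaneous approximation -/
theorem app_of_hasDerivWithinAt {X : Set ℂ} (hX : IsCompact X) (hXc : IsPreconnected Xᶜ)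
    {f g : ℂ → ℂ} (hd : ∀ z ∈ X, HasDerivWithinAt f (g z) X z) (hg : ContinuousOn g X) :
    App X f g := by
  refine App.closure (fun ε hε => ?_)
  obtain ⟨h, hh⟩ := good_univ hX hXc hd hg (e := ε / 2) (by positivity) X hX
    (fun z hz => ⟨mem_univ z, hz⟩) (ε / 2) (by positivity)
  refine ⟨h, deriv h, runge hX hXc (fun z hz => (hh z hz).1), fun z hz => ?_⟩
  obtain ⟨_, h2, h3⟩ := hh z hz
  exact ⟨by linarith, by linarith⟩

end Pool.Agent.LibHelper41
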