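import Pool.Agent.Lib_helper41.Cell
import Pool.Agent.Lib_helper41.Cutoff

set_option autoImplicit false

namespace Pool.Agent.LibHelper41

open Metric Set Filter Topology Complex

theorem norm_fderiv_real_le {u : ℂ → ℂ} {x : ℂ} (hu : DifferentiableAt ℂ u x) :
    ‖fderiv ℝ u x‖ ≤ ‖deriv u x‖ := by
  refine ContinuousLinearMap.opNorm_le_bound _ (norm_nonneg _) (fun v => ?_)
  rw [fderiv_real_of_complex hu, norm_mul]

theorem norm_fderiv_mul_le {u v : ℂ → ℂ} {x : ℂ} (hu : DifferentiableAt ℝ u x)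
    (hv : DifferentiableAt ℝ v x) :
    ‖fderiv ℝ (fun z => u z * v z) x‖ ≤ ‖u x‖ * ‖fderiv ℝ v x‖ + ‖v x‖ * ‖fderiv ℝ u x‖ := by
  rw [fderiv_fun_mul hu hv]
  refine (norm_add_le _ _).trans ?_
  rw [norm_smul, norm_smul]

theorem exists_one_step : ∃ C : ℝ, 1 ≤ C ∧ ∀ X : Set ℂ, IsCompact X → IsPreconnected Xᶜ →
    ∀ ρ d σ a : ℝ, 0 ≤ ρ → 0 < σ → σ ≤ d → 128 * σ ^ 2 ≤ d → d ≤ 1 → ρ + d ≤ 5 / 2 →
    ∀ ω : ℂ → ℂ, ContDiff ℝ 1 ω → (∀ w, w ∉ closedBall (0 : ℂ) ρ → ω w = 0) →
      (∀ w, ‖ω w‖ ≤ a) → (∀ w, ‖fderiv ℝ ω w‖ ≤ a) →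
    ∃ Ψ D ω' : ℂ → ℂ,
      Src X Ψ (fun z => ω z - D z - ω' z) ∧
      (∀ z, z ∉ closedBall (0 : ℂ) (ρ + d) → Ψ z = 0) ∧
      (∀ z ∈ X, ‖Ψ z‖ ≤ C * a * σ ∧ ‖dz Ψ z‖ ≤ C * a) ∧
      (ContDiff ℝ 1 ω' ∧ (∀ z, z ∉ closedBall (0 : ℂ) (ρ + d) → ω' z = 0) ∧
        (∀ z, ‖ω' z‖ ≤ C * a * σ / d ^ 2) ∧ (∀ z, ‖fderiv ℝ ω' z‖ ≤ C * a * σ / d ^ 2)) ∧
      (ContDiff ℝ 1 D ∧
        (∀ z, (D z ≠ 0 ∨ fderiv ℝ D z ≠ 0) →
          z ∈ closedBall (0 : ℂ) ρ ∧ closedBall z (σ ^ 2) ⊆ X) ∧
        (∀ z, ‖D z‖ ≤ C * a) ∧ (∀ z, ‖fderiv ℝ D z‖ ≤ C * a / σ ^ 2)) := by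
  obtain ⟨Cc, hCc, hcell⟩ := exists_cell_scaled
  obtain ⟨Cw, hCw, hwt⟩ := exists_sum_wt2
  obtain ⟨Cp, hCp, hphi⟩ := exists_sumphi_bound
  obtain ⟨Cχ, hCχ, hcut⟩ := exists_cutoff
  obtain ⟨B, hB1, hB2, hB3⟩ := exists_bump_bound
  set K : ℝ := Cc * (B + 1) * Cw * 3 with hK
  have hB0 : 0 < B := by linarith
  have hK0 : 0 < K := by positivity
  have hCχ0 : 0 < Cχ := by linarith
  have hCp0 : 0 < Cp := by linarith
  refine ⟨5 * Cχ * K + 2 * Cp, by nlinarith [mul_pos hCχ0 hK0], ?_⟩
  intro X hX hXc ρ d σ a hρ hσ hσd hσ2 hd1 hρd ω hω hωs hωa hωa'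
  have ha0 : 0 ≤ a := (norm_nonneg _).trans (hωa 0)
  have hd0 : 0 < d := lt_of_lt_of_le hσ hσd
  set s : ℝ := σ ^ 2 with hs
  have hs0 : 0 < s := by positivity
  have hs1 : s ≤ 1 / 128 := by linarith
  obtain ⟨N, hN⟩ := exists_box s hs0 3
  classical
  let Deep : ℤ × ℤ → Prop := fun k => ∀ b, b ∉ X → 10 * s < ‖b - pt s k‖
  set S' : Finset (ℤ × ℤ) := (box N).filter (fun k => ¬ Deep k ∧ ‖pt s k‖ ≤ ρ + 2 * s) with hS'
  set Sd : Finset (ℤ × ℤ) := (box N).filter (fun k => Deep k) with hSd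
  set A : ℝ := (B + 1) * a with hA
  have hA0 : 0 ≤ A := by positivity
  -- the cells
  have hcells : ∀ k ∈ S', ∃ Ψ : ℂ → ℂ,
      Src {z | z ∈ X ∨ 24 * s ≤ ‖z - pt s k‖} Ψ (fun w => phi s k w * ω w) ∧
        (∀ z, (z ∈ X ∨ 24 * s ≤ ‖z - pt s k‖) →
          ‖Ψ z‖ ≤ Cc * A * s / (1 + ‖z - pt s k‖ / s) ^ 2) ∧
        (∀ z ∈ X, ‖dz Ψ z‖ ≤ Cc * A / (1 + ‖z - pt s k‖ / s) ^ 3) := by
    intro k hk
    rw [hS', Finset.mem_filter] at hk
    have h1 : ¬ Deep k := hk.2.1
    simp only [Deep] at h1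
    push Not at h1
    obtain ⟨b, hb, hb2⟩ := h1
    refine hcell X hX hXc s (pt s k) b hs0 hb hb2 (fun w => phi s k w * ω w) A ?_ ?_ ?_ ?_
    · exact (phi_contDiff (n := 1) s k).mul hω
    · intro w hw
      rw [mem_closedBall, dist_eq_norm, not_le] at hw
      change phi s k w * ω w = 0
      rw [phi_eq_zero hs0 (by linarith), zero_mul]
    · intro w
      rw [norm_mul]
      calc ‖phi s k w‖ * ‖ω w‖ ≤ 1 * a := by
            gcongr
            · exact norm_phi_le s k w
            · exact hωa w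
        _ ≤ A := by rw [hA]; nlinarith
    · intro w
      refine (norm_fderiv_mul_le (phi_differentiableAt s k w)
        (hω.differentiable one_ne_zero w)).trans ?_
      calc ‖phi s k w‖ * ‖fderiv ℝ ω w‖ + ‖ω w‖ * ‖fderiv ℝ (phi s k) w‖
          ≤ 1 * a + a * (B / s) := by
            gcongr
            · exact norm_phi_le s k w
            · exact hωa' w
            · exact hωa w
            · exact norm_fderiv_phi_le hB2 hs0 k w
        _ ≤ A / s := by
            rw [le_div_iff₀ hs0, hA]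
            have : a * (B / s) * s = a * B := by field_simp
            nlinarith
  choose! P hP1 hP2 hP3 using hcells
  set SΨ : ℂ → ℂ := fun z => ∑ k ∈ S', P k z with hSΨ
  have hfar : ∀ z : ℂ, ρ + d / 4 ≤ ‖z‖ → ∀ k ∈ S', 24 * s ≤ ‖z - pt s k‖ := by
    intro z hz k hk
    rw [hS', Finset.mem_filter] at hk
    have : ‖z‖ ≤ ‖z - pt s k‖ + ‖pt s k‖ := by
      calc ‖z‖ = ‖(z - pt s k) + pt s k‖ := by ring_nf
        _ ≤ _ := norm_add_le _ _
    linarith [hk.2.2]
  have hdom : ∀ z : ℂ, (z ∈ X ∨ ρ + d / 4 ≤ ‖z‖) → ∀ k ∈ S', z ∈ X ∨ 24 * s ≤ ‖z - pt s k‖ := by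
    rintro z (hz | hz) k hk
    · exact Or.inl hz
    · exact Or.inr (hfar z hz k hk)
  have hSsrc : Src {z | z ∈ X ∨ ρ + d / 4 ≤ ‖z‖} SΨ
      (fun z => ∑ k ∈ S', phi s k z * ω z) := by
    refine Src.sum S' (fun k hk => ?_)
    exact (hP1 k hk).mono (fun z hz => hdom z hz k hk)
  have hSb : ∀ z : ℂ, (z ∈ X ∨ ρ + d / 4 ≤ ‖z‖) → ‖z‖ ≤ 3 → ‖SΨ z‖ ≤ K * a * σ := by
    intro z hz hz3
    have hk1 : ∀ k ∈ S', ‖P k z‖ ≤ (Cc * A * (3 * σ)) * wt (‖z - pt s k‖ / s) ^ 2 := by
      intro k hk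
      refine (hP2 k hk z (hdom z hz k hk)).trans ?_
      rw [hS', Finset.mem_filter] at hk
      have h1 : ‖z - pt s k‖ / s ≤ 6 / s := by
        gcongr
        calc ‖z - pt s k‖ ≤ ‖z‖ + ‖pt s k‖ := norm_sub_le _ _
          _ ≤ 6 := by linarith [hk.2.2]
      have h2 := inv_sq_le_wt (t := ‖z - pt s k‖ / s) (T := 6 / s) (by positivity) h1
      have h3 : Real.sqrt (1 + 6 / s) ≤ 3 / σ := by
        rw [Real.sqrt_le_left (by positivity), div_pow, ← hs, le_div_iff₀ hs0]
        have h4 : (1 + 6 / s) * s = s + 6 := by field_simp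
        rw [h4]
        linarith
      calc Cc * A * s / (1 + ‖z - pt s k‖ / s) ^ 2
          = Cc * A * s * (1 / (1 + ‖z - pt s k‖ / s) ^ 2) := by ring
        _ ≤ Cc * A * s * (3 / σ * wt (‖z - pt s k‖ / s) ^ 2) := by
            gcongr
            exact h2.trans (by gcongr)
        _ = (Cc * A * (3 * σ)) * wt (‖z - pt s k‖ / s) ^ 2 := by
            rw [hs]
            field_simp
    calc ‖SΨ z‖ ≤ ∑ k ∈ S', ‖P k z‖ := norm_sum_le _ _
      _ ≤ ∑ k ∈ S', (Cc * A * (3 * σ)) * wt (‖z - pt s k‖ / s) ^ 2 := Finset.sum_le_sum hk1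
      _ = (Cc * A * (3 * σ)) * ∑ k ∈ S', wt (‖z - pt s k‖ / s) ^ 2 := by rw [Finset.mul_sum]
      _ ≤ (Cc * A * (3 * σ)) * Cw := by
          gcongr
          exact hwt s z S' hs0
      _ = K * a * σ := by rw [hK, hA]; ring
  have hSd : ∀ z ∈ X, ‖dz SΨ z‖ ≤ K * a := by
    intro z hz
    have h1 : dz SΨ z = ∑ k ∈ S', dz (P k) z :=
      dz_sum S' (fun k hk => (hP1 k hk).differentiableAt (Or.inl hz))
    rw [h1]
    calc ‖∑ k ∈ S', dz (P k) z‖ ≤ ∑ k ∈ S', ‖dz (P k) z‖ := norm_sum_le _ _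
      _ ≤ ∑ k ∈ S', (Cc * A) * wt (‖z - pt s k‖ / s) ^ 2 := by
          refine Finset.sum_le_sum (fun k hk => (hP3 k hk z hz).trans ?_)
          calc Cc * A / (1 + ‖z - pt s k‖ / s) ^ 3
              = Cc * A * (1 / (1 + ‖z - pt s k‖ / s) ^ 3) := by ring
            _ ≤ _ := by
              gcongr
              exact inv_cube_le_wt (by positivity)
      _ = (Cc * A) * ∑ k ∈ S', wt (‖z - pt s k‖ / s) ^ 2 := by rw [Finset.mul_sum]
      _ ≤ (Cc * A) * Cw := by
          gcongr
          exact hwt s z S' hs0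
      _ ≤ K * a := by
          rw [hK, hA]
          have : 0 ≤ Cc * (B + 1) * a * Cw := by positivity
          nlinarith
  have hKa : 0 ≤ K * a * σ := by positivity
  -- the cutoff
  obtain ⟨χ, hχ, hχ1, hχ0, hχn, hχd, hχdd⟩ := hcut ρ d hρ hd0
  have hχC1 : ContDiff ℝ 1 χ := hχ.of_le (by norm_num)
  have hin : ∀ z : ℂ, ‖z‖ < ρ + d / 2 → ∀ᶠ x in 𝓝 z, dbar χ x = 0 := by
    intro z hz
    have h1 : ContinuousAt (fun x : ℂ => ‖x‖) z := continuous_norm.continuousAt
    filter_upwards [h1.eventually (gt_mem_nhds hz)] with x hx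
    have h2 : χ =ᶠ[𝓝 x] fun _ => 1 := by
      have h3 : ContinuousAt (fun x : ℂ => ‖x‖) x := continuous_norm.continuousAt
      filter_upwards [h3.eventually (gt_mem_nhds hx)] with y hy
      exact hχ1 y hy
    rw [dbar_congr h2, dbar_const]
  have hout' : ∀ z : ℂ, ρ + 3 * d / 4 < ‖z‖ → ∀ᶠ x in 𝓝 z, χ x = 0 := by
    intro z hz
    have h1 : ContinuousAt (fun x : ℂ => ‖x‖) z := continuous_norm.continuousAt
    filter_upwards [h1.eventually (lt_mem_nhds hz)] with x hx
    exact hχ0 x hx.le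
  have hout : ∀ z : ℂ, ρ + 3 * d / 4 < ‖z‖ → ∀ᶠ x in 𝓝 z, dbar χ x = 0 := by
    intro z hz
    have h1 : ContinuousAt (fun x : ℂ => ‖x‖) z := continuous_norm.continuousAt
    filter_upwards [h1.eventually (lt_mem_nhds hz)] with x hx
    have h2 : χ =ᶠ[𝓝 x] fun _ => 0 := hout' x hx
    rw [dbar_congr h2, dbar_const]
  -- pointwise identity
  have hid : ∀ x : ℂ, χ x * ∑ k ∈ S', phi s k x * ω x =
      ω x - (∑ k ∈ Sd, phi s k x) * ω x := by
    intro x
    by_cases hx : ω x = 0
    · simp [hx]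
    · have hx1 : ‖x‖ ≤ ρ := by
        by_contra h
        apply hx
        apply hωs
        rwa [mem_closedBall_zero_iff]
      rw [hχ1 x (by linarith), one_mul, ← Finset.sum_mul]
      have e1 : ∑ k ∈ box N, phi s k x = 1 := by
        apply sum_phi hs0 N
        · exact (Complex.abs_re_le_norm x).trans (by linarith)
        · exact (Complex.abs_im_le_norm x).trans (by linarith)
      have e2 : ∑ k ∈ box N, phi s k x = ∑ k ∈ Sd, phi s k x +
          ∑ k ∈ (box N).filter (fun k => ¬ Deep k), phi s k x :=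
        (Finset.sum_filter_add_sum_filter_not _ _ _).symm
      have e3 : ∑ k ∈ (box N).filter (fun k => ¬ Deep k), phi s k x = ∑ k ∈ S', phi s k x := by
        symm
        refine Finset.sum_subset ?_ (fun k hk hk2 => ?_)
        · intro k hk
          rw [hS', Finset.mem_filter] at hk
          rw [Finset.mem_filter]
          exact ⟨hk.1, hk.2.1⟩
        · apply phi_eq_zero hs0
          by_contra hcon
          push Not at hcon
          apply hk2
          rw [Finset.mem_filter] at hk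
          rw [hS', Finset.mem_filter]
          refine ⟨hk.1, hk.2, ?_⟩
          have : ‖pt s k‖ ≤ ‖x‖ + ‖x - pt s k‖ := by
            calc ‖pt s k‖ = ‖x - (x - pt s k)‖ := by ring_nf
              _ ≤ _ := norm_sub_le _ _
          linarith
      rw [← e3]
      have e4 : ∑ k ∈ (box N).filter (fun k => ¬ Deep k), phi s k x =
          1 - ∑ k ∈ Sd, phi s k x := by
        rw [← e1, e2]
        ring
      rw [e4]
      ring
  -- analyticity of the sum away from the support
  have hωev : ∀ z : ℂ, ρ < ‖z‖ → ∀ᶠ x in 𝓝 z, ω x = 0 := by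
    intro z hz
    have h1 : ContinuousAt (fun x : ℂ => ‖x‖) z := continuous_norm.continuousAt
    filter_upwards [h1.eventually (lt_mem_nhds hz)] with x hx
    apply hωs
    rw [mem_closedBall_zero_iff, not_le]
    exact hx
  have hanal : ∀ z : ℂ, ρ + d / 4 ≤ ‖z‖ → AnalyticAt ℂ SΨ z := by
    intro z hz
    refine hSsrc.analyticAt (Or.inr hz) ?_
    filter_upwards [hωev z (by linarith)] with x hx
    simp [hx]
  have hderiv : ∀ z : ℂ, ρ + d / 2 ≤ ‖z‖ → ‖z‖ ≤ ρ + 3 * d / 4 →
      ‖fderiv ℝ SΨ z‖ ≤ 4 * (K * a * σ) / d := by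
    intro z hz1 hz2
    have hcb : ∀ y ∈ closedBall z (d / 4), ρ + d / 4 ≤ ‖y‖ ∧ ‖y‖ ≤ 3 := by
      intro y hy
      rw [mem_closedBall, dist_eq_norm] at hy
      constructor
      · have : ‖z‖ ≤ ‖y‖ + ‖y - z‖ := by
          calc ‖z‖ = ‖y - (y - z)‖ := by ring_nf
            _ ≤ _ := norm_sub_le _ _
        linarith
      · have : ‖y‖ ≤ ‖z‖ + ‖y - z‖ := by
          calc ‖y‖ = ‖z + (y - z)‖ := by ring_nf
            _ ≤ _ := norm_add_le _ _
        linarith
    have hdiff : DiffContOnCl ℂ SΨ (ball z (d / 4)) := by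
      refine DifferentiableOn.diffContOnCl ?_
      rw [closure_ball z (by positivity)]
      intro y hy
      exact (hanal y (hcb y hy).1).differentiableAt.differentiableWithinAt
    have h1 := norm_deriv_le_of_forall_mem_sphere_norm_le (by positivity : 0 < d / 4) hdiff
      (C := K * a * σ) (fun y hy => by
        have h2 := hcb y (sphere_subset_closedBall hy)
        exact hSb y (Or.inr h2.1) h2.2)
    refine (norm_fderiv_real_le (hanal z (by linarith)).differentiableAt).trans (h1.trans ?_)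
    apply le_of_eq
    field_simp
  set D : ℂ → ℂ := fun z => (∑ k ∈ Sd, phi s k z) * ω z with hD
  have hDC : ContDiff ℝ 1 D := (ContDiff.sum (fun k _ => phi_contDiff (n := 1) s k)).mul hω
  refine ⟨fun z => χ z * SΨ z, D, fun z => -(dbar χ z * SΨ z), ?_, ?_, ?_, ⟨?_, ?_, ?_, ?_⟩,
    ⟨hDC, ?_, ?_, ?_⟩⟩
  · -- the equation
    have h1 : Src X χ (dbar χ) := src_of_contDiff hχC1
    have h2 : Src X SΨ (fun z => ∑ k ∈ S', phi s k z * ω z) :=
      hSsrc.mono (fun z hz => Or.inl hz)
    refine (h1.mul h2).congr (fun z _ => Eventually.of_forall (fun x => ?_))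
    rw [hid x]
    simp only [hD]
    ring
  · -- support
    intro z hz
    rw [mem_closedBall_zero_iff, not_le] at hz
    change χ z * SΨ z = 0
    rw [hχ0 z (by linarith), zero_mul]
  · -- bounds on X
    intro z hz
    rcases le_total ‖z‖ 3 with h3 | h3
    · have hS1 := hSb z (Or.inl hz) h3
      constructor
      · rw [norm_mul]
        calc ‖χ z‖ * ‖SΨ z‖ ≤ Cχ * (K * a * σ) := by
              gcongr
              exact hχn z
          _ ≤ (5 * Cχ * K + 2 * Cp) * a * σ := by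
              have : 0 ≤ (4 * Cχ * K + 2 * Cp) * a * σ := by positivity
              nlinarith
      · rw [dz_mul (hχC1.differentiable one_ne_zero z) (hSsrc.differentiableAt (Or.inl hz))]
        calc ‖dz χ z * SΨ z + χ z * dz SΨ z‖ ≤ ‖dz χ z * SΨ z‖ + ‖χ z * dz SΨ z‖ :=
              norm_add_le _ _
          _ ≤ (Cχ / d) * (K * a * σ) + Cχ * (K * a) := by
              rw [norm_mul, norm_mul]
              gcongr
              · exact norm_dz_le.trans (hχd z)
              · exact hχn z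
              · exact hSd z hz
          _ ≤ (5 * Cχ * K + 2 * Cp) * a := by
              have h5 : (Cχ / d) * (K * a * σ) ≤ Cχ * (K * a) := by
                calc (Cχ / d) * (K * a * σ) = Cχ * (K * a) * (σ / d) := by ring
                  _ ≤ Cχ * (K * a) * 1 := by
                    gcongr
                    rw [div_le_one hd0]
                    exact hσd
                  _ = _ := by ring
              have : 0 ≤ (3 * Cχ * K + 2 * Cp) * a := by positivity
              nlinarith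
    · have hz4 : ρ + 3 * d / 4 < ‖z‖ := by linarith
      constructor
      · change ‖χ z * SΨ z‖ ≤ _
        rw [hχ0 z hz4.le, zero_mul, norm_zero]
        positivity
      · have h6 : (fun z => χ z * SΨ z) =ᶠ[𝓝 z] fun _ => 0 := by
          filter_upwards [hout' z hz4] with x hx
          rw [hx, zero_mul]
        rw [dz_congr h6, dz_const, norm_zero]
        positivity
  · -- smoothness of ω'
    rw [contDiff_iff_contDiffAt]
    intro z
    rcases lt_or_ge ‖z‖ (ρ + d / 2) with hz | hz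
    · have h6 : (fun z => -(dbar χ z * SΨ z)) =ᶠ[𝓝 z] fun _ => 0 := by
        filter_upwards [hin z hz] with x hx
        rw [hx, zero_mul, neg_zero]
      exact contDiffAt_const.congr_of_eventuallyEq h6
    · have h7 : ContDiffAt ℝ 1 SΨ z :=
        (hanal z (by linarith)).contDiffAt.restrict_scalars ℝ
      exact ((contDiff_dbar hχ).contDiffAt.mul h7).neg
  · -- support of ω'
    intro z hz
    rw [mem_closedBall_zero_iff, not_le] at hz
    change -(dbar χ z * SΨ z) = 0
    rw [(hout z (by linarith)).self_of_nhds, zero_mul, neg_zero]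
  · -- bound of ω'
    intro z
    rw [norm_neg, norm_mul]
    have hpos : 0 ≤ (5 * Cχ * K + 2 * Cp) * a * σ / d ^ 2 := by positivity
    rcases lt_or_ge ‖z‖ (ρ + d / 2) with hz | hz
    · rw [(hin z hz).self_of_nhds, norm_zero, zero_mul]
      exact hpos
    · rcases lt_or_ge (ρ + 3 * d / 4) ‖z‖ with hz2 | hz2
      · rw [(hout z hz2).self_of_nhds, norm_zero, zero_mul]
        exact hpos
      · calc ‖dbar χ z‖ * ‖SΨ z‖ ≤ (Cχ / d) * (K * a * σ) := by
              gcongr
              · exact norm_dbar_le.trans (hχd z)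
              · exact hSb z (Or.inr (by linarith)) (by linarith)
          _ ≤ (5 * Cχ * K + 2 * Cp) * a * σ / d ^ 2 := by
              rw [le_div_iff₀ (by positivity)]
              have h8 : Cχ / d * (K * a * σ) * d ^ 2 = (Cχ * K) * (a * σ) * d := by
                field_simp
              rw [h8]
              have h9 : 0 ≤ (Cχ * K) * (a * σ) := by positivity
              have h10 : 0 ≤ (4 * Cχ * K + 2 * Cp) * (a * σ) := by positivity
              nlinarith
  · -- derivative bound of ω'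
    intro z
    have hpos : 0 ≤ (5 * Cχ * K + 2 * Cp) * a * σ / d ^ 2 := by positivity
    rcases lt_or_ge ‖z‖ (ρ + d / 2) with hz | hz
    · have h6 : (fun z => -(dbar χ z * SΨ z)) =ᶠ[𝓝 z] fun _ => 0 := by
        filter_upwards [hin z hz] with x hx
        rw [hx, zero_mul, neg_zero]
      rw [h6.fderiv_eq]
      simpa using hpos
    · rcases lt_or_ge (ρ + 3 * d / 4) ‖z‖ with hz2 | hz2
      · have h6 : (fun z => -(dbar χ z * SΨ z)) =ᶠ[𝓝 z] fun _ => 0 := by
          filter_upwards [hout z hz2] with x hx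
          rw [hx, zero_mul, neg_zero]
        rw [h6.fderiv_eq]
        simpa using hpos
      · have h11 : fderiv ℝ (fun z => -(dbar χ z * SΨ z)) z =
            -fderiv ℝ (fun z => dbar χ z * SΨ z) z := fderiv_fun_neg
        rw [h11, norm_neg]
        refine (norm_fderiv_mul_le ((contDiff_dbar hχ).differentiable one_ne_zero z)
          ((hanal z (by linarith)).differentiableAt.restrictScalars ℝ)).trans ?_
        calc ‖dbar χ z‖ * ‖fderiv ℝ SΨ z‖ + ‖SΨ z‖ * ‖fderiv ℝ (dbar χ) z‖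
            ≤ (Cχ / d) * (4 * (K * a * σ) / d) + (K * a * σ) * (Cχ / d ^ 2) := by
              gcongr
              · exact norm_dbar_le.trans (hχd z)
              · exact hderiv z hz hz2
              · exact hSb z (Or.inr (by linarith)) (by linarith)
              · exact hχdd z
          _ = 5 * Cχ * K * a * σ / d ^ 2 := by
              field_simp
              ring
          _ ≤ (5 * Cχ * K + 2 * Cp) * a * σ / d ^ 2 := by
              gcongr
              linarith
  · -- location of D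
    intro z hz
    by_contra hcon
    have hDev : D =ᶠ[𝓝 z] fun _ => 0 := by
      by_cases h1 : z ∈ closedBall (0 : ℂ) ρ
      · have h2 : ∀ k ∈ Sd, 3 / 2 * s < ‖z - pt s k‖ := by
          intro k hk
          by_contra h3
          push Not at h3
          apply hcon
          refine ⟨h1, fun y hy => ?_⟩
          by_contra hyX
          have h4 : Deep k := (Finset.mem_filter.1 hk).2
          have h5 := h4 y hyX
          rw [mem_closedBall, dist_eq_norm] at hy
          have : ‖y - pt s k‖ ≤ ‖y - z‖ + ‖z - pt s k‖ := by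
            calc ‖y - pt s k‖ = ‖(y - z) + (z - pt s k)‖ := by ring_nf
              _ ≤ _ := norm_add_le _ _
          linarith
        have h3 : ∀ k ∈ Sd, ∀ᶠ x in 𝓝 z, phi s k x = 0 := fun k hk =>
          phi_eventually_zero hs0 (h2 k hk)
        rw [← Filter.eventually_all_finset] at h3
        filter_upwards [h3] with x hx
        simp only [hD]
        rw [Finset.sum_eq_zero hx, zero_mul]
      · rw [mem_closedBall_zero_iff, not_le] at h1
        filter_upwards [hωev z h1] with x hx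
        simp only [hD]
        rw [hx, mul_zero]
    rcases hz with hz | hz
    · exact hz hDev.self_of_nhds
    · apply hz
      rw [hDev.fderiv_eq]
      simp
  · intro z
    obtain ⟨h1, _, _⟩ := hphi s Sd hs0
    rw [hD]
    simp only
    rw [norm_mul]
    calc ‖∑ k ∈ Sd, phi s k z‖ * ‖ω z‖ ≤ Cp * a := by
          gcongr
          · exact h1 z
          · exact hωa z
      _ ≤ (5 * Cχ * K + 2 * Cp) * a := by
          gcongr
          have : 0 ≤ 5 * Cχ * K + Cp := by positivity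
          linarith
  · intro z
    obtain ⟨h1, h2, _⟩ := hphi s Sd hs0
    have hdiff : DifferentiableAt ℝ (fun z => ∑ k ∈ Sd, phi s k z) z :=
      (ContDiff.sum (fun k _ => phi_contDiff (n := 1) s k)).differentiable one_ne_zero z
    refine (norm_fderiv_mul_le hdiff (hω.differentiable one_ne_zero z)).trans ?_
    calc ‖∑ k ∈ Sd, phi s k z‖ * ‖fderiv ℝ ω z‖ +
          ‖ω z‖ * ‖fderiv ℝ (fun z => ∑ k ∈ Sd, phi s k z) z‖
        ≤ Cp * a + a * (Cp / s) := by
          gcongr
          · exact h1 z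
          · exact hωa' z
          · exact hωa z
          · exact h2 z
      _ ≤ (5 * Cχ * K + 2 * Cp) * a / s := by
          rw [le_div_iff₀ hs0]
          have h12 : (Cp * a + a * (Cp / s)) * s = Cp * a * s + a * Cp := by
            field_simp
          rw [h12]
          have h13 : 0 ≤ Cp * a := by positivity
          have h14 : 0 ≤ 5 * Cχ * K * a := by positivity
          nlinarith

end Pool.Agent.LibHelper41
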