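import Pool.Agent.Lib_helper41.PatchCell

set_option autoImplicit false

namespace Pool.Agent.LibHelper41

open Metric Set Filter Topology Complex

theorem exists_neighbors : ∃ C : ℝ, 1 ≤ C ∧ ∀ (s : ℝ) (z : ℂ) (S : Finset (ℤ × ℤ)), 0 < s →
    ∑ k ∈ S, (if ‖z - pt s k‖ ≤ 3 * s then (1 : ℝ) else 0) ≤ C := by
  obtain ⟨C, hC, h⟩ := exists_sum_wt2
  have hw : 0 < wt 3 ^ 2 := pow_pos (wt_pos (by norm_num)) 2
  refine ⟨max 1 (C / wt 3 ^ 2), le_max_left _ _, fun s z S hs => ?_⟩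
  refine le_trans ?_ (le_max_right _ _)
  rw [le_div_iff₀ hw, Finset.sum_mul]
  refine le_trans (Finset.sum_le_sum (fun k _ => ?_)) (h s z S hs)
  split_ifs with hk
  · rw [one_mul]
    have h1 : wt 3 ≤ wt (‖z - pt s k‖ / s) := by
      apply wt_anti (by positivity)
      rw [div_le_iff₀ hs]
      exact hk
    have h2 : 0 ≤ wt 3 := (wt_pos (by norm_num)).le
    gcongr
  · rw [zero_mul]
    positivity

theorem dbar_phi_zero {s : ℝ} (hs : 0 < s) {k : ℤ × ℤ} {z : ℂ}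
    (hz : 3 / 2 * s < ‖z - pt s k‖) : dbar (phi s k) z = 0 := by
  unfold dbar
  rw [fderiv_phi_zero hs hz]
  simp

theorem dz_phi_zero {s : ℝ} (hs : 0 < s) {k : ℤ × ℤ} {z : ℂ}
    (hz : 3 / 2 * s < ‖z - pt s k‖) : dz (phi s k) z = 0 := by
  unfold dz
  rw [fderiv_phi_zero hs hz]
  simp

theorem phi_mul_dbar_zero {s : ℝ} (hs : 0 < s) {j k : ℤ × ℤ} {z : ℂ}
    (hjk : ¬ ‖pt s j - pt s k‖ ≤ 3 * s) : phi s j z * dbar (phi s k) z = 0 := by
  rcases le_or_gt (3 / 2 * s) ‖z - pt s j‖ with h | h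
  · rw [phi_eq_zero hs h, zero_mul]
  · have : 3 / 2 * s < ‖z - pt s k‖ := by
      have h2 : ‖pt s j - pt s k‖ ≤ ‖z - pt s k‖ + ‖z - pt s j‖ := by
        calc ‖pt s j - pt s k‖ = ‖(z - pt s k) - (z - pt s j)‖ := by ring_nf
          _ ≤ _ := norm_sub_le _ _
      linarith
    rw [dbar_phi_zero hs this, mul_zero]

theorem exists_patch_source : ∀ δ : ℝ, 0 < δ → ∃ τ₀ : ℝ, 0 < τ₀ ∧
    ∀ X : Set ℂ, IsCompact X → IsPreconnected Xᶜ →
    ∀ (r M : ℝ) (N : ℕ) (G : ℤ × ℤ → ℂ → ℂ) (J : Finset (ℤ × ℤ)), 0 < r → 0 < M →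
    (∀ j ∈ J, ∀ k ∈ box N, ‖pt r j - pt r k‖ ≤ 3 * r → ∀ z ∈ X ∩ closedBall (pt r j) (3 * r),
      AnalyticAt ℂ (G k) z ∧ AnalyticAt ℂ (G j) z ∧ ‖G k z - G j z‖ ≤ τ₀ * M * r ∧
      ‖deriv (G k) z - deriv (G j) z‖ ≤ M) →
    ∃ v : ℂ → ℂ,
      Src X v (fun x => ∑ j ∈ J, ∑ k ∈ box N, phi r j x * dbar (phi r k) x * (G k x - G j x)) ∧
      (∀ z ∈ X, ‖v z‖ ≤ δ * M * r * J.card ∧ ‖dz v z‖ ≤ δ * M * J.card) ∧
      ((∀ j ∈ J, ∃ a, a ∉ X ∧ ‖a - pt r j‖ ≤ 10 * r) →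
        ∀ z ∈ X, ‖v z‖ ≤ δ * M * r * ∑ j ∈ J, 1 / (1 + ‖z - pt r j‖ / r) ^ 2 ∧
          ‖dz v z‖ ≤ δ * M * ∑ j ∈ J, 1 / (1 + ‖z - pt r j‖ / r) ^ 3) := by
  intro δ hδ
  obtain ⟨B, hB1, hB2, hB3⟩ := exists_bump_bound
  obtain ⟨Cn, hCn, hnb⟩ := exists_neighbors
  have hCn0 : 0 < Cn := by linarith
  have hB0 : 0 < B := by linarith
  obtain ⟨τ₀, hτ0, h⟩ := exists_patch_cell (2 * B ^ 2) (by positivity) (δ / Cn) (by positivity)
  refine ⟨τ₀, hτ0, fun X hX hXc r M N G J hr hM hG => ?_⟩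
  classical
  -- one pair
  have hpair : ∀ j ∈ J, ∀ k ∈ box N, ‖pt r j - pt r k‖ ≤ 3 * r → ∃ v : ℂ → ℂ,
      Src X v (fun z => phi r j z * dbar (phi r k) z * (G k z - G j z)) ∧
        (∀ z ∈ X, ‖v z‖ ≤ δ / Cn * M * r ∧ ‖dz v z‖ ≤ δ / Cn * M) ∧
        ((∃ a, a ∉ X ∧ ‖a - pt r j‖ ≤ 10 * r) →
          ∀ z ∈ X, ‖v z‖ ≤ δ / Cn * M * r / (1 + ‖z - pt r j‖ / r) ^ 2 ∧
            ‖dz v z‖ ≤ δ / Cn * M / (1 + ‖z - pt r j‖ / r) ^ 3) := by
    intro j hj k hk hjk
    have hdC : ContDiff ℝ 1 (dbar (phi r k)) := contDiff_dbar (phi_contDiff (n := 2) r k)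
    have hdb : ∀ z, ‖dbar (phi r k) z‖ ≤ B / r := fun z =>
      norm_dbar_le.trans (norm_fderiv_phi_le hB2 hr k z)
    refine h X hX hXc r M (pt r j) hr hM (fun z => G k z - G j z) ?_
      (fun z => phi r j z * dbar (phi r k) z) ((phi_contDiff (n := 1) r j).mul hdC) ?_ ?_ ?_
    · intro z hz
      obtain ⟨g1, g2, g3, g4⟩ := hG j hj k hk hjk z hz
      refine ⟨g1.sub g2, g3, ?_⟩
      have : deriv (fun z => G k z - G j z) z = deriv (G k) z - deriv (G j) z :=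
        deriv_fun_sub g1.differentiableAt g2.differentiableAt
      rw [this]
      exact g4
    · intro z hz
      rw [mem_closedBall, dist_eq_norm, not_le] at hz
      change phi r j z * dbar (phi r k) z = 0
      rw [phi_eq_zero hr hz.le, zero_mul]
    · intro z
      rw [norm_mul]
      calc ‖phi r j z‖ * ‖dbar (phi r k) z‖ ≤ 1 * (B / r) := by
            gcongr
            · exact norm_phi_le r j z
            · exact hdb z
        _ ≤ 2 * B ^ 2 / r := by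
            rw [one_mul]
            gcongr
            nlinarith
    · intro z
      refine (norm_fderiv_mul_le (phi_differentiableAt r j z)
        (hdC.differentiable one_ne_zero z)).trans ?_
      calc ‖phi r j z‖ * ‖fderiv ℝ (dbar (phi r k)) z‖ +
            ‖dbar (phi r k) z‖ * ‖fderiv ℝ (phi r j) z‖
          ≤ 1 * (B / r ^ 2) + (B / r) * (B / r) := by
            gcongr
            · exact norm_phi_le r j z
            · exact norm_fderiv_dbar_phi_le hB3 hr k z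
            · exact hdb z
            · exact norm_fderiv_phi_le hB2 hr j z
        _ = (B + B ^ 2) / r ^ 2 := by
            field_simp
        _ ≤ 2 * B ^ 2 / r ^ 2 := by
            gcongr
            nlinarith
  choose! P hP1 hP2 hP3 using hpair
  set V : ℤ × ℤ → ℂ → ℂ := fun j z =>
    ∑ k ∈ (box N).filter (fun k => ‖pt r j - pt r k‖ ≤ 3 * r), P j k z with hV
  have hcount : ∀ j, (((box N).filter (fun k => ‖pt r j - pt r k‖ ≤ 3 * r)).card : ℝ) ≤ Cn := by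
    intro j
    have := hnb r (pt r j) (box N) hr
    rw [← Finset.sum_filter] at this
    simpa using this
  have hVsrc : ∀ j ∈ J, Src X (V j)
      (fun x => ∑ k ∈ box N, phi r j x * dbar (phi r k) x * (G k x - G j x)) := by
    intro j hj
    have h1 : Src X (V j) (fun x => ∑ k ∈ (box N).filter (fun k => ‖pt r j - pt r k‖ ≤ 3 * r),
        phi r j x * dbar (phi r k) x * (G k x - G j x)) := by
      refine Src.sum _ (fun k hk => ?_)
      rw [Finset.mem_filter] at hk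
      exact hP1 j hj k hk.1 hk.2
    refine h1.congr (fun z _ => Eventually.of_forall (fun x => ?_))
    refine Finset.sum_subset (Finset.filter_subset _ _) (fun k hk hk2 => ?_)
    have : ¬ ‖pt r j - pt r k‖ ≤ 3 * r := fun h => hk2 (Finset.mem_filter.2 ⟨hk, h⟩)
    rw [phi_mul_dbar_zero hr this, zero_mul]
  have hVd : ∀ j ∈ J, ∀ z ∈ X, dz (V j) z =
      ∑ k ∈ (box N).filter (fun k => ‖pt r j - pt r k‖ ≤ 3 * r), dz (P j k) z := by
    intro j hj z hz
    refine dz_sum _ (fun k hk => ?_)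
    rw [Finset.mem_filter] at hk
    exact (hP1 j hj k hk.1 hk.2).differentiableAt hz
  have hsumb : ∀ (j : ℤ × ℤ) (F : ℤ × ℤ → ℂ) (b : ℝ), 0 ≤ b →
      (∀ k ∈ (box N).filter (fun k => ‖pt r j - pt r k‖ ≤ 3 * r), ‖F k‖ ≤ b / Cn) →
      ‖∑ k ∈ (box N).filter (fun k => ‖pt r j - pt r k‖ ≤ 3 * r), F k‖ ≤ b := by
    intro j F b hb hF
    calc ‖∑ k ∈ (box N).filter (fun k => ‖pt r j - pt r k‖ ≤ 3 * r), F k‖
        ≤ ∑ k ∈ (box N).filter (fun k => ‖pt r j - pt r k‖ ≤ 3 * r), ‖F k‖ := norm_sum_le _ _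
      _ ≤ ∑ k ∈ (box N).filter (fun k => ‖pt r j - pt r k‖ ≤ 3 * r), b / Cn :=
          Finset.sum_le_sum hF
      _ = ((box N).filter (fun k => ‖pt r j - pt r k‖ ≤ 3 * r)).card * (b / Cn) := by
          rw [Finset.sum_const, nsmul_eq_mul]
      _ ≤ Cn * (b / Cn) := by
          gcongr
          exact hcount j
      _ = b := by field_simp
  have hVb : ∀ j ∈ J, ∀ z ∈ X, ‖V j z‖ ≤ δ * M * r ∧ ‖dz (V j) z‖ ≤ δ * M := by
    intro j hj z hz
    constructor
    · refine hsumb j (fun k => P j k z) _ (by positivity) (fun k hk => ?_)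
      rw [Finset.mem_filter] at hk
      refine (hP2 j hj k hk.1 hk.2 z hz).1.trans (le_of_eq (by ring))
    · rw [hVd j hj z hz]
      refine hsumb j (fun k => dz (P j k) z) _ (by positivity) (fun k hk => ?_)
      rw [Finset.mem_filter] at hk
      refine (hP2 j hj k hk.1 hk.2 z hz).2.trans (le_of_eq (by ring))
  refine ⟨fun z => ∑ j ∈ J, V j z, Src.sum J (fun j hj => hVsrc j hj), fun z hz => ?_,
    fun hnear z hz => ?_⟩
  · constructor
    · calc ‖∑ j ∈ J, V j z‖ ≤ ∑ j ∈ J, ‖V j z‖ := norm_sum_le _ _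
        _ ≤ ∑ j ∈ J, δ * M * r := Finset.sum_le_sum (fun j hj => (hVb j hj z hz).1)
        _ = δ * M * r * J.card := by rw [Finset.sum_const, nsmul_eq_mul]; ring
    · rw [dz_sum J (fun j hj => (hVsrc j hj).differentiableAt hz)]
      calc ‖∑ j ∈ J, dz (V j) z‖ ≤ ∑ j ∈ J, ‖dz (V j) z‖ := norm_sum_le _ _
        _ ≤ ∑ j ∈ J, δ * M := Finset.sum_le_sum (fun j hj => (hVb j hj z hz).2)
        _ = δ * M * J.card := by rw [Finset.sum_const, nsmul_eq_mul]; ring
  · constructor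
    · calc ‖∑ j ∈ J, V j z‖ ≤ ∑ j ∈ J, ‖V j z‖ := norm_sum_le _ _
        _ ≤ ∑ j ∈ J, δ * M * r * (1 / (1 + ‖z - pt r j‖ / r) ^ 2) := by
          refine Finset.sum_le_sum (fun j hj => ?_)
          refine hsumb j (fun k => P j k z) _ (by positivity) (fun k hk => ?_)
          rw [Finset.mem_filter] at hk
          refine (hP3 j hj k hk.1 hk.2 (hnear j hj) z hz).1.trans (le_of_eq (by ring))
        _ = δ * M * r * ∑ j ∈ J, 1 / (1 + ‖z - pt r j‖ / r) ^ 2 := by rw [Finset.mul_sum]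
    · rw [dz_sum J (fun j hj => (hVsrc j hj).differentiableAt hz)]
      calc ‖∑ j ∈ J, dz (V j) z‖ ≤ ∑ j ∈ J, ‖dz (V j) z‖ := norm_sum_le _ _
        _ ≤ ∑ j ∈ J, δ * M * (1 / (1 + ‖z - pt r j‖ / r) ^ 3) := by
          refine Finset.sum_le_sum (fun j hj => ?_)
          rw [hVd j hj z hz]
          refine hsumb j (fun k => dz (P j k) z) _ (by positivity) (fun k hk => ?_)
          rw [Finset.mem_filter] at hk
          refine (hP3 j hj k hk.1 hk.2 (hnear j hj) z hz).2.trans (le_of_eq (by ring))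
        _ = δ * M * ∑ j ∈ J, 1 / (1 + ‖z - pt r j‖ / r) ^ 3 := by rw [Finset.mul_sum]

/-- **Patching lemma** -/
theorem exists_patch : ∀ δ : ℝ, 0 < δ → ∃ τ₀ : ℝ, 0 < τ₀ ∧
    ∀ X : Set ℂ, IsCompact X → IsPreconnected Xᶜ →
    ∀ (r M : ℝ) (N : ℕ) (G : ℤ × ℤ → ℂ → ℂ) (J : Finset (ℤ × ℤ)) (K : Set ℂ), 0 < r → 0 < M →
    K ⊆ X → J ⊆ box N →
    (∀ j ∈ J, ∀ k ∈ box N, ‖pt r j - pt r k‖ ≤ 3 * r → ∀ z ∈ X ∩ closedBall (pt r j) (3 * r),
      AnalyticAt ℂ (G k) z ∧ AnalyticAt ℂ (G j) z ∧ ‖G k z - G j z‖ ≤ τ₀ * M * r ∧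
      ‖deriv (G k) z - deriv (G j) z‖ ≤ M) →
    (∀ z ∈ K, |z.re| < N * r ∧ |z.im| < N * r) →
    (∀ z ∈ K, ∀ k ∈ box N, ‖z - pt r k‖ ≤ 3 / 2 * r → AnalyticAt ℂ (G k) z) →
    (∀ j ∈ box N, j ∉ J → (∃ z ∈ K, ‖z - pt r j‖ ≤ 3 / 2 * r) →
      ∀ k ∈ box N, ‖pt r j - pt r k‖ ≤ 3 * r → G k = G j) →
    ∃ h v : ℂ → ℂ, (∀ z ∈ K, AnalyticAt ℂ h z ∧
        h z = (∑ k ∈ box N, phi r k z * G k z) - v z ∧
        deriv h z = (∑ k ∈ box N, phi r k z * deriv (G k) z) +
          (∑ k ∈ box N, dz (phi r k) z * G k z) - dz v z) ∧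
      (∀ z ∈ X, ‖v z‖ ≤ δ * M * r * J.card ∧ ‖dz v z‖ ≤ δ * M * J.card) ∧
      ((∀ j ∈ J, ∃ a, a ∉ X ∧ ‖a - pt r j‖ ≤ 10 * r) →
        ∀ z ∈ X, ‖v z‖ ≤ δ * M * r * ∑ j ∈ J, 1 / (1 + ‖z - pt r j‖ / r) ^ 2 ∧
          ‖dz v z‖ ≤ δ * M * ∑ j ∈ J, 1 / (1 + ‖z - pt r j‖ / r) ^ 3) := by
  intro δ hδ
  obtain ⟨τ₀, hτ0, h⟩ := exists_patch_source δ hδ
  refine ⟨τ₀, hτ0, fun X hX hXc r M N G J K hr hM hKX hJ hG hKb hKa hKe => ?_⟩
  obtain ⟨v, hv1, hv2, hv3⟩ := h X hX hXc r M N G J hr hM hG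
  -- each product
  have hprod : ∀ k ∈ box N, Src K (fun x => phi r k x * G k x)
      (fun x => dbar (phi r k) x * G k x) := by
    intro k hk z hz
    rcases le_or_gt ‖z - pt r k‖ (3 / 2 * r) with h1 | h1
    · have h2 := analyticAt_iff_eventually_differentiableAt.1 (hKa z hz k hk h1)
      filter_upwards [h2] with x hx
      have hx' := hx.restrictScalars ℝ
      refine ⟨(phi_differentiableAt r k x).mul hx', ?_⟩
      rw [dbar_mul (phi_differentiableAt r k x) hx', dbar_of_complex hx]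
      ring
    · have h2 := phi_eventually_zero hr h1
      have h3 : ContinuousAt (fun x => ‖x - pt r k‖) z := by fun_prop
      filter_upwards [h2.eventually_nhds, h3.eventually (lt_mem_nhds h1)] with x hx hx2
      have h4 : (fun x => phi r k x * G k x) =ᶠ[𝓝 x] fun _ => 0 := by
        filter_upwards [hx] with y hy
        rw [hy, zero_mul]
      refine ⟨(differentiableAt_const (0 : ℂ)).congr_of_eventuallyEq h4, ?_⟩
      rw [dbar_congr h4, dbar_const, dbar_phi_zero hr hx2, zero_mul]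
  have hsum := Src.sum (box N) hprod
  have hsrc := hsum.sub (hv1.mono hKX)
  -- derivative of each product at points of K
  have hdzp : ∀ z ∈ K, ∀ k ∈ box N, dz (fun x => phi r k x * G k x) z =
      dz (phi r k) z * G k z + phi r k z * deriv (G k) z := by
    intro z hz k hk
    rcases le_or_gt ‖z - pt r k‖ (3 / 2 * r) with h1 | h1
    · have h2 := (hKa z hz k hk h1).differentiableAt
      rw [dz_mul (phi_differentiableAt r k z) (h2.restrictScalars ℝ), dz_of_complex h2]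
    · have h2 := phi_eventually_zero hr h1
      have h4 : (fun x => phi r k x * G k x) =ᶠ[𝓝 z] fun _ => 0 := by
        filter_upwards [h2] with y hy
        rw [hy, zero_mul]
      rw [dz_congr h4, dz_const, dz_phi_zero hr h1, h2.self_of_nhds]
      ring
  have hκ : ∀ z ∈ K, ∀ᶠ x in 𝓝 z, (∑ k ∈ box N, dbar (phi r k) x * G k x) -
      (∑ j ∈ J, ∑ k ∈ box N, phi r j x * dbar (phi r k) x * (G k x - G j x)) = 0 := by
    intro z hz
    obtain ⟨b1, b2⟩ := hKb z hz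
    have e1 := sum_phi_eventually hr N b1 b2
    have e2 : ∀ᶠ x in 𝓝 z, ∑ k ∈ box N, dbar (phi r k) x = 0 := by
      have c1 : ContinuousAt (fun x : ℂ => |x.re|) z := (Complex.continuous_re.abs).continuousAt
      have c2 : ContinuousAt (fun x : ℂ => |x.im|) z := (Complex.continuous_im.abs).continuousAt
      filter_upwards [c1.eventually (gt_mem_nhds b1), c2.eventually (gt_mem_nhds b2)]
        with x hx1 hx2
      exact sum_dbar_phi hr N hx1 hx2
    have e3 : ∀ j ∈ box N, ∀ᶠ x in 𝓝 z, (‖z - pt r j‖ ≤ 3 / 2 * r ∨ phi r j x = 0) := by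
      intro j _
      rcases le_or_gt ‖z - pt r j‖ (3 / 2 * r) with h1 | h1
      · exact Eventually.of_forall (fun _ => Or.inl h1)
      · filter_upwards [phi_eventually_zero hr h1] with x hx
        exact Or.inr hx
    rw [← Filter.eventually_all_finset] at e3
    filter_upwards [e1, e2, e3] with x hx1 hx2 hx3
    have f1 : ∑ k ∈ box N, dbar (phi r k) x * G k x =
        ∑ j ∈ box N, ∑ k ∈ box N, phi r j x * dbar (phi r k) x * (G k x - G j x) := by
      calc ∑ k ∈ box N, dbar (phi r k) x * G k x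
          = (∑ j ∈ box N, phi r j x) * ∑ k ∈ box N, dbar (phi r k) x * G k x := by
            rw [hx1, one_mul]
        _ = ∑ j ∈ box N, (phi r j x * ∑ k ∈ box N, dbar (phi r k) x * G k x) := by
            rw [Finset.sum_mul]
        _ = ∑ j ∈ box N, ∑ k ∈ box N, phi r j x * dbar (phi r k) x * (G k x - G j x) := by
            refine Finset.sum_congr rfl (fun j _ => ?_)
            have f2 : ∑ k ∈ box N, phi r j x * dbar (phi r k) x * (G k x - G j x) =
                phi r j x * (∑ k ∈ box N, dbar (phi r k) x * G k x) -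
                  phi r j x * G j x * ∑ k ∈ box N, dbar (phi r k) x := by
              rw [Finset.mul_sum, Finset.mul_sum, ← Finset.sum_sub_distrib]
              refine Finset.sum_congr rfl (fun k _ => ?_)
              ring
            rw [f2, hx2]
            ring
    rw [f1, sub_eq_zero]
    symm
    refine Finset.sum_subset hJ (fun j hj hjJ => ?_)
    refine Finset.sum_eq_zero (fun k hk => ?_)
    rcases hx3 j hj with h1 | h1
    · by_cases h2 : ‖pt r j - pt r k‖ ≤ 3 * r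
      · rw [hKe j hj hjJ ⟨z, hz, h1⟩ k hk h2]
        ring
      · rw [phi_mul_dbar_zero hr h2, zero_mul]
    · rw [h1]
      ring
  refine ⟨fun x => (∑ k ∈ box N, phi r k x * G k x) - v x, v, fun z hz => ⟨?_, rfl, ?_⟩, hv2,
    hv3⟩
  · exact hsrc.analyticAt hz (hκ z hz)
  · have hA := hsrc.analyticAt hz (hκ z hz)
    rw [← dz_of_complex hA.differentiableAt,
      dz_sub (hsum.differentiableAt hz) (hv1.differentiableAt (hKX hz)),
      dz_sum (box N) (fun k hk => (hprod k hk).differentiableAt hz),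
      Finset.sum_congr rfl (hdzp z hz), Finset.sum_add_distrib]
    ring

end Pool.Agent.LibHelper41
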