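import Pool.Agent.Lib_helper41.SolBase

set_option autoImplicit false

namespace Pool.Agent.LibHelper41

open Metric Set Filter Topology Complex

theorem exists_patch_unit : ∀ δ : ℝ, 0 < δ → ∃ τ₀ : ℝ, 0 < τ₀ ∧ ∀ X : Set ℂ, IsCompact X →
    IsPreconnected Xᶜ → ∀ U : ℂ → ℂ,
    (∀ z ∈ X ∩ closedBall (0 : ℂ) 3, AnalyticAt ℂ U z ∧ ‖U z‖ ≤ τ₀ ∧ ‖deriv U z‖ ≤ 1) →
    ∀ w : ℂ → ℂ, ContDiff ℝ 1 w → (∀ z, z ∉ closedBall (0 : ℂ) (3 / 2) → w z = 0) →
      (∀ z, ‖w z‖ ≤ 1) → (∀ z, ‖fderiv ℝ w z‖ ≤ 1) →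
      ∃ v : ℂ → ℂ, Src X v (fun z => w z * U z) ∧ (∀ z ∈ X, ‖v z‖ ≤ δ ∧ ‖dz v z‖ ≤ δ) ∧
        ((∃ a, a ∉ X ∧ ‖a - 0‖ ≤ 10) →
          ∀ z ∈ X, ‖v z‖ ≤ δ / (1 + ‖z‖) ^ 2 ∧ ‖dz v z‖ ≤ δ / (1 + ‖z‖) ^ 3) := by
  intro δ hδ
  obtain ⟨C₁, hC₁, h₁⟩ := exists_CT_bound 3
  obtain ⟨C₁', hC₁', h₁'⟩ := exists_CT_bound' 3
  obtain ⟨Cc, hCc, hcell⟩ := exists_cell
  set K : ℝ := 50 + C₁ + C₁' + Cc with hK
  have hK0 : 0 < K := by positivity
  obtain ⟨τ₀, hτ0, hτ1, hS⟩ := exists_sol (δ / K) (by positivity)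
  refine ⟨τ₀, hτ0, fun X hX hXc U hU w hw hws hwa hwa' => ?_⟩
  obtain ⟨u, g, k1, k2, k3, k4, k5, k6, k7⟩ := hS X hX hXc U hU w hw hws hwa hwa'
  set β : ℝ := δ / K with hβ
  have hβ0 : 0 < β := by positivity
  have hβK : K * β = δ := by rw [hβ]; field_simp
  have hg3 : ∀ z, z ∉ closedBall (0 : ℂ) 3 → g z = 0 := by
    intro z hz
    apply k5
    intro h
    apply hz
    rw [mem_closedBall_zero_iff] at h ⊢
    linarith
  have hgc : HasCompactSupport g := HasCompactSupport.intro (isCompact_closedBall (0 : ℂ) 3) hg3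
  by_cases ha : ∃ a, a ∉ X ∧ ‖a - 0‖ ≤ 10
  · obtain ⟨a, haX, ha10⟩ := ha
    obtain ⟨Ψ, p1, p2, p3⟩ := hcell X hX hXc 0 a haX ha10 g β k4 hg3 k6 k7
    have hb : ∀ z ∈ X, ‖u z + Ψ z‖ ≤ δ / (1 + ‖z‖) ^ 2 ∧
        ‖dz (fun z => u z + Ψ z) z‖ ≤ δ / (1 + ‖z‖) ^ 3 := by
      intro z hz
      have hzn : 0 ≤ ‖z‖ := norm_nonneg z
      have q2 := p2 z (Or.inl hz)
      have q3 := p3 z hz
      rw [sub_zero] at q2 q3
      have u2 : ‖u z‖ ≤ 50 * β / (1 + ‖z‖) ^ 2 := by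
        rw [le_div_iff₀ (by positivity)]
        by_cases hz3 : z ∈ closedBall (0 : ℂ) (5 / 2)
        · rw [mem_closedBall_zero_iff] at hz3
          have : (1 + ‖z‖) ^ 2 ≤ 50 := by nlinarith
          calc ‖u z‖ * (1 + ‖z‖) ^ 2 ≤ β * 50 := by
                gcongr
                exact (k3 z hz).1
            _ = 50 * β := by ring
        · rw [k2 z hz3, norm_zero, zero_mul]
          positivity
      have u3 : ‖dz u z‖ ≤ 50 * β / (1 + ‖z‖) ^ 3 := by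
        rw [le_div_iff₀ (by positivity)]
        by_cases hz3 : z ∈ closedBall (0 : ℂ) (5 / 2)
        · rw [mem_closedBall_zero_iff] at hz3
          have : (1 + ‖z‖) ^ 3 ≤ 50 := by
            calc (1 + ‖z‖) ^ 3 ≤ (1 + 5 / 2) ^ 3 := by gcongr
              _ ≤ 50 := by norm_num
          calc ‖dz u z‖ * (1 + ‖z‖) ^ 3 ≤ β * 50 := by
                gcongr
                exact (k3 z hz).2
            _ = 50 * β := by ring
        · have e1 : u =ᶠ[𝓝 z] fun _ => 0 := eventually_zero_of_notMem_closedBall k2 hz3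
          rw [dz_congr e1, dz_const, norm_zero, zero_mul]
          positivity
      constructor
      · calc ‖u z + Ψ z‖ ≤ ‖u z‖ + ‖Ψ z‖ := norm_add_le _ _
          _ ≤ 50 * β / (1 + ‖z‖) ^ 2 + Cc * β / (1 + ‖z‖) ^ 2 := add_le_add u2 q2
          _ = (50 + Cc) * β / (1 + ‖z‖) ^ 2 := by ring
          _ ≤ K * β / (1 + ‖z‖) ^ 2 := by
            have : 50 + Cc ≤ K := by rw [hK]; linarith
            gcongr
          _ = δ / (1 + ‖z‖) ^ 2 := by rw [hβK]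
      · rw [dz_add (k1.differentiableAt hz) (p1.differentiableAt (Or.inl hz))]
        calc ‖dz u z + dz Ψ z‖ ≤ ‖dz u z‖ + ‖dz Ψ z‖ := norm_add_le _ _
          _ ≤ 50 * β / (1 + ‖z‖) ^ 3 + Cc * β / (1 + ‖z‖) ^ 3 := add_le_add u3 q3
          _ = (50 + Cc) * β / (1 + ‖z‖) ^ 3 := by ring
          _ ≤ K * β / (1 + ‖z‖) ^ 3 := by
            have : 50 + Cc ≤ K := by rw [hK]; linarith
            gcongr
          _ = δ / (1 + ‖z‖) ^ 3 := by rw [hβK]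
    refine ⟨fun z => u z + Ψ z, ?_, fun z hz => ?_, fun _ => hb⟩
    · refine (k1.add (p1.mono (fun z hz => Or.inl hz))).congr
        (fun z _ => Eventually.of_forall (fun x => ?_))
      ring
    · obtain ⟨b1, b2⟩ := hb z hz
      have hzn : 0 ≤ ‖z‖ := norm_nonneg z
      refine ⟨b1.trans (div_le_self hδ.le (one_le_pow₀ (by linarith))),
        b2.trans (div_le_self hδ.le (one_le_pow₀ (by linarith)))⟩
  · refine ⟨fun z => u z + CT g z, ?_, fun z hz => ⟨?_, ?_⟩, fun h => absurd h ha⟩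
    · refine (k1.add (src_CT k4 hgc)).congr (fun z _ => Eventually.of_forall (fun x => ?_))
      ring
    · calc ‖u z + CT g z‖ ≤ ‖u z‖ + ‖CT g z‖ := norm_add_le _ _
        _ ≤ β + C₁ * β := add_le_add (k3 z hz).1 (h₁ g 0 β hg3 k6 z)
        _ = (1 + C₁) * β := by ring
        _ ≤ K * β := by
          have : 1 + C₁ ≤ K := by rw [hK]; linarith
          gcongr
        _ = δ := hβK
    · rw [dz_add (k1.differentiableAt hz) (CT_differentiableAt k4 hgc z)]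
      calc ‖dz u z + dz (CT g) z‖ ≤ ‖dz u z‖ + ‖dz (CT g) z‖ := norm_add_le _ _
        _ ≤ β + C₁' * β := add_le_add (k3 z hz).2 (h₁' g 0 β k4 hg3 k7 z)
        _ = (1 + C₁') * β := by ring
        _ ≤ K * β := by
          have : 1 + C₁' ≤ K := by rw [hK]; linarith
          gcongr
        _ = δ := hβK

/-- scaled version -/
theorem exists_patch_cell (a₀ : ℝ) (ha₀ : 0 < a₀) : ∀ δ : ℝ, 0 < δ → ∃ τ₀ : ℝ, 0 < τ₀ ∧
    ∀ X : Set ℂ, IsCompact X → IsPreconnected Xᶜ → ∀ (r M : ℝ) (p : ℂ), 0 < r → 0 < M →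
    ∀ U : ℂ → ℂ, (∀ z ∈ X ∩ closedBall p (3 * r), AnalyticAt ℂ U z ∧ ‖U z‖ ≤ τ₀ * M * r ∧
      ‖deriv U z‖ ≤ M) →
    ∀ w : ℂ → ℂ, ContDiff ℝ 1 w → (∀ z, z ∉ closedBall p (3 / 2 * r) → w z = 0) →
      (∀ z, ‖w z‖ ≤ a₀ / r) → (∀ z, ‖fderiv ℝ w z‖ ≤ a₀ / r ^ 2) →
      ∃ v : ℂ → ℂ, Src X v (fun z => w z * U z) ∧
        (∀ z ∈ X, ‖v z‖ ≤ δ * M * r ∧ ‖dz v z‖ ≤ δ * M) ∧
        ((∃ a, a ∉ X ∧ ‖a - p‖ ≤ 10 * r) →
          ∀ z ∈ X, ‖v z‖ ≤ δ * M * r / (1 + ‖z - p‖ / r) ^ 2 ∧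
            ‖dz v z‖ ≤ δ * M / (1 + ‖z - p‖ / r) ^ 3) := by
  intro δ hδ
  obtain ⟨τ₀, hτ0, h⟩ := exists_patch_unit (δ / a₀) (by positivity)
  refine ⟨τ₀, hτ0, fun X hX hXc r M p hr hM U hU w hw hws hwa hwa' => ?_⟩
  have hr' : (r : ℂ) ≠ 0 := by exact_mod_cast hr.ne'
  have hM' : (M : ℂ) ≠ 0 := by exact_mod_cast hM.ne'
  have ha' : (a₀ : ℂ) ≠ 0 := by exact_mod_cast ha₀.ne'
  have hnr : ‖(r : ℂ)‖ = r := by rw [Complex.norm_real, Real.norm_eq_abs, abs_of_pos hr]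
  have hnM : ‖(M : ℂ)‖ = M := by rw [Complex.norm_real, Real.norm_eq_abs, abs_of_pos hM]
  have hna : ‖(a₀ : ℂ)‖ = a₀ := by rw [Complex.norm_real, Real.norm_eq_abs, abs_of_pos ha₀]
  have e1 : ∀ x : ℂ, (r : ℂ) * ((r : ℂ)⁻¹ * (x - p)) + p = x := by
    intro x
    field_simp
    ring
  have e2 : ∀ x : ℂ, ‖(r : ℂ)⁻¹ * (x - p)‖ = ‖x - p‖ / r := by
    intro x
    rw [norm_mul, norm_inv, hnr]
    field_simp
  have e2' : ∀ x : ℂ, ‖(r : ℂ) * x + p - p‖ = r * ‖x‖ := by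
    intro x
    rw [add_sub_cancel_right, norm_mul, hnr]
  -- rescaled data
  obtain ⟨v, h1, h2, h3⟩ := h {z : ℂ | (r : ℂ) * z + p ∈ X} (compact_scale hX hr p)
    (preconn_scale hXc hr p) (fun z => ((M : ℂ) * r)⁻¹ * U (r * z + p))
    (by
      rintro z ⟨hz, hz3⟩
      have hz4 : (r : ℂ) * z + p ∈ X ∩ closedBall p (3 * r) := by
        refine ⟨hz, ?_⟩
        rw [mem_closedBall, dist_eq_norm, e2']
        rw [mem_closedBall_zero_iff] at hz3
        nlinarith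
      obtain ⟨u1, u2, u3⟩ := hU _ hz4
      have hlin : AnalyticAt ℂ (fun z : ℂ => (r : ℂ) * z + p) z := by fun_prop
      have hcomp : AnalyticAt ℂ (fun z : ℂ => U (r * z + p)) z :=
        AnalyticAt.fun_comp (g := U) (f := fun z : ℂ => (r : ℂ) * z + p) u1 hlin
      have hder : HasDerivAt (fun z : ℂ => U (r * z + p)) (deriv U (r * z + p) * r) z := by
        have h5 : HasDerivAt (fun z : ℂ => (r : ℂ) * z + p) r z := by
          simpa using ((hasDerivAt_id z).const_mul (r : ℂ)).add_const p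
        exact u1.differentiableAt.hasDerivAt.comp z h5
      refine ⟨analyticAt_const.mul hcomp, ?_, ?_⟩
      · rw [norm_mul, norm_inv, norm_mul, hnr, hnM, inv_mul_le_iff₀ (by positivity)]
        calc ‖U (r * z + p)‖ ≤ τ₀ * M * r := u2
          _ = M * r * τ₀ := by ring
      · rw [(hder.const_mul _).deriv, norm_mul, norm_mul, norm_inv, norm_mul, hnr, hnM,
          inv_mul_le_iff₀ (by positivity)]
        nlinarith)
    (fun z => (r / a₀ : ℂ) * w (r * z + p))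
    (contDiff_const.mul (hw.comp ((contDiff_const.mul contDiff_id).add contDiff_const)))
    (by
      intro z hz
      change (r / a₀ : ℂ) * w (r * z + p) = 0
      rw [hws, mul_zero]
      intro hmem
      apply hz
      rw [mem_closedBall, dist_eq_norm, e2'] at hmem
      rw [mem_closedBall_zero_iff]
      nlinarith)
    (by
      intro z
      rw [norm_mul, norm_div, hnr, hna]
      have := hwa (r * z + p)
      rw [le_div_iff₀ hr] at this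
      rw [div_mul_eq_mul_div, div_le_one ha₀]
      linarith)
    (by
      intro z
      have hd : DifferentiableAt ℝ w ((r : ℂ) * z + p) := hw.differentiable one_ne_zero _
      have h4 : fderiv ℝ (fun z : ℂ => (r / a₀ : ℂ) * w (r * z + p)) z =
          (r / a₀ * r) • fderiv ℝ w (r * z + p) := by
        ext y
        rw [fderiv_const_mul (differentiableAt_comp_affine r p z hd)]
        simp only [smul_apply, smul_eq_mul]
        rw [fderiv_comp_affine r p z y hd]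
        simp
        ring
      rw [h4, norm_smul, Real.norm_eq_abs, abs_of_pos (by positivity)]
      have := hwa' (r * z + p)
      rw [le_div_iff₀ (by positivity)] at this
      have h5 : r / a₀ * r * ‖fderiv ℝ w (r * z + p)‖ =
          (‖fderiv ℝ w (r * z + p)‖ * r ^ 2) / a₀ := by
        field_simp
      rw [h5, div_le_one ha₀]
      exact this)
  have hdom : ∀ z : ℂ, z ∈ X → (r : ℂ)⁻¹ * (z - p) ∈ {z : ℂ | (r : ℂ) * z + p ∈ X} := by
    intro z hz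
    change (r : ℂ) * ((r : ℂ)⁻¹ * (z - p)) + p ∈ X
    rw [e1]
    exact hz
  have e3 : ∀ z : ℂ, (r : ℂ)⁻¹ * (z - p) = ((r⁻¹ : ℝ) : ℂ) * z + (-(r : ℂ)⁻¹ * p) := by
    intro z
    push_cast
    ring
  have hev : ∀ z ∈ X, ∀ᶠ x in 𝓝 z, DifferentiableAt ℝ v ((r : ℂ)⁻¹ * (x - p)) ∧
        dbar v ((r : ℂ)⁻¹ * (x - p)) = (r / a₀ : ℂ) * w x * (((M : ℂ) * r)⁻¹ * U x) := by
    intro z hz
    have hcont : ContinuousAt (fun x : ℂ => (r : ℂ)⁻¹ * (x - p)) z := by fun_prop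
    have := hcont.eventually (h1 _ (hdom z hz))
    filter_upwards [this] with x hx
    refine ⟨hx.1, ?_⟩
    rw [hx.2, e1]
  have hvd : ∀ z ∈ X, DifferentiableAt ℝ (fun z => v ((r : ℂ)⁻¹ * (z - p))) z ∧
      dz (fun z => v ((r : ℂ)⁻¹ * (z - p))) z =
        ((r⁻¹ : ℝ) : ℂ) * dz v ((r : ℂ)⁻¹ * (z - p)) := by
    intro z hz
    have hx := (hev z hz).self_of_nhds
    constructor
    · simp only [e3] at hx ⊢
      exact differentiableAt_comp_affine _ _ _ hx.1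
    · simp only [e3] at hx ⊢
      exact dz_comp_affine _ _ _ hx.1
  have hdz : ∀ z ∈ X, dz (fun z => ((a₀ * M * r : ℝ) : ℂ) * v ((r : ℂ)⁻¹ * (z - p))) z =
      ((a₀ * M : ℝ) : ℂ) * dz v ((r : ℂ)⁻¹ * (z - p)) := by
    intro z hz
    rw [dz_const_mul _ (hvd z hz).1, (hvd z hz).2]
    push_cast
    field_simp
  have hn1 : ‖((a₀ * M * r : ℝ) : ℂ)‖ = a₀ * M * r := by
    rw [Complex.norm_real, Real.norm_eq_abs, abs_of_pos (by positivity)]
  have hn2 : ‖((a₀ * M : ℝ) : ℂ)‖ = a₀ * M := by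
    rw [Complex.norm_real, Real.norm_eq_abs, abs_of_pos (by positivity)]
  refine ⟨fun z => ((a₀ * M * r : ℝ) : ℂ) * v ((r : ℂ)⁻¹ * (z - p)), ?_, ?_, ?_⟩
  · intro z hz
    filter_upwards [hev z hz] with x hx
    have h5 : DifferentiableAt ℝ (fun z => v ((r : ℂ)⁻¹ * (z - p))) x := by
      simp only [e3] at hx ⊢
      exact differentiableAt_comp_affine _ _ _ hx.1
    refine ⟨h5.const_mul _, ?_⟩
    rw [dbar_const_mul _ h5]
    have h6 : dbar (fun z => v ((r : ℂ)⁻¹ * (z - p))) x = ((r⁻¹ : ℝ) : ℂ) *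
        ((r / a₀ : ℂ) * w x * (((M : ℂ) * r)⁻¹ * U x)) := by
      rw [← hx.2]
      simp only [e3] at hx ⊢
      exact dbar_comp_affine _ _ _ hx.1
    rw [h6]
    push_cast
    field_simp
  · intro z hz
    obtain ⟨b1, b2⟩ := h2 _ (hdom z hz)
    rw [hdz z hz, norm_mul, norm_mul, hn1, hn2]
    constructor
    · calc a₀ * M * r * ‖v ((r : ℂ)⁻¹ * (z - p))‖ ≤ a₀ * M * r * (δ / a₀) := by gcongr
        _ = δ * M * r := by field_simp
    · calc a₀ * M * ‖dz v ((r : ℂ)⁻¹ * (z - p))‖ ≤ a₀ * M * (δ / a₀) := by gcongr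
        _ = δ * M := by field_simp
  · rintro ⟨a, haX, hap⟩ z hz
    obtain ⟨b1, b2⟩ := h3 ⟨(r : ℂ)⁻¹ * (a - p), by
      change ¬ ((r : ℂ) * ((r : ℂ)⁻¹ * (a - p)) + p ∈ X)
      rw [e1]
      exact haX, by
      rw [sub_zero, e2, div_le_iff₀ hr]
      exact hap⟩ _ (hdom z hz)
    rw [e2] at b1 b2
    rw [hdz z hz, norm_mul, norm_mul, hn1, hn2]
    constructor
    · calc a₀ * M * r * ‖v ((r : ℂ)⁻¹ * (z - p))‖
          ≤ a₀ * M * r * (δ / a₀ / (1 + ‖z - p‖ / r) ^ 2) := by gcongr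
        _ = δ * M * r / (1 + ‖z - p‖ / r) ^ 2 := by field_simp
    · calc a₀ * M * ‖dz v ((r : ℂ)⁻¹ * (z - p))‖
          ≤ a₀ * M * (δ / a₀ / (1 + ‖z - p‖ / r) ^ 3) := by gcongr
        _ = δ * M / (1 + ‖z - p‖ / r) ^ 3 := by field_simp

end Pool.Agent.LibHelper41
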