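import Pool.Agent.Lib_helper41.LemmaS

set_option autoImplicit false

namespace Pool.Agent.LibHelper41

open Metric Set Filter Topology Complex

theorem exists_smooth_cut {s t : Set ℂ} (hs : IsClosed s) (ht : IsClosed t) (hd : Disjoint s t) :
    ∃ ξ : ℂ → ℂ, ContDiff ℝ 1 ξ ∧ (∀ z ∈ s, ∀ᶠ x in 𝓝 z, ξ x = 0) ∧
      (∀ z ∈ t, ∀ᶠ x in 𝓝 z, ξ x = 1) ∧ ∀ z, ‖ξ z‖ ≤ 1 := by
  obtain ⟨f, h0, h1, h2⟩ := exists_contMDiffMap_zero_one_nhds_of_isClosed
    (modelWithCornersSelf ℝ ℂ) hs ht hd (n := 1)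
  refine ⟨fun z => ((f z : ℝ) : ℂ), ?_, ?_, ?_, ?_⟩
  · have hf : ContDiff ℝ 1 (f : ℂ → ℝ) := f.contMDiff.contDiff
    exact Complex.ofRealCLM.contDiff.comp hf
  · intro z hz
    filter_upwards [(eventually_nhdsSet_iff_forall.1 h0) z hz] with x hx
    rw [hx]
    simp
  · intro z hz
    filter_upwards [(eventually_nhdsSet_iff_forall.1 h1) z hz] with x hx
    rw [hx]
    simp
  · intro z
    have h3 := h2 z
    rw [Complex.norm_real, Real.norm_eq_abs, abs_of_nonneg h3.1]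
    exact h3.2

/-- the last stage -/
theorem exists_sol_base {X : Set ℂ} (hX : IsCompact X) (U : ℂ → ℂ)
    (hU : ∀ z ∈ X ∩ closedBall (0 : ℂ) 3, AnalyticAt ℂ U z) :
    ∃ A₀ : ℝ, 0 < A₀ ∧ ∀ (a : ℝ) (w : ℂ → ℂ), ContDiff ℝ 1 w →
      (∀ z, z ∉ closedBall (0 : ℂ) (5 / 2) → w z = 0) →
      (∀ z, ‖w z‖ ≤ a) → (∀ z, ‖fderiv ℝ w z‖ ≤ a) → Sol X U w (A₀ * a) := by
  have hopen : IsOpen {z | AnalyticAt ℂ U z} := isOpen_analyticAt ℂ U
  obtain ⟨ξ, hξ, hξ0, hξ1, hξn⟩ := exists_smooth_cut (s := {z | AnalyticAt ℂ U z}ᶜ)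
    (t := X ∩ closedBall (0 : ℂ) 3) hopen.isClosed_compl
    (hX.isClosed.inter isClosed_closedBall) (by
      rw [Set.disjoint_left]
      intro z hz hz2
      exact hz (hU z hz2))
  set V : ℂ → ℂ := fun z => U z * ξ z with hV
  have hVC : ContDiff ℝ 1 V := by
    rw [contDiff_iff_contDiffAt]
    intro z
    by_cases hz : AnalyticAt ℂ U z
    · exact (hz.contDiffAt.restrict_scalars ℝ).mul hξ.contDiffAt
    · have h1 : V =ᶠ[𝓝 z] fun _ => 0 := by
        filter_upwards [hξ0 z hz] with x hx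
        simp only [hV]
        rw [hx, mul_zero]
      exact contDiffAt_const.congr_of_eventuallyEq h1
  obtain ⟨M₁, hM₁⟩ := (isCompact_closedBall (0 : ℂ) (5 / 2)).exists_bound_of_continuousOn
    hVC.continuous.continuousOn
  obtain ⟨M₂, hM₂⟩ := (isCompact_closedBall (0 : ℂ) (5 / 2)).exists_bound_of_continuousOn
    (hVC.continuous_fderiv one_ne_zero).continuousOn
  refine ⟨|M₁| + |M₂| + 1, by positivity, fun a w hw hws hwa hwa' => ?_⟩
  have ha0 : 0 ≤ a := (norm_nonneg _).trans (hwa 0)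
  have hb0 : 0 ≤ (|M₁| + |M₂| + 1) * a := by positivity
  refine ⟨fun _ => 0, fun z => w z * V z, ?_, fun z _ => rfl, fun z _ => ?_, hw.mul hVC, ?_, ?_,
    ?_⟩
  · intro z hz
    have h1 : ∀ᶠ x in 𝓝 z, w x * U x - w x * V x = 0 := by
      by_cases hz3 : z ∈ closedBall (0 : ℂ) 3
      · filter_upwards [hξ1 z ⟨hz, hz3⟩] with x hx
        simp only [hV]
        rw [hx]
        ring
      · have hz4 : z ∉ closedBall (0 : ℂ) (5 / 2) := by
          intro h
          apply hz3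
          rw [mem_closedBall_zero_iff] at h ⊢
          linarith
        filter_upwards [eventually_zero_of_notMem_closedBall hws hz4] with x hx
        rw [hx]
        ring
    filter_upwards [h1] with x hx
    refine ⟨differentiableAt_const _, ?_⟩
    rw [dbar_const, hx]
  · rw [dz_const, norm_zero]
    exact ⟨hb0, hb0⟩
  · intro z hz
    change w z * V z = 0
    rw [hws z hz, zero_mul]
  · intro z
    by_cases hz : z ∈ closedBall (0 : ℂ) (5 / 2)
    · rw [norm_mul]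
      calc ‖w z‖ * ‖V z‖ ≤ a * |M₁| := by
            gcongr
            · exact hwa z
            · exact (hM₁ z hz).trans (le_abs_self _)
        _ ≤ (|M₁| + |M₂| + 1) * a := by nlinarith [abs_nonneg M₂]
    · change ‖w z * V z‖ ≤ _
      rw [hws z hz, zero_mul, norm_zero]
      exact hb0
  · intro z
    by_cases hz : z ∈ closedBall (0 : ℂ) (5 / 2)
    · refine (norm_fderiv_mul_le (hw.differentiable one_ne_zero z)
        (hVC.differentiable one_ne_zero z)).trans ?_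
      calc ‖w z‖ * ‖fderiv ℝ V z‖ + ‖V z‖ * ‖fderiv ℝ w z‖ ≤ a * |M₂| + |M₁| * a := by
            gcongr
            · exact hwa z
            · exact (hM₂ z hz).trans (le_abs_self _)
            · exact (hM₁ z hz).trans (le_abs_self _)
            · exact hwa' z
        _ ≤ (|M₁| + |M₂| + 1) * a := by nlinarith
    · have h1 : (fun z => w z * V z) =ᶠ[𝓝 z] fun _ => 0 := by
        filter_upwards [eventually_zero_of_notMem_closedBall hws hz] with x hx
        rw [hx, zero_mul]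
      rw [h1.fderiv_eq]
      simpa using hb0

/-- **Lemma S.** -/
theorem exists_sol : ∀ δ : ℝ, 0 < δ → ∃ τ₀ : ℝ, 0 < τ₀ ∧ τ₀ ≤ 1 ∧ ∀ X : Set ℂ, IsCompact X →
    IsPreconnected Xᶜ → ∀ U : ℂ → ℂ,
    (∀ z ∈ X ∩ closedBall (0 : ℂ) 3, AnalyticAt ℂ U z ∧ ‖U z‖ ≤ τ₀ ∧ ‖deriv U z‖ ≤ 1) →
    ∀ w : ℂ → ℂ, ContDiff ℝ 1 w → (∀ z, z ∉ closedBall (0 : ℂ) (3 / 2) → w z = 0) →
      (∀ z, ‖w z‖ ≤ 1) → (∀ z, ‖fderiv ℝ w z‖ ≤ 1) → Sol X U w δ := by
  intro δ hδ
  obtain ⟨C, hC, hstep⟩ := exists_sol_step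
  have hC0 : 0 < C := by linarith
  set σ : ℝ := min (1 / (128 * C)) (δ / (12 * C)) with hσdef
  have hσ0 : 0 < σ := lt_min (by positivity) (by positivity)
  have hσ1 : 128 * C * σ ≤ 1 := by
    have := min_le_left (1 / (128 * C)) (δ / (12 * C))
    rw [← hσdef, le_div_iff₀ (by positivity)] at this
    linarith
  have hσ2 : 12 * C * σ ≤ δ := by
    have := min_le_right (1 / (128 * C)) (δ / (12 * C))
    rw [← hσdef, le_div_iff₀ (by positivity)] at this
    linarith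
  have hσ3 : σ ≤ 1 / 128 := by nlinarith
  refine ⟨σ ^ 3, by positivity, pow_le_one₀ hσ0.le (by linarith), ?_⟩
  intro X hX hXc U hU w hw hws hwa hwa'
  set τ : ℝ := σ ^ 3 with hτ
  have hτ0 : 0 ≤ τ := by positivity
  have hτ1 : τ ≤ 1 := pow_le_one₀ hσ0.le (by linarith)
  set E : ℝ := 2 * C * (σ + τ / σ ^ 2) with hE
  have hE2 : E = 4 * C * σ := by
    rw [hE, hτ]
    field_simp
    ring
  have hE0 : 0 < E := by rw [hE2]; positivity
  obtain ⟨A₀, hA₀, hbase⟩ := exists_sol_base hX U (fun z hz => (hU z hz).1)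
  have key : ∀ n j : ℕ, ∀ v : ℂ → ℂ, ContDiff ℝ 1 v →
      (∀ z, z ∉ closedBall (0 : ℂ) (5 / 2 - (1 / 2) ^ j) → v z = 0) →
      (∀ z, ‖v z‖ ≤ ((1 / 2) ^ j) ^ 5) → (∀ z, ‖fderiv ℝ v z‖ ≤ ((1 / 2) ^ j) ^ 5) →
      Sol X U v ((2 * (1 / 2) ^ j - 2 * (1 / 2) ^ (j + n)) * E +
        A₀ * ((1 / 2) ^ (j + n)) ^ 5) := by
    intro n
    induction n with
    | zero =>
      intro j v hv hvs hva hva'
      have hp : (0 : ℝ) < (1 / 2) ^ j := by positivity
      refine (hbase _ v hv (fun z hz => hvs z (fun h => hz ?_)) hva hva').mono (le_of_eq ?_)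
      · rw [mem_closedBall_zero_iff] at h ⊢
        linarith
      · rw [add_zero]
        ring
    | succ n ih =>
      intro j v hv hvs hva hva'
      set p : ℝ := (1 / 2) ^ j with hp
      have hp0 : 0 < p := by positivity
      have hp1 : p ≤ 1 := pow_le_one₀ (by norm_num) (by norm_num)
      have hp2 : (1 / 2 : ℝ) ^ (j + 1) = p / 2 := by rw [pow_succ]; ring
      have c1 : σ * p ^ 2 ≤ p / 2 := by
        have : σ * p ≤ 1 / 2 := by nlinarith
        nlinarith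
      have c2 : 128 * (σ * p ^ 2) ^ 2 ≤ p / 2 := by
        have e1 : 128 * (σ * p ^ 2) ^ 2 = 128 * σ * σ * p ^ 4 := by ring
        have e2 : 128 * σ * σ ≤ 1 / 2 := by nlinarith
        have e3 : p ^ 4 ≤ p := pow_le_of_le_one hp0.le hp1 (by norm_num)
        rw [e1]
        calc 128 * σ * σ * p ^ 4 ≤ 1 / 2 * p := by gcongr
          _ = p / 2 := by ring
      obtain ⟨v', ⟨hv1, hv2, hv3, hv4⟩, hv5⟩ := hstep X hX hXc U τ hτ0 hτ1 hU (5 / 2 - p) (p / 2)
        (σ * p ^ 2) (p ^ 5) (by linarith) (by positivity) c1 c2 (by linarith) (by linarith)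
        v hv hvs hva hva'
      have e4 : C * p ^ 5 * (σ * p ^ 2) / (p / 2) ^ 2 = 4 * C * σ * p ^ 5 := by
        field_simp
        ring
      have e5 : 4 * C * σ * p ^ 5 ≤ (p / 2) ^ 5 := by
        have : 4 * C * σ ≤ 1 / 32 := by linarith
        calc 4 * C * σ * p ^ 5 ≤ 1 / 32 * p ^ 5 := by gcongr
          _ = (p / 2) ^ 5 := by ring
      have hih := ih (j + 1) v' hv1 (fun z hz => hv2 z (by
          rw [hp2] at hz
          have : 5 / 2 - p + p / 2 = 5 / 2 - p / 2 := by ring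
          rw [this]
          exact hz))
        (fun z => (hv3 z).trans (by rw [e4, hp2]; exact e5))
        (fun z => (hv4 z).trans (by rw [e4, hp2]; exact e5))
      refine (hv5 _ hih).mono ?_
      have e6 : j + 1 + n = j + (n + 1) := by ring
      rw [hp2, e6]
      have e7 : 2 * C * p ^ 5 * (σ * p ^ 2 + τ / (σ * p ^ 2) ^ 2) ≤ p * E := by
        have e8 : 2 * C * p ^ 5 * (σ * p ^ 2 + τ / (σ * p ^ 2) ^ 2) =
            2 * C * (σ * p ^ 7 + p * (τ / σ ^ 2)) := by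
          field_simp
        rw [e8, hE]
        have e9 : p ^ 7 ≤ p := pow_le_of_le_one hp0.le hp1 (by norm_num)
        calc 2 * C * (σ * p ^ 7 + p * (τ / σ ^ 2)) ≤ 2 * C * (σ * p + p * (τ / σ ^ 2)) := by
              gcongr
          _ = p * (2 * C * (σ + τ / σ ^ 2)) := by ring
      linarith
  obtain ⟨n, hn⟩ := exists_pow_lt_of_lt_one (show 0 < E / A₀ by positivity)
    (show (1 / 2 : ℝ) < 1 by norm_num)
  have h1 := key n 0 w hw (fun z hz => hws z (by
      have : (5 / 2 - (1 / 2) ^ 0 : ℝ) = 3 / 2 := by norm_num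
      rw [this] at hz
      exact hz))
    (fun z => by simpa using hwa z) (fun z => by simpa using hwa' z)
  refine h1.mono ?_
  rw [zero_add, pow_zero]
  have hq0 : (0 : ℝ) < (1 / 2) ^ n := by positivity
  have hq1 : (1 / 2 : ℝ) ^ n ≤ 1 := pow_le_one₀ (by norm_num) (by norm_num)
  have h2 : A₀ * ((1 / 2 : ℝ) ^ n) ^ 5 ≤ E := by
    have h3 : ((1 / 2 : ℝ) ^ n) ^ 5 ≤ (1 / 2) ^ n := pow_le_of_le_one hq0.le hq1 (by norm_num)
    rw [lt_div_iff₀ hA₀] at hn
    calc A₀ * ((1 / 2 : ℝ) ^ n) ^ 5 ≤ A₀ * (1 / 2) ^ n := by gcongr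
      _ ≤ E := by linarith
  have h4 : (2 * 1 - 2 * (1 / 2 : ℝ) ^ n) * E ≤ 2 * E := by nlinarith
  calc (2 * 1 - 2 * (1 / 2 : ℝ) ^ n) * E + A₀ * ((1 / 2) ^ n) ^ 5 ≤ 2 * E + E := by linarith
    _ = 12 * C * σ := by rw [hE2]; ring
    _ ≤ δ := hσ2

end Pool.Agent.LibHelper41
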