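import Pool.Agent.Lib_helper41.AppInv

set_option autoImplicit false

namespace Pool.Agent.LibHelper41

open Polynomial Metric Set Filter Topology

variable {X : Set ℂ}

theorem one_add_mem_slit {y : ℂ} (hy : ‖y‖ < 1) : 1 + y ∈ Complex.slitPlane := by
  left
  have := Complex.abs_re_le_norm y
  rw [Complex.add_re, Complex.one_re]
  have h2 := neg_abs_le y.re
  linarith

theorem sqrt_sq (x : ℂ) : Complex.sqrt x ^ 2 = x := by
  have := Complex.cpow_nat_inv_pow x (n := 2) (by norm_num)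
  unfold Complex.sqrt
  exact_mod_cast this

theorem sqrt_re_pos {y : ℂ} (hy : ‖y‖ < 1) : 0 < (Complex.sqrt (1 + y)).re := by
  unfold Complex.sqrt
  rw [Complex.cpow_inv_two_re]
  apply Real.sqrt_pos.2
  have h1 := Complex.abs_re_le_norm y
  have h2 := neg_abs_le y.re
  have h3 : 0 < (1 + y).re := by
    rw [Complex.add_re, Complex.one_re]
    linarith
  have h4 := norm_nonneg (1 + y)
  linarith

theorem sqrt_ne_zero' {y : ℂ} (hy : ‖y‖ < 1) : Complex.sqrt (1 + y) ≠ 0 := by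
  intro h
  have := sqrt_re_pos hy
  rw [h, Complex.zero_re] at this
  exact lt_irrefl _ this

theorem sqrt_one_add_differentiableOn :
    DifferentiableOn ℂ (fun y : ℂ => Complex.sqrt (1 + y)) (ball 0 1) := by
  intro y hy
  have hy' : ‖y‖ < 1 := by simpa using hy
  exact ((Complex.differentiableAt_sqrt (one_add_mem_slit hy')).comp y
    ((differentiableAt_const _).add differentiableAt_id)).differentiableWithinAt

theorem deriv_sqrt_one_add {y : ℂ} (hy : ‖y‖ < 1) :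
    deriv (fun y : ℂ => Complex.sqrt (1 + y)) y = (2 * Complex.sqrt (1 + y))⁻¹ := by
  have hd : DifferentiableAt ℂ (fun y : ℂ => Complex.sqrt (1 + y)) y :=
    (Complex.differentiableAt_sqrt (one_add_mem_slit hy)).comp y
      ((differentiableAt_const _).add differentiableAt_id)
  have h1 : HasDerivAt (fun y : ℂ => Complex.sqrt (1 + y) ^ 2)
      (2 * Complex.sqrt (1 + y) ^ (2 - 1) * deriv (fun y : ℂ => Complex.sqrt (1 + y)) y) y := by
    have := hd.hasDerivAt.pow 2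
    exact_mod_cast this
  have h2 : HasDerivAt (fun y : ℂ => Complex.sqrt (1 + y) ^ 2) 1 y := by
    have h3 : (fun y : ℂ => Complex.sqrt (1 + y) ^ 2) = fun y => 1 + y := by
      funext y
      exact sqrt_sq _
    rw [h3]
    simpa using (hasDerivAt_id y).const_add (1 : ℂ)
  have h4 := h1.unique h2
  have h5 := sqrt_ne_zero' hy
  field_simp
  simp only [Nat.add_one_sub_one, pow_one] at h4
  linear_combination h4

/-- existence of a good branch of the square root of `(z - a) / (z - b)` -/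
def SQ (X : Set ℂ) (w₀ : ℂ) (R : ℝ) (a b : ℂ) : Prop :=
  ∃ s : ℂ → ℂ, App X s (fun z => s z * ((z - a)⁻¹ - (z - b)⁻¹) / 2) ∧
    (∀ z ∈ X, s z ^ 2 * (z - b) = z - a) ∧
    (∀ z ∈ X, 3 * R ≤ ‖z - w₀‖ → 0 < (s z).re)

theorem SQ.refl (w₀ : ℂ) (R : ℝ) (a : ℂ) : SQ X w₀ R a a := by
  refine ⟨fun _ => 1, (App.const 1).congr (fun _ _ => rfl) (fun z _ => by simp), ?_, ?_⟩
  · intro z _; simp
  · intro z _ _; simp

theorem re_pos_of_sq {s t : ℂ} (hs : 0 < s.re) (hs2 : 0 < (s ^ 2).re) (ht : 0 < t.re)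
    (ht2 : 0 < (t ^ 2).re) : 0 < (s * t).re := by
  rw [pow_two, Complex.mul_re] at hs2 ht2
  rw [Complex.mul_re]
  have h1 : |s.im| < s.re := by
    apply abs_lt_of_sq_lt_sq _ hs.le
    nlinarith
  have h2 : |t.im| < t.re := by
    apply abs_lt_of_sq_lt_sq _ ht.le
    nlinarith
  have h3 : |s.im * t.im| < s.re * t.re := by
    rw [abs_mul]
    exact mul_lt_mul'' h1 h2 (abs_nonneg _) (abs_nonneg _)
  have h4 := le_abs_self (s.im * t.im)
  linarith

theorem re_pos_div {w₀ a b z : ℂ} {R : ℝ} (ha : ‖a - w₀‖ < R) (hb : ‖b - w₀‖ < R)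
    (hz : 3 * R ≤ ‖z - w₀‖) : 0 < ((z - a) / (z - b)).re := by
  have h1 : ‖b - a‖ < 2 * R := by
    calc ‖b - a‖ = ‖(b - w₀) - (a - w₀)‖ := by ring_nf
      _ ≤ ‖b - w₀‖ + ‖a - w₀‖ := norm_sub_le _ _
      _ < 2 * R := by linarith
  have h2 : 2 * R < ‖z - b‖ := by
    have : ‖z - w₀‖ ≤ ‖z - b‖ + ‖b - w₀‖ := by
      calc ‖z - w₀‖ = ‖(z - b) + (b - w₀)‖ := by ring_nf
        _ ≤ _ := norm_add_le _ _
    linarith
  have hR : 0 < R := lt_of_le_of_lt (norm_nonneg _) ha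
  have h3 : z - b ≠ 0 := by
    intro h
    rw [h, norm_zero] at h2
    linarith
  have h4 : (z - a) / (z - b) = 1 + (b - a) / (z - b) := by
    field_simp
    ring
  rw [h4, Complex.add_re, Complex.one_re]
  have h5 : ‖(b - a) / (z - b)‖ < 1 := by
    rw [norm_div, div_lt_one (by linarith)]
    linarith
  have h6 := Complex.abs_re_le_norm ((b - a) / (z - b))
  have h7 := neg_abs_le ((b - a) / (z - b)).re
  linarith

theorem SQ.step (hX : IsCompact X) (hc : IsPreconnected Xᶜ) {w₀ : ℂ} {R : ℝ} {a c b : ℂ}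
    (haX : a ∉ X) (hcX : c ∉ X) (hbX : b ∉ X)
    (ha : ‖a - w₀‖ < R) (hcR : ‖c - w₀‖ < R)
    (hcb : ∀ z ∈ X, ‖b - c‖ ≤ (1 / 2) * ‖z - b‖) (h : SQ X w₀ R a c) : SQ X w₀ R a b := by
  obtain ⟨s, hs1, hs2, hs3⟩ := h
  have hza : ∀ z ∈ X, z - a ≠ 0 := fun z hz h => haX (by
    have : z = a := by linear_combination h
    rwa [this] at hz)
  have hzc : ∀ z ∈ X, z - c ≠ 0 := fun z hz h => hcX (by
    have : z = c := by linear_combination h
    rwa [this] at hz)
  have hzb : ∀ z ∈ X, z - b ≠ 0 := fun z hz h => hbX (by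
    have : z = b := by linear_combination h
    rwa [this] at hz)
  have hg : ∀ z ∈ X, ‖(b - c) * (z - b)⁻¹‖ ≤ 1 / 2 := by
    intro z hz
    have h0 : 0 < ‖z - b‖ := norm_pos_iff.2 (hzb z hz)
    rw [norm_mul, norm_inv, ← div_eq_mul_inv, div_le_iff₀ h0]
    exact hcb z hz
  have hg1 : ∀ z ∈ X, ‖(b - c) * (z - b)⁻¹‖ < 1 := fun z hz =>
    lt_of_le_of_lt (hg z hz) (by norm_num)
  have h1 := ((App.inv_sub hX hc hbX).const_mul hX (b - c)).comp_analytic hX _
    sqrt_one_add_differentiableOn (1 / 2) (by norm_num) hg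
  have ht2 : ∀ z ∈ X, Complex.sqrt (1 + (b - c) * (z - b)⁻¹) ^ 2 * (z - b) = z - c := by
    intro z hz
    rw [sqrt_sq]
    have := hzb z hz
    field_simp
    ring
  refine ⟨fun z => s z * Complex.sqrt (1 + (b - c) * (z - b)⁻¹),
    (hs1.mul hX h1).congr (fun z _ => rfl) (fun z hz => ?_), fun z hz => ?_, fun z hz hzR => ?_⟩
  · rw [deriv_sqrt_one_add (hg1 z hz)]
    have e1 := hza z hz
    have e2 := hzb z hz
    have e3 := hzc z hz
    have e4 := sqrt_ne_zero' (hg1 z hz)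
    have e5 := ht2 z hz
    set t := Complex.sqrt (1 + (b - c) * (z - b)⁻¹) with ht
    have key : (2 * t)⁻¹ * ((b - c) * -((z - b)⁻¹) ^ 2) =
        t * ((z - c)⁻¹ - (z - b)⁻¹) / 2 := by
      field_simp
      linear_combination (b - c) * e5
    rw [key]
    ring
  · rw [mul_pow]
    calc s z ^ 2 * Complex.sqrt (1 + (b - c) * (z - b)⁻¹) ^ 2 * (z - b)
        = s z ^ 2 * (Complex.sqrt (1 + (b - c) * (z - b)⁻¹) ^ 2 * (z - b)) := by ring
      _ = s z ^ 2 * (z - c) := by rw [ht2 z hz]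
      _ = z - a := hs2 z hz
  · apply re_pos_of_sq (hs3 z hz hzR) _ (sqrt_re_pos (hg1 z hz))
    · rw [sqrt_sq]
      have h6 := Complex.abs_re_le_norm ((b - c) * (z - b)⁻¹)
      have h7 := neg_abs_le ((b - c) * (z - b)⁻¹).re
      rw [Complex.add_re, Complex.one_re]
      linarith [hg z hz]
    · have h8 : s z ^ 2 = (z - a) / (z - c) := by
        rw [eq_div_iff (hzc z hz)]
        exact hs2 z hz
      rw [h8]
      exact re_pos_div ha hcR hzR

/-- there is a good branch reaching distance `R₁` from the centre -/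
theorem exists_SQ (hX : IsCompact X) (hc : IsPreconnected Xᶜ) {w₀ a : ℂ} {R₁ R : ℝ}
    (hR : R₁ < R) (haX : a ∉ X) (ha : ‖a - w₀‖ < R) :
    ∃ b, b ∉ X ∧ R₁ ≤ ‖b - w₀‖ ∧ ‖b - w₀‖ < R ∧ SQ X w₀ R a b := by
  by_contra hcon
  push Not at hcon
  obtain ⟨M, hM⟩ := hX.isBounded.exists_norm_le
  set c : ℂ := ((|M| + ‖w₀‖ + |R| + 1 : ℝ) : ℂ) with hcdef
  have hc0 : ‖c‖ = |M| + ‖w₀‖ + |R| + 1 := by
    rw [hcdef, Complex.norm_real, Real.norm_eq_abs, abs_of_nonneg (by positivity)]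
  have hcX : c ∈ Xᶜ := by
    intro h
    have := hM c h
    rw [hc0] at this
    linarith [le_abs_self M, norm_nonneg w₀, abs_nonneg R]
  let U : Set ℂ := {y | y ∉ X ∧ ‖y - w₀‖ < R ∧ SQ X w₀ R a y}
  have key : a ∈ U → c ∈ U := by
    refine hc.induction₂' (fun x y => x ∈ U → y ∈ U) ?_ (fun x y z _ _ _ h1 h2 h => h2 (h1 h))
      haX hcX
    intro x hx
    have hopen : IsOpen Xᶜ := hX.isClosed.isOpen_compl
    obtain ⟨δ, hδ, hball⟩ := Metric.isOpen_iff.1 hopen x hx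
    have hdist : ∀ z ∈ X, δ ≤ ‖z - x‖ := by
      intro z hz
      by_contra h
      push Not at h
      exact hball (by rwa [mem_ball, dist_eq_norm]) hz
    have hmem : ball x (min (δ / 4) (R - R₁)) ∈ 𝓝[Xᶜ] x :=
      mem_nhdsWithin_of_mem_nhds (ball_mem_nhds x (lt_min (by positivity) (by linarith)))
    filter_upwards [hmem, self_mem_nhdsWithin] with y hy hyX
    rw [mem_ball, dist_eq_norm, lt_min_iff] at hy
    have h3 : ∀ z ∈ X, δ / 2 ≤ ‖z - y‖ := by
      intro z hz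
      have h4 : ‖z - x‖ ≤ ‖z - y‖ + ‖y - x‖ := by
        calc ‖z - x‖ = ‖(z - y) + (y - x)‖ := by ring_nf
          _ ≤ _ := norm_add_le _ _
      linarith [hdist z hz]
    constructor
    · rintro ⟨hx1, hx2, hx3⟩
      have hx4 : ‖x - w₀‖ < R₁ := by
        by_contra h
        push Not at h
        exact hcon x hx1 h hx2 hx3
      have hy2 : ‖y - w₀‖ < R := by
        calc ‖y - w₀‖ = ‖(y - x) + (x - w₀)‖ := by ring_nf
          _ ≤ ‖y - x‖ + ‖x - w₀‖ := norm_add_le _ _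
          _ < R := by linarith [hy.2]
      refine ⟨hyX, hy2, SQ.step hX hc haX hx1 hyX ha hx2 (fun z hz => ?_) hx3⟩
      linarith [h3 z hz, hy.1]
    · rintro ⟨hy1, hy2, hy3⟩
      have hy4 : ‖y - w₀‖ < R₁ := by
        by_contra h
        push Not at h
        exact hcon y hy1 h hy2 hy3
      have hx2 : ‖x - w₀‖ < R := by
        calc ‖x - w₀‖ = ‖(y - w₀) - (y - x)‖ := by ring_nf
          _ ≤ ‖y - w₀‖ + ‖y - x‖ := norm_sub_le _ _
          _ < R := by linarith [hy.2]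
      refine ⟨hx, hx2, SQ.step hX hc haX hy1 hx ha hy2 (fun z hz => ?_) hy3⟩
      rw [norm_sub_rev]
      linarith [hdist z hz, hy.1]
  obtain ⟨_, h2, _⟩ := key ⟨haX, ha, SQ.refl w₀ R a⟩
  have h3 : ‖c‖ ≤ ‖c - w₀‖ + ‖w₀‖ := by
    calc ‖c‖ = ‖(c - w₀) + w₀‖ := by ring_nf
      _ ≤ _ := norm_add_le _ _
  rw [hc0] at h3
  linarith [le_abs_self R, abs_nonneg M, norm_nonneg w₀]

end Pool.Agent.LibHelper41
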