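import Pool.Agent.Lib_helper41.CauchyT

set_option autoImplicit false

namespace Pool.Agent.LibHelper41

open Metric Set Filter Topology Complex

variable {u v : ℂ → ℂ} {x : ℂ}

theorem dbar_add (hu : DifferentiableAt ℝ u x) (hv : DifferentiableAt ℝ v x) :
    dbar (fun z => u z + v z) x = dbar u x + dbar v x := by
  unfold dbar
  rw [fderiv_fun_add hu hv]
  simp only [add_apply]
  ring

theorem dz_add (hu : DifferentiableAt ℝ u x) (hv : DifferentiableAt ℝ v x) :
    dz (fun z => u z + v z) x = dz u x + dz v x := by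
  unfold dz
  rw [fderiv_fun_add hu hv]
  simp only [add_apply]
  ring

theorem dbar_sub (hu : DifferentiableAt ℝ u x) (hv : DifferentiableAt ℝ v x) :
    dbar (fun z => u z - v z) x = dbar u x - dbar v x := by
  unfold dbar
  rw [fderiv_fun_sub hu hv]
  simp only [sub_apply]
  ring

theorem dz_sub (hu : DifferentiableAt ℝ u x) (hv : DifferentiableAt ℝ v x) :
    dz (fun z => u z - v z) x = dz u x - dz v x := by
  unfold dz
  rw [fderiv_fun_sub hu hv]
  simp only [sub_apply]
  ring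

theorem dbar_mul (hu : DifferentiableAt ℝ u x) (hv : DifferentiableAt ℝ v x) :
    dbar (fun z => u z * v z) x = dbar u x * v x + u x * dbar v x := by
  unfold dbar
  rw [fderiv_fun_mul hu hv]
  simp only [add_apply, smul_apply, smul_eq_mul]
  ring

theorem dz_mul (hu : DifferentiableAt ℝ u x) (hv : DifferentiableAt ℝ v x) :
    dz (fun z => u z * v z) x = dz u x * v x + u x * dz v x := by
  unfold dz
  rw [fderiv_fun_mul hu hv]
  simp only [add_apply, smul_apply, smul_eq_mul]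
  ring

theorem dbar_const (c : ℂ) : dbar (fun _ => c) x = 0 := by
  unfold dbar
  simp

theorem dz_const (c : ℂ) : dz (fun _ => c) x = 0 := by
  unfold dz
  simp

theorem dbar_const_mul (c : ℂ) (hu : DifferentiableAt ℝ u x) :
    dbar (fun z => c * u z) x = c * dbar u x := by
  rw [dbar_mul (differentiableAt_const c) hu, dbar_const]
  ring

theorem dz_const_mul (c : ℂ) (hu : DifferentiableAt ℝ u x) :
    dz (fun z => c * u z) x = c * dz u x := by
  rw [dz_mul (differentiableAt_const c) hu, dz_const]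
  ring

theorem dbar_sum {ι : Type*} (s : Finset ι) {F : ι → ℂ → ℂ}
    (h : ∀ i ∈ s, DifferentiableAt ℝ (F i) x) :
    dbar (fun z => ∑ i ∈ s, F i z) x = ∑ i ∈ s, dbar (F i) x := by
  unfold dbar
  rw [fderiv_fun_sum h]
  simp only [sum_apply]
  rw [Finset.mul_sum, ← Finset.sum_add_distrib, Finset.sum_div]

theorem dz_sum {ι : Type*} (s : Finset ι) {F : ι → ℂ → ℂ}
    (h : ∀ i ∈ s, DifferentiableAt ℝ (F i) x) :
    dz (fun z => ∑ i ∈ s, F i z) x = ∑ i ∈ s, dz (F i) x := by
  unfold dz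
  rw [fderiv_fun_sum h]
  simp only [sum_apply]
  rw [Finset.mul_sum, ← Finset.sum_sub_distrib, Finset.sum_div]

theorem dbar_congr (h : u =ᶠ[𝓝 x] v) : dbar u x = dbar v x := by
  unfold dbar
  rw [h.fderiv_eq]

theorem dz_congr (h : u =ᶠ[𝓝 x] v) : dz u x = dz v x := by
  unfold dz
  rw [h.fderiv_eq]

theorem fderiv_real_of_complex (hu : DifferentiableAt ℂ u x) (w : ℂ) :
    fderiv ℝ u x w = deriv u x * w := by
  have h := hu.hasDerivAt.hasFDerivAt.restrictScalars ℝ
  rw [h.fderiv]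
  simp [mul_comm]

theorem dbar_of_complex (hu : DifferentiableAt ℂ u x) : dbar u x = 0 := by
  unfold dbar
  rw [fderiv_real_of_complex hu, fderiv_real_of_complex hu]
  linear_combination (deriv u x / 2) * I_sq

theorem dz_of_complex (hu : DifferentiableAt ℂ u x) : dz u x = deriv u x := by
  unfold dz
  rw [fderiv_real_of_complex hu, fderiv_real_of_complex hu]
  linear_combination (-deriv u x / 2) * I_sq

theorem complex_of_dbar (hu : DifferentiableAt ℝ u x) (h : dbar u x = 0) :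
    DifferentiableAt ℂ u x := by
  rw [differentiableAt_iff_restrictScalars ℝ hu]
  refine ⟨ContinuousLinearMap.toSpanSingleton ℂ (fderiv ℝ u x 1), ?_⟩
  ext w
  rw [real_linear_expand (fderiv ℝ u x) w]
  unfold dbar at h
  have h2 : fderiv ℝ u x I = I * fderiv ℝ u x 1 := by
    have h3 : fderiv ℝ u x 1 + I * fderiv ℝ u x I = 0 := by
      have := h
      field_simp at this
      simpa using this
    linear_combination (-I) * h3 + (fderiv ℝ u x I) * I_sq
  simp only [ContinuousLinearMap.coe_restrictScalars', ContinuousLinearMap.toSpanSingleton_apply,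
    smul_eq_mul]
  rw [h2]
  conv_lhs => rw [← Complex.re_add_im w]
  ring

theorem norm_dbar_le : ‖dbar u x‖ ≤ ‖fderiv ℝ u x‖ := by
  unfold dbar
  rw [norm_div]
  simp only [Complex.norm_ofNat]
  rw [div_le_iff₀ (by norm_num)]
  have h1 := (fderiv ℝ u x).le_opNorm 1
  have h2 := (fderiv ℝ u x).le_opNorm I
  rw [norm_one, mul_one] at h1
  rw [Complex.norm_I, mul_one] at h2
  calc _ ≤ ‖fderiv ℝ u x 1‖ + ‖I * fderiv ℝ u x I‖ := norm_add_le _ _
    _ = ‖fderiv ℝ u x 1‖ + ‖fderiv ℝ u x I‖ := by rw [norm_mul, Complex.norm_I, one_mul]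
    _ ≤ _ := by linarith

theorem norm_dz_le : ‖dz u x‖ ≤ ‖fderiv ℝ u x‖ := by
  unfold dz
  rw [norm_div]
  simp only [Complex.norm_ofNat]
  rw [div_le_iff₀ (by norm_num)]
  have h1 := (fderiv ℝ u x).le_opNorm 1
  have h2 := (fderiv ℝ u x).le_opNorm I
  rw [norm_one, mul_one] at h1
  rw [Complex.norm_I, mul_one] at h2
  calc _ ≤ ‖fderiv ℝ u x 1‖ + ‖I * fderiv ℝ u x I‖ := norm_sub_le _ _
    _ = ‖fderiv ℝ u x 1‖ + ‖fderiv ℝ u x I‖ := by rw [norm_mul, Complex.norm_I, one_mul]
    _ ≤ _ := by linarith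

theorem fderiv_expand (w : ℂ) :
    fderiv ℝ u x w = dz u x * w + dbar u x * (starRingEnd ℂ) w := by
  rw [real_linear_expand (fderiv ℝ u x) w]
  unfold dz dbar
  have h1 : (w.re : ℂ) = (w + (starRingEnd ℂ) w) / 2 := by
    rw [Complex.add_conj]; push_cast; ring
  have h2 : (w.im : ℂ) = -I * (w - (starRingEnd ℂ) w) / 2 := by
    rw [Complex.sub_conj]
    push_cast
    linear_combination (w.im : ℂ) * I_sq
  rw [h1, h2]
  ring

/-- composition with an affine map -/
theorem fderiv_comp_affine (s : ℝ) (p x : ℂ) (w : ℂ)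
    (hu : DifferentiableAt ℝ u ((s : ℂ) * x + p)) :
    fderiv ℝ (fun z => u (s * z + p)) x w = s * fderiv ℝ u (s * x + p) w := by
  have h1 : HasFDerivAt (fun z : ℂ => (s : ℂ) * z + p) (s • ContinuousLinearMap.id ℝ ℂ) x := by
    have : (fun z : ℂ => (s : ℂ) * z + p) = fun z => s • z + p := by
      funext z
      simp
    rw [this]
    exact ((hasFDerivAt_id x).const_smul s).add_const p
  have h2 := hu.hasFDerivAt.comp x h1
  have h3 : fderiv ℝ (fun z => u (s * z + p)) x =
      (fderiv ℝ u (s * x + p)).comp (s • ContinuousLinearMap.id ℝ ℂ) := h2.fderiv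
  rw [h3]
  simp

theorem differentiableAt_comp_affine (s : ℝ) (p x : ℂ)
    (hu : DifferentiableAt ℝ u ((s : ℂ) * x + p)) :
    DifferentiableAt ℝ (fun z => u (s * z + p)) x := by
  have h1 : DifferentiableAt ℝ (fun z : ℂ => (s : ℂ) * z + p) x := by fun_prop
  exact DifferentiableAt.comp x hu h1

theorem dbar_comp_affine (s : ℝ) (p x : ℂ) (hu : DifferentiableAt ℝ u ((s : ℂ) * x + p)) :
    dbar (fun z => u (s * z + p)) x = s * dbar u (s * x + p) := by
  unfold dbar
  rw [fderiv_comp_affine s p x _ hu, fderiv_comp_affine s p x _ hu]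
  ring

theorem dz_comp_affine (s : ℝ) (p x : ℂ) (hu : DifferentiableAt ℝ u ((s : ℂ) * x + p)) :
    dz (fun z => u (s * z + p)) x = s * dz u (s * x + p) := by
  unfold dz
  rw [fderiv_comp_affine s p x _ hu, fderiv_comp_affine s p x _ hu]
  ring

/-- near every point of `W`, the function `v` is real differentiable with `∂v/∂z̄ = κ` -/
def Src (W : Set ℂ) (v κ : ℂ → ℂ) : Prop :=
  ∀ z ∈ W, ∀ᶠ x in 𝓝 z, DifferentiableAt ℝ v x ∧ dbar v x = κ x

variable {W W' : Set ℂ} {κ κ' : ℂ → ℂ}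

theorem Src.mono (h : Src W v κ) (hW : W' ⊆ W) : Src W' v κ := fun z hz => h z (hW hz)

theorem Src.differentiableAt (h : Src W v κ) {z : ℂ} (hz : z ∈ W) : DifferentiableAt ℝ v z :=
  (h z hz).self_of_nhds.1

theorem Src.analyticAt (h : Src W v κ) {z : ℂ} (hz : z ∈ W) (h0 : ∀ᶠ x in 𝓝 z, κ x = 0) :
    AnalyticAt ℂ v z := by
  rw [analyticAt_iff_eventually_differentiableAt]
  filter_upwards [h z hz, h0] with x hx hx0
  exact complex_of_dbar hx.1 (by rw [hx.2, hx0])

theorem src_of_analytic (h : ∀ z ∈ W, AnalyticAt ℂ v z) : Src W v (fun _ => 0) := by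
  intro z hz
  have := analyticAt_iff_eventually_differentiableAt.1 (h z hz)
  filter_upwards [this] with x hx
  exact ⟨hx.restrictScalars ℝ, dbar_of_complex hx⟩

theorem Src.congr (h : Src W v κ) (hκ : ∀ z ∈ W, ∀ᶠ x in 𝓝 z, κ x = κ' x) : Src W v κ' := by
  intro z hz
  filter_upwards [h z hz, hκ z hz] with x hx hx2
  exact ⟨hx.1, by rw [hx.2, hx2]⟩

theorem Src.add (h : Src W v κ) (h' : Src W u κ') :
    Src W (fun z => v z + u z) (fun z => κ z + κ' z) := by
  intro z hz
  filter_upwards [h z hz, h' z hz] with x hx hx2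
  exact ⟨hx.1.add hx2.1, by rw [dbar_add hx.1 hx2.1, hx.2, hx2.2]⟩

theorem Src.sub (h : Src W v κ) (h' : Src W u κ') :
    Src W (fun z => v z - u z) (fun z => κ z - κ' z) := by
  intro z hz
  filter_upwards [h z hz, h' z hz] with x hx hx2
  exact ⟨hx.1.sub hx2.1, by rw [dbar_sub hx.1 hx2.1, hx.2, hx2.2]⟩

theorem Src.const_mul (c : ℂ) (h : Src W v κ) :
    Src W (fun z => c * v z) (fun z => c * κ z) := by
  intro z hz
  filter_upwards [h z hz] with x hx
  exact ⟨hx.1.const_mul c, by rw [dbar_const_mul c hx.1, hx.2]⟩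

theorem Src.sum {ι : Type*} (s : Finset ι) {F K : ι → ℂ → ℂ} (h : ∀ i ∈ s, Src W (F i) (K i)) :
    Src W (fun z => ∑ i ∈ s, F i z) (fun z => ∑ i ∈ s, K i z) := by
  intro z hz
  have : ∀ i ∈ s, ∀ᶠ x in 𝓝 z, DifferentiableAt ℝ (F i) x ∧ dbar (F i) x = K i x :=
    fun i hi => h i hi z hz
  rw [← Filter.eventually_all_finset] at this
  filter_upwards [this] with x hx
  refine ⟨DifferentiableAt.fun_sum (fun i hi => (hx i hi).1), ?_⟩
  rw [dbar_sum s (fun i hi => (hx i hi).1)]
  exact Finset.sum_congr rfl (fun i hi => (hx i hi).2)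

theorem Src.mul (h : Src W v κ) (h' : Src W u κ') :
    Src W (fun z => v z * u z) (fun z => κ z * u z + v z * κ' z) := by
  intro z hz
  filter_upwards [h z hz, h' z hz] with x hx hx2
  exact ⟨hx.1.mul hx2.1, by rw [dbar_mul hx.1 hx2.1, hx.2, hx2.2]⟩

theorem src_of_contDiff (h : ContDiff ℝ 1 v) : Src W v (dbar v) := by
  intro z _
  exact Eventually.of_forall (fun x => ⟨h.differentiable one_ne_zero x, rfl⟩)

theorem src_CT {g : ℂ → ℂ} (hg : ContDiff ℝ 1 g) (hc : HasCompactSupport g) : Src W (CT g) g := by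
  intro z _
  exact Eventually.of_forall (fun x => ⟨CT_differentiableAt hg hc x, dbar_CT hg hc x⟩)

/-- derivative bound of the Cauchy transform -/
theorem exists_CT_bound' (R : ℝ) : ∃ C : ℝ, 0 < C ∧ ∀ (g : ℂ → ℂ) (p : ℂ) (A : ℝ),
    ContDiff ℝ 1 g → (∀ w, w ∉ closedBall p R → g w = 0) → (∀ w, ‖fderiv ℝ g w‖ ≤ A) →
    ∀ z, ‖dz (CT g) z‖ ≤ C * A := by
  obtain ⟨C, hC, h⟩ := exists_CT_bound R
  refine ⟨C, hC, fun g p A hg hsupp hA z => ?_⟩
  have hc : HasCompactSupport g := HasCompactSupport.intro (isCompact_closedBall p R) hsupp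
  have ht : tsupport g ⊆ closedBall p R := by
    refine closure_minimal ?_ isClosed_closedBall
    intro w hw
    by_contra h
    exact hw (hsupp w h)
  refine dz_CT_norm_le z (fun v hv => ?_)
  rw [fderiv_CT hg hc]
  refine h _ p A (fun w hw => ?_) (fun w => ?_) z
  · have h1 : fderiv ℝ g w = 0 :=
      image_eq_zero_of_notMem_tsupport (fun h => hw (ht (tsupport_fderiv_subset ℝ h)))
    rw [h1]
    rfl
  · calc ‖fderiv ℝ g w v‖ ≤ ‖fderiv ℝ g w‖ * ‖v‖ := (fderiv ℝ g w).le_opNorm v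
      _ ≤ ‖fderiv ℝ g w‖ * 1 := by gcongr
      _ ≤ A := by rw [mul_one]; exact hA w

end Pool.Agent.LibHelper41
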